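import Mathlib

set_option autoImplicit false

/-! Fitting height and commutator laws, part M1: this file joins several modules to save build time. -/

section S_Defs

/-!
# Commutator exponent laws and Fitting height: definitions
-/

namespace H60SH

open Module
open scoped commutatorElement

universe u

/-- The commutant of an endomorphism. -/
def Cm {K L : Type*} [Field K] [AddCommGroup L] [Module K L] (N : Module.End K L) :
    Submodule K (Module.End K L) where
  carrier := {A | A * N = N * A}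
  add_mem' := by
    intro a b ha hb
    change (a + b) * N = N * (a + b)
    change a * N = N * a at ha
    change b * N = N * b at hb
    rw [add_mul, mul_add, ha, hb]
  zero_mem' := by
    change (0 : Module.End K L) * N = N * 0
    simp
  smul_mem' := by
    intro c a ha
    change (c • a) * N = N * (c • a)
    change a * N = N * a at ha
    rw [smul_mul_assoc, mul_smul_comm, ha]

theorem mem_Cm {K L : Type*} [Field K] [AddCommGroup L] [Module K L] {N A : Module.End K L} :
    A ∈ Cm N ↔ A * N = N * A := Iff.rfl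

/-- The commutant of a representation. -/
def E0 {K A L : Type*} [Field K] [Group A] [AddCommGroup L] [Module K L]
    (ρ : Representation K A L) : Submodule K (Module.End K L) where
  carrier := {T | ∀ g, T * ρ g = ρ g * T}
  add_mem' := by
    intro a b ha hb g
    have h1 := ha g
    have h2 := hb g
    rw [add_mul, mul_add, h1, h2]
  zero_mem' := by
    intro g
    simp
  smul_mem' := by
    intro c a ha g
    have h1 := ha g
    rw [smul_mul_assoc, mul_smul_comm, h1]

theorem mem_E0 {K A L : Type*} [Field K] [Group A] [AddCommGroup L] [Module K L]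
    {ρ : Representation K A L} {T : Module.End K L} :
    T ∈ E0 ρ ↔ ∀ g, T * ρ g = ρ g * T := Iff.rfl

/-- A Heisenberg type action: `A` is a group acting on `L`, `π : A → W` is a surjective
homomorphism to an additive group whose kernel acts by scalars, the commutators act by the
scalars `β`, and `β` is nondegenerate. -/
structure Heis {K A W L : Type*} [Field K] [Group A] [AddCommGroup W] [AddCommGroup L]
    [Module K L] (π : A → W) (ρ : Representation K A L) (β : W → W → K) : Prop where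
  surj : Function.Surjective π
  add : ∀ g h, π (g * h) = π g + π h
  sc : ∀ g, π g = 0 → ∃ c : K, ρ g = c • (1 : Module.End K L)
  comm : ∀ g h, ρ g * ρ h = β (π g) (π h) • (ρ h * ρ g)
  nd : ∀ w, w ≠ 0 → ∃ w', β w w' ≠ 1

/-- The standing data: a `p`-group `F` acts on everything in a Heisenberg type action, where `W`
has exponent `q`. -/
structure Sys {K V F A W : Type*} [Field K] [AddCommGroup V] [Module K V] [Group F] [Group A]
    [MulDistribMulAction F A] [AddCommGroup W] [DistribMulAction F W] (p q : ℕ)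
    (π : A → W) (ρA : Representation K A V) (β : W → W → K) (ρF : Representation K F V) :
    Prop where
  heis : Heis π ρA β
  hF : IsPGroup p F
  hW : ∀ w : W, q • w = 0
  hπ : ∀ (f : F) (g : A), π (f • g) = f • π g
  hρ : ∀ (f : F) (g : A), ρF f * ρA g = ρA (f • g) * ρF f

/-- A pair `(X, U)`: `X` is a nondegenerate subgroup of `W` and `U` is a nonzero subspace invariant
under the preimage of `X`. -/
structure SubSys {K V A W : Type*} [Field K] [AddCommGroup V] [Module K V] [Group A]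
    [AddCommGroup W] (π : A → W) (ρA : Representation K A V) (β : W → W → K)
    (X : AddSubgroup W) (U : Submodule K V) : Prop where
  ne : U ≠ ⊥
  nd : ∀ w ∈ X, w ≠ 0 → ∃ w' ∈ X, β w w' ≠ 1
  act : ∀ g, π g ∈ X → ∀ v ∈ U, ρA g v ∈ U

/-- All commutators of elements of a common `p`-subgroup have order dividing `p ^ k`. -/
def Pk (p k : ℕ) (G : Type*) [Group G] : Prop :=
  ∀ H : Subgroup G, IsPGroup p H → ∀ a ∈ H, ∀ b ∈ H, ⁅a, b⁆ ^ (p ^ k) = 1

/-- The elements `[a,b] ^ (p ^ (k-1))`, with all entries in a common `p`-subgroup, commute. -/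
def Ck (p k : ℕ) (G : Type*) [Group G] : Prop :=
  ∀ H : Subgroup G, IsPGroup p H → ∀ a ∈ H, ∀ b ∈ H, ∀ c ∈ H, ∀ d ∈ H,
    Commute (⁅a, b⁆ ^ (p ^ (k - 1))) (⁅c, d⁆ ^ (p ^ (k - 1)))

/-- `PL p m G`: `G` has a series with `m` factors, each a `p`-group or a `p'`-group. -/
inductive PL (p : ℕ) : ℕ → (G : Type u) → [Group G] → Prop
  | triv (G : Type u) [Group G] [Subsingleton G] : PL p 0 G
  | step (m : ℕ) (G : Type u) [Group G] (N : Subgroup G) [N.Normal]
      (h : IsPGroup p N ∨ (Nat.card N).Coprime p) (hq : PL p m (G ⧸ N)) : PL p (m + 1) G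

end H60SH

end S_Defs

section S_HEIS

namespace H60SH

open Module

section basic

variable {K A W L : Type*} [Field K] [Group A] [AddCommGroup W] [AddCommGroup L] [Module K L]
  {π : A → W} {ρ : Representation K A L} {β : W → W → K}

theorem Heis.map_one (h : Heis π ρ β) : π 1 = 0 := by
  have h1 := h.add 1 1
  rw [mul_one] at h1
  exact left_eq_add.1 h1

theorem Heis.map_inv (h : Heis π ρ β) (g : A) : π g⁻¹ = - π g := by
  have h1 := h.add g⁻¹ g
  rw [inv_mul_cancel, h.map_one] at h1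
  exact eq_neg_of_add_eq_zero_left h1.symm

/-- the operators of a representation are injective -/
theorem rho_injective (ρ : Representation K A L) (g : A) : Function.Injective (ρ g) := by
  intro v w hvw
  have h1 : ρ g⁻¹ (ρ g v) = ρ g⁻¹ (ρ g w) := by rw [hvw]
  rw [← Module.End.mul_apply, ← Module.End.mul_apply, ← _root_.map_mul, inv_mul_cancel,
    _root_.map_one] at h1
  exact h1

theorem smul_rho_cancel [Nontrivial L] (ρ : Representation K A L) (g : A) {c c' : K}
    (h : c • ρ g = c' • ρ g) : c = c' := by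
  obtain ⟨v, hv⟩ := exists_ne (0 : L)
  have h1 : ρ g v ≠ 0 := by
    intro h0
    exact hv (rho_injective ρ g (by rw [h0, _root_.map_zero]))
  have h2 : c • ρ g v = c' • ρ g v := by
    have := congrArg (fun T : Module.End K L => T v) h
    simpa using this
  exact smul_left_injective K h1 h2

theorem Heis.comm' (h : Heis π ρ β) (g g' : A) :
    ρ (g * g') = β (π g) (π g') • ρ (g' * g) := by
  rw [_root_.map_mul, _root_.map_mul, h.comm]

theorem Heis.beta_ne [Nontrivial L] (h : Heis π ρ β) (u v : W) : β u v ≠ 0 := by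
  intro h0
  obtain ⟨g, rfl⟩ := h.surj u
  obtain ⟨g', rfl⟩ := h.surj v
  have h1 := h.comm' g g'
  rw [h0, zero_smul] at h1
  obtain ⟨v, hv⟩ := exists_ne (0 : L)
  apply hv
  apply rho_injective ρ (g * g')
  rw [h1, _root_.map_zero, LinearMap.zero_apply]

theorem Heis.beta_add_left [Nontrivial L] (h : Heis π ρ β) (u u' v : W) :
    β (u + u') v = β u v * β u' v := by
  obtain ⟨g, rfl⟩ := h.surj u
  obtain ⟨g', rfl⟩ := h.surj u'
  obtain ⟨k, rfl⟩ := h.surj v
  apply smul_rho_cancel ρ (k * (g * g'))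
  rw [← h.add, ← h.comm']
  have e1 : ρ (g * g' * k) = ρ g * ρ (g' * k) := by rw [mul_assoc, _root_.map_mul]
  have e2 : ρ (g' * k) = β (π g') (π k) • (ρ k * ρ g') := by rw [h.comm', _root_.map_mul]
  have e3 : ρ g * (ρ k * ρ g') = β (π g) (π k) • ρ (k * (g * g')) := by
    rw [← mul_assoc, ← _root_.map_mul, h.comm', smul_mul_assoc, ← _root_.map_mul, mul_assoc]
  rw [e1, e2, mul_smul_comm, e3, smul_smul, mul_comm]

theorem Heis.beta_swap [Nontrivial L] (h : Heis π ρ β) (u v : W) : β u v * β v u = 1 := by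
  obtain ⟨g, rfl⟩ := h.surj u
  obtain ⟨k, rfl⟩ := h.surj v
  apply smul_rho_cancel ρ (g * k)
  rw [← smul_smul, ← h.comm', ← h.comm', one_smul]

theorem Heis.beta_add_right [Nontrivial L] (h : Heis π ρ β) (u v v' : W) :
    β u (v + v') = β u v * β u v' := by
  have h1 : ∀ x y, β x y = (β y x)⁻¹ := fun x y => eq_inv_of_mul_eq_one_left (h.beta_swap x y)
  rw [h1 u (v + v'), h1 u v, h1 u v', h.beta_add_left, mul_inv]

theorem Heis.beta_zero_left [Nontrivial L] (h : Heis π ρ β) (v : W) : β 0 v = 1 := by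
  have h1 := h.beta_add_left 0 0 v
  rw [add_zero] at h1
  have h2 := h.beta_ne 0 v
  field_simp at h1
  exact h1.symm

theorem Heis.beta_zero_right [Nontrivial L] (h : Heis π ρ β) (v : W) : β v 0 = 1 := by
  have h1 := h.beta_swap v 0
  rw [h.beta_zero_left, mul_one] at h1
  exact h1

theorem Heis.beta_neg_right [Nontrivial L] (h : Heis π ρ β) (u v : W) :
    β u (-v) = (β u v)⁻¹ := by
  apply eq_inv_of_mul_eq_one_left
  rw [← h.beta_add_right, neg_add_cancel, h.beta_zero_right]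

theorem Heis.beta_neg_left [Nontrivial L] (h : Heis π ρ β) (u v : W) :
    β (-u) v = (β u v)⁻¹ := by
  apply eq_inv_of_mul_eq_one_left
  rw [← h.beta_add_left, neg_add_cancel, h.beta_zero_left]

theorem Heis.nd' [Nontrivial L] (h : Heis π ρ β) (w : W) (hw : w ≠ 0) : ∃ w', β w' w ≠ 1 := by
  obtain ⟨w', hw'⟩ := h.nd w hw
  refine ⟨w', fun h1 => hw' ?_⟩
  have := h.beta_swap w w'
  rw [h1, mul_one] at this
  exact this

/-- Pointwise form of the commutation rule. -/
theorem Heis.comm_apply (h : Heis π ρ β) (g g' : A) (v : L) :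
    ρ g (ρ g' v) = β (π g) (π g') • ρ g' (ρ g v) := by
  have := congrArg (fun T : Module.End K L => T v) (h.comm g g')
  simpa using this

/-- Invariance of `β` under an invertible operator normalising the action. -/
theorem Heis.beta_inv [Nontrivial L] (h : Heis π ρ β) (x : Module.End K L)
    (hx1 : Function.Injective x) (φ : A → A) (σ : W → W) (hx : ∀ g, x * ρ g = ρ (φ g) * x)
    (hφ : ∀ g, π (φ g) = σ (π g)) (u v : W) : β (σ u) (σ v) = β u v := by
  obtain ⟨g, rfl⟩ := h.surj u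
  obtain ⟨k, rfl⟩ := h.surj v
  obtain ⟨l, hl⟩ := exists_ne (0 : L)
  have hxa : ∀ (g : A) (v : L), x (ρ g v) = ρ (φ g) (x v) := by
    intro g v
    have := congrArg (fun T : Module.End K L => T v) (hx g)
    simpa using this
  have h1 : x (ρ g (ρ k l)) = β (π g) (π k) • ρ (φ k) (ρ (φ g) (x l)) := by
    rw [h.comm_apply, _root_.map_smul, hxa, hxa]
  have h2 : x (ρ g (ρ k l)) = β (σ (π g)) (σ (π k)) • ρ (φ k) (ρ (φ g) (x l)) := by
    rw [hxa, hxa, h.comm_apply, hφ, hφ]
  have h3 : ρ (φ k) (ρ (φ g) (x l)) ≠ 0 := by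
    intro h0
    apply hl
    apply hx1
    rw [_root_.map_zero]
    apply rho_injective ρ (φ g)
    rw [_root_.map_zero]
    apply rho_injective ρ (φ k)
    rw [_root_.map_zero]
    exact h0
  rw [h1] at h2
  exact (smul_left_injective K h3 h2).symm

/-- Scalar action on a nonzero subspace of a `SubSys` forces `π g = 0`. -/
theorem SubSys.scalar (h : Heis π ρ β) {X : AddSubgroup W} {U : Submodule K L}
    (hs : SubSys π ρ β X U) (g : A) (hg : π g ∈ X) (c : K) (hc : ∀ v ∈ U, ρ g v = c • v) :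
    π g = 0 := by
  by_contra hne
  obtain ⟨w', hw', hβ⟩ := hs.nd _ hg hne
  obtain ⟨g', rfl⟩ := h.surj w'
  obtain ⟨v, hv, hv0⟩ := (Submodule.ne_bot_iff U).1 hs.ne
  have h1 : ρ g (ρ g' v) = c • ρ g' v := hc _ (hs.act g' hw' v hv)
  have h2 : ρ g (ρ g' v) = (β (π g) (π g') * c) • ρ g' v := by
    rw [h.comm_apply, hc v hv, _root_.map_smul, smul_smul]
  have h3 : ρ g' v ≠ 0 := by
    intro h0; apply hv0; apply rho_injective ρ g'; rw [h0, _root_.map_zero]
  have hc0 : c ≠ 0 := by
    rintro rfl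
    apply hv0; apply rho_injective ρ g; rw [hc v hv, zero_smul, _root_.map_zero]
  rw [h1] at h2
  have h4 : c = β (π g) (π g') * c := smul_left_injective K h3 h2
  apply hβ
  have h5 : (β (π g) (π g') - 1) * c = 0 := by rw [sub_mul, one_mul, ← h4, sub_self]
  rcases mul_eq_zero.1 h5 with h6 | h6
  · exact sub_eq_zero.1 h6
  · exact absurd h6 hc0

/-- The whole system as a `SubSys`. -/
theorem Heis.top [Nontrivial L] (h : Heis π ρ β) : SubSys π ρ β ⊤ ⊤ := by
  refine ⟨top_ne_bot, ?_, fun _ _ _ _ => Submodule.mem_top⟩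
  intro w _ hw
  obtain ⟨w', hw'⟩ := h.nd w hw
  exact ⟨w', AddSubgroup.mem_top _, hw'⟩

end basic

section sys

variable {K V F A W : Type*} [Field K] [AddCommGroup V] [Module K V] [Nontrivial V]
  [Group F] [Finite F] [Group A] [MulDistribMulAction F A] [AddCommGroup W] [Finite W]
  [DistribMulAction F W] {p q : ℕ} [Fact p.Prime] [CharP K p]
  {π : A → W} {ρA : Representation K A V} {β : W → W → K} {ρF : Representation K F V}

/-- **COP**: an element of `F` fixing `π g` commutes with `ρA g`. -/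
theorem Sys.cop (S : Sys p q π ρA β ρF) (f : F) (g : A) (hfg : f • π g = π g) :
    ρF f * ρA g = ρA g * ρF f := by
  have hk : π (g⁻¹ * (f • g)) = 0 := by
    rw [S.heis.add, S.heis.map_inv, S.hπ, hfg, neg_add_cancel]
  obtain ⟨c, hc⟩ := S.heis.sc _ hk
  have h1 : ρF f * ρA g = c • (ρA g * ρF f) := by
    rw [S.hρ]
    have : f • g = g * (g⁻¹ * (f • g)) := by group
    rw [this, _root_.map_mul, hc, mul_smul_comm, mul_one, smul_mul_assoc]
  have h2 : ∀ n : ℕ, ρF f ^ n * ρA g = (c ^ n) • (ρA g * ρF f ^ n) := by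
    intro n
    induction n with
    | zero => simp
    | succ n ih =>
      rw [pow_succ' (ρF f), mul_assoc, ih, mul_smul_comm, ← mul_assoc, h1, smul_mul_assoc,
        smul_smul, mul_assoc, ← pow_succ' (ρF f), ← pow_succ]
  obtain ⟨m, hm⟩ := S.hF f
  have h3 := h2 (p ^ m)
  rw [← map_pow, hm, _root_.map_one, one_mul, mul_one] at h3
  have h4 : c ^ (p ^ m) = 1 := by
    apply smul_rho_cancel ρA g
    rw [← h3, one_smul]
  have h5 : c = 1 := by
    have : ExpChar K p := ExpChar.prime Fact.out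
    have := (ExpChar.pow_prime_pow_mul_eq_one_iff p m 1 c).1 (by rw [mul_one]; exact h4)
    rwa [pow_one] at this
  rw [h1, h5, one_smul]

theorem Sys.beta_inv (S : Sys p q π ρA β ρF) (f : F) (u v : W) :
    β (f • u) (f • v) = β u v :=
  S.heis.beta_inv (ρF f) (rho_injective ρF f) (fun g => f • g) (fun w => f • w)
    (fun g => S.hρ f g) (fun g => S.hπ f g) u v

/-- An element of `F` trivial on `U` is trivial on `X`. -/
theorem Sys.triv_of_triv (S : Sys p q π ρA β ρF) {X : AddSubgroup W} {U : Submodule K V}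
    (hs : SubSys π ρA β X U) (f : F) (hfX : ∀ w ∈ X, f • w ∈ X)
    (hf : ∀ v ∈ U, ρF f v = v) : ∀ w ∈ X, f • w = w := by
  intro w hw
  obtain ⟨g, rfl⟩ := S.heis.surj w
  have hπk : π (g⁻¹ * (f • g)) = - π g + f • π g := by
    rw [S.heis.add, S.heis.map_inv, S.hπ]
  have hmem : π (g⁻¹ * (f • g)) ∈ X := by
    rw [hπk]; exact X.add_mem (X.neg_mem hw) (hfX _ hw)
  have h0 := SubSys.scalar S.heis hs (g⁻¹ * (f • g)) hmem 1 (by
    intro v hv
    rw [one_smul]
    apply rho_injective ρA g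
    have h1 : ρA g (ρA (g⁻¹ * (f • g)) v) = ρA (f • g) v := by
      rw [← Module.End.mul_apply, ← _root_.map_mul]
      congr 2
      group
    rw [h1]
    have h2 : ρF f (ρA g v) = ρA (f • g) (ρF f v) := by
      have := congrArg (fun T : Module.End K V => T v) (S.hρ f g)
      simpa using this
    rw [hf v hv, hf _ (hs.act g hw v hv)] at h2
    exact h2.symm)
  rw [hπk] at h0
  exact (neg_add_eq_zero.1 h0).symm

/-- The order of a subgroup of `W` is invertible in `K`. -/
theorem Sys.card_ne (S : Sys p q π ρA β ρF) (hq : q.Prime) (hpq : p ≠ q) (X : AddSubgroup W) :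
    (Nat.card X : K) ≠ 0 := by
  have : Fact q.Prime := ⟨hq⟩
  have h1 : IsPGroup q (Multiplicative X) := by
    intro x
    refine ⟨1, ?_⟩
    rw [pow_one]
    apply Multiplicative.toAdd.injective
    rw [toAdd_pow, toAdd_one]
    apply Subtype.ext
    rw [AddSubgroup.coe_nsmul, AddSubgroup.coe_zero]
    exact S.hW _
  obtain ⟨n, hn⟩ := IsPGroup.iff_card.1 h1
  have h2 : Nat.card X = q ^ n := hn
  rw [h2, Nat.cast_pow]
  apply pow_ne_zero
  intro h0
  have h3 := (CharP.cast_eq_zero_iff K p q).1 h0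
  exact hpq ((Nat.prime_dvd_prime_iff_eq (Fact.out) hq).1 h3)

end sys

end H60SH

end S_HEIS

section S_PFIX

namespace H60SH

open Module

/-- **PFIX**: a finite `p`-group acting on a nonzero space of characteristic `p` has a nonzero
fixed vector. -/
theorem pfix {K V F : Type*} [Field K] [AddCommGroup V] [Module K V] [Group F] [Finite F]
    (p : ℕ) [Fact p.Prime] [CharP K p] (ρ : Representation K F V) (H : Subgroup F)
    (hH : IsPGroup p H) (U : Submodule K V) (hU : U ≠ ⊥) (hHU : ∀ f ∈ H, ∀ v ∈ U, ρ f v ∈ U) :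
    ∃ v ∈ U, v ≠ 0 ∧ ∀ f ∈ H, ρ f v = v := by
  obtain ⟨v, hvU, hv0⟩ := (Submodule.ne_bot_iff U).1 hU
  let M : AddSubgroup V := AddSubgroup.closure (Set.range fun f : H => ρ (f : F) v)
  have hpV : ∀ w : V, p • w = 0 := by
    intro w
    have : (p : K) • w = 0 := by rw [CharP.cast_eq_zero K p, zero_smul]
    rw [← this, Nat.cast_smul_eq_nsmul]
  have hvM : v ∈ M := by
    apply AddSubgroup.subset_closure
    exact ⟨1, by simp⟩
  have hMU : ∀ w ∈ M, w ∈ U := by
    intro w hw
    induction hw using AddSubgroup.closure_induction with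
    | mem x hx =>
      obtain ⟨f, rfl⟩ := hx
      exact hHU f f.2 v hvU
    | zero => exact U.zero_mem
    | add x y _ _ hx hy => exact U.add_mem hx hy
    | neg x _ hx => exact U.neg_mem hx
  have hMinv : ∀ (f : H), ∀ w ∈ M, ρ (f : F) w ∈ M := by
    intro f w hw
    induction hw using AddSubgroup.closure_induction with
    | mem x hx =>
      obtain ⟨g, rfl⟩ := hx
      apply AddSubgroup.subset_closure
      exact ⟨f * g, by simp⟩
    | zero => rw [map_zero]; exact M.zero_mem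
    | add x y _ _ hx hy => rw [map_add]; exact M.add_mem hx hy
    | neg x _ hx => rw [map_neg]; exact M.neg_mem hx
  have : Finite M := by
    have : AddGroup.FG M := by
      rw [AddGroup.fg_iff_addSubgroup_fg]
      exact (AddSubgroup.fg_iff M).2 ⟨_, rfl, Set.finite_range _⟩
    apply AddCommGroup.finite_of_fg_isAddTorsion
    intro w
    rw [isOfFinAddOrder_iff_nsmul_eq_zero]
    exact ⟨p, (Fact.out : p.Prime).pos, Subtype.ext (hpV _)⟩
  let act : MulAction H M :=
    { smul := fun f w => ⟨ρ (f : F) w, hMinv f w w.2⟩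
      one_smul := by
        intro w
        apply Subtype.ext
        change ρ ((1 : H) : F) (w : V) = w
        simp
      mul_smul := by
        intro f g w
        apply Subtype.ext
        change ρ ((f * g : H) : F) (w : V) = ρ (f : F) (ρ (g : F) w)
        simp }
  have hdvd : p ∣ Nat.card M := by
    have ho : addOrderOf (⟨v, hvM⟩ : M) = p := by
      apply addOrderOf_eq_prime
      · exact Subtype.ext (hpV v)
      · intro h; exact hv0 (congrArg Subtype.val h)
    rw [← ho]; exact addOrderOf_dvd_natCard _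
  have h0 : (0 : M) ∈ MulAction.fixedPoints H M := by
    intro f
    apply Subtype.ext
    change ρ (f : F) (0 : V) = 0
    simp
  obtain ⟨b, hb, hb0⟩ := hH.exists_fixed_point_of_prime_dvd_card_of_fixed_point M hdvd h0
  refine ⟨b, hMU b b.2, ?_, ?_⟩
  · intro h; exact hb0 (Subtype.ext h.symm)
  · intro f hf
    have := hb ⟨f, hf⟩
    exact congrArg Subtype.val this

/-- **VC**: the fixed space of the centraliser of `X` in `F`. -/
theorem fixC {K V F A W : Type*} [Field K] [AddCommGroup V] [Module K V]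
    [Nontrivial V] [Group F] [Finite F] [Group A]
    [MulDistribMulAction F A] [AddCommGroup W] [Finite W] [DistribMulAction F W]
    {p q : ℕ} [Fact p.Prime] [CharP K p]
    {π : A → W} {ρA : Representation K A V} {β : W → W → K} {ρF : Representation K F V}
    (S : Sys p q π ρA β ρF) (X : AddSubgroup W) (hXF : ∀ (f : F), ∀ w ∈ X, f • w ∈ X)
    (hnd : ∀ w ∈ X, w ≠ 0 → ∃ w' ∈ X, β w w' ≠ 1) :
    ∃ U : Submodule K V, SubSys π ρA β X U ∧ (∀ (f : F), ∀ v ∈ U, ρF f v ∈ U) ∧
      ∀ f : F, (∀ w ∈ X, f • w = w) → ∀ v ∈ U, ρF f v = v := by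
  let C : Subgroup F :=
    { carrier := {f | ∀ w ∈ X, f • w = w}
      mul_mem' := by
        intro a b ha hb w hw
        rw [mul_smul, hb w hw, ha w hw]
      one_mem' := by intro w _; exact one_smul _ _
      inv_mem' := by
        intro a ha w hw
        rw [inv_smul_eq_iff, ha w hw] }
  have hC : ∀ f, f ∈ C ↔ ∀ w ∈ X, f • w = w := fun f => Iff.rfl
  let U : Submodule K V :=
    { carrier := {v | ∀ f ∈ C, ρF f v = v}
      add_mem' := by
        intro a b ha hb f hf
        rw [map_add, ha f hf, hb f hf]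
      zero_mem' := by intro f _; exact map_zero _
      smul_mem' := by
        intro c a ha f hf
        rw [map_smul, ha f hf] }
  have hU : ∀ v, v ∈ U ↔ ∀ f ∈ C, ρF f v = v := fun v => Iff.rfl
  refine ⟨U, ⟨?_, hnd, ?_⟩, ?_, ?_⟩
  · intro hbot
    obtain ⟨v, -, hv0, hv⟩ := pfix p ρF C (S.hF.to_subgroup C) ⊤ (top_ne_bot)
      (fun _ _ _ _ => Submodule.mem_top)
    have : v ∈ U := hv
    rw [hbot, Submodule.mem_bot] at this
    exact hv0 this
  · intro g hg v hv f hf
    have h1 := S.cop f g ((hC f).1 hf _ hg)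
    have h2 := congrArg (fun T : Module.End K V => T v) h1
    simp only [Module.End.mul_apply] at h2
    rw [h2, hv f hf]
  · intro f v hv c hc
    have hconj : f⁻¹ * c * f ∈ C := by
      intro w hw
      rw [mul_smul, mul_smul, (hC c).1 hc _ (hXF f w hw), inv_smul_smul]
    have h1 : ρF c (ρF f v) = ρF f (ρF (f⁻¹ * c * f) v) := by
      rw [← Module.End.mul_apply, ← Module.End.mul_apply, ← map_mul, ← map_mul]
      congr 2; group
    rw [h1, hv _ hconj]
  · intro f hf v hv
    exact hv f hf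

end H60SH

end S_PFIX

section S_PZ

namespace H60SH

open Module
open scoped commutatorElement

/-- The property of `z` used in `bcomm`. -/
def PZ {K V F : Type*} [Field K] [AddCommGroup V] [Module K V] [Group F] (p : ℕ)
    (ρF : Representation K F V) (z : F) : Prop :=
  ∃ (x : F) (k : ℕ), 1 ≤ k ∧ z = x ^ (p ^ (k - 1)) ∧ x ^ (p ^ k) = 1 ∧
    ((ρF x - 1) ^ (p ^ k - 1) = 0 ∨
      ((∃ a b : F, x = ⁅a, b⁆) ∧ ∀ a b : F,
        (ρF ⁅a, b⁆ - 1) ^ (p ^ k - 1) * ρF a = (ρF ⁅a, b⁆ - 1) ^ (p ^ k - 1) ∧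
        (ρF ⁅a, b⁆ - 1) ^ (p ^ k - 1) * ρF b = (ρF ⁅a, b⁆ - 1) ^ (p ^ k - 1)))

end H60SH

end S_PZ

section S_RC

namespace H60SH

open Module
open scoped commutatorElement

/-- The stabiliser of a subspace in a subgroup. -/
def stF {K V Γ : Type*} [Field K] [AddCommGroup V] [Module K V] [Group Γ]
    (ρ : Representation K Γ V) (S : Subgroup Γ) (U : Submodule K V) : Subgroup Γ where
  carrier := {s | s ∈ S ∧ U.map (ρ s) = U}
  mul_mem' := by
    rintro s t ⟨hs, hs'⟩ ⟨ht, ht'⟩
    refine ⟨S.mul_mem hs ht, ?_⟩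
    rw [map_mul]
    change U.map ((ρ s).comp (ρ t)) = U
    rw [Submodule.map_comp, ht', hs']
  one_mem' := by
    refine ⟨S.one_mem, ?_⟩
    rw [map_one]
    exact Submodule.map_id U
  inv_mem' := by
    rintro s ⟨hs, hs'⟩
    refine ⟨S.inv_mem hs, ?_⟩
    have h1 : U.map (ρ s⁻¹) = (U.map (ρ s)).map (ρ s⁻¹) := by rw [hs']
    rw [h1, ← Submodule.map_comp]
    have h2 : (ρ s⁻¹).comp (ρ s) = LinearMap.id := by
      have : ρ s⁻¹ * ρ s = 1 := by rw [← map_mul, inv_mul_cancel, map_one]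
      exact this
    rw [h2]
    exact Submodule.map_id U

theorem mem_stF {K V Γ : Type*} [Field K] [AddCommGroup V] [Module K V] [Group Γ]
    {ρ : Representation K Γ V} {S : Subgroup Γ} {U : Submodule K V} {s : Γ} :
    s ∈ stF ρ S U ↔ s ∈ S ∧ U.map (ρ s) = U := Iff.rfl

theorem stF_le {K V Γ : Type*} [Field K] [AddCommGroup V] [Module K V] [Group Γ]
    (ρ : Representation K Γ V) (S : Subgroup Γ) (U : Submodule K V) : stF ρ S U ≤ S :=
  fun _ h => h.1

theorem stF_apply {K V Γ : Type*} [Field K] [AddCommGroup V] [Module K V] [Group Γ]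
    {ρ : Representation K Γ V} {S : Subgroup Γ} {U : Submodule K V} {s : Γ}
    (hs : s ∈ stF ρ S U) (v : V) (hv : v ∈ U) : ρ s v ∈ U := by
  rw [← hs.2]
  exact Submodule.mem_map_of_mem hv

/-- From commutation on a block to the triviality of the commutator. -/
theorem comm_triv {K V Γ : Type*} [Field K] [AddCommGroup V] [Module K V] [Group Γ]
    (ρ : Representation K Γ V) (U : Submodule K V) (d g : Γ)
    (hd : ∀ v ∈ U, ρ d⁻¹ v ∈ U) (hg : ∀ v ∈ U, ρ g⁻¹ v ∈ U)
    (h : ∀ v ∈ U, ρ d (ρ g v) = ρ g (ρ d v)) (v : V) (hv : v ∈ U) : ρ ⁅d, g⁆ v = v := by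
  have e1 : ρ ⁅d, g⁆ v = ρ d (ρ g (ρ d⁻¹ (ρ g⁻¹ v))) := by
    rw [commutatorElement_def, map_mul, map_mul, map_mul]
    rfl
  have e2 := h _ (hd _ (hg _ hv))
  have e3 : ρ d (ρ d⁻¹ (ρ g⁻¹ v)) = ρ g⁻¹ v := by
    change (ρ d * ρ d⁻¹) (ρ g⁻¹ v) = _
    rw [← map_mul, mul_inv_cancel, map_one]
    rfl
  rw [e1, e2, e3]
  change (ρ g * ρ g⁻¹) v = v
  rw [← map_mul, mul_inv_cancel, map_one]
  rfl

/-- Triviality on all blocks. -/
theorem eq_one_of_blocks {K V : Type*} [Field K] [AddCommGroup V] [Module K V]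
    (𝓤 : Set (Submodule K V)) (htop : sSup 𝓤 = ⊤) (T : Module.End K V)
    (h : ∀ U ∈ 𝓤, ∀ v ∈ U, T v = v) : T = 1 := by
  have h1 : sSup 𝓤 ≤ LinearMap.ker (T - 1) := by
    refine sSup_le fun U hU v hv => ?_
    rw [LinearMap.mem_ker, LinearMap.sub_apply, Module.End.one_apply, h U hU v hv, sub_self]
  ext v
  have h2 : v ∈ LinearMap.ker (T - 1) := h1 (htop ▸ Submodule.mem_top)
  rw [LinearMap.mem_ker, LinearMap.sub_apply, Module.End.one_apply, sub_eq_zero] at h2
  rw [h2, Module.End.one_apply]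

theorem card_ne_of_pgroup {K Γ : Type*} [Field K] [Group Γ] [Finite Γ] (p q : ℕ) [Fact p.Prime]
    [CharP K p] (hq : q.Prime) (hpq : p ≠ q) (Q : Subgroup Γ) (hQ : IsPGroup q Q) :
    (Nat.card Q : K) ≠ 0 := by
  have : Fact q.Prime := ⟨hq⟩
  obtain ⟨n, hn⟩ := IsPGroup.iff_card.mp hQ
  rw [hn, Nat.cast_pow]
  refine pow_ne_zero _ ?_
  intro h0
  rw [CharP.cast_eq_zero_iff K p] at h0
  exact hpq ((Nat.prime_dvd_prime_iff_eq Fact.out hq).mp h0)

end H60SH

end S_RC

section S_BLK

namespace H60SH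

open Module
open scoped commutatorElement

universe u

section blk

variable {K V : Type*} {Γ : Type u} [Field K] [AddCommGroup V] [Module K V] [Group Γ]

/-- Restriction of a representation to an invariant subspace. -/
def blkRes (ρ : Representation K Γ V) (Q : Subgroup Γ) (U : Submodule K V)
    (hQU : ∀ g ∈ Q, ∀ v ∈ U, ρ g v ∈ U) : Representation K Q U where
  toFun g := (ρ (g : Γ)).restrict (hQU g g.2)
  map_one' := by
    ext v
    simp
  map_mul' := by
    intro g h
    ext v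
    simp

theorem blkRes_apply (ρ : Representation K Γ V) (Q : Subgroup Γ) (U : Submodule K V)
    (hQU : ∀ g ∈ Q, ∀ v ∈ U, ρ g v ∈ U) (g : Q) (v : U) :
    ((blkRes ρ Q U hQU g v : U) : V) = ρ g v := rfl

/-- The elements acting by scalars. -/
def blkZ {A L : Type*} [Group A] [AddCommGroup L] [Module K L] (ρ : Representation K A L) :
    Subgroup A where
  carrier := {g | ∃ c : K, ρ g = c • (1 : Module.End K L)}
  one_mem' := ⟨1, by simp⟩
  mul_mem' := by
    rintro g h ⟨c, hc⟩ ⟨d, hd⟩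
    exact ⟨c * d, by rw [map_mul, hc, hd, smul_mul_smul_comm, mul_one]⟩
  inv_mem' := by
    rintro g ⟨c, hc⟩
    by_cases h0 : c = 0
    · refine ⟨0, ?_⟩
      have h1 : ρ g * ρ g⁻¹ = 1 := by rw [← map_mul]; simp
      rw [hc, h0, zero_smul, zero_mul] at h1
      rw [zero_smul]
      calc ρ g⁻¹ = ρ g⁻¹ * 1 := by rw [mul_one]
        _ = 0 := by rw [← h1, mul_zero]
    · refine ⟨c⁻¹, ?_⟩
      have h1 : ρ g * ρ g⁻¹ = 1 := by rw [← map_mul]; simp
      rw [hc, smul_mul_assoc, one_mul] at h1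
      rw [← h1, smul_smul, inv_mul_cancel₀ h0, one_smul]

theorem mem_blkZ {A L : Type*} [Group A] [AddCommGroup L] [Module K L] {ρ : Representation K A L}
    {g : A} : g ∈ blkZ ρ ↔ ∃ c : K, ρ g = c • (1 : Module.End K L) := Iff.rfl

instance blkZ_normal {A L : Type*} [Group A] [AddCommGroup L] [Module K L]
    (ρ : Representation K A L) : (blkZ ρ).Normal where
  conj_mem := by
    rintro g ⟨c, hc⟩ h
    refine ⟨c, ?_⟩
    rw [map_mul, map_mul, hc, mul_smul_comm, mul_one, smul_mul_assoc, ← map_mul]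
    simp

/-- Conjugation action. -/
@[reducible] def blkAct (Q F : Subgroup Γ) (hFQ : ∀ s ∈ F, ∀ g ∈ Q, s * g * s⁻¹ ∈ Q) :
    MulDistribMulAction F Q where
  smul f g := ⟨f * g * (f : Γ)⁻¹, hFQ f f.2 g g.2⟩
  one_smul := by
    intro g
    apply Subtype.ext
    show ((1 : F) : Γ) * g * ((1 : F) : Γ)⁻¹ = g
    simp
  mul_smul := by
    intro f f' g
    apply Subtype.ext
    show ((f * f' : F) : Γ) * g * ((f * f' : F) : Γ)⁻¹ = f * (f' * g * (f' : Γ)⁻¹) * (f : Γ)⁻¹
    push_cast
    group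
  smul_mul := by
    intro f g h
    apply Subtype.ext
    show (f : Γ) * ((g * h : Q) : Γ) * (f : Γ)⁻¹ = (f * g * (f : Γ)⁻¹) * (f * h * (f : Γ)⁻¹)
    push_cast
    group
  smul_one := by
    intro f
    apply Subtype.ext
    show (f : Γ) * ((1 : Q) : Γ) * (f : Γ)⁻¹ = ((1 : Q) : Γ)
    simp

end blk

/-- **BLK**: the Heisenberg type system on a block. -/
theorem block_sys {K V : Type*} {Γ : Type u} [Field K] [AddCommGroup V] [Module K V]
    [Group Γ] [Finite Γ] (p q : ℕ) (ρ : Representation K Γ V) (Q F : Subgroup Γ)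
    (U : Submodule K V) (hU : U ≠ ⊥) (hF : IsPGroup p F)
    (hQU : ∀ g ∈ Q, ∀ v ∈ U, ρ g v ∈ U) (hFU : ∀ f ∈ F, ∀ v ∈ U, ρ f v ∈ U)
    (hFQ : ∀ s ∈ F, ∀ g ∈ Q, s * g * s⁻¹ ∈ Q)
    (hQ2 : ∀ g ∈ Q, ∀ h ∈ Q, ∀ k ∈ Q, ⁅g, h⁆ * k = k * ⁅g, h⁆)
    (hQq : ∀ g ∈ Q, ∀ h ∈ Q, g ^ q * h = h * g ^ q)
    (hsc : ∀ g ∈ Q, (∀ h ∈ Q, ∀ v ∈ U, ρ ⁅h, g⁆ v = v) → ∃ c : K, ∀ v ∈ U, ρ g v = c • v) :
    ∃ (W : Type u) (_ : AddCommGroup W) (_ : Finite W) (_ : MulDistribMulAction F Q)
      (_ : DistribMulAction F W) (π : Q → W) (β : W → W → K) (ρA : Representation K Q U)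
      (ρF : Representation K F U), Sys p q π ρA β ρF ∧
      (∀ (g : Q) (v : U), ((ρA g v : U) : V) = ρ g v) ∧
      (∀ (f : F) (v : U), ((ρF f v : U) : V) = ρ f v) ∧
      (∀ (f : F) (g : Q), ((f • g : Q) : Γ) = f * g * (f : Γ)⁻¹) := by
  classical
  set ρA : Representation K Q U := blkRes ρ Q U hQU with hρA
  set ρF : Representation K F U := blkRes ρ F U hFU with hρF
  set Z : Subgroup Q := blkZ ρA with hZ
  letI actQ : MulDistribMulAction F Q := blkAct Q F hFQ
  have hact : ∀ (f : F) (g : Q), ((f • g : Q) : Γ) = f * g * (f : Γ)⁻¹ := fun f g => rfl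
  -- scalars
  have hsc' : ∀ g : Q, (∀ h : Q, ρA ⁅h, g⁆ = 1) → g ∈ Z := by
    intro g hg
    obtain ⟨c, hc⟩ := hsc g g.2 (by
      intro h hh v hv
      have h1 := congrArg (fun T : Module.End K U => ((T ⟨v, hv⟩ : U) : V)) (hg ⟨h, hh⟩)
      exact h1)
    refine ⟨c, ?_⟩
    ext v
    exact hc v v.2
  have hcommZ : ∀ g h : Q, ⁅g, h⁆ ∈ Z := by
    intro g h
    apply hsc'
    intro k
    have h1 : ⁅k, ⁅g, h⁆⁆ = 1 := by
      rw [commutatorElement_eq_one_iff_mul_comm]
      apply Subtype.ext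
      exact (hQ2 g g.2 h h.2 k k.2).symm
    rw [h1, map_one]
  have hpowZ : ∀ g : Q, g ^ q ∈ Z := by
    intro g
    apply hsc'
    intro k
    have h1 : ⁅k, g ^ q⁆ = 1 := by
      rw [commutatorElement_eq_one_iff_mul_comm]
      apply Subtype.ext
      exact (hQq g g.2 k k.2).symm
    rw [h1, map_one]
  have hρ : ∀ (f : F) (g : Q), ρF f * ρA g = ρA (f • g) * ρF f := by
    intro f g
    ext v
    show ρ (f : Γ) (ρ (g : Γ) v) = ρ ((f • g : Q) : Γ) (ρ (f : Γ) v)
    rw [hact, ← Module.End.mul_apply, ← Module.End.mul_apply, ← map_mul, ← map_mul]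
    congr 2
    group
  have hZF : ∀ (f : F) (g : Q), g ∈ Z → f • g ∈ Z := by
    rintro f g ⟨c, hc⟩
    refine ⟨c, ?_⟩
    have h1 := hρ f g
    rw [hc, mul_smul_comm, mul_one] at h1
    have h2 : ρF f * ρF f⁻¹ = 1 := by rw [← map_mul]; simp
    calc ρA (f • g) = ρA (f • g) * (ρF f * ρF f⁻¹) := by rw [h2, mul_one]
      _ = (ρA (f • g) * ρF f) * ρF f⁻¹ := by rw [mul_assoc]
      _ = c • (ρF f * ρF f⁻¹) := by rw [← h1, smul_mul_assoc]
      _ = _ := by rw [h2]
  -- the group W
  letI cg : CommGroup (Q ⧸ Z) :=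
    { (inferInstance : Group (Q ⧸ Z)) with
      mul_comm := by
        intro a b
        induction a using QuotientGroup.induction_on with
        | H g =>
        induction b using QuotientGroup.induction_on with
        | H h =>
        rw [← QuotientGroup.mk_mul, ← QuotientGroup.mk_mul, QuotientGroup.eq]
        have h1 : (g * h)⁻¹ * (h * g) = ⁅h⁻¹, g⁻¹⁆ := by
          rw [commutatorElement_def]
          group
        rw [h1]
        exact hcommZ _ _ }
  let φ : F → (Q →* Q) := fun f => MulDistribMulAction.toMonoidHom Q f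
  have hφ : ∀ f, Z ≤ Z.comap (φ f) := by
    intro f g hg
    exact hZF f g hg
  let ψ : F → (Q ⧸ Z →* Q ⧸ Z) := fun f => QuotientGroup.map Z Z (φ f) (hφ f)
  have hψ : ∀ (f : F) (g : Q), ψ f (g : Q ⧸ Z) = ((f • g : Q) : Q ⧸ Z) := fun f g => rfl
  letI actW : DistribMulAction F (Additive (Q ⧸ Z)) :=
    { smul := fun f w => Additive.ofMul (ψ f (Additive.toMul w))
      one_smul := by
        intro w
        show Additive.ofMul (ψ 1 (Additive.toMul w)) = w
        obtain ⟨g, hg⟩ := QuotientGroup.mk_surjective (Additive.toMul w)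
        rw [← hg, hψ, one_smul, hg]
        rfl
      mul_smul := by
        intro f f' w
        show Additive.ofMul (ψ (f * f') (Additive.toMul w)) =
          Additive.ofMul (ψ f (ψ f' (Additive.toMul w)))
        obtain ⟨g, hg⟩ := QuotientGroup.mk_surjective (Additive.toMul w)
        rw [← hg, hψ, hψ, hψ, mul_smul]
      smul_zero := by
        intro f
        show Additive.ofMul (ψ f 1) = 0
        rw [map_one]
        rfl
      smul_add := by
        intro f w w'
        show Additive.ofMul (ψ f (Additive.toMul w * Additive.toMul w')) = _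
        rw [map_mul]
        rfl }
  let π : Q → Additive (Q ⧸ Z) := fun g => Additive.ofMul (g : Q ⧸ Z)
  have hsurj : Function.Surjective π := by
    intro w
    obtain ⟨g, hg⟩ := QuotientGroup.mk_surjective (Additive.toMul w)
    exact ⟨g, by show Additive.ofMul (g : Q ⧸ Z) = w; rw [hg]; rfl⟩
  have hπeq : ∀ g h : Q, π g = π h → ∃ c : K, ρA g = c • ρA h := by
    intro g h hgh
    have h1 : (h : Q ⧸ Z) = (g : Q ⧸ Z) := (Additive.ofMul.injective hgh).symm
    rw [QuotientGroup.eq] at h1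
    obtain ⟨c, hc⟩ := h1
    refine ⟨c, ?_⟩
    calc ρA g = ρA (h * (h⁻¹ * g)) := by congr 1; group
      _ = ρA h * ρA (h⁻¹ * g) := map_mul _ _ _
      _ = c • ρA h := by rw [hc, mul_smul_comm, mul_one]
  have hπ0 : ∀ g : Q, π g = 0 ↔ g ∈ Z := by
    intro g
    constructor
    · intro h
      have h1 : (g : Q ⧸ Z) = 1 := Additive.ofMul.injective h
      exact (QuotientGroup.eq_one_iff g).1 h1
    · intro h
      show Additive.ofMul (g : Q ⧸ Z) = 0
      rw [(QuotientGroup.eq_one_iff g).2 h]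
      rfl
  have hc : ∀ g h : Q, ∃ c : K, ρA g * ρA h = c • (ρA h * ρA g) := by
    intro g h
    obtain ⟨c, hc⟩ := hcommZ g h
    refine ⟨c, ?_⟩
    calc ρA g * ρA h = ρA ⁅g, h⁆ * (ρA h * ρA g) := by
          rw [← map_mul, ← map_mul, ← map_mul]
          congr 1
          rw [commutatorElement_def]
          group
      _ = _ := by rw [hc, smul_mul_assoc, one_mul]
  choose cc hcc using hc
  let s : Additive (Q ⧸ Z) → Q := Function.surjInv hsurj
  have hs : ∀ w, π (s w) = w := Function.surjInv_eq hsurj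
  let β : Additive (Q ⧸ Z) → Additive (Q ⧸ Z) → K := fun w w' => cc (s w) (s w')
  have hcomm : ∀ g h : Q, ρA g * ρA h = β (π g) (π h) • (ρA h * ρA g) := by
    intro g h
    obtain ⟨c, h1⟩ := hπeq g (s (π g)) (hs _).symm
    obtain ⟨d, h2⟩ := hπeq h (s (π h)) (hs _).symm
    have h3 := hcc (s (π g)) (s (π h))
    rw [h1, h2, smul_mul_assoc, mul_smul_comm, h3, smul_mul_assoc, mul_smul_comm]
    simp only [smul_smul]
    congr 1
    show c * (d * β (π g) (π h)) = β (π g) (π h) * (d * c)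
    ring
  refine ⟨Additive (Q ⧸ Z), inferInstance, inferInstance, actQ, actW, π, β, ρA, ρF, ?_, ?_, ?_, hact⟩
  · refine ⟨⟨hsurj, ?_, ?_, hcomm, ?_⟩, hF, ?_, ?_, hρ⟩
    · intro g h
      rfl
    · intro g hg
      exact (hπ0 g).1 hg
    · intro w hw
      by_contra hcon
      push Not at hcon
      apply hw
      rw [← hs w, hπ0]
      apply hsc'
      intro h
      have h1 := hcomm (s w) h
      rw [hs, hcon, one_smul] at h1
      have h2 : ρA ⁅h, s w⁆ * (ρA (s w) * ρA h) = ρA h * ρA (s w) := by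
        rw [← map_mul, ← map_mul, ← map_mul]
        congr 1
        rw [commutatorElement_def]
        group
      rw [h1] at h2
      have h3 : (ρA h * ρA (s w)) * (ρA ((h * s w)⁻¹)) = 1 := by
        rw [← map_mul, ← map_mul]
        simp
      calc ρA ⁅h, s w⁆ = ρA ⁅h, s w⁆ * ((ρA h * ρA (s w)) * (ρA ((h * s w)⁻¹))) := by
            rw [h3, mul_one]
        _ = (ρA ⁅h, s w⁆ * (ρA h * ρA (s w))) * (ρA ((h * s w)⁻¹)) := by simp only [mul_assoc]
        _ = 1 := by rw [h2, h3]
    · intro w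
      obtain ⟨g, rfl⟩ := hsurj w
      have h1 : q • π g = π (g ^ q) := rfl
      rw [h1, hπ0]
      exact hpowZ g
    · intro f g
      rfl
  · intro g v
    rfl
  · intro f v
    rfl

end H60SH

end S_BLK

section S_WTS

namespace H60SH

open Module

/-- The weight space of `l`. -/
def wt {K V A : Type*} [Field K] [AddCommGroup V] [Module K V] [Group A]
    (ρ : Representation K A V) (B : Subgroup A) (l : A → K) : Submodule K V where
  carrier := {v | ∀ g ∈ B, ρ g v = l g • v}
  add_mem' := by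
    intro a b ha hb g hg
    rw [map_add, ha g hg, hb g hg, smul_add]
  zero_mem' := by
    intro g _
    rw [map_zero, smul_zero]
  smul_mem' := by
    intro c a ha g hg
    rw [map_smul, ha g hg, smul_comm]

/-- The set of nonzero weight spaces. -/
def wts {K V A : Type*} [Field K] [AddCommGroup V] [Module K V] [Group A]
    (ρ : Representation K A V) (B : Subgroup A) : Set (Submodule K V) :=
  {U | U ≠ ⊥ ∧ ∃ l : A → K, U = wt ρ B l}

theorem wts_killer {K V A : Type*} [Field K] [AddCommGroup V] [Module K V] [Group A]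
    (ρ : Representation K A V) (B : Subgroup A) (U : Submodule K V) (hU : U ∈ wts ρ B)
    (s : Finset (Submodule K V)) (hs : ↑s ⊆ wts ρ B \ {U}) :
    ∃ T : Module.End K V, (∀ W ∈ wts ρ B, ∃ c : K, ∀ w ∈ W, T w = c • w) ∧
      (∀ W ∈ s, ∀ w ∈ W, T w = 0) ∧ ∃ c : K, c ≠ 0 ∧ ∀ w ∈ U, T w = c • w := by
  classical
  induction s using Finset.induction_on with
  | empty =>
    refine ⟨1, ?_, ?_, 1, one_ne_zero, ?_⟩
    · intro W _
      exact ⟨1, fun w _ => by rw [one_smul]; rfl⟩
    · intro W hW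
      simp at hW
    · intro w _
      rw [one_smul]; rfl
  | insert W0 s hW0 ih =>
    obtain ⟨T, hT1, hT2, c, hc, hT3⟩ := ih (fun x hx => hs (by
      rw [Finset.coe_insert]; exact Set.mem_insert_of_mem _ hx))
    have hW0' : W0 ∈ wts ρ B \ {U} := hs (by rw [Finset.coe_insert]; exact Set.mem_insert _ _)
    obtain ⟨⟨hW0ne, l0, hl0⟩, hW0U⟩ := hW0'
    obtain ⟨hUne, l, hl⟩ := hU
    have hex : ∃ g ∈ B, l g ≠ l0 g := by
      by_contra hcon
      push Not at hcon
      apply hW0U
      rw [Set.mem_singleton_iff, hl0, hl]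
      apply le_antisymm
      · intro v hv g hg
        rw [hv g hg, hcon g hg]
      · intro v hv g hg
        rw [hv g hg, hcon g hg]
    obtain ⟨g, hg, hne⟩ := hex
    refine ⟨(ρ g - l0 g • (1 : Module.End K V)) * T, ?_, ?_, (l g - l0 g) * c,
      mul_ne_zero (sub_ne_zero.mpr hne) hc, ?_⟩
    · rintro W hW
      obtain ⟨cW, hcW⟩ := hT1 W hW
      obtain ⟨-, lW, hlW⟩ := hW
      refine ⟨(lW g - l0 g) * cW, ?_⟩
      intro w hw
      have hgw : ρ g w = lW g • w := by
        rw [hlW] at hw; exact hw g hg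
      rw [Module.End.mul_apply, hcW w hw, map_smul, LinearMap.sub_apply, LinearMap.smul_apply, hgw,
        Module.End.one_apply, ← sub_smul, smul_smul, mul_comm]
    · intro W hW w hw
      rw [Finset.mem_insert] at hW
      rcases hW with rfl | hW
      · have hgw : ρ g w = l0 g • w := by
          rw [hl0] at hw; exact hw g hg
        obtain ⟨cW, hcW⟩ := hT1 W ⟨hW0ne, l0, hl0⟩
        rw [Module.End.mul_apply, hcW w hw, map_smul, LinearMap.sub_apply, LinearMap.smul_apply,
          hgw, Module.End.one_apply, sub_self, smul_zero]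
      · rw [Module.End.mul_apply, hT2 W hW w hw, map_zero]
    · intro w hw
      have hgw : ρ g w = l g • w := by
        rw [hl] at hw; exact hw g hg
      rw [Module.End.mul_apply, hT3 w hw, map_smul, LinearMap.sub_apply, LinearMap.smul_apply, hgw,
        Module.End.one_apply, ← sub_smul, smul_smul, mul_comm]

/-- **WTS1**: weight spaces are independent. -/
theorem wts_indep {K V A : Type*} [Field K] [AddCommGroup V] [Module K V] [Group A]
    (ρ : Representation K A V) (B : Subgroup A) : sSupIndep (wts ρ B) := by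
  intro U hU
  rw [Submodule.disjoint_def]
  intro v hv hv'
  obtain ⟨s, hs, hvs⟩ := Submodule.mem_sSup_iff_exists_finset.mp hv'
  obtain ⟨T, -, hT2, c, hc, hT3⟩ := wts_killer ρ B U hU s hs
  have h1 : (⨆ i ∈ s, i) ≤ LinearMap.ker T := by
    apply iSup₂_le
    intro W hW w hw
    rw [LinearMap.mem_ker]
    exact hT2 W hW w hw
  have h2 : T v = 0 := by
    have := h1 hvs
    rwa [LinearMap.mem_ker] at this
  rw [hT3 v hv] at h2
  exact (smul_eq_zero.mp h2).resolve_left hc

/-- **WTS2**: weight spaces of a commuting group of order prime to the characteristic span. -/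
theorem wts_span {K V A : Type*} [Field K] [IsAlgClosed K] [AddCommGroup V] [Module K V]
    [FiniteDimensional K V] [Group A] [Finite A] (ρ : Representation K A V) (B : Subgroup A)
    (hcomm : ∀ g ∈ B, ∀ h ∈ B, ρ g * ρ h = ρ h * ρ g) (hA : (Nat.card A : K) ≠ 0) :
    sSup (wts ρ B) = ⊤ := by
  classical
  have hss : ∀ g : B, Module.End.IsFinitelySemisimple (ρ g) := by
    intro g
    apply Module.End.isFinitelySemisimple_iff_isSemisimple.mpr
    have hsep := (Polynomial.X_pow_sub_one_separable_iff (F := K) (n := Nat.card A)).mpr hA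
    apply Module.End.isSemisimple_of_squarefree_aeval_eq_zero hsep.squarefree
    rw [map_sub, map_pow, Polynomial.aeval_X, map_one, ← map_pow, pow_card_eq_one', map_one,
      sub_self]
  have key := Module.End.iSup_iInf_maxGenEigenspace_eq_top_of_iSup_maxGenEigenspace_eq_top_of_commute
    (fun g : B => ρ g) (by
      intro g h _
      exact hcomm g g.2 h h.2) (fun g => Module.End.iSup_maxGenEigenspace_eq_top _)
  rw [eq_top_iff, ← key]
  apply iSup_le
  intro χ
  by_cases hbot : (⨅ i : B, Module.End.maxGenEigenspace (ρ (i : A)) (χ i)) = ⊥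
  · rw [hbot]; exact bot_le
  · apply le_sSup
    refine ⟨hbot, fun g => if h : g ∈ B then χ ⟨g, h⟩ else 0, ?_⟩
    ext v
    rw [Submodule.mem_iInf]
    constructor
    · intro h g hg
      have := h ⟨g, hg⟩
      rw [(hss ⟨g, hg⟩).maxGenEigenspace_eq_eigenspace, Module.End.mem_eigenspace_iff] at this
      rw [this]
      beta_reduce
      rw [dif_pos hg]
    · intro h g
      rw [(hss g).maxGenEigenspace_eq_eigenspace, Module.End.mem_eigenspace_iff]
      have := h g g.2
      beta_reduce at this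
      rw [dif_pos g.2] at this
      exact this

/-- **WTS3**: weight spaces are permuted by operators normalising the action. -/
theorem wts_perm {K V A : Type*} [Field K] [AddCommGroup V] [Module K V] [Group A]
    (ρ : Representation K A V) (B : Subgroup A) (T : Module.End K V) (hT : Function.Injective T)
    (hT' : Function.Surjective T)
    (φ : A → A) (hφ : ∀ g ∈ B, φ g ∈ B) (hφ' : ∀ g ∈ B, ∃ g' ∈ B, φ g' = g)
    (h : ∀ g ∈ B, T * ρ g = ρ (φ g) * T) (U : Submodule K V) (hU : U ∈ wts ρ B) :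
    U.map T ∈ wts ρ B := by
  classical
  obtain ⟨hUne, l, hl⟩ := hU
  choose! ψ hψB hψ using hφ'
  refine ⟨?_, fun g => l (ψ g), ?_⟩
  · intro hbot
    apply hUne
    rw [Submodule.eq_bot_iff]
    intro v hv
    have : T v ∈ U.map T := Submodule.mem_map_of_mem hv
    rw [hbot, Submodule.mem_bot] at this
    exact hT (by rw [this, map_zero])
  · have hval : ∀ g ∈ B, ∀ u, T (ρ g u) = ρ (φ g) (T u) := fun g hg u =>
      congrArg (fun f : Module.End K V => f u) (h g hg)
    obtain ⟨u0, hu0, hu0ne⟩ := (Submodule.ne_bot_iff U).mp hUne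
    have hlψ : ∀ g ∈ B, l (ψ (φ g)) = l g := by
      intro g hg
      have h1 : ρ (ψ (φ g)) u0 = ρ g u0 := by
        apply hT
        rw [hval _ (hψB _ (hφ g hg)), hval g hg, hψ _ (hφ g hg)]
      rw [hl] at hu0
      rw [hu0 _ (hψB _ (hφ g hg)), hu0 g hg] at h1
      exact smul_left_injective K hu0ne h1
    ext v
    constructor
    · rintro ⟨u, hu, rfl⟩
      intro g hg
      rw [hl] at hu
      have h1 := hval (ψ g) (hψB g hg) u
      rw [hψ g hg, hu _ (hψB g hg), map_smul] at h1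
      exact h1.symm
    · intro hv
      obtain ⟨u, rfl⟩ := hT' v
      refine ⟨u, ?_, rfl⟩
      rw [hl]
      intro g hg
      apply hT
      have h2 := hv (φ g) (hφ g hg)
      change ρ (φ g) (T u) = l (ψ (φ g)) • T u at h2
      rw [hval g hg, h2, map_smul, hlψ g hg]

end H60SH

end S_WTS

section S_DEC

namespace H60SH

open Module
open scoped commutatorElement

section aux
variable {K V Γ : Type*} [Field K] [AddCommGroup V] [Module K V] [Group Γ]

/-- class sums -/
noncomputable def decC (ρ : Representation K Γ V) (Q : Subgroup Γ) [Fintype Q] (g : Q) :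
    Module.End K V :=
  ∑ h : Q, ρ ((h : Γ) * g * (h : Γ)⁻¹)

theorem decC_comm (ρ : Representation K Γ V) (Q : Subgroup Γ) [Fintype Q] (g k : Q) :
    ρ (k : Γ) * decC ρ Q g = decC ρ Q g * ρ (k : Γ) := by
  have h1 : decC ρ Q g = ∑ h : Q, ρ (((k * h : Q) : Γ) * g * ((k * h : Q) : Γ)⁻¹) :=
    (Equiv.sum_comp (Equiv.mulLeft k) fun h : Q => ρ ((h : Γ) * g * (h : Γ)⁻¹)).symm
  conv_rhs => rw [h1]
  unfold decC
  rw [Finset.mul_sum, Finset.sum_mul]
  apply Finset.sum_congr rfl
  intro h _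
  rw [← map_mul, ← map_mul]
  congr 1
  simp only [Subgroup.coe_mul]
  group

theorem decC_comm' (ρ : Representation K Γ V) (Q : Subgroup Γ) [Fintype Q] (g k : Q) :
    Commute (decC ρ Q k) (decC ρ Q g) := by
  change decC ρ Q k * decC ρ Q g = decC ρ Q g * decC ρ Q k
  have : ∀ h : Q, ρ ((h : Γ) * k * (h : Γ)⁻¹) * decC ρ Q g =
      decC ρ Q g * ρ ((h : Γ) * k * (h : Γ)⁻¹) := by
    intro h
    exact decC_comm ρ Q g (h * k * h⁻¹)
  conv_lhs => rw [decC]
  conv_rhs => rw [decC, decC]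
  rw [Finset.sum_mul, Finset.mul_sum]
  apply Finset.sum_congr rfl
  intro h _
  exact this h

theorem decC_conj (ρ : Representation K Γ V) (Q : Subgroup Γ) [Fintype Q] (s : Γ)
    (σ : Q ≃ Q) (hσ : ∀ g : Q, ((σ g : Q) : Γ) = s * g * s⁻¹) (g : Q) :
    ρ s * decC ρ Q g = decC ρ Q (σ g) * ρ s := by
  have h1 : decC ρ Q (σ g) = ∑ h : Q, ρ (((σ h : Q) : Γ) * (σ g : Q) * ((σ h : Q) : Γ)⁻¹) :=
    (Equiv.sum_comp σ fun h : Q => ρ ((h : Γ) * (σ g : Q) * (h : Γ)⁻¹)).symm
  rw [h1]
  unfold decC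
  rw [Finset.mul_sum, Finset.sum_mul]
  apply Finset.sum_congr rfl
  intro h _
  rw [← map_mul, ← map_mul]
  congr 1
  rw [hσ, hσ]
  group

theorem decC_conj_pow (ρ : Representation K Γ V) (Q : Subgroup Γ) [Fintype Q] (s : Γ)
    (σ : Q ≃ Q) (hσ : ∀ g : Q, ((σ g : Q) : Γ) = s * g * s⁻¹) (g : Q) (μ : K) (k : ℕ) :
    ρ s * (decC ρ Q g - μ • 1) ^ k = (decC ρ Q (σ g) - μ • 1) ^ k * ρ s := by
  induction k with
  | zero => simp
  | succ k ih =>
    rw [pow_succ, ← mul_assoc, ih, mul_assoc, pow_succ, mul_assoc]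
    congr 1
    rw [mul_sub, sub_mul, decC_conj ρ Q s σ hσ]
    congr 1
    simp

/-- joint generalised eigenspaces -/
noncomputable def decU (ρ : Representation K Γ V) (Q : Subgroup Γ) [Fintype Q] (χ : Q → K) :
    Submodule K V :=
  ⨅ g : Q, (decC ρ Q g).maxGenEigenspace (χ g)

theorem mem_decU (ρ : Representation K Γ V) (Q : Subgroup Γ) [Fintype Q] (χ : Q → K) (v : V) :
    v ∈ decU ρ Q χ ↔ ∀ g : Q, ∃ k : ℕ, ((decC ρ Q g - χ g • 1) ^ k) v = 0 := by
  unfold decU
  simp

theorem decU_map (ρ : Representation K Γ V) (Q : Subgroup Γ) [Fintype Q] (s : Γ)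
    (σ : Q ≃ Q) (hσ : ∀ g : Q, ((σ g : Q) : Γ) = s * g * s⁻¹) (χ : Q → K) :
    (decU ρ Q χ).map (ρ s) = decU ρ Q (fun g => χ (σ.symm g)) := by
  have hinv : ∀ w : V, ρ s (ρ s⁻¹ w) = w := by
    intro w
    have : (ρ s * ρ s⁻¹) w = w := by rw [← map_mul]; simp
    exact this
  have hinv' : ∀ w : V, ρ s⁻¹ (ρ s w) = w := by
    intro w
    have : (ρ s⁻¹ * ρ s) w = w := by rw [← map_mul]; simp
    exact this
  ext w
  rw [Submodule.mem_map]
  constructor
  · rintro ⟨v, hv, rfl⟩
    rw [mem_decU] at hv ⊢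
    intro g
    obtain ⟨k, hk⟩ := hv (σ.symm g)
    refine ⟨k, ?_⟩
    have h1 := congrArg (fun T : Module.End K V => T v)
      (decC_conj_pow ρ Q s σ hσ (σ.symm g) (χ (σ.symm g)) k)
    simp only [Module.End.mul_apply, Equiv.apply_symm_apply] at h1
    rw [← h1, hk, map_zero]
  · intro hw
    refine ⟨ρ s⁻¹ w, ?_, hinv w⟩
    rw [mem_decU] at hw ⊢
    intro g
    obtain ⟨k, hk⟩ := hw (σ g)
    refine ⟨k, ?_⟩
    have h1 := congrArg (fun T : Module.End K V => T (ρ s⁻¹ w))
      (decC_conj_pow ρ Q s σ hσ g (χ g) k)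
    simp only [Module.End.mul_apply, Equiv.symm_apply_apply] at h1 hk
    rw [hinv, hk] at h1
    have h2 := congrArg (ρ s⁻¹) h1
    rwa [hinv', map_zero] at h2

theorem decU_inv (ρ : Representation K Γ V) (Q : Subgroup Γ) [Fintype Q] (χ : Q → K) (g : Q)
    (v : V) (hv : v ∈ decU ρ Q χ) : ρ (g : Γ) v ∈ decU ρ Q χ := by
  unfold decU at hv ⊢
  rw [Submodule.mem_iInf] at hv ⊢
  intro k
  exact Module.End.mapsTo_maxGenEigenspace_of_comm
    (show Commute (decC ρ Q k) (ρ (g : Γ)) from (decC_comm ρ Q k g).symm) (χ k) (hv k)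

theorem dec_semisimple (T : Module.End K V) (m : ℕ) (hm : (m : K) ≠ 0) (hT : T ^ m = 1)
    [FiniteDimensional K V] (c : K) (v : V) (k : ℕ) (hk : ((T - c • 1) ^ k) v = 0) :
    T v = c • v := by
  have hss : T.IsSemisimple := by
    apply Module.End.isSemisimple_of_squarefree_aeval_eq_zero
      (p := (Polynomial.X ^ m - 1 : Polynomial K))
    · exact (Polynomial.X_pow_sub_one_separable_iff.mpr hm).squarefree
    · simp [hT]
  have h1 := hss.isFinitelySemisimple.maxGenEigenspace_eq_eigenspace c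
  have h2 : v ∈ T.maxGenEigenspace c := by
    rw [Module.End.mem_maxGenEigenspace]
    exact ⟨k, hk⟩
  rw [h1] at h2
  exact Module.End.mem_eigenspace_iff.mp h2

theorem decU_scalar [FiniteDimensional K V] (ρ : Representation K Γ V) (Q : Subgroup Γ)
    [Fintype Q] (hQ : (Nat.card Q : K) ≠ 0) (χ : Q → K) (g : Q)
    (h : ∀ h ∈ Q, ∀ v ∈ decU ρ Q χ, ρ ⁅h, (g : Γ)⁆ v = v) :
    ∀ v ∈ decU ρ Q χ, ρ (g : Γ) v = (χ g / Nat.card Q) • v := by
  intro v hv
  set n : K := (Nat.card Q : K) with hn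
  -- class sum acts as `n • ρ g`
  have h1 : ∀ w ∈ decU ρ Q χ, decC ρ Q g w = n • ρ (g : Γ) w := by
    intro w hw
    unfold decC
    rw [LinearMap.sum_apply]
    have h2 : ∀ k : Q, ρ ((k : Γ) * g * (k : Γ)⁻¹) w = ρ (g : Γ) w := by
      intro k
      have h3 : ((k : Γ) * g * (k : Γ)⁻¹) = ⁅(k : Γ), (g : Γ)⁆ * g := by
        rw [commutatorElement_def]; group
      rw [h3, map_mul, Module.End.mul_apply]
      exact h k k.2 _ (decU_inv ρ Q χ g w hw)
    rw [Finset.sum_congr rfl fun k _ => h2 k, Finset.sum_const, Finset.card_univ, hn,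
      Nat.card_eq_fintype_card, Nat.cast_smul_eq_nsmul]
  have h4 : ∀ j : ℕ, ((decC ρ Q g - χ g • 1) ^ j) v = n ^ j • ((ρ (g : Γ) - (χ g / n) • 1) ^ j) v ∧
      ((ρ (g : Γ) - (χ g / n) • 1) ^ j) v ∈ decU ρ Q χ := by
    intro j
    induction j with
    | zero => simpa using hv
    | succ j ih =>
      obtain ⟨ih1, ih2⟩ := ih
      set w := ((ρ (g : Γ) - (χ g / n) • 1) ^ j) v with hw
      constructor
      · have e1 : ((decC ρ Q g - χ g • 1) ^ (j + 1)) v =
            (decC ρ Q g - χ g • 1) (((decC ρ Q g - χ g • 1) ^ j) v) := by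
          rw [pow_succ', Module.End.mul_apply]
        have e2 : ((ρ (g : Γ) - (χ g / n) • 1) ^ (j + 1)) v = (ρ (g : Γ) - (χ g / n) • 1) w := by
          rw [pow_succ', Module.End.mul_apply]
        rw [e1, ih1, e2, map_smul, LinearMap.sub_apply, LinearMap.sub_apply, h1 w ih2,
          LinearMap.smul_apply, LinearMap.smul_apply, Module.End.one_apply, pow_succ, mul_smul,
          smul_sub n, smul_smul n, mul_div_cancel₀ _ hQ]
      · have e2 : ((ρ (g : Γ) - (χ g / n) • 1) ^ (j + 1)) v = (ρ (g : Γ) - (χ g / n) • 1) w := by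
          rw [pow_succ', Module.End.mul_apply]
        rw [e2, LinearMap.sub_apply, LinearMap.smul_apply, Module.End.one_apply]
        exact Submodule.sub_mem _ (decU_inv ρ Q χ g w ih2) (Submodule.smul_mem _ _ ih2)
  obtain ⟨k, hk⟩ := (mem_decU ρ Q χ v).mp hv g
  rw [(h4 k).1, smul_eq_zero] at hk
  rcases hk with hk | hk
  · exact absurd hk (pow_ne_zero _ hQ)
  · apply dec_semisimple (ρ (g : Γ)) (Nat.card Q) hQ _ _ v k hk
    rw [← map_pow]
    have : ((g : Γ) ^ Nat.card Q) = 1 := by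
      have h5 : g ^ Nat.card Q = 1 := pow_card_eq_one'
      exact_mod_cast congrArg (fun x : Q => (x : Γ)) h5
    rw [this, map_one]

end aux

/-- **DEC1**: decomposition of a representation under a subgroup `Q` of
order prime to the characteristic into blocks on which the elements of `Q` which commute with
`Q` act by scalars; the blocks are permuted by the normaliser of `Q`. -/
theorem blocks {K V Γ : Type*} [Field K] [IsAlgClosed K] [AddCommGroup V] [Module K V]
    [FiniteDimensional K V] [Group Γ] [Finite Γ] (ρ : Representation K Γ V) (Q : Subgroup Γ)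
    (hQ : (Nat.card Q : K) ≠ 0) :
    ∃ 𝓤 : Set (Submodule K V), (∀ U ∈ 𝓤, U ≠ ⊥) ∧ sSupIndep 𝓤 ∧ sSup 𝓤 = ⊤ ∧
      (∀ s : Γ, (∀ g ∈ Q, s * g * s⁻¹ ∈ Q) → ∀ U ∈ 𝓤, U.map (ρ s) ∈ 𝓤) ∧
      (∀ U ∈ 𝓤, ∀ g ∈ Q, ∀ v ∈ U, ρ g v ∈ U) ∧
      (∀ U ∈ 𝓤, ∀ g ∈ Q, (∀ h ∈ Q, ∀ v ∈ U, ρ ⁅h, g⁆ v = v) → ∃ c : K, ∀ v ∈ U, ρ g v = c • v) := by
  have : Fintype Q := Fintype.ofFinite Q
  refine ⟨{U | U ≠ ⊥ ∧ ∃ χ : Q → K, U = decU ρ Q χ}, fun U hU => hU.1, ?_, ?_, ?_, ?_, ?_⟩
  · have h1 : iSupIndep fun χ : Q → K => decU ρ Q χ := by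
      apply Module.End.independent_iInf_maxGenEigenspace_of_forall_mapsTo
      intro i j φ
      exact Module.End.mapsTo_maxGenEigenspace_of_comm (decC_comm' ρ Q i j) φ
    apply h1.sSupIndep_range.mono
    rintro U ⟨_, χ, rfl⟩
    exact ⟨χ, rfl⟩
  · have h1 : ⨆ χ : Q → K, decU ρ Q χ = ⊤ := by
      apply Module.End.iSup_iInf_maxGenEigenspace_eq_top_of_forall_mapsTo
      · intro i j φ
        exact Module.End.mapsTo_maxGenEigenspace_of_comm (decC_comm' ρ Q i j) φ
      · intro i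
        exact Module.End.iSup_maxGenEigenspace_eq_top _
    rw [eq_top_iff, ← h1]
    apply iSup_le
    intro χ
    by_cases h2 : decU ρ Q χ = ⊥
    · rw [h2]; exact bot_le
    · exact le_sSup ⟨h2, χ, rfl⟩
  · rintro s hs U ⟨hU, χ, rfl⟩
    have hinj : Function.Injective fun g : Q => (⟨s * g * s⁻¹, hs g g.2⟩ : Q) := by
      intro a b hab
      have := congrArg Subtype.val hab
      simpa using this
    let σ : Q ≃ Q := Equiv.ofBijective _ (Finite.injective_iff_bijective.mp hinj)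
    have hσ : ∀ g : Q, ((σ g : Q) : Γ) = s * g * s⁻¹ := fun g => rfl
    refine ⟨?_, _, decU_map ρ Q s σ hσ χ⟩
    intro h0
    apply hU
    rw [eq_bot_iff]
    intro v hv
    have h1 : ρ s v = 0 := by
      have h3 : ρ s v ∈ (decU ρ Q χ).map (ρ s) := Submodule.mem_map_of_mem hv
      rw [h0] at h3
      exact (Submodule.mem_bot K).mp h3
    have h2 : (ρ s⁻¹ * ρ s) v = v := by rw [← map_mul]; simp
    rw [Module.End.mul_apply, h1, map_zero] at h2
    rw [← h2]
    exact Submodule.zero_mem _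
  · rintro U ⟨_, χ, rfl⟩ g hg v hv
    exact decU_inv ρ Q χ ⟨g, hg⟩ v hv
  · rintro U ⟨_, χ, rfl⟩ g hg hcomm
    exact ⟨_, decU_scalar ρ Q hQ χ ⟨g, hg⟩ hcomm⟩

end H60SH

end S_DEC

section S_DICHA

namespace H60SH

open Module
open scoped commutatorElement

/-- **FRAT**: elements of the derived subgroup of a finite `p`-group are nongenerators. -/
theorem frat {H : Type*} [Group H] [Finite H] (p : ℕ) [Fact p.Prime] (hH : IsPGroup p H) (u : H)
    (hu : u ∈ commutator H) (K : Subgroup H) (hK : ∀ h : H, ∃ m : ℤ, u ^ m * h ∈ K) : K = ⊤ := by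
  rcases eq_top_or_exists_le_coatom K with h | ⟨M, hM, hKM⟩
  · exact h
  exfalso
  have hnil : Group.IsNilpotent H := hH.isNilpotent
  have hMn : M.Normal :=
    Subgroup.NormalizerCondition.normal_of_coatom M Group.normalizerCondition_of_isNilpotent hM
  have hq : IsPGroup p (H ⧸ M) := hH.to_quotient M
  have hnt : Nontrivial (H ⧸ M) := by
    rw [QuotientGroup.nontrivial_iff]
    exact hM.1
  have hcn : Nontrivial (Subgroup.center (H ⧸ M)) := hq.center_nontrivial
  set C := (Subgroup.center (H ⧸ M)).comap (QuotientGroup.mk' M) with hC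
  have hMC : M < C := by
    refine lt_of_le_of_ne ?_ ?_
    · intro x hx
      rw [hC, Subgroup.mem_comap]
      have : QuotientGroup.mk' M x = 1 := (QuotientGroup.eq_one_iff x).mpr hx
      rw [this]
      exact Subgroup.one_mem _
    · intro he
      obtain ⟨z, hz⟩ := exists_ne (1 : Subgroup.center (H ⧸ M))
      obtain ⟨y, hy⟩ := QuotientGroup.mk'_surjective M (z : H ⧸ M)
      have hyC : y ∈ C := by
        rw [hC, Subgroup.mem_comap, hy]
        exact z.2
      rw [← he] at hyC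
      have h1 : QuotientGroup.mk' M y = 1 := (QuotientGroup.eq_one_iff y).mpr hyC
      rw [hy] at h1
      exact hz (Subtype.ext h1)
  have hCtop : C = ⊤ := hM.2 C hMC
  have hcomm : commutator H ≤ M := by
    rw [← Subgroup.Normal.quotient_commutative_iff_commutator_le]
    refine ⟨⟨?_⟩⟩
    intro a b
    obtain ⟨y, rfl⟩ := QuotientGroup.mk'_surjective M a
    have hyC : y ∈ C := by
      rw [hCtop]
      exact Subgroup.mem_top y
    rw [hC, Subgroup.mem_comap, Subgroup.mem_center_iff] at hyC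
    exact (hyC b).symm
  have huM : u ∈ M := hcomm hu
  refine hM.1 ?_
  rw [Subgroup.eq_top_iff']
  intro x
  obtain ⟨m, hm⟩ := hK x
  have h1 : u ^ m * x ∈ M := hKM hm
  exact (Subgroup.mul_mem_cancel_left M (Subgroup.zpow_mem M huM m)).mp h1

/-- **DICH-a**. -/
theorem dich {K V H : Type*} [Field K] [AddCommGroup V] [Module K V]
    [Group H] [Finite H] (p : ℕ) [Fact p.Prime] (hH : IsPGroup p H) (ρ : Representation K H V)
    (𝓤 : Set (Submodule K V)) (hind : sSupIndep 𝓤)
    (hperm : ∀ h : H, ∀ U ∈ 𝓤, U.map (ρ h) ∈ 𝓤) (u : H) (hu : u ∈ commutator H)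
    (X : Module.End K V) (hX : X ∈ Algebra.adjoin K {ρ u}) (hXh : ∀ h : H, X * ρ h = X)
    (U : Submodule K V) (hU : U ∈ 𝓤) (w : V) (hw : w ∈ U) (hXw : X w ∉ sSup (𝓤 \ {U})) (h : H) :
    U.map (ρ h) = U := by
  have hmm : ∀ (a b : H) (Y : Submodule K V), Y.map (ρ (a * b)) = (Y.map (ρ b)).map (ρ a) := by
    intro a b Y
    rw [map_mul, Module.End.mul_eq_comp, Submodule.map_comp]
  have h1 : ∀ Y : Submodule K V, Y.map (ρ 1) = Y := by
    intro Y
    rw [map_one, Module.End.one_eq_id, Submodule.map_id]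
  let K0 : Subgroup H :=
    { carrier := {h | U.map (ρ h) = U}
      mul_mem' := by
        intro a b ha hb
        simp only [Set.mem_ofPred_eq] at ha hb ⊢
        rw [hmm, hb, ha]
      one_mem' := by
        simp only [Set.mem_ofPred_eq]
        exact h1 U
      inv_mem' := by
        intro a ha
        simp only [Set.mem_ofPred_eq] at ha ⊢
        conv_lhs => rw [← ha]
        rw [← hmm, inv_mul_cancel, h1] }
  have hK0 : ∀ x, x ∈ K0 ↔ U.map (ρ x) = U := fun x => Iff.rfl
  have hclaim : ∀ h : H, ∃ m : ℤ, u ^ m * h ∈ K0 := by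
    intro h
    by_contra hcon
    push Not at hcon
    set T : Submodule K V := ⨆ i : ℕ, U.map (ρ (u ^ i * h)) with hT
    have hTS : T ≤ sSup (𝓤 \ {U}) := by
      refine iSup_le fun i => le_sSup ⟨hperm _ U hU, ?_⟩
      intro he
      have := hcon (i : ℤ)
      rw [hK0, zpow_natCast] at this
      exact this he
    have hTu : ∀ t ∈ T, ρ u t ∈ T := by
      intro t ht
      have h2 : T.map (ρ u) ≤ T := by
        rw [hT, Submodule.map_iSup]
        refine iSup_le fun i => ?_
        rw [← hmm, ← mul_assoc, ← pow_succ']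
        exact le_iSup (fun i : ℕ => U.map (ρ (u ^ i * h))) (i + 1)
      exact h2 (Submodule.mem_map_of_mem ht)
    have hY : ∀ Y ∈ Algebra.adjoin K {ρ u}, ∀ t ∈ T, Y t ∈ T := by
      intro Y hY
      induction hY using Algebra.adjoin_induction with
      | mem x hx =>
        rw [Set.mem_singleton_iff] at hx
        subst hx
        exact hTu
      | algebraMap r =>
        intro t ht
        rw [Module.algebraMap_end_apply]
        exact T.smul_mem r ht
      | add x y _ _ hx hy =>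
        intro t ht
        rw [LinearMap.add_apply]
        exact T.add_mem (hx t ht) (hy t ht)
      | mul x y _ _ hx hy =>
        intro t ht
        rw [Module.End.mul_apply]
        exact hx _ (hy t ht)
    have hv : ρ h w ∈ T := by
      have h3 : U.map (ρ (u ^ 0 * h)) ≤ T := le_iSup (fun i : ℕ => U.map (ρ (u ^ i * h))) 0
      rw [pow_zero, one_mul] at h3
      exact h3 (Submodule.mem_map_of_mem hw)
    have h4 : X (ρ h w) = X w := by
      rw [← Module.End.mul_apply, hXh]
    have h5 := hY X hX _ hv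
    rw [h4] at h5
    exact hXw (hTS h5)
  have := frat p hH u hu K0 hclaim
  rw [← hK0, this]
  exact Subgroup.mem_top h

end H60SH

end S_DICHA

section S_DICHB

namespace H60SH

open Module
open scoped commutatorElement

section aux

variable {K V H : Type*} [Field K] [AddCommGroup V] [Module K V] [Group H]

theorem dichb_map_mul (ρ : Representation K H V) (a b : H) (Y : Submodule K V) :
    Y.map (ρ (a * b)) = (Y.map (ρ b)).map (ρ a) := by
  rw [map_mul, Module.End.mul_eq_comp, Submodule.map_comp]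

theorem dichb_map_one (ρ : Representation K H V) (Y : Submodule K V) : Y.map (ρ 1) = Y := by
  rw [map_one, Module.End.one_eq_id, Submodule.map_id]

theorem dichb_map_pow (ρ : Representation K H V) (a : H) (Y : Submodule K V)
    (h : Y.map (ρ a) = Y) (m : ℕ) : Y.map (ρ (a ^ m)) = Y := by
  induction m with
  | zero => rw [pow_zero, dichb_map_one]
  | succ m ih => rw [pow_succ, dichb_map_mul, h, ih]

/-- `(X - 1) ^ (p ^ j - 1) = 1 + X + ... + X ^ (p ^ j - 1)` in characteristic `p`. -/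
theorem dichb_poly (K : Type*) [Field K] (p : ℕ) [Fact p.Prime] [CharP K p] (j : ℕ) :
    (Polynomial.X - 1 : Polynomial K) ^ (p ^ j - 1) =
      ∑ i ∈ Finset.range (p ^ j), (Polynomial.X : Polynomial K) ^ i := by
  have hp : p.Prime := Fact.out
  have hne : (Polynomial.X - 1 : Polynomial K) ≠ 0 := by
    simpa using Polynomial.X_sub_C_ne_zero (1 : K)
  apply mul_right_cancel₀ hne
  rw [geom_sum_mul, ← pow_succ, Nat.sub_add_cancel (Nat.pow_pos hp.pos), sub_pow_char_pow,
    one_pow]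

theorem dichb_poly2 (K : Type*) [Field K] (p : ℕ) [Fact p.Prime] [CharP K p] (j e : ℕ) :
    (Polynomial.X - 1 : Polynomial K) ^ ((p ^ j - 1) + p ^ j * e) =
      (∑ i ∈ Finset.range (p ^ j), (Polynomial.X : Polynomial K) ^ i) *
        (Polynomial.X ^ (p ^ j) - 1) ^ e := by
  rw [pow_add, dichb_poly, pow_mul, sub_pow_char_pow, one_pow]

theorem dichb_end (p : ℕ) [Fact p.Prime] [CharP K p] (ρ : Representation K H V) (u : H)
    (j e : ℕ) :
    (ρ u - 1) ^ ((p ^ j - 1) + p ^ j * e) =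
      (∑ i ∈ Finset.range (p ^ j), ρ (u ^ i)) * (ρ (u ^ (p ^ j)) - 1) ^ e := by
  have h := congrArg (Polynomial.aeval (ρ u)) (dichb_poly2 K p j e)
  simpa using h

theorem dichb_inv (ρ : Representation K H V) (a : H) (U : Submodule K V)
    (h : U.map (ρ a) = U) (e : ℕ) (w : V) (hw : w ∈ U) : ((ρ a - 1) ^ e) w ∈ U := by
  induction e generalizing w with
  | zero => simpa using hw
  | succ e ih =>
    rw [pow_succ]
    change ((ρ a - 1) ^ e) ((ρ a - 1) w) ∈ U
    apply ih
    change ρ a w - w ∈ U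
    apply U.sub_mem _ hw
    rw [← h]
    exact Submodule.mem_map_of_mem hw

theorem dichb_mem (ρ : Representation K H V) (𝓤 : Set (Submodule K V))
    (hperm : ∀ h : H, ∀ U ∈ 𝓤, U.map (ρ h) ∈ 𝓤) (U : Submodule K V) (hU : U ∈ 𝓤) (a : H)
    (h : U.map (ρ a) ≠ U) (w : V) (hw : w ∈ U) : ρ a w ∈ sSup (𝓤 \ {U}) := by
  have h1 : U.map (ρ a) ≤ sSup (𝓤 \ {U}) := le_sSup ⟨hperm a U hU, h⟩
  exact h1 (Submodule.mem_map_of_mem hw)

theorem dichb_adjoin (ρ : Representation K H V) (u : H) (m : ℕ) :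
    (ρ u - 1) ^ m ∈ Algebra.adjoin K {ρ u} := by
  apply Subalgebra.pow_mem
  exact Subalgebra.sub_mem _ (Algebra.subset_adjoin rfl) (Subalgebra.one_mem _)

end aux

/-- **DICH-b**: the component of `(u - 1) ^ (p ^ j - 1 + p ^ j * e) w` in `U`. -/
theorem dich_comp {K V H : Type*} [Field K] [AddCommGroup V] [Module K V]
    [Group H] (p : ℕ) [Fact p.Prime] [CharP K p] (ρ : Representation K H V)
    (𝓤 : Set (Submodule K V))
    (hperm : ∀ h : H, ∀ U ∈ 𝓤, U.map (ρ h) ∈ 𝓤) (u : H)
    (U : Submodule K V) (hU : U ∈ 𝓤) (j : ℕ) (hj : U.map (ρ (u ^ (p ^ j))) = U)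
    (hj2 : ∀ m : ℕ, 0 < m → m < p ^ j → U.map (ρ (u ^ m)) ≠ U) (w : V) (hw : w ∈ U) (e : ℕ) :
    ((ρ u - 1) ^ ((p ^ j - 1) + p ^ j * e)) w - ((ρ (u ^ (p ^ j)) - 1) ^ e) w ∈
      sSup (𝓤 \ {U}) := by
  have hp : p.Prime := Fact.out
  have hy := dichb_inv ρ (u ^ (p ^ j)) U hj e w hw
  rw [dichb_end p ρ u j e, Module.End.mul_apply]
  set y := ((ρ (u ^ (p ^ j)) - 1) ^ e) w with hy'
  obtain ⟨r, hr⟩ : ∃ r, p ^ j = r + 1 := ⟨p ^ j - 1, (Nat.sub_add_cancel (Nat.pow_pos hp.pos)).symm⟩
  rw [LinearMap.sum_apply, hr, Finset.sum_range_succ', pow_zero, map_one, Module.End.one_apply,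
    add_sub_cancel_right]
  apply Submodule.sum_mem
  intro i hi
  have hi' := Finset.mem_range.1 hi
  exact dichb_mem ρ 𝓤 hperm U hU _ (hj2 (i + 1) (Nat.succ_pos i) (by omega)) y hy

/-- **DICH-b2**: the component of `(u - 1) ^ m w` in `U` if the orbit is longer than `m`. -/
theorem dich_comp' {K V H : Type*} [Field K] [AddCommGroup V] [Module K V]
    [Group H] (ρ : Representation K H V)
    (𝓤 : Set (Submodule K V))
    (hperm : ∀ h : H, ∀ U ∈ 𝓤, U.map (ρ h) ∈ 𝓤) (u : H)
    (U : Submodule K V) (hU : U ∈ 𝓤) (m : ℕ)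
    (hj2 : ∀ i : ℕ, 0 < i → i ≤ m → U.map (ρ (u ^ i)) ≠ U) (w : V) (hw : w ∈ U) :
    ((ρ u - 1) ^ m) w - ((-1 : K) ^ m) • w ∈ sSup (𝓤 \ {U}) := by
  have hcomm : Commute (ρ u) (-1 : Module.End K V) := (Commute.one_right _).neg_right
  have h1 : (ρ u - 1) ^ m = ∑ i ∈ Finset.range (m + 1),
      (((-1 : K) ^ (m - i) * (m.choose i : K)) • ρ (u ^ i) : Module.End K V) := by
    rw [sub_eq_add_neg, hcomm.add_pow]
    apply Finset.sum_congr rfl
    intro i _
    rw [map_pow]
    ext v
    have e1 : (((-1 : Module.End K V)) ^ (m - i)) = ((-1 : K) ^ (m - i)) • (1 : Module.End K V) := by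
      rcases Nat.even_or_odd (m - i) with hh | hh
      · rw [hh.neg_one_pow, hh.neg_one_pow, one_smul]
      · rw [hh.neg_one_pow, hh.neg_one_pow, neg_smul, one_smul]
    rw [e1]
    simp only [Module.End.mul_apply, LinearMap.smul_apply, Module.End.natCast_apply,
      Module.End.one_apply]
    rw [map_smul, map_nsmul, mul_smul, Nat.cast_smul_eq_nsmul]
  rw [h1, LinearMap.sum_apply, Finset.sum_range_succ', pow_zero, map_one]
  simp only [LinearMap.smul_apply, Module.End.one_apply, Nat.choose_zero_right, Nat.cast_one,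
    mul_one, Nat.sub_zero]
  rw [add_sub_cancel_right]
  apply Submodule.sum_mem
  intro i hi
  have hi' := Finset.mem_range.1 hi
  apply Submodule.smul_mem
  exact dichb_mem ρ 𝓤 hperm U hU _ (hj2 (i + 1) (Nat.succ_pos i) (by omega)) w hw

/-- **DICH-c**: the length of the orbit of a block under a `p`-element. -/
theorem orbit_len {K V H : Type*} [Field K] [AddCommGroup V] [Module K V]
    [Group H] (p : ℕ) [Fact p.Prime] (ρ : Representation K H V) (u : H) (k : ℕ)
    (hu : u ^ (p ^ k) = 1) (U : Submodule K V) :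
    ∃ j : ℕ, j ≤ k ∧ U.map (ρ (u ^ (p ^ j))) = U ∧
      ∀ m : ℕ, 0 < m → m < p ^ j → U.map (ρ (u ^ m)) ≠ U := by
  classical
  have hp : p.Prime := Fact.out
  have hex : ∃ d : ℕ, 0 < d ∧ U.map (ρ (u ^ d)) = U :=
    ⟨p ^ k, Nat.pow_pos hp.pos, by rw [hu, dichb_map_one]⟩
  obtain ⟨hd0, hd⟩ := Nat.find_spec hex
  have hmin : ∀ m : ℕ, 0 < m → m < Nat.find hex → U.map (ρ (u ^ m)) ≠ U := by
    intro m hm hlt he
    exact Nat.find_min hex hlt ⟨hm, he⟩
  set d := Nat.find hex with hdd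
  have hdvd : d ∣ p ^ k := by
    rw [Nat.dvd_iff_mod_eq_zero]
    by_contra hr
    have hr0 : 0 < p ^ k % d := Nat.pos_of_ne_zero hr
    refine hmin _ hr0 (Nat.mod_lt _ hd0) ?_
    have h1 : U.map (ρ (u ^ (p ^ k))) = U := by rw [hu, dichb_map_one]
    rw [← Nat.mod_add_div (p ^ k) d, pow_add, dichb_map_mul, pow_mul,
      dichb_map_pow ρ (u ^ d) U hd] at h1
    exact h1
  obtain ⟨j, hj, hdj⟩ := (Nat.dvd_prime_pow hp).1 hdvd
  refine ⟨j, hj, ?_, ?_⟩
  · rw [← hdj]; exact hd
  · rw [← hdj]; exact hmin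

/-- **DICH-d**: the dichotomy for `(u - 1) ^ (p ^ k - 1)`. -/
theorem dich_main {K V H : Type*} [Field K] [AddCommGroup V] [Module K V]
    [Group H] [Finite H] (p : ℕ) [Fact p.Prime] [CharP K p] (hH : IsPGroup p H)
    (ρ : Representation K H V) (𝓤 : Set (Submodule K V)) (hne : ∀ U ∈ 𝓤, U ≠ ⊥)
    (hind : sSupIndep 𝓤)
    (hperm : ∀ h : H, ∀ U ∈ 𝓤, U.map (ρ h) ∈ 𝓤) (u : H) (hu : u ∈ commutator H) (k : ℕ)
    (huk : u ^ (p ^ k) = 1)
    (hN : ∀ h : H, (ρ u - 1) ^ (p ^ k - 1) * ρ h = (ρ u - 1) ^ (p ^ k - 1))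
    (U : Submodule K V) (hU : U ∈ 𝓤) :
    (∀ h : H, U.map (ρ h) = U) ∨
      ∃ k' : ℕ, 1 ≤ k' ∧ k' ≤ k ∧ U.map (ρ (u ^ (p ^ (k - k')))) = U ∧
        ∀ v ∈ U, ((ρ (u ^ (p ^ (k - k'))) - 1) ^ (p ^ k' - 1)) v = 0 := by
  have hp : p.Prime := Fact.out
  obtain ⟨j, hjk, hj, hj2⟩ := orbit_len p ρ u k huk U
  have hdisj : Disjoint U (sSup (𝓤 \ {U})) := hind hU
  -- the key step
  have key : ∀ e : ℕ, (p ^ j - 1) + p ^ j * e = p ^ k - 1 → ∀ w ∈ U,
      ((ρ (u ^ (p ^ j)) - 1) ^ e) w ≠ 0 → ∀ h : H, U.map (ρ h) = U := by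
    intro e he w hw hne0 h
    have h1 := dich_comp p ρ 𝓤 hperm u U hU j hj hj2 w hw e
    rw [he] at h1
    have hy := dichb_inv ρ (u ^ (p ^ j)) U hj e w hw
    refine dich p hH ρ 𝓤 hind hperm u hu ((ρ u - 1) ^ (p ^ k - 1)) (dichb_adjoin ρ u _) hN U hU w hw
      ?_ h
    intro hcon
    have h2 := Submodule.sub_mem _ hcon h1
    rw [sub_sub_cancel] at h2
    exact hne0 (Submodule.disjoint_def.1 hdisj _ hy h2)
  rcases Nat.eq_zero_or_pos (k - j) with hkj | hkj
  · left
    have hjk' : j = k := by omega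
    obtain ⟨w, hw, hw0⟩ := Submodule.exists_mem_ne_zero_of_ne_bot (hne U hU)
    refine key 0 (by rw [hjk']; simp) w hw ?_
    simpa using hw0
  · by_cases hall : ∀ v ∈ U, ((ρ (u ^ (p ^ j)) - 1) ^ (p ^ (k - j) - 1)) v = 0
    · right
      refine ⟨k - j, hkj, Nat.sub_le _ _, ?_, ?_⟩
      · rw [Nat.sub_sub_self hjk]; exact hj
      · rw [Nat.sub_sub_self hjk]; exact hall
    · left
      have hex : ∃ w ∈ U, ((ρ (u ^ (p ^ j)) - 1) ^ (p ^ (k - j) - 1)) w ≠ 0 := by
        by_contra hcon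
        apply hall
        intro v hv
        by_contra h0
        exact hcon ⟨v, hv, h0⟩
      obtain ⟨w, hw, hw0⟩ := hex
      refine key (p ^ (k - j) - 1) ?_ w hw hw0
      have h1 : p ^ j * p ^ (k - j) = p ^ k := by rw [← pow_add, Nat.add_sub_cancel' hjk]
      have h2 : 0 < p ^ j := Nat.pow_pos hp.pos
      have h3 : 0 < p ^ (k - j) := Nat.pow_pos hp.pos
      rw [Nat.mul_sub, h1, mul_one]
      have h4 : p ^ j ≤ p ^ k := by
        rw [← h1]; exact Nat.le_mul_of_pos_right _ h3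
      omega

/-- **DICH-e**: the dichotomy for `(u - 1) ^ (2 p ^ (k-1) - 1)`. -/
theorem dich_quad {K V H : Type*} [Field K] [AddCommGroup V] [Module K V]
    [Group H] [Finite H] (p : ℕ) [Fact p.Prime] [CharP K p] (hH : IsPGroup p H)
    (ρ : Representation K H V) (𝓤 : Set (Submodule K V))
    (hind : sSupIndep 𝓤)
    (hperm : ∀ h : H, ∀ U ∈ 𝓤, U.map (ρ h) ∈ 𝓤) (u : H) (hu : u ∈ commutator H) (k : ℕ)
    (hk : 1 ≤ k)
    (hN : ∀ h : H, (ρ u - 1) ^ (2 * p ^ (k - 1) - 1) * ρ h = (ρ u - 1) ^ (2 * p ^ (k - 1) - 1))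
    (U : Submodule K V) (hU : U ∈ 𝓤) (hj : U.map (ρ (u ^ (p ^ (k - 1)))) = U)
    (hj2 : ∀ m : ℕ, 0 < m → m < p ^ (k - 1) → U.map (ρ (u ^ m)) ≠ U) (w : V) (hw : w ∈ U)
    (hw2 : (ρ (u ^ (p ^ (k - 1))) - 1) w ≠ 0) (h : H) : U.map (ρ h) = U := by
  have hp : p.Prime := Fact.out
  have hdisj : Disjoint U (sSup (𝓤 \ {U})) := hind hU
  have h1 := dich_comp p ρ 𝓤 hperm u U hU (k - 1) hj hj2 w hw 1
  have he : (p ^ (k - 1) - 1) + p ^ (k - 1) * 1 = 2 * p ^ (k - 1) - 1 := by
    have : 0 < p ^ (k - 1) := Nat.pow_pos hp.pos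
    omega
  rw [he, pow_one] at h1
  have hy := dichb_inv ρ (u ^ (p ^ (k - 1))) U hj 1 w hw
  rw [pow_one] at hy
  refine dich p hH ρ 𝓤 hind hperm u hu ((ρ u - 1) ^ (2 * p ^ (k - 1) - 1)) (dichb_adjoin ρ u _) hN
    U hU w hw ?_ h
  intro hcon
  have h2 := Submodule.sub_mem _ hcon h1
  rw [sub_sub_cancel] at h2
  exact hw2 (Submodule.disjoint_def.1 hdisj _ hy h2)

end H60SH

end S_DICHB
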