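import Mathlib
import Pool.Agent.H60.SHM.M1

set_option autoImplicit false

/-! Fitting height and commutator laws, part M2: this file joins several modules to save build time. -/

section S_NL

namespace H60SH

open Module

universe u

/-- Adapted basis for a nilpotent endomorphism. -/
theorem nl_basis {K : Type*} [Field K] (M : ℕ) : ∀ {L : Type u} [AddCommGroup L] [Module K L]
    [FiniteDimensional K L] (N : Module.End K L), N ^ M = 0 →
    ∃ (ι : Type u) (_ : Fintype ι) (b : Basis ι K L) (h : ι → ℕ), (∀ i, h i < M) ∧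
      ∀ i, N (b i) ∈ Submodule.span K (b '' {k | h k < h i}) := by
  induction M with
  | zero =>
    intro L _ _ _ N hN
    have hsub : Subsingleton L := by
      constructor
      intro x y
      have h1 : (1 : Module.End K L) = 0 := by simpa using hN
      have hx : x = 0 := by
        have := congrArg (fun f : Module.End K L => f x) h1
        simpa using this
      have hy : y = 0 := by
        have := congrArg (fun f : Module.End K L => f y) h1
        simpa using this
      rw [hx, hy]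
    refine ⟨PEmpty, inferInstance, Basis.empty L, fun i => i.elim, fun i => i.elim, fun i => i.elim⟩
  | succ M ih =>
    intro L _ _ _ N hN
    have hmaps : ∀ x ∈ LinearMap.range N, N x ∈ LinearMap.range N := fun x _ => ⟨x, rfl⟩
    let N' : Module.End K (LinearMap.range N) := N.restrict hmaps
    have hcoe : ∀ (n : ℕ) (x : LinearMap.range N), ((N' ^ n) x : L) = (N ^ n) (x : L) := by
      intro n
      induction n with
      | zero => intro x; simp
      | succ n ihn =>
        intro x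
        rw [pow_succ', pow_succ', Module.End.mul_apply, Module.End.mul_apply]
        change N ((N' ^ n) x : L) = _
        rw [ihn]
    have hN' : N' ^ M = 0 := by
      ext x
      rw [hcoe]
      obtain ⟨y, hy⟩ := x.2
      rw [← hy]
      have : (N ^ M) (N y) = (N ^ (M + 1)) y := by
        rw [pow_succ, Module.End.mul_apply]
      rw [this, hN]
      simp
    obtain ⟨ι', hι', b', h', hh', hb'⟩ := ih N' hN'
    have hli : LinearIndependent K (fun i => ((b' i : LinearMap.range N) : L)) :=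
      b'.linearIndependent.map' (LinearMap.range N).subtype (Submodule.ker_subtype _)
    let b := Basis.sumExtend hli
    have hfin : Finite (ι' ⊕ Basis.sumExtendIndex hli) := Module.Finite.finite_basis b
    have hbl : ∀ i, b (Sum.inl i) = ((b' i : LinearMap.range N) : L) := by
      intro i
      simp only [b, Basis.sumExtend, Basis.reindex_apply, Basis.extend_apply_self]
      rfl
    have hspan : ∀ x ∈ LinearMap.range N,
        x ∈ Submodule.span K (b '' {k | Sum.elim h' (fun _ => M) k < M}) := by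
      intro x hx
      have hmem : (⟨x, hx⟩ : LinearMap.range N) ∈ Submodule.span K (Set.range b') := by
        rw [b'.span_eq]; trivial
      have := Submodule.mem_map_of_mem (f := (LinearMap.range N).subtype) hmem
      rw [Submodule.map_span] at this
      refine Submodule.span_mono ?_ this
      rintro _ ⟨_, ⟨i, rfl⟩, rfl⟩
      refine ⟨Sum.inl i, ?_, hbl i⟩
      simpa using hh' i
    refine ⟨ι' ⊕ Basis.sumExtendIndex hli, Fintype.ofFinite _, b, Sum.elim h' (fun _ => M), ?_, ?_⟩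
    · rintro (i | i)
      · exact Nat.lt_succ_of_lt (hh' i)
      · exact Nat.lt_succ_self M
    · rintro (i | i)
      · rw [hbl]
        have hm := hb' i
        have := Submodule.mem_map_of_mem (f := (LinearMap.range N).subtype) hm
        rw [Submodule.map_span] at this
        refine Submodule.span_mono ?_ this
        rintro _ ⟨_, ⟨k, hk, rfl⟩, rfl⟩
        refine ⟨Sum.inl k, ?_, hbl k⟩
        simpa using hk
      · exact hspan _ ⟨_, rfl⟩

/-- The commutant of a matrix. -/
def MCm {K ι : Type*} [Field K] [Fintype ι] (A : Matrix ι ι K) : Submodule K (Matrix ι ι K) where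
  carrier := {X | X * A = A * X}
  add_mem' := by
    intro a b ha hb
    change (a + b) * A = A * (a + b)
    change a * A = A * a at ha
    change b * A = A * b at hb
    rw [add_mul, mul_add, ha, hb]
  zero_mem' := by
    change (0 : Matrix ι ι K) * A = A * 0
    simp
  smul_mem' := by
    intro c a ha
    change (c • a) * A = A * (c • a)
    change a * A = A * a at ha
    rw [smul_mul_assoc, mul_smul_comm, ha]

theorem mat_bound {K ι : Type*} [Field K] [Fintype ι] [DecidableEq ι] (A : Matrix ι ι K)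
    (h : ι → ℕ) (M : ℕ) (hM : ∀ i, h i < M) (hA : ∀ k j, h j ≤ h k → A k j = 0) :
    (Fintype.card ι) ^ 2 ≤ M * finrank K (MCm A) := by
  classical
  let S := {p : ι × ι // h p.1 ≤ h p.2}
  let S' := {p : ι × ι // h p.1 < h p.2}
  let T : (S → K) →ₗ[K] Matrix ι ι K :=
    { toFun := fun c => Matrix.of fun k j => if hh : h k ≤ h j then c ⟨(k, j), hh⟩ else 0
      map_add' := by
        intro c d
        ext k j
        by_cases hh : h k ≤ h j <;> simp [hh]
      map_smul' := by
        intro r c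
        ext k j
        by_cases hh : h k ≤ h j <;> simp [hh] }
  have hT0 : ∀ c k j, ¬ h k ≤ h j → T c k j = 0 := by
    intro c k j hh
    change (if hh : h k ≤ h j then c ⟨(k, j), hh⟩ else 0) = 0
    rw [dif_neg hh]
  let Φ : (S → K) →ₗ[K] (S' → K) :=
    { toFun := fun c p => (T c * A - A * T c) p.1.1 p.1.2
      map_add' := by
        intro c d
        ext p
        simp only [map_add, add_mul, mul_add, Pi.add_apply, Matrix.sub_apply, Matrix.add_apply]
        ring
      map_smul' := by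
        intro r c
        ext p
        simp only [map_smul, smul_mul_assoc, mul_smul_comm, Matrix.sub_apply, Matrix.smul_apply,
          RingHom.id_apply, Pi.smul_apply, smul_eq_mul]
        ring }
  have hker : ∀ c, Φ c = 0 → T c ∈ MCm A := by
    intro c hc
    change T c * A = A * T c
    rw [← sub_eq_zero]
    ext k j
    by_cases hkj : h k < h j
    · have := congrFun hc ⟨(k, j), hkj⟩
      simpa [Φ] using this
    · push Not at hkj
      simp only [Matrix.sub_apply, Matrix.mul_apply, Matrix.zero_apply]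
      rw [Finset.sum_eq_zero, Finset.sum_eq_zero, sub_zero]
      · intro l _
        by_cases hl : h l ≤ h j
        · rw [hA k l (by omega), zero_mul]
        · rw [hT0 c l j hl, mul_zero]
      · intro l _
        by_cases hl : h k ≤ h l
        · rw [hA l j (by omega), mul_zero]
        · rw [hT0 c k l hl, zero_mul]
  let Ψ : LinearMap.ker Φ →ₗ[K] MCm A :=
    (T.comp (LinearMap.ker Φ).subtype).codRestrict (MCm A) (fun c => hker c.1 c.2)
  have hΨ : Function.Injective Ψ := by
    intro c d hcd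
    have h1 : T c.1 = T d.1 := congrArg Subtype.val hcd
    apply Subtype.ext
    funext p
    have := congrFun (congrFun h1 p.1.1) p.1.2
    simpa [T, p.2] using this
  have h1 : finrank K (LinearMap.ker Φ) ≤ finrank K (MCm A) :=
    LinearMap.finrank_le_finrank_of_injective hΨ
  have h2 : finrank K (LinearMap.range Φ) + finrank K (LinearMap.ker Φ) = Fintype.card S := by
    rw [LinearMap.finrank_range_add_finrank_ker, Module.finrank_fintype_fun_eq_card]
  have h3 : finrank K (LinearMap.range Φ) ≤ Fintype.card S' := by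
    have := Submodule.finrank_le (LinearMap.range Φ)
    rwa [Module.finrank_fintype_fun_eq_card] at this
  -- counting
  have h4 : Fintype.card S = Fintype.card S' + (Finset.univ.filter (fun p : ι × ι => h p.1 = h p.2)).card := by
    rw [Fintype.card_subtype, Fintype.card_subtype, ← Finset.card_union_of_disjoint]
    · congr 1
      ext p
      simp only [Finset.mem_filter, Finset.mem_univ, true_and, Finset.mem_union]
      omega
    · rw [Finset.disjoint_filter]
      intro p _ hp hp'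
      omega
  have h5 : (Finset.univ.filter (fun p : ι × ι => h p.1 = h p.2)).card =
      ∑ i ∈ Finset.range M, ((Finset.univ.filter (fun j => h j = i)).card) ^ 2 := by
    rw [Finset.card_eq_sum_card_fiberwise (f := fun p : ι × ι => h p.1) (t := Finset.range M)]
    · apply Finset.sum_congr rfl
      intro i _
      rw [sq, ← Finset.card_product]
      congr 1
      ext p
      simp only [Finset.mem_filter, Finset.mem_univ, true_and, Finset.mem_product]
      constructor
      · rintro ⟨ha, hb⟩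
        exact ⟨hb, by omega⟩
      · rintro ⟨ha, hb⟩
        exact ⟨by omega, ha⟩
    · intro p _
      simpa using hM p.1
  have h6 : Fintype.card ι = ∑ i ∈ Finset.range M, (Finset.univ.filter (fun j => h j = i)).card := by
    rw [← Finset.card_univ]
    apply Finset.card_eq_sum_card_fiberwise
    intro p _
    simpa using hM p
  have h7 : (Fintype.card ι) ^ 2 ≤
      M * ∑ i ∈ Finset.range M, ((Finset.univ.filter (fun j => h j = i)).card) ^ 2 := by
    rw [h6]
    have := sq_sum_le_card_mul_sum_sq (s := Finset.range M)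
      (f := fun i => (Finset.univ.filter (fun j => h j = i)).card)
    simpa using this
  calc (Fintype.card ι) ^ 2 ≤ _ := h7
    _ ≤ M * finrank K (MCm A) := by
        apply Nat.mul_le_mul_left
        omega

/-- **NL**: a nilpotent endomorphism `N` with `N ^ M = 0` of a `D`-dimensional space has a
commutant of dimension at least `D² / M`. -/
theorem comm_bound {K L : Type*} [Field K] [AddCommGroup L] [Module K L] [FiniteDimensional K L]
    (N : Module.End K L) (M : ℕ) (hN : N ^ M = 0) :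
    (finrank K L) ^ 2 ≤ M * finrank K (Cm N) := by
  classical
  obtain ⟨ι, _, b, h, hM, hb⟩ := nl_basis M N hN
  have hA : ∀ k j, h j ≤ h k → LinearMap.toMatrix b b N k j = 0 := by
    intro k j hkj
    rw [LinearMap.toMatrix_apply]
    have hsub : Submodule.span K (b '' {k | h k < h j}) ≤ LinearMap.ker (b.coord k) := by
      rw [Submodule.span_le]
      rintro _ ⟨l, hl, rfl⟩
      rw [SetLike.mem_coe, LinearMap.mem_ker, Basis.coord_apply, Basis.repr_self,
        Finsupp.single_apply, if_neg]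
      rintro rfl
      exact absurd hl (by simpa using hkj)
    have := hsub (hb j)
    rwa [LinearMap.mem_ker, Basis.coord_apply] at this
  have key := mat_bound (LinearMap.toMatrix b b N) h M hM hA
  rw [finrank_eq_card_basis b]
  refine key.trans (Nat.mul_le_mul_left _ ?_)
  let F : MCm (LinearMap.toMatrix b b N) →ₗ[K] Cm N :=
    ((Matrix.toLin b b).toLinearMap.comp (MCm (LinearMap.toMatrix b b N)).subtype).codRestrict
      (Cm N) (by
        rintro ⟨X, hX⟩
        change (Matrix.toLin b b X) * N = N * (Matrix.toLin b b X)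
        have hN2 : N = Matrix.toLin b b (LinearMap.toMatrix b b N) := by simp
        have hX' : X * LinearMap.toMatrix b b N = LinearMap.toMatrix b b N * X := hX
        rw [hN2, Module.End.mul_eq_comp, Module.End.mul_eq_comp]
        rw [← Matrix.toLin_mul b b b, ← Matrix.toLin_mul b b b]
        rw [hX'])
  have hF : Function.Injective F := by
    intro X Y hXY
    have := congrArg Subtype.val hXY
    apply Subtype.ext
    exact (Matrix.toLin b b).injective this
  exact LinearMap.finrank_le_finrank_of_injective hF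

end H60SH

end S_NL

section S_CNT

namespace H60SH

open Module

section cnt

variable {K A W L : Type*} [Field K] [Group A] [AddCommGroup W]
    [AddCommGroup L] [Module K L]
    {π : A → W} {ρ : Representation K A L} {β : W → W → K}

/-- A chosen lift. -/
noncomputable def Heis.lft (h : Heis π ρ β) (w : W) : A := (h.surj w).choose

theorem Heis.cnt_lft_spec (h : Heis π ρ β) (w : W) : π (h.lft w) = w := (h.surj w).choose_spec

theorem cnt_rho_inv_mul (ρ : Representation K A L) (g : A) : ρ g⁻¹ * ρ g = 1 := by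
  rw [← map_mul, inv_mul_cancel, map_one]

theorem cnt_rho_mul_inv (ρ : Representation K A L) (g : A) : ρ g * ρ g⁻¹ = 1 := by
  rw [← map_mul, mul_inv_cancel, map_one]

/-- Conjugation by `ρ g`. -/
noncomputable def cntcj (ρ : Representation K A L) (g : A) :
    Module.End K L →ₗ[K] Module.End K L where
  toFun T := ρ g * T * ρ g⁻¹
  map_add' := by
    intro a b
    rw [mul_add, add_mul]
  map_smul' := by
    intro c a
    rw [mul_smul_comm, smul_mul_assoc, RingHom.id_apply]

theorem cnt_cj_apply (g : A) (T : Module.End K L) : cntcj ρ g T = ρ g * T * ρ g⁻¹ := rfl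

theorem cnt_cj_mul (g g' : A) (T : Module.End K L) : cntcj ρ (g * g') T = cntcj ρ g (cntcj ρ g' T) := by
  rw [cnt_cj_apply, cnt_cj_apply, cnt_cj_apply, mul_inv_rev, map_mul, map_mul]
  simp only [mul_assoc]

theorem Heis.cj_congr (h : Heis π ρ β) {g g' : A} (hg : π g = π g') (T : Module.End K L) :
    cntcj ρ g T = cntcj ρ g' T := by
  have hk : π (g'⁻¹ * g) = 0 := by
    rw [h.add, h.map_inv, hg]
    simp
  obtain ⟨c, hc⟩ := h.sc _ hk
  have hg2 : g = g' * (g'⁻¹ * g) := by group
  have h1 : cntcj ρ (g'⁻¹ * g) T = T := by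
    rw [cnt_cj_apply]
    have h2 := cnt_rho_mul_inv ρ (g'⁻¹ * g)
    rw [hc] at h2
    rw [hc, smul_mul_assoc, one_mul, smul_mul_assoc]
    rw [smul_mul_assoc, one_mul] at h2
    rw [← mul_smul_comm, h2, mul_one]
  calc cntcj ρ g T = cntcj ρ (g' * (g'⁻¹ * g)) T := by rw [← hg2]
    _ = cntcj ρ g' T := by rw [cnt_cj_mul, h1]

variable [Fintype W]

theorem Heis.cnt_sum_left [Nontrivial L] (h : Heis π ρ β) (w : W) (hw : w ≠ 0) :
    ∑ w', β w' w = 0 := by
  obtain ⟨u, hu⟩ := h.nd' w hw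
  have h1 : ∑ w', β (w' + u) w = ∑ w', β w' w :=
    Equiv.sum_comp (Equiv.addRight u) (fun w' => β w' w)
  have h2 : ∑ w', β (w' + u) w = (∑ w', β w' w) * β u w := by
    rw [Finset.sum_mul]
    exact Finset.sum_congr rfl (fun w' _ => h.beta_add_left w' u w)
  rw [h2] at h1
  by_contra h0
  apply hu
  exact mul_left_cancel₀ h0 (by rw [h1, mul_one])

theorem Heis.cnt_sum_right [Nontrivial L] (h : Heis π ρ β) (w' : W) (hw : w' ≠ 0) :
    ∑ w, β w' w = 0 := by
  obtain ⟨u, hu⟩ := h.nd w' hw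
  have h1 : ∑ w, β w' (w + u) = ∑ w, β w' w :=
    Equiv.sum_comp (Equiv.addRight u) (fun w => β w' w)
  have h2 : ∑ w, β w' (w + u) = (∑ w, β w' w) * β w' u := by
    rw [Finset.sum_mul]
    exact Finset.sum_congr rfl (fun w _ => h.beta_add_right w' w u)
  rw [h2] at h1
  by_contra h0
  apply hu
  exact mul_left_cancel₀ h0 (by rw [h1, mul_one])

/-- Projection on the eigenspace of `w`. -/
noncomputable def Heis.pr (h : Heis π ρ β) (w : W) : Module.End K L →ₗ[K] Module.End K L :=
  ((Fintype.card W : K))⁻¹ • ∑ w', (β w' w)⁻¹ • cntcj ρ (h.lft w')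

theorem Heis.pr_apply (h : Heis π ρ β) (w : W) (T : Module.End K L) :
    h.pr w T = ((Fintype.card W : K))⁻¹ • ∑ w', (β w' w)⁻¹ • cntcj ρ (h.lft w') T := by
  simp [Heis.pr]

theorem Heis.pr_mem [Nontrivial L] (h : Heis π ρ β) (w : W) (T : Module.End K L) (g : A) :
    cntcj ρ g (h.pr w T) = β (π g) w • h.pr w T := by
  rw [h.pr_apply, map_smul, map_sum, smul_comm (β (π g) w)]
  congr 1
  rw [Finset.smul_sum, ← Equiv.sum_comp (Equiv.addLeft (π g))
    (fun w' => β (π g) w • (β w' w)⁻¹ • cntcj ρ (h.lft w') T)]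
  refine Finset.sum_congr rfl (fun w' _ => ?_)
  rw [map_smul, Equiv.coe_addLeft, ← cnt_cj_mul, h.beta_add_left, smul_smul]
  have h1 : cntcj ρ (g * h.lft w') T = cntcj ρ (h.lft (π g + w')) T := by
    apply h.cj_congr
    rw [h.add, h.cnt_lft_spec, h.cnt_lft_spec]
  rw [h1]
  congr 1
  have := h.beta_ne (π g) w
  have := h.beta_ne w' w
  field_simp

theorem Heis.sum_pr [Nontrivial L] (h : Heis π ρ β) (hc : (Fintype.card W : K) ≠ 0)
    (T : Module.End K L) : ∑ w, h.pr w T = T := by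
  classical
  simp only [h.pr_apply]
  rw [← Finset.smul_sum, Finset.sum_comm]
  have h1 : ∀ w' : W, ∑ w, (β w' w)⁻¹ • cntcj ρ (h.lft w') T =
      if w' = 0 then (Fintype.card W : K) • T else 0 := by
    intro w'
    rw [← Finset.sum_smul]
    split_ifs with h0
    · subst h0
      have h2 : ∑ w, (β 0 w)⁻¹ = (Fintype.card W : K) := by
        simp [h.beta_zero_left]
      rw [h2]
      have h3 : cntcj ρ (h.lft 0) T = cntcj ρ (1 : A) T := by
        apply h.cj_congr
        rw [h.cnt_lft_spec, h.map_one]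
      rw [h3, cnt_cj_apply]
      simp
    · have h2 : ∑ w, (β w' w)⁻¹ = ∑ w, β (-w') w :=
        Finset.sum_congr rfl (fun w _ => (h.beta_neg_left w' w).symm)
      rw [h2, h.cnt_sum_right (-w') (neg_ne_zero.mpr h0), zero_smul]
  simp only [h1]
  rw [Finset.sum_ite_eq' Finset.univ (0 : W) (fun _ => (Fintype.card W : K) • T)]
  simp only [Finset.mem_univ, if_true]
  rw [smul_smul, inv_mul_cancel₀ hc, one_smul]

theorem Heis.pr_of_mem [Nontrivial L] [DecidableEq W] (h : Heis π ρ β)
    (hc : (Fintype.card W : K) ≠ 0)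
    (w : W) (S : Module.End K L) (hS : ∀ g, cntcj ρ g S = β (π g) w • S) (w₁ : W) :
    h.pr w₁ S = if w = w₁ then S else 0 := by
  rw [h.pr_apply]
  have h1 : ∀ w' : W, (β w' w₁)⁻¹ • cntcj ρ (h.lft w') S = β w' (w - w₁) • S := by
    intro w'
    rw [hS, h.cnt_lft_spec, smul_smul, sub_eq_add_neg, h.beta_add_right, h.beta_neg_right]
    congr 1
    ring
  simp only [h1]
  rw [← Finset.sum_smul]
  split_ifs with h0
  · subst h0
    have h2 : ∑ w', β w' (w - w) = (Fintype.card W : K) := by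
      simp [h.beta_zero_right]
    rw [h2, smul_smul, inv_mul_cancel₀ hc, one_smul]
  · rw [h.cnt_sum_left (w - w₁) (sub_ne_zero.mpr h0), zero_smul, smul_zero]

/-- Membership in `E0` in terms of conjugation. -/
theorem cnt_mem_E0_of_cj {T : Module.End K L} (hT : ∀ g, cntcj ρ g T = T) : T ∈ E0 ρ := by
  intro g
  have h1 := hT g
  rw [cnt_cj_apply] at h1
  calc T * ρ g = (ρ g * T * ρ g⁻¹) * ρ g := by rw [h1]
    _ = ρ g * T * (ρ g⁻¹ * ρ g) := by simp only [mul_assoc]
    _ = ρ g * T := by rw [cnt_rho_inv_mul, mul_one]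

/-- Shifting from the eigenspace of `w` to `E0`. -/
theorem Heis.cnt_shift_mem (h : Heis π ρ β) (w : W) (S : Module.End K L)
    (hS : ∀ g, cntcj ρ g S = β (π g) w • S) : S * ρ (h.lft w)⁻¹ ∈ E0 ρ := by
  intro g
  have h1 := hS g
  rw [cnt_cj_apply] at h1
  have h2 : ρ g * S = β (π g) w • (S * ρ g) := by
    calc ρ g * S = (ρ g * S * ρ g⁻¹) * ρ g := by
          rw [mul_assoc (ρ g * S), cnt_rho_inv_mul, mul_one]
      _ = β (π g) w • (S * ρ g) := by rw [h1, smul_mul_assoc]
  have h3 := h.comm g (h.lft w)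
  rw [h.cnt_lft_spec] at h3
  -- ρ g * ρ l = b • (ρ l * ρ g)
  have h4 : ρ (h.lft w)⁻¹ * ρ g = β (π g) w • (ρ g * ρ (h.lft w)⁻¹) := by
    calc ρ (h.lft w)⁻¹ * ρ g = ρ (h.lft w)⁻¹ * (ρ g * ρ (h.lft w)) * ρ (h.lft w)⁻¹ := by
          rw [mul_assoc, mul_assoc (ρ g), cnt_rho_mul_inv, mul_one]
      _ = β (π g) w • (ρ g * ρ (h.lft w)⁻¹) := by
          rw [h3, mul_smul_comm, smul_mul_assoc, ← mul_assoc, cnt_rho_inv_mul, one_mul]
  rw [mul_assoc, h4, mul_smul_comm, ← mul_assoc, ← mul_assoc, h2, smul_mul_assoc]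

theorem Heis.cnt_unshift_mem (h : Heis π ρ β) (w : W) (T : Module.End K L) (hT : T ∈ E0 ρ) (g : A) :
    cntcj ρ g (T * ρ (h.lft w)) = β (π g) w • (T * ρ (h.lft w)) := by
  have h1 := hT g
  have h3 := h.comm g (h.lft w)
  rw [h.cnt_lft_spec] at h3
  rw [cnt_cj_apply, ← mul_assoc, ← h1, mul_assoc T, h3, mul_smul_comm, smul_mul_assoc]
  congr 1
  rw [mul_assoc, mul_assoc, cnt_rho_mul_inv, mul_one]

theorem Heis.finrank_sq [Nontrivial L] [FiniteDimensional K L] (h : Heis π ρ β)
    (hc : (Fintype.card W : K) ≠ 0) :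
    (finrank K L) ^ 2 = Fintype.card W * finrank K (E0 ρ) := by
  classical
  let Ψ : (W → E0 ρ) →ₗ[K] Module.End K L :=
    { toFun := fun f => ∑ w, (f w : Module.End K L) * ρ (h.lft w)
      map_add' := by
        intro f g
        rw [← Finset.sum_add_distrib]
        refine Finset.sum_congr rfl (fun w _ => ?_)
        rw [Pi.add_apply, Submodule.coe_add, add_mul]
      map_smul' := by
        intro c f
        rw [RingHom.id_apply, Finset.smul_sum]
        refine Finset.sum_congr rfl (fun w _ => ?_)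
        rw [Pi.smul_apply, Submodule.coe_smul, smul_mul_assoc] }
  have hΨ : ∀ f, Ψ f = ∑ w, (f w : Module.End K L) * ρ (h.lft w) := fun f => rfl
  have hbij : Function.Bijective Ψ := by
    constructor
    · rw [injective_iff_map_eq_zero]
      intro f hf
      ext1 w
      have h1 : h.pr w (Ψ f) = (f w : Module.End K L) * ρ (h.lft w) := by
        rw [hΨ, map_sum]
        have h2 : ∀ w' : W, h.pr w ((f w' : Module.End K L) * ρ (h.lft w')) =
            if w' = w then (f w' : Module.End K L) * ρ (h.lft w') else 0 := by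
          intro w'
          exact h.pr_of_mem hc w' _ (h.cnt_unshift_mem w' _ (f w').2) w
        simp only [h2]
        rw [Finset.sum_ite_eq' Finset.univ w (fun w' => (f w' : Module.End K L) * ρ (h.lft w'))]
        simp
      rw [hf, map_zero] at h1
      have h2 : (f w : Module.End K L) = 0 := by
        calc (f w : Module.End K L) = ((f w : Module.End K L) * ρ (h.lft w)) *
              ρ (h.lft w)⁻¹ := by rw [mul_assoc, cnt_rho_mul_inv, mul_one]
          _ = 0 := by rw [← h1, zero_mul]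
      exact Subtype.ext h2
    · intro T
      refine ⟨fun w => ⟨h.pr w T * ρ (h.lft w)⁻¹, h.cnt_shift_mem w _ (h.pr_mem w T)⟩, ?_⟩
      rw [hΨ]
      conv_rhs => rw [← h.sum_pr hc T]
      refine Finset.sum_congr rfl (fun w _ => ?_)
      change h.pr w T * ρ (h.lft w)⁻¹ * ρ (h.lft w) = h.pr w T
      rw [mul_assoc, cnt_rho_inv_mul, mul_one]
  have h1 := (LinearEquiv.ofBijective Ψ hbij).finrank_eq
  have h2 : finrank K (Module.End K L) = finrank K L * finrank K L :=
    Module.finrank_linearMap K K L L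
  rw [Module.finrank_pi_fintype, h2] at h1
  rw [sq, ← h1]
  simp

end cnt

/-- Commuting operators: transport of the projections by `x`. -/
theorem Heis.pr_comm {K A W L : Type*} [Field K] [Group A] [AddCommGroup W] [Fintype W]
    [AddCommGroup L] [Module K L] [Nontrivial L]
    {π : A → W} {ρ : Representation K A L} {β : W → W → K} (h : Heis π ρ β)
    (x : Module.End K L) (hxi : Function.Injective x) (φ : A → A) (σ : W ≃+ W)
    (hx : ∀ g, x * ρ g = ρ (φ g) * x) (hφ : ∀ g, π (φ g) = σ (π g))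
    (T : Module.End K L) (hT : T * x = x * T) (w : W) :
    x * h.pr w T = h.pr (σ w) T * x := by
  rw [h.pr_apply, h.pr_apply, mul_smul_comm, smul_mul_assoc, Finset.mul_sum, Finset.sum_mul]
  congr 1
  rw [← Equiv.sum_comp σ.toEquiv (fun w' => (β w' (σ w))⁻¹ • cntcj ρ (h.lft w') T * x)]
  refine Finset.sum_congr rfl (fun w' _ => ?_)
  have h1 : σ.toEquiv w' = σ w' := rfl
  rw [h1, h.beta_inv x hxi φ σ hx hφ, mul_smul_comm, smul_mul_assoc]
  congr 1
  have h2 : cntcj ρ (h.lft (σ w')) T = cntcj ρ (φ (h.lft w')) T := by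
    apply h.cj_congr
    rw [h.cnt_lft_spec, hφ, h.cnt_lft_spec]
  rw [h2, cnt_cj_apply, cnt_cj_apply]
  set g := h.lft w'
  have h3 : x * ρ g⁻¹ = ρ (φ g)⁻¹ * x := by
    calc x * ρ g⁻¹ = ρ (φ g)⁻¹ * (ρ (φ g) * x) * ρ g⁻¹ := by
          rw [← mul_assoc, cnt_rho_inv_mul, one_mul]
      _ = ρ (φ g)⁻¹ * x := by
          rw [← hx g, mul_assoc, mul_assoc x, cnt_rho_mul_inv, mul_one]
  calc x * (ρ g * T * ρ g⁻¹) = (x * ρ g) * T * ρ g⁻¹ := by simp only [mul_assoc]
    _ = ρ (φ g) * (x * T) * ρ g⁻¹ := by rw [hx g]; simp only [mul_assoc]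
    _ = ρ (φ g) * T * (x * ρ g⁻¹) := by rw [← hT]; simp only [mul_assoc]
    _ = ρ (φ g) * T * ρ (φ g)⁻¹ * x := by rw [h3]; simp only [mul_assoc]

/-- Representatives of the orbits of a permutation all of whose nontrivial orbits have length
exactly `P`. -/
theorem cnt_orbit_reps {W : Type*} [AddCommGroup W] [Finite W] (σ : W ≃+ W) (P : ℕ) (hP0 : 0 < P)
    (hfree : ∀ w, w ≠ 0 → ∀ m, 0 < m → m < P → (σ^[m]) w ≠ w) (hP1 : ∀ w, (σ^[P]) w = w) :
    ∃ R : Finset W, R.card * P = Nat.card W - 1 ∧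
      ∀ w : W, w ≠ 0 → ∃ r ∈ R, ∃ i : ℕ, (σ^[i]) r = w := by
  classical
  haveI : Fintype W := Fintype.ofFinite W
  have hz : ∀ i, (σ^[i]) (0 : W) = 0 := by
    intro i
    exact iterate_map_zero σ i
  have hinj : ∀ i, Function.Injective (σ^[i]) := fun i => σ.injective.iterate i
  have hPk : ∀ k w, (σ^[P * k]) w = w := by
    intro k
    induction k with
    | zero => intro w; simp
    | succ n ih =>
      intro w
      rw [Nat.mul_succ, Function.iterate_add_apply, hP1, ih]
  have hmod : ∀ i w, (σ^[i % P]) w = (σ^[i]) w := by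
    intro i w
    conv_rhs => rw [← Nat.mod_add_div i P]
    rw [Function.iterate_add_apply, hPk]
  let s : Setoid {w : W // w ≠ 0} :=
    { r := fun a b => ∃ i : ℕ, (σ^[i]) a.1 = b.1
      iseqv :=
        { refl := fun a => ⟨0, rfl⟩
          symm := by
            rintro a b ⟨i, hi⟩
            refine ⟨P * i - i, ?_⟩
            rw [← hi, ← Function.iterate_add_apply]
            have h1 : P * i - i + i = P * i := by
              have : i ≤ P * i := Nat.le_mul_of_pos_left i hP0
              omega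
            rw [h1, hPk]
          trans := by
            rintro a b c ⟨i, hi⟩ ⟨j, hj⟩
            exact ⟨j + i, by rw [Function.iterate_add_apply, hi, hj]⟩ } }
  haveI : Fintype (Quotient s) := Fintype.ofFinite _
  have hne : ∀ (w : {w : W // w ≠ 0}) (i : ℕ), (σ^[i]) w.1 ≠ 0 := by
    intro w i h0
    apply w.2
    apply hinj i
    rw [h0, hz]
  let e : Quotient s × Fin P → {w : W // w ≠ 0} := fun a =>
    ⟨(σ^[a.2.1]) (Quotient.out a.1).1, hne _ _⟩
  have hebij : Function.Bijective e := by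
    constructor
    · rintro ⟨a, i⟩ ⟨b, j⟩ hab
      have h1 : (σ^[i.1]) (Quotient.out a).1 = (σ^[j.1]) (Quotient.out b).1 :=
        congrArg Subtype.val hab
      have h2 : a = b := by
        rw [← Quotient.out_eq a, ← Quotient.out_eq b]
        have h3 : s.r (Quotient.out a) ⟨(σ^[i.1]) (Quotient.out a).1, hne _ _⟩ := ⟨i.1, rfl⟩
        have h4 : s.r (Quotient.out b) ⟨(σ^[j.1]) (Quotient.out b).1, hne _ _⟩ := ⟨j.1, rfl⟩
        have h5 : s.r (Quotient.out b) ⟨(σ^[i.1]) (Quotient.out a).1, hne _ _⟩ := by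
          obtain ⟨t, ht⟩ := h4
          exact ⟨t, by rw [ht]; exact h1.symm⟩
        exact Quotient.sound (s.iseqv.trans h3 (s.iseqv.symm h5))
      subst h2
      have h3 : ∀ i j : ℕ, i < P → j < P → i ≤ j →
          (σ^[i]) (Quotient.out a).1 = (σ^[j]) (Quotient.out a).1 → i = j := by
        intro i j hi hj hij h4
        by_contra hne'
        have hlt : i < j := lt_of_le_of_ne hij hne'
        have h5 : (σ^[i]) ((σ^[j - i]) (Quotient.out a).1) = (σ^[i]) (Quotient.out a).1 := by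
          rw [← Function.iterate_add_apply, Nat.add_sub_cancel' hij, h4]
        exact hfree _ (Quotient.out a).2 (j - i) (by omega) (by omega) (hinj i h5)
      have h4 : i.1 = j.1 := by
        rcases le_total i.1 j.1 with h5 | h5
        · exact h3 _ _ i.2 j.2 h5 h1
        · exact (h3 _ _ j.2 i.2 h5 h1.symm).symm
      rw [Prod.mk.injEq]
      exact ⟨rfl, Fin.ext h4⟩
    · intro w
      obtain ⟨i, hi⟩ := Quotient.exact (Quotient.out_eq (⟦w⟧ : Quotient s))
      refine ⟨(⟦w⟧, ⟨i % P, Nat.mod_lt _ hP0⟩), ?_⟩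
      apply Subtype.ext
      change (σ^[i % P]) (Quotient.out (⟦w⟧ : Quotient s)).1 = w.1
      rw [hmod, hi]
  have hcard := Fintype.card_of_bijective hebij
  rw [Fintype.card_prod, Fintype.card_fin] at hcard
  refine ⟨Finset.univ.image (fun a : Quotient s => (Quotient.out a).1), ?_, ?_⟩
  · rw [Finset.card_image_of_injective, Finset.card_univ, hcard]
    · rw [Fintype.card_subtype_compl, Nat.card_eq_fintype_card]
      simp
    · intro a b hab
      have h1 : Quotient.out a = Quotient.out b := Subtype.ext hab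
      rw [← Quotient.out_eq a, ← Quotient.out_eq b, h1]
  · intro w hw
    obtain ⟨⟨a, i⟩, hai⟩ := hebij.2 ⟨w, hw⟩
    refine ⟨(Quotient.out a).1, Finset.mem_image_of_mem _ (Finset.mem_univ a), i.1, ?_⟩
    exact congrArg Subtype.val hai

theorem cnt_injective_of_unip {K L : Type*} [Field K] [AddCommGroup L] [Module K L]
    (x : Module.End K L) (M : ℕ) (hM : (x - 1) ^ M = 0) : Function.Injective x := by
  rw [injective_iff_map_eq_zero]
  intro v hv
  have h1 : ∀ m : ℕ, ((x - 1) ^ m) v = (-1 : K) ^ m • v := by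
    intro m
    induction m with
    | zero => simp
    | succ n ih =>
      rw [pow_succ', Module.End.mul_apply, ih, map_smul, LinearMap.sub_apply, hv, pow_succ']
      simp
  have h2 := h1 M
  rw [hM, LinearMap.zero_apply] at h2
  rcases smul_eq_zero.mp h2.symm with h3 | h3
  · exact absurd h3 (pow_ne_zero _ (neg_ne_zero.mpr one_ne_zero))
  · exact h3

/-- **CNT**: the counting lemma.  `x` normalises the Heisenberg action and permutes `W ∖ {0}` with
all orbits of length exactly `P`. -/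
theorem heis_count {K A W L : Type*} [Field K] [Group A] [AddCommGroup W] [Finite W]
    [AddCommGroup L] [Module K L] [FiniteDimensional K L] [Nontrivial L]
    {π : A → W} {ρ : Representation K A L} {β : W → W → K} (h : Heis π ρ β)
    (hcard : (Nat.card W : K) ≠ 0)
    (x : Module.End K L) (φ : A → A) (σ : W ≃+ W)
    (hx : ∀ g, x * ρ g = ρ (φ g) * x) (hφ : ∀ g, π (φ g) = σ (π g))
    (M : ℕ) (hM : (x - 1) ^ M = 0) (P : ℕ) (hP0 : 0 < P)
    (hfree : ∀ w, w ≠ 0 → ∀ m, 0 < m → m < P → (σ^[m]) w ≠ w) (hP1 : ∀ w, (σ^[P]) w = w) :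
    (finrank K L) ^ 2 = Nat.card W * finrank K (E0 ρ) ∧ P ∣ Nat.card W - 1 ∧
    Nat.card W * finrank K (E0 ρ) ≤
      M * (finrank K ↥(E0 ρ ⊓ Cm x) + (Nat.card W - 1) / P * finrank K (E0 ρ)) := by
  classical
  haveI : Fintype W := Fintype.ofFinite W
  have hxi := cnt_injective_of_unip x M hM
  have hcF : (Fintype.card W : K) ≠ 0 := by rwa [← Nat.card_eq_fintype_card]
  have hsq := h.finrank_sq hcF
  rw [← Nat.card_eq_fintype_card] at hsq
  obtain ⟨R, hRc, hR⟩ := cnt_orbit_reps σ P hP0 hfree hP1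
  have hRdiv : (Nat.card W - 1) / P = R.card := by
    rw [← hRc]
    exact Nat.mul_div_cancel _ hP0
  refine ⟨hsq, ⟨R.card, by rw [← hRc, mul_comm]⟩, ?_⟩
  rw [← hsq]
  refine le_trans (comm_bound (x - 1) M hM) (Nat.mul_le_mul_left M ?_)
  have hCm : Cm (x - 1) = Cm x := by
    ext T
    rw [mem_Cm, mem_Cm, mul_sub, sub_mul, mul_one, one_mul]
    exact sub_left_inj
  rw [hCm, hRdiv]
  have hp0 : ∀ T ∈ Cm x, h.pr 0 T ∈ E0 ρ ⊓ Cm x := by
    intro T hT
    refine ⟨?_, ?_⟩
    · apply cnt_mem_E0_of_cj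
      intro g
      rw [h.pr_mem, h.beta_zero_right, one_smul]
    · have h1 := h.pr_comm x hxi φ σ hx hφ T hT 0
      rw [map_zero] at h1
      exact h1.symm
  let Θ : Cm x →ₗ[K] ↥(E0 ρ ⊓ Cm x) × (R → E0 ρ) :=
    { toFun := fun T => (⟨h.pr 0 T.1, hp0 _ T.2⟩,
        fun r => ⟨h.pr r.1 T.1 * ρ (h.lft r.1)⁻¹, h.cnt_shift_mem r.1 _ (h.pr_mem r.1 T.1)⟩)
      map_add' := by
        intro a b
        refine Prod.ext ?_ ?_
        · apply Subtype.ext
          change h.pr 0 (a.1 + b.1) = h.pr 0 a.1 + h.pr 0 b.1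
          rw [map_add]
        · funext r
          apply Subtype.ext
          change h.pr r.1 (a.1 + b.1) * ρ (h.lft r.1)⁻¹ =
            h.pr r.1 a.1 * ρ (h.lft r.1)⁻¹ + h.pr r.1 b.1 * ρ (h.lft r.1)⁻¹
          rw [map_add, add_mul]
      map_smul' := by
        intro c a
        refine Prod.ext ?_ ?_
        · apply Subtype.ext
          change h.pr 0 (c • a.1) = c • h.pr 0 a.1
          rw [map_smul]
        · funext r
          apply Subtype.ext
          change h.pr r.1 (c • a.1) * ρ (h.lft r.1)⁻¹ =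
            c • (h.pr r.1 a.1 * ρ (h.lft r.1)⁻¹)
          rw [map_smul, smul_mul_assoc] }
  have hΘ : Function.Injective Θ := by
    rw [injective_iff_map_eq_zero]
    intro T hT
    have h0 : h.pr 0 T.1 = 0 := congrArg (fun a => (a.1 : Module.End K L)) hT
    have hr : ∀ r ∈ R, h.pr r T.1 = 0 := by
      intro r hr
      have h1 : h.pr r T.1 * ρ (h.lft r)⁻¹ = 0 :=
        congrArg (fun a => (a.2 ⟨r, hr⟩ : Module.End K L)) hT
      calc h.pr r T.1 = (h.pr r T.1 * ρ (h.lft r)⁻¹) * ρ (h.lft r) := by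
            rw [mul_assoc, cnt_rho_inv_mul, mul_one]
        _ = 0 := by rw [h1, zero_mul]
    have hit : ∀ (i : ℕ) (w : W), h.pr w T.1 = 0 → h.pr ((σ^[i]) w) T.1 = 0 := by
      intro i
      induction i with
      | zero => intro w hw; simpa using hw
      | succ n ih =>
        intro w hw
        rw [Function.iterate_succ_apply']
        have h1 := h.pr_comm x hxi φ σ hx hφ T.1 T.2 ((σ^[n]) w)
        rw [ih w hw, mul_zero] at h1
        -- 0 = pr (σ ..) * x, x surjective
        have hsurj : Function.Surjective x := LinearMap.injective_iff_surjective.mp hxi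
        ext v
        obtain ⟨u, rfl⟩ := hsurj v
        have h2 := LinearMap.congr_fun h1 u
        simpa using h2.symm
    have hall : ∀ w, h.pr w T.1 = 0 := by
      intro w
      by_cases hw : w = 0
      · rw [hw]; exact h0
      · obtain ⟨r, hrR, i, hi⟩ := hR w hw
        rw [← hi]
        exact hit i r (hr r hrR)
    apply Subtype.ext
    have h2 := h.sum_pr hcF T.1
    rw [← h2]
    change ∑ w, h.pr w T.1 = 0
    exact Finset.sum_eq_zero (fun w _ => hall w)
  have h1 := LinearMap.finrank_le_finrank_of_injective hΘ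
  rw [Module.finrank_prod, Module.finrank_pi_fintype] at h1
  simpa using h1

end H60SH

end S_CNT

section S_SQR

namespace H60SH

open Module

/-- **SQR**: over an algebraically closed field the order of `W` is a square. -/
theorem heis_square {K A W L : Type*} [Field K] [IsAlgClosed K] [Group A] [AddCommGroup W]
    [Finite W] [AddCommGroup L] [Module K L] [FiniteDimensional K L] [Nontrivial L]
    {π : A → W} {ρ : Representation K A L} {β : W → W → K} (h : Heis π ρ β)
    (hcard : (Nat.card W : K) ≠ 0) : ∃ r : ℕ, Nat.card W = r * r := by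
  classical
  set Pr : Submodule K L → Prop := fun U => U ≠ ⊥ ∧ ∀ g, ∀ v ∈ U, ρ g v ∈ U with hPr
  have hex : ∃ n, ∃ U : Submodule K L, Pr U ∧ finrank K U = n :=
    ⟨_, ⊤, ⟨top_ne_bot, fun _ _ _ => Submodule.mem_top⟩, rfl⟩
  obtain ⟨U, ⟨hU0, hUi⟩, hUn⟩ := Nat.find_spec hex
  have hmin : ∀ U' : Submodule K L, Pr U' → finrank K U ≤ finrank K U' := by
    intro U' h'
    rw [hUn]; exact Nat.find_min' hex ⟨U', h', rfl⟩
  have : Nontrivial U := Submodule.nontrivial_iff_ne_bot.2 hU0
  -- the restricted representation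
  let ρ0 : Representation K A U :=
    { toFun := fun g => (ρ g).restrict (hUi g)
      map_one' := by
        ext v
        simp [LinearMap.restrict_apply]
      map_mul' := by
        intro g k
        ext v
        simp [LinearMap.restrict_apply] }
  have hρ0 : ∀ g (v : U), ((ρ0 g v : U) : L) = ρ g v := fun g v => rfl
  have h0 : Heis π ρ0 β := by
    refine ⟨h.surj, h.add, ?_, ?_, h.nd⟩
    · intro g hg
      obtain ⟨c, hc⟩ := h.sc g hg
      refine ⟨c, ?_⟩
      ext v
      rw [hρ0, hc]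
      simp
    · intro g k
      ext v
      have := congrArg (fun T : Module.End K L => T (v : L)) (h.comm g k)
      simpa [hρ0] using this
  -- Schur
  have hschur : ∀ T ∈ E0 ρ0, ∃ c : K, c • (1 : Module.End K U) = T := by
    intro T hT
    obtain ⟨μ, hμ⟩ := Module.End.exists_eigenvalue T
    set N := Module.End.eigenspace T μ with hN
    have hN0 : N ≠ ⊥ := hμ
    have hNi : ∀ g, ∀ v ∈ N, ρ0 g v ∈ N := by
      intro g v hv
      rw [hN, Module.End.mem_eigenspace_iff] at hv ⊢
      have h1 := congrArg (fun T : Module.End K U => T v) (hT g)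
      simp only [Module.End.mul_apply] at h1
      rw [h1, hv, _root_.map_smul]
    have hm := hmin (N.map U.subtype) ⟨by
        intro hb
        apply hN0
        rw [eq_bot_iff]
        intro v hv
        have : (v : L) ∈ N.map U.subtype := ⟨v, hv, rfl⟩
        rw [hb, Submodule.mem_bot] at this
        rw [Submodule.mem_bot]
        exact Subtype.ext this, by
        rintro g _ ⟨v, hv, rfl⟩
        exact ⟨ρ0 g v, hNi g v hv, rfl⟩⟩
    rw [Submodule.finrank_map_subtype_eq] at hm
    have hNt : N = ⊤ := Submodule.eq_top_of_finrank_eq (le_antisymm (Submodule.finrank_le N) hm)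
    refine ⟨μ, ?_⟩
    ext v
    have hv : v ∈ N := by rw [hNt]; exact Submodule.mem_top
    rw [hN, Module.End.mem_eigenspace_iff] at hv
    rw [hv]; simp
  have hE : finrank K (E0 ρ0) = 1 := by
    have h1mem : (1 : Module.End K U) ∈ E0 ρ0 := by
      intro g; rw [one_mul, mul_one]
    rw [finrank_eq_one_iff_of_nonzero' (⟨1, h1mem⟩ : E0 ρ0)]
    · rintro ⟨T, hT⟩
      obtain ⟨c, hc⟩ := hschur T hT
      exact ⟨c, Subtype.ext hc⟩
    · intro h1
      have h2 : (1 : Module.End K U) = 0 := congrArg Subtype.val h1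
      exact one_ne_zero h2
  have hc := (heis_count h0 hcard (1 : Module.End K U) id (AddEquiv.refl W) (by
      intro g; rw [one_mul, mul_one]; rfl) (fun g => rfl) 1 (by simp) 1 one_pos
    (fun w _ m hm hm1 => by omega) (fun w => rfl)).1
  rw [hE, mul_one] at hc
  exact ⟨finrank K U, by rw [← hc]; ring⟩

end H60SH

end S_SQR

section S_COR

namespace H60SH

open Module

private theorem E0_pos {K A L : Type*} [Field K] [Group A] [AddCommGroup L] [Module K L]
    [FiniteDimensional K L] [Nontrivial L] (ρ : Representation K A L) :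
    0 < finrank K (E0 ρ) := by
  rw [Module.finrank_pos_iff]
  refine ⟨⟨⟨0, (E0 ρ).zero_mem⟩, ⟨1, ?_⟩, ?_⟩⟩
  · rw [mem_E0]
    intro g
    rw [one_mul, mul_one]
  · intro h
    have h1 : (0 : Module.End K L) = 1 := congrArg Subtype.val h
    exact zero_ne_one h1

private theorem inf_le' {K A L : Type*} [Field K] [Group A] [AddCommGroup L] [Module K L]
    [FiniteDimensional K L] (ρ : Representation K A L) (x : Module.End K L) :
    finrank K ↥(E0 ρ ⊓ Cm x) ≤ finrank K (E0 ρ) :=
  Submodule.finrank_mono inf_le_left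

/-- **U1** -/
theorem heis_U1 {K A W L : Type*} [Field K] [Group A] [AddCommGroup W] [Finite W]
    [AddCommGroup L] [Module K L] [FiniteDimensional K L] [Nontrivial L]
    {π : A → W} {ρ : Representation K A L} {β : W → W → K} (h : Heis π ρ β)
    (hcard : (Nat.card W : K) ≠ 0)
    (x : Module.End K L) (φ : A → A) (σ : W ≃+ W)
    (hx : ∀ g, x * ρ g = ρ (φ g) * x) (hφ : ∀ g, π (φ g) = σ (π g))
    (P : ℕ) (hP0 : 3 ≤ P) (hM : (x - 1) ^ (P - 1) = 0)
    (hfree : ∀ w, w ≠ 0 → ∀ m, 0 < m → m < P → (σ^[m]) w ≠ w) (hP1 : ∀ w, (σ^[P]) w = w) :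
    Nat.card W ≤ (P - 1) ^ 2 := by
  obtain ⟨_, h2, h3⟩ := heis_count h hcard x φ σ hx hφ (P - 1) hM P (by omega) hfree hP1
  have hb := E0_pos ρ
  have hb' := inf_le' ρ x
  have hn : 0 < Nat.card W := Nat.card_pos
  obtain ⟨t, ht⟩ := h2
  obtain ⟨Q, rfl⟩ : ∃ Q, P = Q + 1 := ⟨P - 1, by omega⟩
  have htdiv : (Nat.card W - 1) / (Q + 1) = t := by
    rw [ht]; exact Nat.mul_div_cancel_left t (by omega)
  rw [htdiv] at h3
  have hn' : Nat.card W = (Q + 1) * t + 1 := by omega
  rw [Nat.add_sub_cancel] at h3 ⊢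
  rw [hn'] at h3 ⊢
  set b := finrank K (E0 ρ) with hbdef
  set b' := finrank K ↥(E0 ρ ⊓ Cm x) with hb'def
  have h4 : ((Q + 1) * t + 1) * b ≤ (Q * (1 + t)) * b := by
    calc ((Q + 1) * t + 1) * b ≤ Q * (b' + t * b) := h3
      _ ≤ Q * (b + t * b) := Nat.mul_le_mul_left _ (Nat.add_le_add_right hb' _)
      _ = (Q * (1 + t)) * b := by ring
  have h5 : (Q + 1) * t + 1 ≤ Q * (1 + t) := Nat.le_of_mul_le_mul_right h4 hb
  have h6 : t + 1 ≤ Q := by nlinarith
  obtain ⟨s, rfl⟩ : ∃ s, Q = t + 1 + s := ⟨Q - (t + 1), by omega⟩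
  nlinarith [Nat.zero_le s, Nat.zero_le t, Nat.zero_le (s * t), Nat.zero_le (s * s)]

/-- **U2**: for `P` a power of an odd prime and `W ≠ 0` there is equality, and the commutant of
the Heisenberg action commutes with `x`. -/
theorem heis_U2 {K A W L : Type*} [Field K] [IsAlgClosed K] [Group A] [AddCommGroup W] [Finite W]
    [Nontrivial W]
    [AddCommGroup L] [Module K L] [FiniteDimensional K L] [Nontrivial L]
    {π : A → W} {ρ : Representation K A L} {β : W → W → K} (h : Heis π ρ β)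
    (hcard : (Nat.card W : K) ≠ 0)
    (x : Module.End K L) (φ : A → A) (σ : W ≃+ W)
    (hx : ∀ g, x * ρ g = ρ (φ g) * x) (hφ : ∀ g, π (φ g) = σ (π g))
    (p k : ℕ) (hp : p.Prime) (hp2 : p ≠ 2) (hk : 1 ≤ k) (hM : (x - 1) ^ (p ^ k - 1) = 0)
    (hfree : ∀ w, w ≠ 0 → ∀ m, 0 < m → m < p ^ k → (σ^[m]) w ≠ w)
    (hP1 : ∀ w, (σ^[p ^ k]) w = w) :
    Nat.card W = (p ^ k - 1) ^ 2 ∧ ∀ T ∈ E0 ρ, T * x = x * T := by
  have hp3 : 3 ≤ p := by
    have := hp.two_le
    omega
  have hP3 : 3 ≤ p ^ k := by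
    calc 3 ≤ p := hp3
      _ = p ^ 1 := (pow_one p).symm
      _ ≤ p ^ k := Nat.pow_le_pow_right (by omega) hk
  have hU1 := heis_U1 h hcard x φ σ hx hφ (p ^ k) hP3 hM hfree hP1
  obtain ⟨_, h2, h3⟩ := heis_count h hcard x φ σ hx hφ (p ^ k - 1) hM (p ^ k) (by omega) hfree hP1
  have hb := E0_pos ρ
  have hb' := inf_le' ρ x
  obtain ⟨r, hr⟩ := heis_square h hcard
  have hn : 1 < Nat.card W := Finite.one_lt_card
  have hr2 : 2 ≤ r := by
    by_contra hcon
    have : r = 0 ∨ r = 1 := by omega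
    rcases this with rfl | rfl <;> omega
  obtain ⟨r', rfl⟩ : ∃ r', r = r' + 1 := ⟨r - 1, by omega⟩
  have hfac : Nat.card W - 1 = r' * (r' + 2) := by
    rw [hr]
    have : (r' + 1) * (r' + 1) = r' * (r' + 2) + 1 := by ring
    omega
  have hor : p ^ k ∣ r' ∨ p ^ k ∣ r' + 2 := by
    rw [hfac] at h2
    by_cases hpr : p ∣ r'
    · left
      have hnot : ¬ p ∣ r' + 2 := by
        intro hcon
        have : p ∣ 2 := (Nat.dvd_add_right hpr).1 hcon
        have := Nat.le_of_dvd (by norm_num) this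
        omega
      have hcop : Nat.Coprime (p ^ k) (r' + 2) :=
        Nat.Coprime.pow_left k ((Nat.Prime.coprime_iff_not_dvd hp).2 hnot)
      exact hcop.dvd_of_dvd_mul_right h2
    · right
      have hcop : Nat.Coprime (p ^ k) r' :=
        Nat.Coprime.pow_left k ((Nat.Prime.coprime_iff_not_dvd hp).2 hpr)
      exact hcop.dvd_of_dvd_mul_left h2
  obtain ⟨Q, hQ⟩ : ∃ Q, p ^ k = Q + 1 := ⟨p ^ k - 1, by omega⟩
  rw [hQ] at h2 h3 hU1 hor ⊢
  rw [Nat.add_sub_cancel] at h3 hU1 ⊢
  have hrQ : r' + 1 ≤ Q := by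
    rw [hr, pow_two] at hU1
    exact Nat.mul_self_le_mul_self_iff.1 hU1
  have hrQ' : r' + 1 = Q := by
    rcases hor with h' | h'
    · have := Nat.le_of_dvd (by omega) h'
      omega
    · have := Nat.le_of_dvd (by omega) h'
      omega
  have hcardW : Nat.card W = Q ^ 2 := by
    rw [hr, hrQ', pow_two]
  refine ⟨hcardW, ?_⟩
  have htdiv : (Nat.card W - 1) / (Q + 1) = Q - 1 := by
    have : Nat.card W - 1 = (Q + 1) * (Q - 1) := by
      rw [hfac, ← hrQ']
      rw [Nat.add_sub_cancel]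
      ring
    rw [this]
    exact Nat.mul_div_cancel_left _ (by omega)
  rw [htdiv, hcardW] at h3
  set b := finrank K (E0 ρ) with hbdef
  set b' := finrank K ↥(E0 ρ ⊓ Cm x) with hb'def
  have h4 : Q * (Q * b) ≤ Q * (b' + (Q - 1) * b) := by
    calc Q * (Q * b) = Q ^ 2 * b := by ring
      _ ≤ Q * (b' + (Q - 1) * b) := h3
  have h5 : Q * b ≤ b' + (Q - 1) * b := Nat.le_of_mul_le_mul_left h4 (by omega)
  have h6 : b ≤ b' := by
    obtain ⟨s, rfl⟩ : ∃ s, Q = s + 1 := ⟨Q - 1, by omega⟩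
    rw [Nat.add_sub_cancel] at h5
    have : (s + 1) * b = b + s * b := by ring
    omega
  have h7 : E0 ρ ⊓ Cm x = E0 ρ :=
    Submodule.eq_of_le_of_finrank_le inf_le_left h6
  intro T hT
  rw [← h7] at hT
  exact hT.2

/-- **U3**: quadratic action. -/
theorem heis_U3 {K A W L : Type*} [Field K] [Group A] [AddCommGroup W] [Finite W]
    [Nontrivial W]
    [AddCommGroup L] [Module K L] [FiniteDimensional K L] [Nontrivial L]
    {π : A → W} {ρ : Representation K A L} {β : W → W → K} (h : Heis π ρ β)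
    (hcard : (Nat.card W : K) ≠ 0)
    (x : Module.End K L) (φ : A → A) (σ : W ≃+ W)
    (hx : ∀ g, x * ρ g = ρ (φ g) * x) (hφ : ∀ g, π (φ g) = σ (π g))
    (p : ℕ) (hp : p.Prime) (hp2 : p ≠ 2) (hM : (x - 1) ^ 2 = 0)
    (hfree : ∀ w, w ≠ 0 → ∀ m, 0 < m → m < p → (σ^[m]) w ≠ w)
    (hP1 : ∀ w, (σ^[p]) w = w) :
    p = 3 ∧ Nat.card W = 4 := by
  have hp3 : 3 ≤ p := by
    have := hp.two_le
    omega
  obtain ⟨_, h2, h3⟩ := heis_count h hcard x φ σ hx hφ 2 hM p (by omega) hfree hP1
  have hb := E0_pos ρ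
  have hb' := inf_le' ρ x
  have hn : 1 < Nat.card W := Finite.one_lt_card
  obtain ⟨t, ht⟩ := h2
  have htdiv : (Nat.card W - 1) / p = t := by
    rw [ht]; exact Nat.mul_div_cancel_left t (by omega)
  rw [htdiv] at h3
  have hn' : Nat.card W = p * t + 1 := by omega
  have ht0 : 0 < t := by
    rcases Nat.eq_zero_or_pos t with h0 | h0
    · rw [h0] at hn'; omega
    · exact h0
  rw [hn'] at h3
  set b := finrank K (E0 ρ) with hbdef
  set b' := finrank K ↥(E0 ρ ⊓ Cm x) with hb'def
  have h4 : (p * t + 1) * b ≤ (2 * (1 + t)) * b := by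
    calc (p * t + 1) * b ≤ 2 * (b' + t * b) := h3
      _ ≤ 2 * (b + t * b) := Nat.mul_le_mul_left _ (Nat.add_le_add_right hb' _)
      _ = (2 * (1 + t)) * b := by ring
  have h5 : p * t + 1 ≤ 2 * (1 + t) := Nat.le_of_mul_le_mul_right h4 hb
  obtain ⟨s, rfl⟩ : ∃ s, p = 3 + s := ⟨p - 3, by omega⟩
  have h6 : t + s * t ≤ 1 := by nlinarith
  have h7 : t = 1 := by
    have : 0 ≤ s * t := Nat.zero_le _
    omega
  subst h7
  have h8 : s = 0 := by omega
  subst h8
  refine ⟨rfl, ?_⟩
  rw [hn']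

end H60SH

end S_COR

section S_SUB

namespace H60SH

open Module

variable {K V F A W : Type*} [Field K] [AddCommGroup V] [Module K V]
  [FiniteDimensional K V] [Nontrivial V] [Group F] [Finite F] [Group A]
  [MulDistribMulAction F A] [AddCommGroup W] [Finite W] [DistribMulAction F W]
  {p q : ℕ} [Fact p.Prime] [CharP K p]
  {π : A → W} {ρA : Representation K A V} {β : W → W → K} {ρF : Representation K F V}

omit [FiniteDimensional K V] [Nontrivial V] [Finite F] [Finite W] [Fact p.Prime] [CharP K p] in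
/-- the restricted system -/
theorem sub_data (S : Sys p q π ρA β ρF)
    {X : AddSubgroup W} {U : Submodule K V} (hs : SubSys π ρA β X U)
    (f : F) (hfX : ∀ w ∈ X, f • w ∈ X) (hfU : ∀ v ∈ U, ρF f v ∈ U) (P : ℕ) (hP0 : 1 ≤ P)
    (hP1 : ∀ w ∈ X, (f ^ P) • w = w) :
    ∃ (A' : Subgroup A) (π' : A' → X) (ρ' : Representation K A' U) (x : Module.End K U)
      (φ : A' → A') (σ : X ≃+ X),
      Heis π' ρ' (fun u v : X => β (u : W) (v : W)) ∧ (∀ g, x * ρ' g = ρ' (φ g) * x) ∧
      (∀ g, π' (φ g) = σ (π' g)) ∧ (∀ v : U, ((x v : U) : V) = ρF f v) ∧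
      (∀ w : X, ((σ w : X) : W) = f • (w : W)) ∧
      (∀ (g : A') (v : U), ((ρ' g v : U) : V) = ρA (g : A) v) ∧
      (∀ g : A', π (g : A) ∈ X) := by
  have hpowX : ∀ n : ℕ, ∀ w ∈ X, (f ^ n) • w ∈ X := by
    intro n
    induction n with
    | zero => intro w hw; rw [pow_zero, one_smul]; exact hw
    | succ n ih => intro w hw; rw [pow_succ', mul_smul]; exact hfX _ (ih w hw)
  have hinvX : ∀ w ∈ X, f⁻¹ • w ∈ X := by
    intro w hw
    have h1 : f⁻¹ • w = (f ^ (P - 1)) • w := by
      rw [inv_smul_eq_iff, ← mul_smul, ← pow_succ', Nat.sub_add_cancel hP0, hP1 w hw]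
    rw [h1]; exact hpowX _ w hw
  let A' : Subgroup A :=
    { carrier := {g | π g ∈ X}
      mul_mem' := by
        intro a b ha hb
        change π (a * b) ∈ X
        rw [S.heis.add]; exact X.add_mem ha hb
      one_mem' := by
        change π 1 ∈ X
        rw [S.heis.map_one]; exact X.zero_mem
      inv_mem' := by
        intro a ha
        change π a⁻¹ ∈ X
        rw [S.heis.map_inv]; exact X.neg_mem ha }
  have hA' : ∀ g : A', π (g : A) ∈ X := fun g => g.2
  let π' : A' → X := fun g => ⟨π (g : A), g.2⟩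
  have hinv : ∀ (g : A'), ∀ v ∈ U, ρA (g : A) v ∈ U := fun g v hv => hs.act g g.2 v hv
  let ρ' : Representation K A' U :=
    { toFun := fun g => (ρA (g : A)).restrict (hinv g)
      map_one' := by
        apply LinearMap.ext; intro v; apply Subtype.ext
        simp [LinearMap.restrict_apply]
      map_mul' := by
        intro a b
        apply LinearMap.ext; intro v; apply Subtype.ext
        simp [LinearMap.restrict_apply, Module.End.mul_apply] }
  have hρ' : ∀ (g : A') (v : U), ((ρ' g v : U) : V) = ρA (g : A) v := fun g v => rfl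
  let x : Module.End K U := (ρF f).restrict hfU
  have hx : ∀ v : U, ((x v : U) : V) = ρF f v := fun v => rfl
  let φ : A' → A' := fun g => ⟨f • (g : A), by
    change π (f • (g : A)) ∈ X
    rw [S.hπ]; exact hfX _ g.2⟩
  let σ : X ≃+ X :=
    { toFun := fun w => ⟨f • (w : W), hfX _ w.2⟩
      invFun := fun w => ⟨f⁻¹ • (w : W), hinvX _ w.2⟩
      left_inv := by intro w; apply Subtype.ext; exact inv_smul_smul f (w : W)
      right_inv := by intro w; apply Subtype.ext; exact smul_inv_smul f (w : W)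
      map_add' := by intro a b; apply Subtype.ext; exact smul_add f (a : W) (b : W) }
  refine ⟨A', π', ρ', x, φ, σ, ⟨?_, ?_, ?_, ?_, ?_⟩, ?_, ?_, hx, fun w => rfl, hρ', hA'⟩
  · rintro ⟨w, hw⟩
    obtain ⟨g, hg⟩ := S.heis.surj w
    exact ⟨⟨g, by change π g ∈ X; rw [hg]; exact hw⟩, Subtype.ext hg⟩
  · intro g h
    exact Subtype.ext (S.heis.add g h)
  · intro g hg
    obtain ⟨c, hc⟩ := S.heis.sc (g : A) (congrArg Subtype.val hg)
    refine ⟨c, ?_⟩
    apply LinearMap.ext; intro v; apply Subtype.ext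
    rw [hρ', hc]; rfl
  · intro g h
    apply LinearMap.ext; intro v; apply Subtype.ext
    have h1 := congrArg (fun T : Module.End K V => T (v : V)) (S.heis.comm (g : A) (h : A))
    exact h1
  · intro w hw
    obtain ⟨w', hw', h⟩ := hs.nd w w.2 (fun h0 => hw (Subtype.ext h0))
    exact ⟨⟨w', hw'⟩, h⟩
  · intro g
    apply LinearMap.ext; intro v; apply Subtype.ext
    have h1 := congrArg (fun T : Module.End K V => T (v : V)) (S.hρ f (g : A))
    exact h1
  · intro g
    exact Subtype.ext (S.hπ f g)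

omit [FiniteDimensional K V] [Nontrivial V] [Finite F] in
theorem sub_pow {U : Submodule K V} (f : F) (x : Module.End K U)
    (hx : ∀ v : U, ((x v : U) : V) = ρF f v) (n : ℕ) (v : U) :
    ((((x - 1) ^ n) v : U) : V) = ((ρF f - 1) ^ n) (v : V) := by
  induction n generalizing v with
  | zero => simp
  | succ n ih =>
    rw [pow_succ, pow_succ, Module.End.mul_apply, Module.End.mul_apply, ih]
    congr 1
    simp [hx]

omit [Finite F] [Finite W] in
theorem sub_iter {X : AddSubgroup W} (f : F) (σ : X ≃+ X)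
    (hσ : ∀ w : X, ((σ w : X) : W) = f • (w : W)) (m : ℕ) (w : X) :
    (((σ^[m]) w : X) : W) = (f ^ m) • (w : W) := by
  induction m generalizing w with
  | zero => simp
  | succ m ih =>
    rw [Function.iterate_succ_apply, ih, hσ, pow_succ, mul_smul]

/-- **U1** for a `SubSys`. -/
theorem U1_sub (S : Sys p q π ρA β ρF) (hq : q.Prime) (hpq : p ≠ q)
    {X : AddSubgroup W} {U : Submodule K V} (hs : SubSys π ρA β X U)
    (f : F) (hfX : ∀ w ∈ X, f • w ∈ X) (hfU : ∀ v ∈ U, ρF f v ∈ U) (P : ℕ) (hP0 : 3 ≤ P)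
    (hM : ∀ v ∈ U, ((ρF f - 1) ^ (P - 1)) v = 0)
    (hfree : ∀ w ∈ X, w ≠ 0 → ∀ m, 0 < m → m < P → (f ^ m) • w ≠ w)
    (hP1 : ∀ w ∈ X, (f ^ P) • w = w) : Nat.card X ≤ (P - 1) ^ 2 := by
  obtain ⟨A', π', ρ', x, φ, σ, hH, h1, h2, hx, hσ, hρ', hA'⟩ :=
    sub_data S hs f hfX hfU P (by omega) hP1
  have : Nontrivial U := (Submodule.nontrivial_iff_ne_bot).2 hs.ne
  refine heis_U1 hH (S.card_ne hq hpq X) x φ σ h1 h2 P hP0 ?_ ?_ ?_
  · apply LinearMap.ext; intro v; apply Subtype.ext
    rw [sub_pow f x hx, hM v v.2]; rfl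
  · intro w hw m hm hmP h
    apply hfree w w.2 (fun h0 => hw (Subtype.ext h0)) m hm hmP
    rw [← sub_iter f σ hσ, h]
  · intro w
    apply Subtype.ext
    rw [sub_iter f σ hσ, hP1 w w.2]

/-- **U2** for a `SubSys`. -/
theorem U2_sub [IsAlgClosed K] (S : Sys p q π ρA β ρF) (hp2 : p ≠ 2) (hq : q.Prime) (hpq : p ≠ q)
    {X : AddSubgroup W} {U : Submodule K V} (hs : SubSys π ρA β X U) (hX : X ≠ ⊥)
    (f : F) (hfX : ∀ w ∈ X, f • w ∈ X) (hfU : ∀ v ∈ U, ρF f v ∈ U) (k : ℕ) (hk : 1 ≤ k)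
    (hM : ∀ v ∈ U, ((ρF f - 1) ^ (p ^ k - 1)) v = 0)
    (hfree : ∀ w ∈ X, w ≠ 0 → ∀ m, 0 < m → m < p ^ k → (f ^ m) • w ≠ w)
    (hP1 : ∀ w ∈ X, (f ^ (p ^ k)) • w = w) :
    Nat.card X = (p ^ k - 1) ^ 2 ∧
      ∀ T : Module.End K V, (∀ v ∈ U, T v ∈ U) →
        (∀ g, π g ∈ X → ∀ v ∈ U, T (ρA g v) = ρA g (T v)) → ∀ v ∈ U, T (ρF f v) = ρF f (T v) := by
  have hpp : p.Prime := Fact.out
  obtain ⟨A', π', ρ', x, φ, σ, hH, h1, h2, hx, hσ, hρ', hA'⟩ :=
    sub_data S hs f hfX hfU (p ^ k) (Nat.one_le_pow _ _ hpp.pos) hP1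
  have : Nontrivial U := (Submodule.nontrivial_iff_ne_bot).2 hs.ne
  have : Nontrivial X := (AddSubgroup.nontrivial_iff_ne_bot X).2 hX
  obtain ⟨hc, hT⟩ := heis_U2 hH (S.card_ne hq hpq X) x φ σ h1 h2 p k hpp hp2 hk (by
      apply LinearMap.ext; intro v; apply Subtype.ext
      rw [sub_pow f x hx, hM v v.2]; rfl) (by
      intro w hw m hm hmP h
      apply hfree w w.2 (fun h0 => hw (Subtype.ext h0)) m hm hmP
      rw [← sub_iter f σ hσ, h]) (by
      intro w
      apply Subtype.ext
      rw [sub_iter f σ hσ, hP1 w w.2])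
  refine ⟨hc, ?_⟩
  intro T hTU hTg v hv
  have h3 : T.restrict hTU ∈ E0 ρ' := by
    intro g
    apply LinearMap.ext; intro u; apply Subtype.ext
    change T ((ρ' g u : U) : V) = ((ρ' g (T.restrict hTU u) : U) : V)
    rw [hρ', hρ']
    exact hTg (g : A) (hA' g) u u.2
  have h4 := congrArg (fun T' : Module.End K U => ((T' ⟨v, hv⟩ : U) : V)) (hT _ h3)
  have h5 : T ((x ⟨v, hv⟩ : U) : V) = ((x (T.restrict hTU ⟨v, hv⟩) : U) : V) := h4
  rw [hx, hx] at h5
  exact h5

/-- **U3** for a `SubSys`. -/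
theorem U3_sub (S : Sys p q π ρA β ρF) (hp2 : p ≠ 2) (hq : q.Prime) (hpq : p ≠ q)
    {X : AddSubgroup W} {U : Submodule K V} (hs : SubSys π ρA β X U) (hX : X ≠ ⊥)
    (f : F) (hfX : ∀ w ∈ X, f • w ∈ X) (hfU : ∀ v ∈ U, ρF f v ∈ U)
    (hM : ∀ v ∈ U, ((ρF f - 1 : Module.End K V) ^ 2) v = 0)
    (hfree : ∀ w ∈ X, w ≠ 0 → ∀ m, 0 < m → m < p → (f ^ m) • w ≠ w)
    (hP1 : ∀ w ∈ X, (f ^ p) • w = w) : p = 3 ∧ Nat.card X = 4 := by
  have hpp : p.Prime := Fact.out
  obtain ⟨A', π', ρ', x, φ, σ, hH, h1, h2, hx, hσ, hρ', hA'⟩ :=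
    sub_data S hs f hfX hfU p hpp.one_le hP1
  have : Nontrivial U := (Submodule.nontrivial_iff_ne_bot).2 hs.ne
  have : Nontrivial X := (AddSubgroup.nontrivial_iff_ne_bot X).2 hX
  refine heis_U3 hH (S.card_ne hq hpq X) x φ σ h1 h2 p hpp hp2 ?_ ?_ ?_
  · apply LinearMap.ext; intro v; apply Subtype.ext
    rw [sub_pow f x hx, hM v v.2]; rfl
  · intro w hw m hm hmP h
    apply hfree w w.2 (fun h0 => hw (Subtype.ext h0)) m hm hmP
    rw [← sub_iter f σ hσ, h]
  · intro w
    apply Subtype.ext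
    rw [sub_iter f σ hσ, hP1 w w.2]

end H60SH

end S_SUB

section S_WDEC

namespace H60SH

open Module

section pure

variable {F W : Type*} [Group F] [Finite F] [AddCommGroup W] [Finite W] [DistribMulAction F W]

theorem wdec_inv {W : Type*} [AddCommGroup W] {q n : ℕ} (hq : 1 < q) (hn : Nat.Coprime n q) :
    ∃ a : ℕ, ∀ w : W, q • w = 0 → (n * a) • w = w := by
  obtain ⟨a, ha⟩ := Nat.exists_mul_mod_eq_one_of_coprime hn hq
  refine ⟨a, fun w hw => ?_⟩
  have h : n * a = q * (n * a / q) + 1 := by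
    conv_lhs => rw [← Nat.div_add_mod (n * a) q, ha.2]
  rw [h, add_smul, mul_comm, mul_smul, hw, smul_zero, zero_add, one_smul]

theorem wdec_zero {W : Type*} [AddCommGroup W] {q n : ℕ} (hq : 1 < q) (hn : Nat.Coprime n q)
    (w : W) (hw : q • w = 0) (h : n • w = 0) : w = 0 := by
  obtain ⟨a, ha⟩ := wdec_inv (W := W) hq hn
  rw [← ha w hw, mul_comm, mul_smul, h, smul_zero]

theorem wdec_smul (f : F) (n : ℕ) (w : W) : f • (n • w) = n • (f • w) :=
  (DistribSMul.toAddMonoidHom W f).map_nsmul n w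

theorem wdec_cop {p q : ℕ} (hp : p.Prime) (hq : q.Prime) (hpq : p ≠ q) (m : ℕ) :
    Nat.Coprime (p ^ m) q :=
  Nat.Coprime.pow_left m ((Nat.coprime_primes hp hq).2 hpq)

/-- **WDEC1**: coprime splitting `X = C_X(f) + [X, f]`. -/
theorem split (p q : ℕ) (hp : p.Prime) (hq : q.Prime) (hpq : p ≠ q) (hF : IsPGroup p F)
    (hW : ∀ w : W, q • w = 0) (X : AddSubgroup W) (f : F) (hfX : ∀ w ∈ X, f • w ∈ X) (w : W)
    (hw : w ∈ X) : ∃ w0 ∈ X, ∃ w1 ∈ X, f • w0 = w0 ∧ w = w0 + (f • w1 - w1) := by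
  obtain ⟨m, hm⟩ := hF f
  set n := p ^ m with hn
  obtain ⟨a, ha⟩ := wdec_inv (W := W) hq.one_lt (wdec_cop hp hq hpq m)
  have hpow : ∀ i : ℕ, (f ^ i) • w ∈ X := by
    intro i
    induction i with
    | zero => simpa using hw
    | succ i ih => rw [pow_succ', mul_smul]; exact hfX _ ih
  have hfn : (f ^ n) • w = w := by rw [hm, one_smul]
  have htel : ∀ i : ℕ, f • (∑ j ∈ Finset.range i, (f ^ j) • w) -
      ∑ j ∈ Finset.range i, (f ^ j) • w = (f ^ i) • w - w := by
    intro i
    have h1 : f • (∑ j ∈ Finset.range i, (f ^ j) • w) =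
        ∑ j ∈ Finset.range i, (f ^ (j + 1)) • w := by
      rw [Finset.smul_sum]
      exact Finset.sum_congr rfl fun j _ => by rw [pow_succ', mul_smul]
    rw [h1, ← Finset.sum_sub_distrib, Finset.sum_range_sub (fun j => (f ^ j) • w)]
    simp
  refine ⟨a • ∑ i ∈ Finset.range n, (f ^ i) • w,
    X.nsmul_mem (X.sum_mem fun i _ => hpow i) a,
    a • ∑ i ∈ Finset.range n, -(∑ j ∈ Finset.range i, (f ^ j) • w),
    X.nsmul_mem (X.sum_mem fun i _ => X.neg_mem (X.sum_mem fun j _ => hpow j)) a, ?_, ?_⟩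
  · rw [wdec_smul]
    congr 1
    have h := htel n
    rw [hfn, sub_self, sub_eq_zero] at h
    exact h
  · rw [wdec_smul, ← nsmul_sub, Finset.smul_sum (r := f), ← Finset.sum_sub_distrib, ← nsmul_add,
      ← Finset.sum_add_distrib]
    have h2 : ∀ i ∈ Finset.range n, (f ^ i) • w +
        (f • -(∑ j ∈ Finset.range i, (f ^ j) • w) - -(∑ j ∈ Finset.range i, (f ^ j) • w)) = w := by
      intro i _
      have h := htel i
      rw [smul_neg]
      have e : -(f • ∑ j ∈ Finset.range i, f ^ j • w) - -(∑ j ∈ Finset.range i, f ^ j • w) =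
        -(f • (∑ j ∈ Finset.range i, (f ^ j) • w) - ∑ j ∈ Finset.range i, (f ^ j) • w) := by abel
      rw [e, h]; abel
    rw [Finset.sum_congr rfl h2, Finset.sum_const, Finset.card_range, ← mul_smul, mul_comm]
    exact (ha w (hW w)).symm

/-- **WDEC2**: `C_X(f) ∩ [X, f] = 0`. -/
theorem stab (p q : ℕ) (hp : p.Prime) (hq : q.Prime) (hpq : p ≠ q) (hF : IsPGroup p F)
    (hW : ∀ w : W, q • w = 0) (f : F) (w : W)
    (hw : f • (f • w - w) = f • w - w) : f • w = w := by
  obtain ⟨m, hm⟩ := hF f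
  set r := f • w - w with hr
  have h1 : ∀ n : ℕ, (f ^ n) • w = w + n • r := by
    intro n
    induction n with
    | zero => simp
    | succ n ih =>
      rw [pow_succ', mul_smul, ih, smul_add, wdec_smul, hw, add_smul, one_smul]
      have : f • w = w + r := by rw [hr]; abel
      rw [this]; abel
  have h2 := h1 (p ^ m)
  rw [hm, one_smul] at h2
  have h3 : (p ^ m) • r = 0 := by
    have := h2.symm
    rwa [add_eq_left] at this
  have h4 := wdec_zero hq.one_lt (wdec_cop hp hq hpq m) r (hW r) h3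
  rwa [hr, sub_eq_zero] at h4

theorem wdec_perm {R : Type*} [Ring R] {p : ℕ} (hp : p.Prime) (z : R) (hz : z ^ p = 1) (m : ℕ)
    (hm : Nat.Coprime m p) :
    ∑ i ∈ Finset.range p, z ^ (m * i) = ∑ i ∈ Finset.range p, z ^ i := by
  have hmod : ∀ k : ℕ, z ^ k = z ^ (k % p) := by
    intro k
    conv_lhs => rw [← Nat.div_add_mod k p, pow_add, pow_mul, hz, one_pow, one_mul]
  have hmaps : ∀ i ∈ Finset.range p, m * i % p ∈ Finset.range p := fun i _ =>
    Finset.mem_range.2 (Nat.mod_lt _ hp.pos)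
  have hinj : ∀ i ∈ Finset.range p, ∀ j ∈ Finset.range p, m * i % p = m * j % p → i = j := by
    intro i hi j hj h
    have h1 : m * i ≡ m * j [MOD p] := h
    have h2 : i ≡ j [MOD p] := Nat.ModEq.cancel_left_of_coprime
      (by rw [Nat.gcd_comm]; exact hm) h1
    have h3 : i % p = j % p := h2
    rwa [Nat.mod_eq_of_lt (Finset.mem_range.1 hi), Nat.mod_eq_of_lt (Finset.mem_range.1 hj)] at h3
  refine Finset.sum_bij (fun i _ => m * i % p) hmaps (fun i hi j hj h => hinj i hi j hj h) ?_ ?_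
  · intro b hb
    obtain ⟨a, ha, hab⟩ := Finset.surj_on_of_inj_on_of_card_le (fun i _ => m * i % p) hmaps
      (fun i j hi hj h => hinj i hi j hj h) le_rfl b hb
    exact ⟨a, ha, hab.symm⟩
  · intro i _
    exact hmod _

/-- algebraic form of the decomposition -/
theorem wdec_ring {R : Type*} [Ring R] {p : ℕ} (hp : p.Prime) (c z : R) (hcz : c * z = z * c)
    (hc : ∑ a ∈ Finset.range p, c ^ a = 0) (hz : z ^ p = 1) :
    ∑ i ∈ Finset.range p, ∑ a ∈ Finset.range p, (c * (z ^ (p - 1)) ^ i) ^ a +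
      ∑ a ∈ Finset.range p, z ^ a = (p : R) := by
  have hcomm : Commute c z := hcz
  rw [Finset.sum_comm]
  obtain ⟨p', rfl⟩ : ∃ p', p = p' + 1 := ⟨p - 1, by have := hp.pos; omega⟩
  rw [Nat.add_sub_cancel]
  have h1 : ∀ a ∈ Finset.range p', ∑ i ∈ Finset.range (p' + 1), (c * (z ^ p') ^ i) ^ (a + 1) =
      c ^ (a + 1) * ∑ i ∈ Finset.range (p' + 1), z ^ i := by
    intro a ha
    have hcop : Nat.Coprime (p' * (a + 1)) (p' + 1) := by
      apply Nat.Coprime.mul_left
      · have : Nat.gcd p' (p' + 1) = 1 := by simp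
        exact this
      · have : a + 1 < p' + 1 := by have := Finset.mem_range.1 ha; omega
        exact (Nat.coprime_of_lt_prime (by omega) this hp).symm
    rw [← wdec_perm hp z hz _ hcop, Finset.mul_sum]
    refine Finset.sum_congr rfl fun i _ => ?_
    rw [Commute.mul_pow (hcomm.pow_right _ |>.pow_right _), ← pow_mul, ← pow_mul]
    congr 2
    ring
  rw [Finset.sum_range_succ' (fun a => ∑ i ∈ Finset.range (p' + 1), (c * (z ^ p') ^ i) ^ a)]
  rw [Finset.sum_congr rfl h1, ← Finset.sum_mul]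
  have h2 : ∑ a ∈ Finset.range p', c ^ (a + 1) = -1 := by
    rw [Finset.sum_range_succ' (fun a => c ^ a), pow_zero] at hc
    exact eq_neg_of_add_eq_zero_left hc
  rw [h2]
  simp

/-- **WDEC3**: the decomposition `X = C_X(z) + Σ_i X_i`, `X_i = {w | c w = z^i w}`. -/
theorem wdec (p q : ℕ) (hp : p.Prime) (hq : q.Prime) (hpq : p ≠ q)
    (hW : ∀ w : W, q • w = 0) (X : AddSubgroup W) (c z : F)
    (hcX : ∀ w ∈ X, c • w ∈ X) (hzX : ∀ w ∈ X, z • w ∈ X)
    (hcz : ∀ w ∈ X, c • z • w = z • c • w) (hcp : ∀ w ∈ X, (c ^ p) • w = w)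
    (hzp : ∀ w ∈ X, (z ^ p) • w = w) (hfix : ∀ w ∈ X, c • w = w → w = 0) (w : W) (hw : w ∈ X) :
    ∃ (w0 : W) (ws : ℕ → W), w0 ∈ X ∧ z • w0 = w0 ∧
      (∀ i, ws i ∈ X ∧ c • ws i = (z ^ i) • ws i) ∧ w = w0 + ∑ i ∈ Finset.Ico 1 p, ws i := by
  -- endomorphisms of `X`
  let C : AddMonoid.End X :=
    { toFun := fun v => ⟨c • (v : W), hcX v v.2⟩
      map_zero' := by ext; simp
      map_add' := fun u v => by ext; simp }
  let Z : AddMonoid.End X :=
    { toFun := fun v => ⟨z • (v : W), hzX v v.2⟩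
      map_zero' := by ext; simp
      map_add' := fun u v => by ext; simp }
  have hC : ∀ v : X, ((C v : X) : W) = c • (v : W) := fun v => rfl
  have hZ : ∀ v : X, ((Z v : X) : W) = z • (v : W) := fun v => rfl
  have hCpow : ∀ (n : ℕ) (v : X), (((C ^ n) v : X) : W) = (c ^ n) • (v : W) := by
    intro n
    induction n with
    | zero => intro v; simp
    | succ n ih =>
      intro v
      rw [pow_succ', AddMonoid.End.coe_mul, Function.comp_apply, hC, ih, pow_succ', mul_smul]
  have hZpow : ∀ (n : ℕ) (v : X), (((Z ^ n) v : X) : W) = (z ^ n) • (v : W) := by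
    intro n
    induction n with
    | zero => intro v; simp
    | succ n ih =>
      intro v
      rw [pow_succ', AddMonoid.End.coe_mul, Function.comp_apply, hZ, ih, pow_succ', mul_smul]
  have hCZ : C * Z = Z * C := by
    ext v
    exact hcz v v.2
  have hCp : C ^ p = 1 := by
    ext v
    rw [hCpow]
    exact hcp v v.2
  have hZp : Z ^ p = 1 := by
    ext v
    rw [hZpow]
    exact hzp v v.2
  have hsumC : ∑ a ∈ Finset.range p, C ^ a = 0 := by
    ext v
    have h1 : C ((∑ a ∈ Finset.range p, C ^ a) v) = (∑ a ∈ Finset.range p, C ^ a) v := by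
      have h2 : (C - 1) * ∑ a ∈ Finset.range p, C ^ a = 0 := by
        rw [mul_geom_sum, hCp, sub_self]
      have h3 : C * ∑ a ∈ Finset.range p, C ^ a = ∑ a ∈ Finset.range p, C ^ a := by
        rw [sub_mul, one_mul, sub_eq_zero] at h2
        exact h2
      have h4 := congrArg (fun T : AddMonoid.End X => T v) h3
      exact h4
    have h5 := hfix _ ((∑ a ∈ Finset.range p, C ^ a) v).2 (congrArg Subtype.val h1)
    exact h5
  have hring := wdec_ring hp C Z hCZ hsumC hZp
  obtain ⟨b, hb⟩ := wdec_inv (W := X) (q := q) (n := p) hq.one_lt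
    ((Nat.coprime_primes hp hq).2 hpq)
  let v : X := ⟨w, hw⟩
  let w0 : X := b • (∑ a ∈ Finset.range p, Z ^ a) v
  let ws : ℕ → X := fun i => b • (∑ a ∈ Finset.range p, (C * (Z ^ (p - 1)) ^ i) ^ a) v
  have hZinv : ∀ i : ℕ, Z ^ i * (Z ^ (p - 1)) ^ i = 1 := by
    intro i
    rw [← pow_mul, ← pow_add]
    have : i + (p - 1) * i = p * i := by
      obtain ⟨p', rfl⟩ : ∃ p', p = p' + 1 := ⟨p - 1, by have := hp.pos; omega⟩
      rw [Nat.add_sub_cancel]; ring
    rw [this, pow_mul, hZp, one_pow]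
  have hCZc : Commute C Z := hCZ
  refine ⟨w0, fun i => ws i, w0.2, ?_, ?_, ?_⟩
  · -- `z w0 = w0`
    have h1 : Z * ∑ a ∈ Finset.range p, Z ^ a = ∑ a ∈ Finset.range p, Z ^ a := by
      have h2 : (Z - 1) * ∑ a ∈ Finset.range p, Z ^ a = 0 := by
        rw [mul_geom_sum, hZp, sub_self]
      rw [sub_mul, one_mul, sub_eq_zero] at h2
      exact h2
    have h2 : Z w0 = w0 := by
      change Z (b • _) = b • _
      rw [map_nsmul]
      congr 1
      exact congrArg (fun T : AddMonoid.End X => T v) h1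
    exact congrArg Subtype.val h2
  · intro i
    refine ⟨(ws i).2, ?_⟩
    have hcomm : Commute C ((Z ^ (p - 1)) ^ i) := (hCZc.pow_right _).pow_right _
    have hTp : (C * (Z ^ (p - 1)) ^ i) ^ p = 1 := by
      rw [Commute.mul_pow hcomm, hCp, one_mul, ← pow_mul, ← pow_mul,
        show (p - 1) * (i * p) = p * ((p - 1) * i) by ring, pow_mul, hZp, one_pow]
    have h1 : (C * (Z ^ (p - 1)) ^ i) * ∑ a ∈ Finset.range p, (C * (Z ^ (p - 1)) ^ i) ^ a =
        ∑ a ∈ Finset.range p, (C * (Z ^ (p - 1)) ^ i) ^ a := by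
      have h2 : (C * (Z ^ (p - 1)) ^ i - 1) *
          ∑ a ∈ Finset.range p, (C * (Z ^ (p - 1)) ^ i) ^ a = 0 := by
        rw [mul_geom_sum, hTp, sub_self]
      rw [sub_mul, one_mul, sub_eq_zero] at h2
      exact h2
    have h3 : C * ∑ a ∈ Finset.range p, (C * (Z ^ (p - 1)) ^ i) ^ a =
        Z ^ i * ∑ a ∈ Finset.range p, (C * (Z ^ (p - 1)) ^ i) ^ a := by
      conv_rhs => rw [← h1]
      rw [← mul_assoc, ← mul_assoc, (hCZc.symm.pow_left i).eq, mul_assoc C, hZinv, mul_one]
    have h4 : C (ws i) = (Z ^ i) (ws i) := by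
      change C (b • _) = (Z ^ i) (b • _)
      rw [map_nsmul, map_nsmul]
      congr 1
      exact congrArg (fun T : AddMonoid.End X => T v) h3
    have h5 := congrArg Subtype.val h4
    rw [hZpow] at h5
    exact h5
  · have h1 : v = w0 + ∑ i ∈ Finset.Ico 1 p, ws i := by
      have hT0 : ws 0 = 0 := by
        change b • (∑ a ∈ Finset.range p, (C * (Z ^ (p - 1)) ^ 0) ^ a) v = 0
        rw [pow_zero, mul_one, hsumC]
        simp
      have h2 : ∑ i ∈ Finset.Ico 1 p, ws i = ∑ i ∈ Finset.range p, ws i := by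
        rw [Finset.range_eq_Ico, Finset.sum_eq_sum_Ico_succ_bot hp.pos, hT0, zero_add]
      rw [h2]
      have h3 : ∑ i ∈ Finset.range p, ws i = b • (∑ i ∈ Finset.range p,
          ∑ a ∈ Finset.range p, (C * (Z ^ (p - 1)) ^ i) ^ a) v := by
        change ∑ i ∈ Finset.range p, b • _ = _
        rw [← Finset.smul_sum]
        congr 1
        exact (AddMonoidHom.finsetSum_apply _ _ _).symm
      rw [h3]
      change v = b • _ + b • _
      rw [← nsmul_add, add_comm]
      have h4 := congrArg (fun T : AddMonoid.End X => T v) hring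
      change (∑ i ∈ Finset.range p, ∑ a ∈ Finset.range p, (C * (Z ^ (p - 1)) ^ i) ^ a) v +
        (∑ a ∈ Finset.range p, Z ^ a) v = _ at h4
      rw [h4]
      have h5 : ((p : AddMonoid.End X) v) = p • v := by
        rw [AddMonoid.End.natCast_apply]
      rw [h5, ← mul_smul, mul_comm]
      exact (hb v (by ext; exact hW w)).symm
    have h6 := congrArg Subtype.val h1
    rw [AddSubgroup.coe_add, AddSubgroup.val_finsetSum] at h6
    exact h6

end pure

section sys

variable {K V F A W : Type*} [Field K] [AddCommGroup V] [Module K V] [Nontrivial V]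
  [Group F] [Finite F] [Group A] [MulDistribMulAction F A] [AddCommGroup W] [Finite W]
  [DistribMulAction F W] {p q : ℕ} [Fact p.Prime] [CharP K p]
  {π : A → W} {ρA : Representation K A V} {β : W → W → K} {ρF : Representation K F V}

/-- fixed vectors are orthogonal to commutators -/
theorem wdec_fix (S : Sys p q π ρA β ρF) (f : F) (u v : W) (hu : f • u = u) :
    β u (f • v - v) = 1 := by
  rw [sub_eq_add_neg, S.heis.beta_add_right, S.heis.beta_neg_right]
  have h := S.beta_inv f u v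
  rw [hu] at h
  rw [h]
  exact mul_inv_cancel₀ (S.heis.beta_ne u v)

theorem wdec_fix' (S : Sys p q π ρA β ρF) (f : F) (u v : W) (hu : f • u = u) :
    β (f • v - v) u = 1 := by
  have h := S.heis.beta_swap u (f • v - v)
  rwa [wdec_fix S f u v hu, one_mul] at h

/-- **WDEC4**: fixed points form a nondegenerate subgroup. -/
theorem nd_fix (S : Sys p q π ρA β ρF) (hq : q.Prime) (hpq : p ≠ q) (X : AddSubgroup W)
    (hnd : ∀ w ∈ X, w ≠ 0 → ∃ w' ∈ X, β w w' ≠ 1) (f : F) (hfX : ∀ w ∈ X, f • w ∈ X)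
    (w : W) (hw : w ∈ X) (hfw : f • w = w) (hw0 : w ≠ 0) :
    ∃ w' ∈ X, f • w' = w' ∧ β w w' ≠ 1 := by
  obtain ⟨w', hw', hne⟩ := hnd w hw hw0
  obtain ⟨u0, hu0, u1, -, hfu, he⟩ := split p q Fact.out hq hpq S.hF S.hW X f hfX w' hw'
  refine ⟨u0, hu0, hfu, fun h => hne ?_⟩
  rw [he, S.heis.beta_add_right, h, one_mul]
  exact wdec_fix S f w u1 hfw

/-- **WDEC5**: `[X, f]` is nondegenerate. -/
theorem nd_comm (S : Sys p q π ρA β ρF) (hq : q.Prime) (hpq : p ≠ q) (X : AddSubgroup W)
    (hnd : ∀ w ∈ X, w ≠ 0 → ∃ w' ∈ X, β w w' ≠ 1) (f : F) (hfX : ∀ w ∈ X, f • w ∈ X)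
    (w : W) (hw : w ∈ X) (hw0 : f • w - w ≠ 0) :
    ∃ w' ∈ X, β (f • w - w) (f • w' - w') ≠ 1 := by
  obtain ⟨w', hw', hne⟩ := hnd _ (X.sub_mem (hfX w hw) hw) hw0
  obtain ⟨u0, -, u1, hu1, hfu, he⟩ := split p q Fact.out hq hpq S.hF S.hW X f hfX w' hw'
  refine ⟨u1, hu1, fun h => hne ?_⟩
  rw [he, S.heis.beta_add_right, h, mul_one]
  exact wdec_fix' S f u0 w hfu

/-- powers of `z` -/
theorem wdec_zc {F W : Type*} [Group F] [AddCommGroup W] [DistribMulAction F W]
    (X : AddSubgroup W) (c z : F) (hzX : ∀ w ∈ X, z • w ∈ X)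
    (hcz : ∀ w ∈ X, c • z • w = z • c • w) (m : ℕ) :
    ∀ w ∈ X, (z ^ m) • w ∈ X ∧ c • (z ^ m) • w = (z ^ m) • c • w := by
  induction m with
  | zero => intro w hw; simpa using hw
  | succ m ih =>
    intro w hw
    obtain ⟨h1, h2⟩ := ih w hw
    rw [pow_succ', mul_smul, mul_smul, hcz _ h1, h2]
    exact ⟨hzX _ h1, rfl⟩

/-- `z ^ m v = v` with `m` prime to `p` and `z ^ p v = v` gives `z v = v`. -/
theorem wdec_zfix {F W : Type*} [Group F] [AddCommGroup W] [DistribMulAction F W] {p : ℕ}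
    (z : F) (m : ℕ) (hm : Nat.Coprime m p) (v : W) (h1 : (z ^ p) • v = v)
    (h2 : (z ^ m) • v = v) : z • v = v := by
  have e1 : z ^ p ∈ MulAction.stabilizer F v := h1
  have e2 : z ^ m ∈ MulAction.stabilizer F v := h2
  have e3 : z ^ ((m : ℤ) * m.gcdA p + p * m.gcdB p) ∈ MulAction.stabilizer F v := by
    rw [zpow_add, zpow_mul, zpow_mul, zpow_natCast, zpow_natCast]
    exact mul_mem (Subgroup.zpow_mem _ e2 _) (Subgroup.zpow_mem _ e1 _)
  rw [← Nat.gcd_eq_gcd_ab, hm.gcd_eq_one, Nat.cast_one, zpow_one] at e3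
  exact e3

/-- the component `X_j` -/
def wdecX {F W : Type*} [Group F] [AddCommGroup W] [DistribMulAction F W] (X : AddSubgroup W)
    (c z : F) (j : ℕ) : AddSubgroup W where
  carrier := {v | v ∈ X ∧ c • v = (z ^ j) • v}
  zero_mem' := ⟨X.zero_mem, by simp⟩
  add_mem' := by
    rintro a b ⟨ha, ha'⟩ ⟨hb, hb'⟩
    exact ⟨X.add_mem ha hb, by rw [smul_add, smul_add, ha', hb']⟩
  neg_mem' := by
    rintro a ⟨ha, ha'⟩
    exact ⟨X.neg_mem ha, by rw [smul_neg, smul_neg, ha']⟩

/-- surjectivity of `z ^ i - z ^ j` on `X_j` -/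
theorem wdec_surj {F W : Type*} [Group F] [AddCommGroup W] [DistribMulAction F W] [Finite W]
    {p : ℕ} (hp : p.Prime) (X : AddSubgroup W) (c z : F)
    (hzX : ∀ w ∈ X, z • w ∈ X)
    (hcz : ∀ w ∈ X, c • z • w = z • c • w)
    (hzp : ∀ w ∈ X, (z ^ p) • w = w) (hfix : ∀ w ∈ X, c • w = w → w = 0)
    (i j k : ℕ) (hi : i < p) (hj : j < p) (hij : i ≠ j) (v : W) (hvX : v ∈ X)
    (hv : c • v = (z ^ k) • v) :
    ∃ u ∈ X, c • u = (z ^ k) • u ∧ v = (z ^ i) • u - (z ^ j) • u := by
  have hmem : ∀ (m : ℕ) (u : W), u ∈ wdecX X c z k → (z ^ m) • u ∈ wdecX X c z k := by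
    rintro m u ⟨h1, h2⟩
    obtain ⟨h3, h4⟩ := wdec_zc X c z hzX hcz m u h1
    refine ⟨h3, ?_⟩
    rw [h4, h2, ← mul_smul, ← mul_smul, ← pow_add, ← pow_add, add_comm]
  let T : wdecX X c z k → wdecX X c z k := fun u =>
    ⟨(z ^ i) • (u : W) - (z ^ j) • (u : W),
      (wdecX X c z k).sub_mem (hmem i u u.2) (hmem j u u.2)⟩
  -- an element with `z ^ i u = z ^ j u` vanishes
  have key : ∀ u : W, u ∈ wdecX X c z k → (z ^ i) • u = (z ^ j) • u → u = 0 := by
    rintro u ⟨h1, h2⟩ h3
    have hz : z • u = u := by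
      rcases Nat.lt_or_ge i j with h | h
      · apply wdec_zfix z (j - i) _ u (hzp u h1)
        · have e : z ^ j = z ^ i * z ^ (j - i) := by rw [← pow_add]; congr 1; omega
          rw [e, mul_smul] at h3
          exact (smul_left_cancel _ h3).symm
        · exact (Nat.coprime_of_lt_prime (by omega) (by omega) hp).symm
      · have h' : j < i := by omega
        apply wdec_zfix z (i - j) _ u (hzp u h1)
        · have e : z ^ i = z ^ j * z ^ (i - j) := by rw [← pow_add]; congr 1; omega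
          rw [e, mul_smul] at h3
          exact (smul_left_cancel _ h3)
        · exact (Nat.coprime_of_lt_prime (by omega) (by omega) hp).symm
    have hzk : (z ^ k) • u = u := by
      have e1 : z ∈ MulAction.stabilizer F u := hz
      exact pow_mem e1 k
    exact hfix u h1 (by rw [h2, hzk])
  have hinj : Function.Injective T := by
    intro u u' h
    have h1 := congrArg Subtype.val h
    change (z ^ i) • (u : W) - (z ^ j) • (u : W) = (z ^ i) • (u' : W) - (z ^ j) • (u' : W) at h1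
    have h2 : (z ^ i) • ((u : W) - u') = (z ^ j) • ((u : W) - u') := by
      rw [smul_sub, smul_sub]
      have := sub_eq_zero.2 h1
      rw [← sub_eq_zero, ← this]
      abel
    have h3 := key _ ((wdecX X c z k).sub_mem u.2 u'.2) h2
    ext
    exact sub_eq_zero.1 h3
  obtain ⟨u, hu⟩ := (Finite.injective_iff_surjective.1 hinj) ⟨v, hvX, hv⟩
  exact ⟨u, u.2.1, u.2.2, (congrArg Subtype.val hu).symm⟩

/-- **WDEC6**: different components are orthogonal. -/
theorem orth (S : Sys p q π ρA β ρF) (hq : q.Prime) (hpq : p ≠ q) (X : AddSubgroup W) (c z : F)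
    (hcX : ∀ w ∈ X, c • w ∈ X) (hzX : ∀ w ∈ X, z • w ∈ X)
    (hcz : ∀ w ∈ X, c • z • w = z • c • w) (hcp : ∀ w ∈ X, (c ^ p) • w = w)
    (hzp : ∀ w ∈ X, (z ^ p) • w = w) (hfix : ∀ w ∈ X, c • w = w → w = 0)
    (i j : ℕ) (hi : i < p) (hj : j < p) (hij : i ≠ j) (u v : W) (huX : u ∈ X) (hvX : v ∈ X)
    (hu : c • u = (z ^ i) • u) (hv : c • v = (z ^ j) • v) : β u v = 1 := by
  obtain ⟨v', hv'X, hv', he⟩ := wdec_surj (Fact.out : p.Prime) X c z hzX hcz hzp hfix j i j
    hj hi (Ne.symm hij) ((z ^ i) • v) (wdec_zc X c z hzX hcz i v hvX).1 (by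
      rw [(wdec_zc X c z hzX hcz i v hvX).2, hv, ← mul_smul, ← mul_smul, ← pow_add, ← pow_add,
        add_comm])
  have h1 : β ((z ^ i) • u) ((z ^ j) • v') = β u v' := by
    rw [← hu, ← hv']
    exact S.beta_inv c u v'
  have h2 : β ((z ^ i) • u) ((z ^ i) • v') = β u v' := S.beta_inv _ u v'
  rw [← S.beta_inv (z ^ i) u v, he, sub_eq_add_neg, S.heis.beta_add_right,
    S.heis.beta_neg_right, h1, h2]
  exact mul_inv_cancel₀ (S.heis.beta_ne u v')

/-- **WDEC6b**: `C_X(z)` is orthogonal to the components. -/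
theorem orth0 (S : Sys p q π ρA β ρF) (hq : q.Prime) (hpq : p ≠ q) (X : AddSubgroup W) (c z : F)
    (hcX : ∀ w ∈ X, c • w ∈ X) (hzX : ∀ w ∈ X, z • w ∈ X)
    (hcz : ∀ w ∈ X, c • z • w = z • c • w) (hcp : ∀ w ∈ X, (c ^ p) • w = w)
    (hzp : ∀ w ∈ X, (z ^ p) • w = w) (hfix : ∀ w ∈ X, c • w = w → w = 0)
    (j : ℕ) (hj : j < p) (u v : W) (huX : u ∈ X) (hvX : v ∈ X)
    (hu : z • u = u) (hv : c • v = (z ^ j) • v) : β u v = 1 ∧ β v u = 1 := by
  have hp : p.Prime := Fact.out
  obtain ⟨v', hv'X, hv', he⟩ := wdec_surj hp X c z hzX hcz hzp hfix 1 0 j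
    hp.one_lt hp.pos one_ne_zero v hvX hv
  rw [pow_one, pow_zero, one_smul] at he
  rw [he]
  exact ⟨wdec_fix S z u v' hu, wdec_fix' S z u v' hu⟩

theorem wdec_beta_sum (S : Sys p q π ρA β ρF) (u : W) (s : Finset ℕ) (ws : ℕ → W) :
    β u (∑ i ∈ s, ws i) = ∏ i ∈ s, β u (ws i) := by
  classical
  induction s using Finset.induction_on with
  | empty => simp [S.heis.beta_zero_right]
  | insert a s ha ih => rw [Finset.sum_insert ha, Finset.prod_insert ha, S.heis.beta_add_right, ih]

/-- **WDEC7**: each component `X_i` is nondegenerate. -/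
theorem nd_comp (S : Sys p q π ρA β ρF) (hq : q.Prime) (hpq : p ≠ q) (X : AddSubgroup W)
    (hnd : ∀ w ∈ X, w ≠ 0 → ∃ w' ∈ X, β w w' ≠ 1) (c z : F)
    (hcX : ∀ w ∈ X, c • w ∈ X) (hzX : ∀ w ∈ X, z • w ∈ X)
    (hcz : ∀ w ∈ X, c • z • w = z • c • w) (hcp : ∀ w ∈ X, (c ^ p) • w = w)
    (hzp : ∀ w ∈ X, (z ^ p) • w = w) (hfix : ∀ w ∈ X, c • w = w → w = 0)
    (i : ℕ) (hi : i < p) (w : W) (hw : w ∈ X) (hw1 : c • w = (z ^ i) • w) (hw0 : w ≠ 0) :
    ∃ w' ∈ X, c • w' = (z ^ i) • w' ∧ β w w' ≠ 1 := by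
  have hp : p.Prime := Fact.out
  obtain ⟨w', hw', hne⟩ := hnd w hw hw0
  obtain ⟨u0, us, hu0, hzu0, hus, he⟩ := wdec p q hp hq hpq S.hW X c z hcX hzX hcz hcp hzp hfix
    w' hw'
  refine ⟨us i, (hus i).1, (hus i).2, fun h => hne ?_⟩
  rw [he, S.heis.beta_add_right, wdec_beta_sum S,
    (orth0 S hq hpq X c z hcX hzX hcz hcp hzp hfix i hi u0 w hu0 hw hzu0 hw1).2, one_mul]
  refine Finset.prod_eq_one fun k hk => ?_
  have hk' := Finset.mem_Ico.1 hk
  by_cases hki : k = i
  · rw [hki]; exact h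
  · exact orth S hq hpq X c z hcX hzX hcz hcp hzp hfix i k hi hk'.2 (Ne.symm hki) w (us k) hw
      (hus k).1 hw1 (hus k).2

end sys

end H60SH

end S_WDEC

section S_ALPHA

namespace H60SH

open Module

variable {K V F A W : Type*} [Field K] [AddCommGroup V] [Module K V] [Nontrivial V]
  [Group F] [Finite F] [Group A] [MulDistribMulAction F A] [AddCommGroup W] [Finite W]
  [DistribMulAction F W] {p q : ℕ} [Fact p.Prime] [CharP K p]
  {π : A → W} {ρA : Representation K A V} {β : W → W → K} {ρF : Representation K F V}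

/-- **ALPHA**: if `c` is trivial on a nonzero subspace `I` which is invariant under the preimage of
`C_X(x)`, then `c` is trivial on `C_X(x)`. -/
theorem alpha (S : Sys p q π ρA β ρF) (hq : q.Prime) (hpq : p ≠ q) {X : AddSubgroup W}
    (hnd : ∀ w ∈ X, w ≠ 0 → ∃ w' ∈ X, β w w' ≠ 1) (c x : F)
    (hcX : ∀ w ∈ X, c • w ∈ X) (hxX : ∀ w ∈ X, x • w ∈ X)
    (hcx : ∀ w ∈ X, c • x • w = x • c • w) (I : Submodule K V) (hI : I ≠ ⊥)
    (hIA : ∀ g, π g ∈ X → x • π g = π g → ∀ v ∈ I, ρA g v ∈ I)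
    (hcI : ∀ v ∈ I, ρF c v = v) : ∀ w ∈ X, x • w = w → c • w = w := by
  intro w hw hxw
  by_contra hne
  have hw1X : c • w - w ∈ X := X.sub_mem (hcX w hw) hw
  have hxw1 : x • (c • w - w) = c • w - w := by
    rw [smul_sub, ← hcx w hw, hxw]
  obtain ⟨w', hw', hxw', hβ⟩ := nd_fix S hq hpq X hnd x hxX (c • w - w) hw1X hxw1
    (sub_ne_zero.2 hne)
  obtain ⟨g, rfl⟩ := S.heis.surj w
  obtain ⟨g', rfl⟩ := S.heis.surj w'
  obtain ⟨v, hv, hv0⟩ := (Submodule.ne_bot_iff I).1 hI
  have hh : ∀ v ∈ I, ρA (g⁻¹ * (c • g)) v = v := by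
    intro v hv
    apply rho_injective ρA g
    have h1 : ρA g (ρA (g⁻¹ * (c • g)) v) = ρA (c • g) v := by
      rw [← Module.End.mul_apply, ← _root_.map_mul]
      congr 2
      group
    have h2 : ρF c (ρA g v) = ρA (c • g) (ρF c v) := by
      have := congrArg (fun T : Module.End K V => T v) (S.hρ c g)
      simpa using this
    rw [hcI v hv, hcI _ (hIA g hw hxw v hv)] at h2
    rw [h1, ← h2]
  have hπh : π (g⁻¹ * (c • g)) = c • π g - π g := by
    rw [S.heis.add, S.heis.map_inv, S.hπ]; abel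
  have hg'v := hIA g' hw' hxw' v hv
  have h1 := S.heis.comm_apply (g⁻¹ * (c • g)) g' v
  rw [hh _ hg'v, hh v hv, hπh] at h1
  have h3 : ρA g' v ≠ 0 := by
    intro h0; apply hv0; apply rho_injective ρA g'; rw [h0, _root_.map_zero]
  apply hβ
  have h4 : (1 : K) • ρA g' v = β (c • π g - π g) (π g') • ρA g' v := by
    rw [one_smul]; exact h1
  exact (smul_left_injective K h3 h4).symm

/-- The image of a polynomial in `x` is invariant under the preimage of `C_X(x)`. -/
theorem image_inv (S : Sys p q π ρA β ρF) {X : AddSubgroup W} {U : Submodule K V}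
    (hs : SubSys π ρA β X U) (x : F) (N : Module.End K V)
    (hN : N ∈ Algebra.adjoin K {ρF x}) (g : A) (hg : π g ∈ X) (hxg : x • π g = π g) :
    ∀ v ∈ U.map N, ρA g v ∈ U.map N := by
  have hc := S.cop x g hxg
  have hle : Algebra.adjoin K {ρF x} ≤ Subalgebra.centralizer K {ρA g} := by
    apply Algebra.adjoin_le
    intro y hy
    rw [Set.mem_singleton_iff] at hy
    subst hy
    rw [SetLike.mem_coe, Subalgebra.mem_centralizer_iff]
    intro z hz
    rw [Set.mem_singleton_iff] at hz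
    rw [hz, hc]
  have hNc : ρA g * N = N * ρA g := (Subalgebra.mem_centralizer_iff K).1 (hle hN) _ rfl
  rintro _ ⟨u, hu, rfl⟩
  refine ⟨ρA g u, hs.act g hg u hu, ?_⟩
  have := congrArg (fun T : Module.End K V => T u) hNc
  simpa using this.symm

end H60SH

end S_ALPHA
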