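import Mathlib
import Pool.Agent.H60.SHM.M1

set_option autoImplicit false

/-! Fitting height and commutator laws, part M3: this file joins several modules to save build time. -/

section S_BL

namespace H60SH

open Module

/-- The ring identity behind `BL`. -/
theorem BL_ring {R : Type*} [Ring R] (c t y z y' t' : R) (hcy : c * y = y * c)
    (hcz : c * z = z * c)
    (ht : t * t = (1 + c) * t - c) (hyt : y * t = z * t * y) (hzt : z * t = t * z)
    (hzy : z * y = y * z) (hy : y * y' = 1) (htt : t * t' = 1) (z' : R) (hz : z' * z = 1)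
    (hinj : ∀ a : R, (1 + c) * a = 0 → a = 0)
    (hstab : (z - 1) * (z - 1) = 0 → z - 1 = 0) : z = 1 := by
  -- first identity
  have e1 : y * (t * t) = z * z * (t * t) * y := by
    calc y * (t * t) = (y * t) * t := (mul_assoc _ _ _).symm
      _ = z * t * (y * t) := by rw [hyt]; simp only [mul_assoc]; rw [hyt]; simp only [mul_assoc]
      _ = z * (t * z) * t * y := by rw [hyt]; simp only [mul_assoc]
      _ = z * z * (t * t) * y := by rw [← hzt]; simp only [mul_assoc]
  have hA : (c * (z + 1) - z * (1 + c) * t) * (z - 1) = 0 := by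
    have e2 : y * ((1 + c) * t - c) = (1 + c) * (z * t * y) - c * y := by
      rw [mul_sub, ← hcy, ← mul_assoc, mul_add, add_mul, mul_one, ← hcy]
      rw [mul_assoc c y t, hyt]
      noncomm_ring
    rw [ht, e2] at e1
    have e3 : ((z - 1) * (c * (z + 1) - z * (1 + c) * t)) * y = 0 := by
      have : ((z - 1) * (c * (z + 1) - z * (1 + c) * t)) * y
          = ((1 + c) * (z * t * y) - c * y) - z * z * ((1 + c) * t - c) * y := by
        have h2 : z * c = c * z := hcz.symm
        have h2' : ∀ a : R, z * (c * a) = c * (z * a) := by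
          intro a; rw [← mul_assoc, h2, mul_assoc]
        simp only [mul_add, add_mul, mul_sub, sub_mul, mul_one, one_mul, mul_assoc, h2']
        abel
      rw [this, e1, sub_self]
    have e4 : (z - 1) * (c * (z + 1) - z * (1 + c) * t) = 0 := by
      have := congrArg (· * y') e3
      simpa [mul_assoc, hy] using this
    have e5 : (c * (z + 1) - z * (1 + c) * t) * (z - 1)
        = (z - 1) * (c * (z + 1) - z * (1 + c) * t) := by
      have h2 : z * c = c * z := hcz.symm
      have h3 : t * z = z * t := hzt.symm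
      have hcom : Commute (c * (z + 1) - z * (1 + c) * t) z := by
        have c1 : Commute c z := hcz
        have c2 : Commute t z := h3
        have c3 : Commute (z + 1) z := (Commute.refl z).add_left (Commute.one_left z)
        have c4 : Commute (1 + c) z := (Commute.one_left z).add_left c1
        exact (c1.mul_left c3).sub_left (((Commute.refl z).mul_left c4).mul_left c2)
      exact (hcom.sub_right (Commute.one_right _)).eq
    rw [e5, e4]
  have hB : (z * (1 + c) * (y * t - t * y)) * (z - 1) = 0 := by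
    have f1 : y * (c * (z + 1) - z * (1 + c) * t) - (c * (z + 1) - z * (1 + c) * t) * y
        = - (z * (1 + c) * (y * t - t * y)) := by
      have c1 : Commute y c := hcy.symm
      have c2 : Commute y z := hzy.symm
      have c3 : Commute y (c * (z + 1)) := c1.mul_right (c2.add_right (Commute.one_right y))
      have c4 : Commute y (z * (1 + c)) := c2.mul_right ((Commute.one_right y).add_right c1)
      have g3 := c3.eq
      have g4 := c4.eq
      rw [mul_sub, sub_mul, g3, ← mul_assoc y, g4]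
      noncomm_ring
    have f2 : (y * (c * (z + 1) - z * (1 + c) * t) - (c * (z + 1) - z * (1 + c) * t) * y)
        * (z - 1) = 0 := by
      have g1 : y * (z - 1) = (z - 1) * y := by
        rw [mul_sub, sub_mul, hzy]; simp
      rw [sub_mul, mul_assoc y, hA, mul_zero, mul_assoc _ y, g1, ← mul_assoc _ _ y, hA, zero_mul,
        sub_zero]
    rw [f1] at f2
    simpa using f2
  have hC : (1 + c) * ((z - 1) * (z - 1)) = 0 := by
    have g0 : y * t - t * y = (z - 1) * (t * y) := by
      rw [hyt]; noncomm_ring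
    have g1 : t * y * (z - 1) = (z - 1) * (t * y) := by
      have : Commute (t * y) z := Commute.mul_left hzt.symm hzy.symm
      exact (this.sub_right (Commute.one_right _)).eq
    rw [g0] at hB
    have g2 : z * (1 + c) * ((z - 1) * (t * y)) * (z - 1)
        = z * ((1 + c) * ((z - 1) * (z - 1))) * (t * y) := by
      rw [mul_assoc (z * (1 + c)), mul_assoc (z - 1), g1]
      noncomm_ring
    rw [g2] at hB
    have g3 : (z * ((1 + c) * ((z - 1) * (z - 1)))) * (t * y) * y' = 0 := by rw [hB, zero_mul]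
    have g4 : (z * ((1 + c) * ((z - 1) * (z - 1)))) * t = 0 := by
      rw [mul_assoc, mul_assoc t, hy, mul_one] at g3
      exact g3
    have g5 : z * ((1 + c) * ((z - 1) * (z - 1))) = 0 := by
      have := congrArg (· * t') g4
      simpa [mul_assoc, htt] using this
    have := congrArg (z' * ·) g5
    simpa [← mul_assoc, hz] using this
  exact sub_eq_zero.mp (hstab (hinj _ hC))


theorem BL_aux {X F : Type*} [AddCommGroup X] [Finite X] [Group F] [Finite F]
    [DistribMulAction F X] (p q : ℕ) (hp : p.Prime) (hq : q.Prime) (hpq : p ≠ q) (hp2 : p ≠ 2)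
    (hF : IsPGroup p F) (hW : ∀ w : X, q • w = 0) (c t t' : F)
    (hc : ∀ (f : F) (w : X), c • f • w = f • c • w)
    (hfix : ∀ w : X, c • w = w → w = 0)
    (h1 : ∀ w : X, c • (t • w - w) = t • (t • w - w))
    (h2 : ∀ w : X, c • (t' • w - w) = t' • (t' • w - w)) (w : X) :
    t • t' • w = t' • t • w := by
  classical
  have : Fact p.Prime := ⟨hp⟩
  let φ : F →* AddMonoid.End X := DistribMulAction.toAddMonoidEnd F X
  have hφ : ∀ (f : F) (w : X), φ f w = f • w := fun f w => rfl
  let φ' : F →* (AddMonoid.End X)ˣ := φ.toHomUnits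
  have hφ' : ∀ f : F, ((φ' f : (AddMonoid.End X)ˣ) : AddMonoid.End X) = φ f := fun f => rfl
  -- `1 + c` is injective
  have hinj : ∀ a : AddMonoid.End X, (1 + φ c) * a = 0 → a = 0 := by
    intro a ha
    ext w
    have hw : a w + c • a w = 0 := DFunLike.congr_fun ha w
    obtain ⟨n, hn⟩ := hF c
    have hneg : c • a w = - a w := by
      rw [eq_neg_iff_add_eq_zero, add_comm]; exact hw
    have hpow : ∀ m : ℕ, c ^ m • a w = ((-1 : ℤ) ^ m) • a w := by
      intro m
      induction m with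
      | zero => simp
      | succ m ih =>
        rw [pow_succ, mul_smul, hneg, smul_neg, ih, pow_succ]
        simp
    have h := hpow (p ^ n)
    have hodd : Odd (p ^ n) := (hp.odd_of_ne_two hp2).pow
    rw [hn, one_smul, hodd.neg_one_pow] at h
    simp only [neg_smul, one_smul] at h
    exact hfix (a w) (by rw [hneg]; exact h.symm)
  -- stability
  have hstab : ∀ f : F, (φ f - 1) * (φ f - 1) = 0 → φ f - 1 = 0 := by
    intro f hf
    ext w
    set r : X := f • w - w with hr
    have hfr : f • r = r := by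
      have h3 : f • (f • w - w) - (f • w - w) = 0 := DFunLike.congr_fun hf w
      exact sub_eq_zero.mp h3
    have hpow : ∀ m : ℕ, f ^ m • w = w + m • r := by
      intro m
      induction m with
      | zero => simp
      | succ m ih =>
        rw [pow_succ', mul_smul, ih, smul_add, smul_comm f m r, hfr, succ_nsmul]
        rw [hr]; abel
    obtain ⟨n, hn⟩ := hF f
    have h4 := hpow (p ^ n)
    rw [hn, one_smul] at h4
    have h5 : (p ^ n) • r = 0 := by
      have : w + 0 = w + (p ^ n) • r := by rw [add_zero]; exact h4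
      exact (add_left_cancel this).symm
    have h6 : q • r = 0 := hW r
    have h7 : addOrderOf r ∣ 1 := by
      have hcop : Nat.Coprime (p ^ n) q := Nat.Coprime.pow_left n ((Nat.coprime_primes hp hq).2 hpq)
      rw [← Nat.Coprime.gcd_eq_one hcop]
      exact Nat.dvd_gcd (addOrderOf_dvd_of_nsmul_eq_zero h5) (addOrderOf_dvd_of_nsmul_eq_zero h6)
    have h8 : r = 0 := by
      rw [← AddMonoid.addOrderOf_eq_one_iff]; exact Nat.dvd_one.mp h7
    change (φ f - 1) w = 0
    have : (φ f - 1) w = r := rfl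
    rw [this, h8]
  -- the group
  let H : Subgroup F := Subgroup.closure {t, t'}
  let G : Subgroup (AddMonoid.End X)ˣ := H.map φ'
  have hG : IsPGroup p G := (hF.to_subgroup H).map φ'
  have : Finite G := Finite.of_surjective (fun h : H => (⟨φ' h, h, h.2, rfl⟩ : G)) (by
    rintro ⟨_, h, hh, rfl⟩; exact ⟨⟨h, hh⟩, rfl⟩)
  have htH : t ∈ H := Subgroup.subset_closure (by simp)
  have htH' : t' ∈ H := Subgroup.subset_closure (by simp)
  -- the key claim
  have key : ∀ s : F, s ∈ H → (∀ w : X, c • (s • w - w) = s • (s • w - w)) → ∀ y : F, y ∈ H →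
      (∀ h ∈ H, φ (y * s * y⁻¹ * s⁻¹) * φ h = φ h * φ (y * s * y⁻¹ * s⁻¹)) →
      φ y * φ s = φ s * φ y := by
    intro s hs hsq y hy hz
    have hz1 : φ (y * s * y⁻¹ * s⁻¹) = 1 := by
      have hcc : ∀ f : F, φ c * φ f = φ f * φ c := by
        intro f
        ext w
        exact hc f w
      refine BL_ring (φ c) (φ s) (φ y) (φ (y * s * y⁻¹ * s⁻¹)) (φ y⁻¹) (φ s⁻¹) (hcc y) (hcc _)
        ?_ ?_ ?_ ?_ ?_ ?_ (φ (y * s * y⁻¹ * s⁻¹)⁻¹) ?_ hinj (hstab _)
      · ext w
        have e := hsq w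
        change s • s • w = (s • w + c • s • w) - c • w
        rw [smul_sub, smul_sub] at e
        rw [eq_sub_iff_add_eq] at e
        rw [eq_sub_iff_add_eq, ← sub_eq_iff_eq_add', ← e]
        abel
      · rw [← map_mul, ← map_mul, ← map_mul]; congr 1; group
      · exact hz s hs
      · exact hz y hy
      · rw [← map_mul, mul_inv_cancel, map_one]
      · rw [← map_mul, mul_inv_cancel, map_one]
      · rw [← map_mul, inv_mul_cancel, map_one]
    have e1 : φ y * φ s = φ (y * s * y⁻¹ * s⁻¹) * (φ s * φ y) := by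
      rw [← map_mul, ← map_mul, ← map_mul]; congr 1; group
    rw [e1, hz1, one_mul]
  -- conclusion
  by_contra hne
  have hnc : ∃ a b : G, a * b ≠ b * a := by
    refine ⟨⟨φ' t, t, htH, rfl⟩, ⟨φ' t', t', htH', rfl⟩, fun h => hne ?_⟩
    have h3 : φ' t * φ' t' = φ' t' * φ' t := congrArg Subtype.val h
    have h4 : φ t * φ t' = φ t' * φ t := congrArg Units.val h3
    exact DFunLike.congr_fun h4 w
  have hQ : Nontrivial (G ⧸ Subgroup.center G) := by
    rw [← not_subsingleton_iff_nontrivial]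
    intro hsub
    obtain ⟨a, b, hab⟩ := hnc
    have ha : a ∈ Subgroup.center G := by
      rw [← QuotientGroup.eq_one_iff]; exact Subsingleton.elim _ _
    exact hab ((Subgroup.mem_center_iff.mp ha b).symm)
  have hQp : IsPGroup p (G ⧸ Subgroup.center G) := hG.to_quotient _
  have hQc : Nontrivial (Subgroup.center (G ⧸ Subgroup.center G)) := hQp.center_nontrivial
  obtain ⟨⟨y0, hy0⟩, hy1⟩ := exists_ne (1 : Subgroup.center (G ⧸ Subgroup.center G))
  obtain ⟨y1, rfl⟩ := QuotientGroup.mk_surjective y0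
  obtain ⟨y, hyH, hyy⟩ := y1.2
  have hyn : y1 ∉ Subgroup.center G := by
    intro h
    apply hy1
    apply Subtype.ext
    exact (QuotientGroup.eq_one_iff _).mpr h
  -- the commutators are central
  have hcen : ∀ s : F, s ∈ H → ∀ h ∈ H,
      φ (y * s * y⁻¹ * s⁻¹) * φ h = φ h * φ (y * s * y⁻¹ * s⁻¹) := by
    intro s hs h hh
    let s1 : G := ⟨φ' s, s, hs, rfl⟩
    let k1 : G := ⟨φ' h, h, hh, rfl⟩
    have h3 : y1 * s1 * y1⁻¹ * s1⁻¹ ∈ Subgroup.center G := by
      rw [← QuotientGroup.eq_one_iff]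
      have h4 := Subgroup.mem_center_iff.mp hy0 (s1 : G ⧸ Subgroup.center G)
      have h8 : ((y1 * s1 * y1⁻¹ * s1⁻¹ : G) : G ⧸ Subgroup.center G) =
          (y1 : G ⧸ Subgroup.center G) * s1 * (y1 : G ⧸ Subgroup.center G)⁻¹ *
            (s1 : G ⧸ Subgroup.center G)⁻¹ := rfl
      rw [h8, ← h4]
      group
    have h5 := Subgroup.mem_center_iff.mp h3 k1
    have h6 : (k1 : (AddMonoid.End X)ˣ) * (y1 * s1 * y1⁻¹ * s1⁻¹ : G) =
      (y1 * s1 * y1⁻¹ * s1⁻¹ : G) * (k1 : (AddMonoid.End X)ˣ) := congrArg Subtype.val h5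
    have h7 : ((y1 * s1 * y1⁻¹ * s1⁻¹ : G) : (AddMonoid.End X)ˣ) = φ' (y * s * y⁻¹ * s⁻¹) := by
      push_cast
      rw [← hyy]
      simp only [map_mul, map_inv]
      rfl
    rw [h7] at h6
    exact (congrArg Units.val h6).symm
  have c1 := key t htH h1 y hyH (hcen t htH)
  have c2 := key t' htH' h2 y hyH (hcen t' htH')
  apply hyn
  rw [Subgroup.mem_center_iff]
  rintro ⟨g0, h, hh, rfl⟩
  have c3 : φ y * φ h = φ h * φ y := by
    refine Subgroup.closure_induction (p := fun h _ => φ y * φ h = φ h * φ y) ?_ ?_ ?_ ?_ hh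
    · intro x hx
      rcases hx with rfl | hx
      · exact c1
      · rw [Set.mem_singleton_iff] at hx
        rw [hx]; exact c2
    · simp
    · intro a b _ _ ha hb
      rw [map_mul, ← mul_assoc, ha, mul_assoc, hb, mul_assoc]
    · intro a _ ha
      have e1 : φ a * φ a⁻¹ = 1 := by rw [← map_mul, mul_inv_cancel, map_one]
      have e2 : φ a⁻¹ * φ a = 1 := by rw [← map_mul, inv_mul_cancel, map_one]
      calc φ y * φ a⁻¹ = (φ a⁻¹ * φ a) * φ y * φ a⁻¹ := by rw [e2, one_mul]
        _ = φ a⁻¹ * (φ y * φ a) * φ a⁻¹ := by rw [ha]; simp only [mul_assoc]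
        _ = φ a⁻¹ * φ y * (φ a * φ a⁻¹) := by simp only [mul_assoc]
        _ = φ a⁻¹ * φ y := by rw [e1, mul_one]
  apply Subtype.ext
  apply Units.ext
  change φ h * ((y1 : (AddMonoid.End X)ˣ) : AddMonoid.End X) =
    ((y1 : (AddMonoid.End X)ˣ) : AddMonoid.End X) * φ h
  rw [← hyy, hφ']
  exact c3.symm

/-- **BL**: in a finite `p`-group (`p` odd) acting on an elementary abelian `q`-group, two elements
which act as the (fixed point free) central element `c` on their commutator spaces commute. -/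
theorem BL {W F : Type*} [AddCommGroup W] [Finite W] [Group F] [Finite F] [DistribMulAction F W]
    (p q : ℕ) (hp : p.Prime) (hq : q.Prime) (hpq : p ≠ q) (hp2 : p ≠ 2) (hF : IsPGroup p F)
    (hW : ∀ w : W, q • w = 0) (X : AddSubgroup W) (hX : ∀ (f : F), ∀ w ∈ X, f • w ∈ X)
    (c t t' : F) (hc : ∀ (f : F), ∀ w ∈ X, c • f • w = f • c • w)
    (hfix : ∀ w ∈ X, c • w = w → w = 0)
    (h1 : ∀ w ∈ X, c • (t • w - w) = t • (t • w - w))
    (h2 : ∀ w ∈ X, c • (t' • w - w) = t' • (t' • w - w)) (w : W) (hw : w ∈ X) :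
    t • t' • w = t' • t • w := by
  let act : DistribMulAction F X :=
    { smul := fun f x => ⟨f • (x : W), hX f x x.2⟩
      one_smul := fun x => Subtype.ext (one_smul F (x : W))
      mul_smul := fun f g x => Subtype.ext (mul_smul f g (x : W))
      smul_zero := fun f => Subtype.ext (smul_zero f)
      smul_add := fun f x y => Subtype.ext (smul_add f (x : W) y) }
  have h := @BL_aux X F _ _ _ _ act p q hp hq hpq hp2 hF
    (fun w => Subtype.ext (hW w)) c t t' (fun f w => Subtype.ext (hc f w w.2))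
    (fun w h => Subtype.ext (hfix w w.2 (congrArg Subtype.val h)))
    (fun w => Subtype.ext (h1 w w.2)) (fun w => Subtype.ext (h2 w w.2)) ⟨w, hw⟩
  exact congrArg Subtype.val h

end H60SH

end S_BL

section S_SIXTEEN

namespace H60SH

namespace SIXT

theorem exists_orbit {S F : Type*} [Group F] [MulAction F S] [Finite S] [Finite F]
    (hS : Nat.card S = 15) : ∃ w : S, ¬ 9 ∣ Nat.card (MulAction.orbit F w) := by
  classical
  by_contra hcon
  push Not at hcon
  have e := Nat.card_congr (MulAction.selfEquivSigmaOrbits' F S)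
  have : Fintype (MulAction.orbitRel.Quotient F S) := Fintype.ofFinite _
  rw [Nat.card_sigma, hS] at e
  have h9 : 9 ∣ 15 := by
    rw [e]
    refine Finset.dvd_sum ?_
    intro ω _
    induction ω using Quotient.inductionOn' with
    | h a => exact hcon a
  omega

end SIXT

/-- **SIXTEEN**: a finite `3`-group acting on an elementary abelian group of order `16`, with a
fixed point free element `c` of order `3` acting centrally, is reducible. -/
theorem sixteen {W F : Type*} [AddCommGroup W] [Finite W] [Group F] [Finite F]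
    [DistribMulAction F W] (hF : IsPGroup 3 F) (X : AddSubgroup W)
    (hX : ∀ (f : F), ∀ w ∈ X, f • w ∈ X) (hcard : Nat.card X = 16)
    (h2 : ∀ w ∈ X, w + w = 0) (c : F)
    (hc : ∀ (f : F), ∀ w ∈ X, c • f • w = f • c • w)
    (hfix : ∀ w ∈ X, c • w = w → w = 0) (hc3 : ∀ w ∈ X, (c ^ 3) • w = w) :
    ∃ Y : AddSubgroup W, Y ≤ X ∧ Y ≠ ⊥ ∧ Y ≠ X ∧ ∀ (f : F), ∀ w ∈ Y, f • w ∈ Y := by
  classical
  let S := {w : W // w ∈ X ∧ w ≠ 0}
  letI : MulAction F S :=
    { smul := fun f w => ⟨f • w.1, hX f _ w.2.1, fun h => w.2.2 (by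
        have := congrArg (fun z => f⁻¹ • z) h
        simpa using this)⟩
      one_smul := fun w => Subtype.ext (one_smul F w.1)
      mul_smul := fun f g w => Subtype.ext (mul_smul f g w.1) }
  have hsm : ∀ (f : F) (w : S), (f • w : S).1 = f • w.1 := fun _ _ => rfl
  have hS : Nat.card S = 15 := by
    have h1 : Nat.card X = Nat.card S + 1 := by
      have : Nat.card (Option S) = Nat.card S + 1 := Finite.card_option
      rw [← this]
      refine Nat.card_congr ?_
      refine
        { toFun := fun x => if h : x.1 = 0 then none else some ⟨x.1, x.2, h⟩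
          invFun := fun o => match o with
            | none => 0
            | some s => ⟨s.1, s.2.1⟩
          left_inv := ?_
          right_inv := ?_ }
      · intro x
        by_cases h : x.1 = 0
        · simp only [h, dif_pos]
          exact Subtype.ext h.symm
        · simp only [h, dif_neg, not_false_eq_true]
      · intro o
        match o with
        | none => simp
        | some s => simp [s.2.2]
    omega
  obtain ⟨w, hw⟩ := SIXT.exists_orbit (F := F) hS
  have : Fact (Nat.Prime 3) := ⟨Nat.prime_three⟩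
  obtain ⟨k, hk⟩ := hF.card_orbit w
  have hinj : ∀ f : F, ∀ x y : W, f • x = f • y → x = y := fun f x y h => by
    have := congrArg (fun z => f⁻¹ • z) h
    simpa using this
  have hw1 : c • w.1 ≠ w.1 := fun h => w.2.2 (hfix _ w.2.1 h)
  have hw3 : c • c • c • w.1 = w.1 := by
    have := hc3 _ w.2.1
    rw [pow_succ, pow_succ, pow_one, mul_smul, mul_smul] at this
    exact this
  have hw2 : c • c • w.1 ≠ w.1 := by
    intro h
    rw [h] at hw3
    exact hw1 hw3
  have hw12 : c • w.1 ≠ c • c • w.1 := fun h => hw1 (hinj c _ _ h).symm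
  -- orbit
  have hsub : ({w, c • w, c • c • w} : Set S) ⊆ MulAction.orbit F w := by
    intro x hx
    rcases hx with rfl | rfl | rfl
    · exact MulAction.mem_orbit_self _
    · exact MulAction.mem_orbit _ _
    · exact ⟨c * c, mul_smul c c w⟩
  have hn3 : ({w, c • w, c • c • w} : Set S).ncard = 3 := by
    rw [Set.ncard_eq_three]
    refine ⟨w, c • w, c • c • w, ?_, ?_, ?_, rfl⟩
    · intro h; exact hw1 (congrArg Subtype.val h).symm
    · intro h; exact hw2 (congrArg Subtype.val h).symm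
    · intro h; exact hw12 (congrArg Subtype.val h)
  have hle : 3 ≤ Nat.card (MulAction.orbit F w) := by
    rw [← hn3, Nat.card_coe_set_eq]
    exact Set.ncard_le_ncard hsub (Set.toFinite _)
  have hk1 : Nat.card (MulAction.orbit F w) = 3 := by
    match k, hk with
    | 0, hk => rw [hk] at hle; norm_num at hle
    | 1, hk => rw [hk]; norm_num
    | (k + 2), hk =>
      exfalso
      apply hw
      rw [hk, pow_add]
      exact Dvd.intro_left _ rfl
  have horb : ({w, c • w, c • c • w} : Set S) = MulAction.orbit F w := by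
    refine Set.eq_of_subset_of_ncard_le hsub ?_ (Set.toFinite _)
    rw [hn3, ← Nat.card_coe_set_eq, hk1]
  -- the sum
  set u : W := w.1 with hu
  set v : W := c • w.1 with hv
  have huX : u ∈ X := w.2.1
  have hvX : v ∈ X := hX c _ huX
  have hsum : c • v = u + v := by
    have hX' : u + v + c • v ∈ X := X.add_mem (X.add_mem huX hvX) (hX c _ hvX)
    have h0 : u + v + c • v = 0 := by
      refine hfix _ hX' ?_
      rw [smul_add, smul_add]
      have : c • c • v = u := hw3
      rw [this]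
      change v + c • v + u = u + v + c • v
      abel
    have h1 := h2 _ (hX c _ hvX)
    have h3 : u + v + c • v = c • v + c • v := by rw [h0, h1]
    exact (add_right_cancel h3).symm
  have huu := h2 u huX
  have hvv := h2 v hvX
  have huv : u ≠ v := fun h => hw1 h.symm
  have key : ∀ x : W, x ∈ ({0, u, v, u + v} : Set W) → ∀ y ∈ ({0, u, v, u + v} : Set W),
      x + y ∈ ({0, u, v, u + v} : Set W) := by
    have e1 : u + v + u = v := by
      rw [add_right_comm, huu, zero_add]
    have e2 : u + v + v = u := by rw [add_assoc, hvv, add_zero]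
    have e3 : u + (u + v) = v := by rw [← add_assoc, huu, zero_add]
    have e4 : v + (u + v) = u := by rw [add_left_comm, hvv, add_zero]
    have e5 : u + v + (u + v) = 0 := by
      rw [add_add_add_comm, huu, hvv, add_zero]
    intro x hx y hy
    rcases hx with rfl | rfl | rfl | rfl
    · rw [zero_add]; exact hy
    · rcases hy with rfl | rfl | rfl | rfl
      · rw [add_zero]; simp
      · rw [huu]; simp
      · simp
      · rw [e3]; simp
    · rcases hy with rfl | rfl | rfl | rfl
      · rw [add_zero]; simp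
      · rw [add_comm]; simp
      · rw [hvv]; simp
      · rw [e4]; simp
    · rcases hy with rfl | rfl | rfl | rfl
      · rw [add_zero]; simp
      · rw [e1]; simp
      · rw [e2]; simp
      · rw [e5]; simp
  have hsX : ∀ x ∈ ({0, u, v, u + v} : Set W), x ∈ X := by
    intro x hx
    rcases hx with rfl | rfl | rfl | rfl
    · exact X.zero_mem
    · exact huX
    · exact hvX
    · exact X.add_mem huX hvX
  let Y : AddSubgroup W :=
    { carrier := {0, u, v, u + v}
      add_mem' := fun {x y} hx hy => key x hx y hy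
      zero_mem' := by simp
      neg_mem' := fun {x} hx => by
        have := h2 x (hsX x hx)
        rw [neg_eq_of_add_eq_zero_left this]
        exact hx }
  have hYmem : ∀ x, x ∈ Y ↔ x ∈ ({0, u, v, u + v} : Set W) := fun _ => Iff.rfl
  refine ⟨Y, hsX, ?_, ?_, ?_⟩
  · intro h
    have : u ∈ Y := by rw [hYmem]; simp
    rw [h] at this
    exact w.2.2 (AddSubgroup.mem_bot.1 this)
  · intro h
    have h4 : Nat.card X ≤ 4 := by
      rw [← h]
      change Nat.card ({0, u, v, u + v} : Set W) ≤ 4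
      rw [Nat.card_coe_set_eq]
      have a1 := Set.ncard_insert_le (0 : W) {u, v, u + v}
      have a2 := Set.ncard_insert_le u {v, u + v}
      have a3 := Set.ncard_insert_le v {u + v}
      rw [Set.ncard_singleton] at a3
      omega
    omega
  · intro f x hx
    have hfw : ∀ f : F, f • u ∈ ({0, u, v, u + v} : Set W) := by
      intro f
      have : f • w ∈ ({w, c • w, c • c • w} : Set S) := by
        rw [horb]; exact MulAction.mem_orbit _ _
      rcases this with h | h | h
      · have := congrArg Subtype.val h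
        change f • u = u at this
        rw [this]; simp
      · have := congrArg Subtype.val h
        change f • u = v at this
        rw [this]; simp
      · have := congrArg Subtype.val h
        change f • u = c • v at this
        rw [this, hsum]; simp
    have hfv : ∀ f : F, f • v ∈ ({0, u, v, u + v} : Set W) := by
      intro f
      have : f • v = (f * c) • u := by rw [mul_smul]
      rw [this]
      exact hfw _
    rw [hYmem] at hx ⊢
    rcases hx with rfl | rfl | rfl | rfl
    · rw [smul_zero]; simp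
    · exact hfw f
    · exact hfv f
    · rw [smul_add]
      exact key _ (hfw f) _ (hfv f)

end H60SH

end S_SIXTEEN

section S_SIMP

namespace H60SH

/-- the pointwise stabiliser of an invariant subgroup -/
def simpKer {W F : Type*} [AddCommGroup W] [Group F] [DistribMulAction F W]
    (Y : AddSubgroup W) : Subgroup F where
  carrier := {f | ∀ w ∈ Y, f • w = w}
  mul_mem' := by
    intro a b ha hb w hw
    rw [mul_smul, hb w hw, ha w hw]
  one_mem' := by
    intro w _
    exact one_smul _ _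
  inv_mem' := by
    intro a ha w hw
    rw [inv_smul_eq_iff, ha w hw]

theorem mem_simpKer {W F : Type*} [AddCommGroup W] [Group F] [DistribMulAction F W]
    {Y : AddSubgroup W} {f : F} : f ∈ simpKer (F := F) Y ↔ ∀ w ∈ Y, f • w = w := Iff.rfl

theorem simpKer_normal {W F : Type*} [AddCommGroup W] [Group F] [DistribMulAction F W]
    (Y : AddSubgroup W) (hY : ∀ (f : F), ∀ w ∈ Y, f • w ∈ Y) :
    (simpKer (F := F) Y).Normal := by
  constructor
  intro n hn g w hw
  rw [mul_smul, mul_smul, hn _ (hY g⁻¹ w hw), smul_inv_smul]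

/-- **SIMP**: a minimal invariant subgroup on which `d` acts nontrivially is simple. -/
theorem exists_simple {W F : Type*} [AddCommGroup W] [Finite W] [Group F] [Finite F]
    [DistribMulAction F W] (p q : ℕ) (hp : p.Prime) (hq : q.Prime) (hpq : p ≠ q)
    (hF : IsPGroup p F) (hW : ∀ w : W, q • w = 0) (d : F) (hd : ∃ w : W, d • w ≠ w) :
    ∃ X : AddSubgroup W, (∀ (f : F), ∀ w ∈ X, f • w ∈ X) ∧ (∃ w ∈ X, d • w ≠ w) ∧
      ∀ Y : AddSubgroup W, Y ≤ X → (∀ (f : F), ∀ w ∈ Y, f • w ∈ Y) → Y = ⊥ ∨ Y = X := by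
  classical
  have : Fact p.Prime := ⟨hp⟩
  have : Finite (AddSubgroup W) :=
    Finite.of_injective (fun H : AddSubgroup W => (H : Set W)) SetLike.coe_injective
  let S : Set (AddSubgroup W) := {X | (∀ (f : F), ∀ w ∈ X, f • w ∈ X) ∧ ∃ w ∈ X, d • w ≠ w}
  have hS : S.Nonempty := by
    obtain ⟨w, hw⟩ := hd
    exact ⟨⊤, fun f w _ => AddSubgroup.mem_top _, w, AddSubgroup.mem_top _, hw⟩
  obtain ⟨X, hXS, hmin⟩ := WellFounded.has_min (wellFounded_lt (α := AddSubgroup W)) S hS
  obtain ⟨hXinv, hXd⟩ := hXS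
  refine ⟨X, hXinv, hXd, ?_⟩
  -- the normal closure of `d` acts trivially on proper invariant subgroups
  obtain ⟨N, hN⟩ : ∃ N : Subgroup F, N = Subgroup.normalClosure {d} := ⟨_, rfl⟩
  have hNn : N.Normal := by rw [hN]; exact Subgroup.normalClosure_normal
  have hdN : d ∈ N := by rw [hN]; exact Subgroup.subset_normalClosure (Set.mem_singleton _)
  have hprop : ∀ Y : AddSubgroup W, Y ≤ X → (∀ (f : F), ∀ w ∈ Y, f • w ∈ Y) → Y ≠ X →
      ∀ n ∈ N, ∀ w ∈ Y, n • w = w := by
    intro Y hYX hYinv hne n hn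
    have hdY : ∀ w ∈ Y, d • w = w := by
      by_contra hcon
      push Not at hcon
      exact hmin Y ⟨hYinv, hcon⟩ (lt_of_le_of_ne hYX hne)
    have := simpKer_normal (F := F) Y hYinv
    have : N ≤ simpKer (F := F) Y := by
      rw [hN]
      apply Subgroup.normalClosure_le_normal
      intro x hx
      rw [Set.mem_singleton_iff] at hx
      rw [hx]
      exact hdY
    exact this hn
  have : Fintype N := Fintype.ofFinite N
  let E : W → W := fun w => ∑ n : N, (n : F) • w
  have hEX : ∀ w ∈ X, E w ∈ X := fun w hw => AddSubgroup.sum_mem _ (fun n _ => hXinv _ w hw)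
  have hEadd : ∀ v w, E (v + w) = E v + E w := by
    intro v w
    simp only [E]
    rw [← Finset.sum_add_distrib]
    exact Finset.sum_congr rfl (fun n _ => smul_add _ _ _)
  have hE0 : E 0 = 0 := by
    simp only [E]
    exact Finset.sum_eq_zero (fun n _ => smul_zero _)
  have hEneg : ∀ v, E (-v) = -E v := by
    intro v
    simp only [E]
    rw [← Finset.sum_neg_distrib]
    exact Finset.sum_congr rfl (fun n _ => smul_neg _ _)
  have hEf : ∀ (f : F) (w : W), f • E w = E (f • w) := by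
    intro f w
    simp only [E]
    rw [Finset.smul_sum]
    let e : N ≃ N :=
      { toFun := fun n => ⟨f * n * f⁻¹, hNn.conj_mem n n.2 f⟩
        invFun := fun n => ⟨f⁻¹ * n * f, by
          have := hNn.conj_mem n n.2 f⁻¹
          rwa [inv_inv] at this⟩
        left_inv := by intro n; ext; simp [mul_assoc]
        right_inv := by intro n; ext; simp [mul_assoc] }
    rw [← Equiv.sum_comp e (fun n : N => (n : F) • f • w)]
    apply Finset.sum_congr rfl
    intro n _
    simp only [e, Equiv.coe_fn_mk]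
    rw [← mul_smul, ← mul_smul]
    congr 1
    group
  have hEd : ∀ w, E (d • w) = E w := by
    intro w
    simp only [E]
    rw [← Equiv.sum_comp (Equiv.mulRight (⟨d, hdN⟩ : N)) (fun n : N => (n : F) • w)]
    apply Finset.sum_congr rfl
    intro n _
    simp only [Equiv.coe_mulRight, Subgroup.coe_mul]
    rw [mul_smul]
  -- the cardinality of `N` is prime to `q`
  have hcard : ∀ w : W, (Fintype.card N) • w = 0 → w = 0 := by
    intro w hw
    obtain ⟨k, hk⟩ := (IsPGroup.iff_card.mp (hF.to_subgroup N))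
    rw [Nat.card_eq_fintype_card] at hk
    have hcop : Nat.Coprime (Fintype.card N) q := by
      rw [hk]
      exact Nat.Coprime.pow_left _ ((Nat.coprime_primes hp hq).mpr hpq)
    have h1 : addOrderOf w ∣ Fintype.card N := addOrderOf_dvd_of_nsmul_eq_zero hw
    have h2 : addOrderOf w ∣ q := addOrderOf_dvd_of_nsmul_eq_zero (hW w)
    have h3 : addOrderOf w = 1 := Nat.eq_one_of_dvd_coprimes hcop h1 h2
    exact AddMonoid.addOrderOf_eq_one_iff.mp h3
  have htriv : ∀ Y : AddSubgroup W, Y ≤ X → (∀ (f : F), ∀ w ∈ Y, f • w ∈ Y) → Y ≠ X →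
      ∀ w ∈ Y, E w = 0 → w = 0 := by
    intro Y hYX hYinv hne w hw hEw
    apply hcard
    have : E w = Fintype.card N • w := by
      simp only [E]
      rw [Finset.sum_congr rfl (fun (n : N) _ => hprop Y hYX hYinv hne n n.2 w hw)]
      simp
    rw [← this, hEw]
  let X2 : AddSubgroup W :=
    { carrier := {w | w ∈ X ∧ E w = 0}
      add_mem' := by
        intro a b ha hb
        refine ⟨X.add_mem ha.1 hb.1, ?_⟩
        rw [hEadd, ha.2, hb.2, add_zero]
      zero_mem' := ⟨X.zero_mem, hE0⟩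
      neg_mem' := by
        intro a ha
        refine ⟨X.neg_mem ha.1, ?_⟩
        rw [hEneg, ha.2, neg_zero] }
  have hX2le : X2 ≤ X := fun w hw => hw.1
  have hX2inv : ∀ (f : F), ∀ w ∈ X2, f • w ∈ X2 := by
    intro f w hw
    refine ⟨hXinv f w hw.1, ?_⟩
    rw [← hEf, hw.2, smul_zero]
  have hX2 : X2 = X := by
    by_contra hne
    obtain ⟨w, hwX, hdw⟩ := hXd
    apply hdw
    have hmem : d • w - w ∈ X2 := by
      refine ⟨X.sub_mem (hXinv d w hwX) hwX, ?_⟩
      rw [sub_eq_add_neg, hEadd, hEd, hEneg, add_neg_cancel]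
    have := htriv X2 hX2le hX2inv hne _ hmem hmem.2
    exact sub_eq_zero.mp this
  intro Y hYX hYinv
  by_cases hYne : Y = X
  · exact Or.inr hYne
  · left
    rw [AddSubgroup.eq_bot_iff_forall]
    intro w hw
    apply htriv Y hYX hYinv hYne w hw
    have : w ∈ X2 := by rw [hX2]; exact hYX hw
    exact this.2

/-- **SIMP2**: a `p`-group acting nontrivially on a simple `X` contains an element `c` which acts
centrally, fixed point freely and with order `p` on `X`. -/
theorem exists_central {W F : Type*} [AddCommGroup W] [Finite W] [Group F] [Finite F]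
    [DistribMulAction F W] (p : ℕ) [Fact p.Prime] (hF : IsPGroup p F) (X : AddSubgroup W)
    (hX : ∀ (f : F), ∀ w ∈ X, f • w ∈ X)
    (hsimple : ∀ Y : AddSubgroup W, Y ≤ X → (∀ (f : F), ∀ w ∈ Y, f • w ∈ Y) → Y = ⊥ ∨ Y = X)
    (hne : ∃ f : F, ∃ w ∈ X, f • w ≠ w) :
    ∃ c : F, (∀ (f : F), ∀ w ∈ X, c • f • w = f • c • w) ∧ (∀ w ∈ X, (c ^ p) • w = w) ∧
      (∀ w ∈ X, c • w = w → w = 0) ∧ ∃ w ∈ X, c • w ≠ w := by
  classical
  have hCn := simpKer_normal (F := F) X hX
  obtain ⟨C, hC⟩ : ∃ C : Subgroup F, C = simpKer (F := F) X := ⟨_, rfl⟩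
  have : C.Normal := by rw [hC]; exact hCn
  have hmemC : ∀ f : F, f ∈ C ↔ ∀ w ∈ X, f • w = w := by
    intro f; rw [hC]; exact mem_simpKer
  have hQ : IsPGroup p (F ⧸ C) := hF.to_quotient C
  have : Nontrivial (F ⧸ C) := by
    obtain ⟨f, w, hw, hfw⟩ := hne
    refine ⟨⟨(f : F ⧸ C), 1, ?_⟩⟩
    intro h
    rw [QuotientGroup.eq_one_iff] at h
    exact hfw ((hmemC f).mp h w hw)
  have := hQ.center_nontrivial
  obtain ⟨m, hm, hcardm⟩ := (hQ.to_subgroup (Subgroup.center (F ⧸ C))).nontrivial_iff_card.mp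
    inferInstance
  obtain ⟨z, hz⟩ := exists_prime_orderOf_dvd_card' (G := Subgroup.center (F ⧸ C)) p (by
    rw [hcardm]
    exact dvd_pow_self p hm.ne')
  obtain ⟨c, hc⟩ := QuotientGroup.mk_surjective (z : F ⧸ C)
  have hcent : ∀ f : F, ∀ w ∈ X, c • f • w = f • c • w := by
    intro f w hw
    have h1 : (f : F ⧸ C) * (z : F ⧸ C) = (z : F ⧸ C) * (f : F ⧸ C) :=
      (Subgroup.mem_center_iff.mp z.2) f
    rw [← hc, ← QuotientGroup.mk_mul, ← QuotientGroup.mk_mul, QuotientGroup.eq] at h1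
    have h2 := (hmemC _).mp h1 w hw
    rw [mul_smul, inv_smul_eq_iff, mul_smul, mul_smul] at h2
    exact h2
  have hpow : ∀ w ∈ X, (c ^ p) • w = w := by
    rw [← hmemC, ← QuotientGroup.eq_one_iff, QuotientGroup.mk_pow, hc]
    have : z ^ p = 1 := by rw [← hz]; exact pow_orderOf_eq_one z
    have := congrArg (fun y : Subgroup.center (F ⧸ C) => (y : F ⧸ C)) this
    simpa using this
  have hcne : ∃ w ∈ X, c • w ≠ w := by
    by_contra hcon
    push Not at hcon
    rw [← hmemC, ← QuotientGroup.eq_one_iff, hc] at hcon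
    have hz1 : z = 1 := by
      apply Subtype.ext
      rw [hcon]; rfl
    rw [hz1, orderOf_one] at hz
    exact (Fact.out : p.Prime).ne_one hz.symm
  refine ⟨c, hcent, hpow, ?_, hcne⟩
  let Y : AddSubgroup W :=
    { carrier := {w | w ∈ X ∧ c • w = w}
      add_mem' := by
        intro a b ha hb
        refine ⟨X.add_mem ha.1 hb.1, ?_⟩
        rw [smul_add, ha.2, hb.2]
      zero_mem' := ⟨X.zero_mem, smul_zero _⟩
      neg_mem' := by
        intro a ha
        refine ⟨X.neg_mem ha.1, ?_⟩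
        rw [smul_neg, ha.2] }
  rcases hsimple Y (fun w hw => hw.1) (by
    intro f w hw
    exact ⟨hX f w hw.1, by rw [hcent f w hw.1, hw.2]⟩) with h | h
  · intro w hw hcw
    have : w ∈ Y := ⟨hw, hcw⟩
    rw [h] at this
    exact AddSubgroup.mem_bot.mp this
  · exfalso
    obtain ⟨w, hw, hcw⟩ := hcne
    have : w ∈ Y := by rw [h]; exact hw
    exact hcw this.2

end H60SH

end S_SIMP

section S_FITT

namespace H60SH

open Subgroup in
/-- the elements centralising every normal subgroup of prime power order -/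
private def fitC (G : Type*) [Group G] : Subgroup G where
  carrier := {g | ∀ r : ℕ, r.Prime → ∀ N : Subgroup G, N.Normal → IsPGroup r N →
    ∀ x ∈ N, g * x = x * g}
  mul_mem' := by
    intro a b ha hb r hr N hN hp x hx
    have h1 := ha r hr N hN hp x hx
    have h2 := hb r hr N hN hp x hx
    rw [mul_assoc, h2, ← mul_assoc, h1, mul_assoc]
  one_mem' := by
    intro r hr N hN hp x hx
    simp
  inv_mem' := by
    intro a ha r hr N hN hp x hx
    have h1 := ha r hr N hN hp x hx
    rw [inv_mul_eq_iff_eq_mul, ← mul_assoc, h1, mul_assoc, mul_inv_cancel, mul_one]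

private instance fitC_normal (G : Type*) [Group G] : (fitC G).Normal := by
  constructor
  intro g hg y r hr N hN hp x hx
  have h1 := hg r hr N hN hp (y⁻¹ * x * y) (by
    have := hN.conj_mem x hx y⁻¹
    simpa using this)
  have h2 : y * g * y⁻¹ * x = y * (g * (y⁻¹ * x * y)) * y⁻¹ := by group
  rw [h2, h1]; group

/-- a normal subgroup of class at most two inside `fitC` is central in `fitC` -/
private theorem fit_nil {G : Type*} [Group G] [Finite G] (M : Subgroup G) [hM : M.Normal]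
    (hnil : Group.IsNilpotent M) :
    ∀ x ∈ M, ∀ g ∈ fitC G, g * x = x * g := by
  intro x hx g hg
  -- the subgroup of `M` of elements commuting with `g`
  let H : Subgroup M := (Subgroup.centralizer {g}).subgroupOf M
  have hH : H = ⊤ := by
    rw [← Subgroup.index_eq_one]
    by_contra hne
    obtain ⟨r, hr, hrd⟩ := Nat.exists_prime_and_dvd hne
    have : Fact r.Prime := ⟨hr⟩
    obtain ⟨P⟩ : Nonempty (Sylow r M) := inferInstance
    have hPn : (P : Subgroup M).Normal := inferInstance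
    have hPc : (P : Subgroup M).Characteristic := Sylow.characteristic_of_normal P hPn
    have hPG : ((P : Subgroup M).map M.subtype).Normal := inferInstance
    have hPp : IsPGroup r ((P : Subgroup M).map M.subtype) := P.isPGroup'.map _
    have hPH : (P : Subgroup M) ≤ H := by
      intro y hy
      rw [Subgroup.mem_subgroupOf, Subgroup.mem_centralizer_iff]
      intro h hh
      rw [Set.mem_singleton_iff] at hh
      subst hh
      exact hg r hr _ hPG hPp y ⟨y, hy, rfl⟩
    exact P.not_dvd_index (hrd.trans (Subgroup.index_dvd_of_le hPH))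
  have h1 : (⟨x, hx⟩ : M) ∈ H := by rw [hH]; trivial
  rw [Subgroup.mem_subgroupOf, Subgroup.mem_centralizer_iff] at h1
  exact h1 g rfl

private def fitD (G : Type*) [Group G] : ℕ → Subgroup G
  | 0 => fitC G
  | n + 1 => ⁅fitD G n, fitD G n⁆

private theorem fitD_normal (G : Type*) [Group G] (n : ℕ) : (fitD G n).Normal := by
  induction n with
  | zero => exact fitC_normal G
  | succ n ih => exact Subgroup.commutator_normal (fitD G n) (fitD G n)

private theorem fitD_le (G : Type*) [Group G] (n : ℕ) : fitD G n ≤ fitC G := by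
  induction n with
  | zero => exact le_refl _
  | succ n ih =>
    have := fitD_normal G n
    exact le_trans (Subgroup.commutator_le_left _ _) ih

private theorem fitD_le_derived (G : Type*) [Group G] (n : ℕ) : fitD G n ≤ derivedSeries G n := by
  induction n with
  | zero => exact le_top
  | succ n ih => exact Subgroup.commutator_mono ih ih

/-- `fitC` is abelian -/
private theorem fitC_comm {G : Type*} [Group G] [Finite G] [hs : Group.IsSolvable G] :
    ∀ x ∈ fitC G, ∀ g ∈ fitC G, g * x = x * g := by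
  classical
  have key : ∀ n, (∀ x ∈ fitD G n, ∀ g ∈ fitC G, g * x = x * g) →
      ∀ x ∈ fitC G, ∀ g ∈ fitC G, g * x = x * g := by
    intro n
    induction n with
    | zero => exact fun h => h
    | succ n ih =>
      intro h
      apply ih
      have := fitD_normal G n
      apply fit_nil (fitD G n)
      rw [Subgroup.isNilpotent_iff_lowerCentralSeries]
      refine ⟨2, ?_⟩
      rw [Subgroup.lowerCentralSeries_succ, Subgroup.lowerCentralSeries_succ]
      have h0 : (fitD G n).lowerCentralSeries 0 = fitD G n := by simp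
      rw [h0]
      have h1 : ⁅⁅fitD G n, fitD G n⁆, fitD G n⁆ = ⊥ := by
        rw [Subgroup.commutator_eq_bot_iff_le_centralizer]
        intro x hx
        rw [Subgroup.mem_centralizer_iff]
        intro g hg
        exact h x hx g (fitD_le G n hg)
      exact h1
  obtain ⟨n, hn⟩ := hs.solvable
  apply key n
  intro x hx g _
  have : x ∈ derivedSeries G n := fitD_le_derived G n hx
  rw [hn, Subgroup.mem_bot] at this
  subst this
  simp

/-- for every prime `r`, there is a Sylow `r`-subgroup of `fitC` which is normal in the group -/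
private theorem fitC_sylow {G : Type*} [Group G] [Finite G] [Group.IsSolvable G] (r : ℕ)
    (hr : r.Prime)
    (h : ∀ N : Subgroup G, N.Normal → IsPGroup r N → N = ⊥) :
    ¬ r ∣ Nat.card (fitC G) := by
  intro hd
  have : Fact r.Prime := ⟨hr⟩
  obtain ⟨P⟩ : Nonempty (Sylow r (fitC G)) := inferInstance
  have hPn : (P : Subgroup (fitC G)).Normal := by
    constructor
    intro a ha b
    have h1 : b * a = a * b := Subtype.ext (fitC_comm (a : G) a.2 (b : G) b.2)
    rw [h1, mul_assoc, mul_inv_cancel, mul_one]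
    exact ha
  have hPc : (P : Subgroup (fitC G)).Characteristic := Sylow.characteristic_of_normal P hPn
  have hPG : ((P : Subgroup (fitC G)).map (fitC G).subtype).Normal := inferInstance
  have hPp : IsPGroup r ((P : Subgroup (fitC G)).map (fitC G).subtype) := P.isPGroup'.map _
  have hbot := h _ hPG hPp
  have hbot' : (P : Subgroup (fitC G)) = ⊥ := by
    rw [← Subgroup.map_subtype_inj, hbot, Subgroup.map_bot]
  apply P.not_dvd_index
  rw [hbot', Subgroup.index_bot]
  exact hd

/-- **FITT1**: in a finite soluble group without nontrivial normal `p`-subgroups, a nontrivial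
`p`-element acts nontrivially on some normal `q`-subgroup, `q ≠ p`. -/
theorem fit_q {Γ : Type*} [Group Γ] [Finite Γ] [Group.IsSolvable Γ] (p : ℕ) (hp : p.Prime)
    (hO : ∀ N : Subgroup Γ, N.Normal → IsPGroup p N → N = ⊥) (d : Γ)
    (hd : ∃ m : ℕ, d ^ (p ^ m) = 1) (hd1 : d ≠ 1) :
    ∃ q : ℕ, q.Prime ∧ q ≠ p ∧ ∃ N : Subgroup Γ, N.Normal ∧ IsPGroup q N ∧
      ∃ g ∈ N, d * g ≠ g * d := by
  by_contra hc
  push Not at hc
  have hdC : d ∈ fitC Γ := by
    intro r hr N hN hpN x hx
    by_cases hrp : r = p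
    · subst hrp
      have := hO N hN hpN
      rw [this, Subgroup.mem_bot] at hx
      subst hx; simp
    · exact hc r hr hrp N hN hpN x hx
  have h1 := fitC_sylow p hp hO
  obtain ⟨m, hm⟩ := hd
  apply hd1
  have h2 : orderOf d ∣ p ^ m := orderOf_dvd_of_pow_eq_one hm
  have h3 : orderOf d ∣ Nat.card (fitC Γ) := by
    have h4 : orderOf (⟨d, hdC⟩ : fitC Γ) ∣ Nat.card (fitC Γ) := orderOf_dvd_natCard _
    rwa [← Subgroup.orderOf_coe] at h4
  have h5 : (p ^ m).Coprime (Nat.card (fitC Γ)) :=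
    Nat.Coprime.pow_left m ((Nat.Prime.coprime_iff_not_dvd hp).2 h1)
  rw [← orderOf_eq_one_iff]
  exact Nat.eq_one_of_dvd_coprimes h5 h2 h3

/-- **FITT2**: `C_G(O_p(G)) ≤ O_p(G)` for a finite soluble group `G` with `O_{p'}(G) = 1`. -/
theorem fit_cent {G : Type*} [Group G] [Finite G] [Group.IsSolvable G] (p : ℕ) (hp : p.Prime)
    (hO : ∀ N : Subgroup G, N.Normal → (Nat.card N).Coprime p → N = ⊥)
    (P : Subgroup G) (hPmax : ∀ N : Subgroup G, N.Normal → IsPGroup p N → N ≤ P)
    (g : G) (hg : ∀ x ∈ P, g * x = x * g) : g ∈ P := by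
  have : Fact p.Prime := ⟨hp⟩
  have hO' : ∀ r : ℕ, r.Prime → r ≠ p → ∀ N : Subgroup G, N.Normal → IsPGroup r N → N = ⊥ := by
    intro r hr hrp N hN hpN
    have : Fact r.Prime := ⟨hr⟩
    apply hO N hN
    obtain ⟨n, hn⟩ := IsPGroup.iff_card.1 hpN
    rw [hn]
    exact Nat.Coprime.pow_left n ((Nat.coprime_primes hr hp).2 hrp)
  have hgC : g ∈ fitC G := by
    intro r hr N hN hpN x hx
    by_cases hrp : r = p
    · subst hrp
      exact hg x (hPmax N hN hpN hx)
    · have := hO' r hr hrp N hN hpN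
      rw [this, Subgroup.mem_bot] at hx
      subst hx; simp
  have hCp : IsPGroup p (fitC G) := by
    rw [IsPGroup.iff_card]
    refine ⟨_, Nat.eq_prime_pow_of_unique_prime_dvd Nat.card_pos.ne' ?_⟩
    intro r hr hrd
    by_contra hrp
    exact fitC_sylow r hr (hO' r hr hrp) hrd
  exact hPmax (fitC G) (fitC_normal G) hCp hgC

end H60SH

end S_FITT

section S_MINQ

namespace H60SH

open scoped commutatorElement

/-- A nontrivial finite `q`-group has a proper subgroup containing all commutators and all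
`q`-th powers. -/
theorem minq_max {Q : Type*} [Group Q] [Finite Q] [Nontrivial Q] (q : ℕ) (hq : q.Prime)
    (h : IsPGroup q Q) :
    ∃ M : Subgroup Q, M ≠ ⊤ ∧ (∀ g h : Q, ⁅g, h⁆ ∈ M) ∧ ∀ g : Q, g ^ q ∈ M := by
  have : Fact q.Prime := ⟨hq⟩
  obtain ⟨n, hn⟩ := IsPGroup.iff_card.mp h
  have hn0 : n ≠ 0 := by
    rintro rfl
    rw [pow_zero] at hn
    have := Finite.one_lt_card (α := Q)
    omega
  obtain ⟨M, hM⟩ := Sylow.exists_subgroup_card_pow_prime (G := Q) q (n := n - 1)
    (by rw [hn]; exact pow_dvd_pow q (by omega))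
  have hidx : M.index = q := by
    have h1 := M.card_mul_index
    rw [hM, hn] at h1
    have h2 : q ^ n = q ^ (n - 1) * q := by
      rw [← pow_succ]
      congr 1
      omega
    rw [h2] at h1
    exact Nat.eq_of_mul_eq_mul_left (pow_pos hq.pos _) h1
  have hnorm : M.Normal := by
    refine Subgroup.normal_of_index_eq_minFac_card ?_
    rw [hidx, hn, hq.pow_minFac hn0]
  have hcard : Nat.card (Q ⧸ M) = q := by
    rw [← hidx]
    rfl
  have hcyc : IsCyclic (Q ⧸ M) := isCyclic_of_prime_card hcard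
  have hcomm : ∀ a b : Q ⧸ M, a * b = b * a := fun a b => (IsMulCommutative.is_comm (M := Q ⧸ M)).comm a b
  refine ⟨M, ?_, ?_, ?_⟩
  · intro ht
    rw [ht, Subgroup.index_top] at hidx
    exact hq.one_lt.ne hidx
  · intro g h
    rw [← QuotientGroup.eq_one_iff, commutatorElement_def]
    have h1 := hcomm (g : Q ⧸ M) (h : Q ⧸ M)
    simp only [QuotientGroup.mk_mul, QuotientGroup.mk_inv]
    rw [h1]
    group
  · intro g
    rw [← QuotientGroup.eq_one_iff, QuotientGroup.mk_pow, ← hcard]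
    exact pow_card_eq_one'

/-- **MINQ**: a minimal `S`-invariant subgroup `Q` of the `q`-group `N` not centralised by `d`. -/
theorem min_q {Γ : Type*} [Group Γ] [Finite Γ] (p q : ℕ) (hp : p.Prime) (hq : q.Prime)
    (hpq : p ≠ q) (S N : Subgroup Γ) (hS : IsPGroup p S) (hN : IsPGroup q N)
    (hSN : ∀ s ∈ S, ∀ g ∈ N, s * g * s⁻¹ ∈ N) (d : Γ) (hdS : d ∈ S)
    (hd : ∃ g ∈ N, d * g ≠ g * d) :
    ∃ Q : Subgroup Γ, Q ≤ N ∧ (∀ s ∈ S, ∀ g ∈ Q, s * g * s⁻¹ ∈ Q) ∧
      (∃ g ∈ Q, d * g ≠ g * d) ∧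
      (∀ B : Subgroup Γ, B ≤ Q → B ≠ Q → (∀ s ∈ S, ∀ g ∈ B, s * g * s⁻¹ ∈ B) →
        (∀ s ∈ Q, ∀ g ∈ B, s * g * s⁻¹ ∈ B) → ∀ b ∈ B, ∀ g ∈ Q, b * g = g * b) ∧
      (∀ g ∈ Q, ∀ h ∈ Q, ∀ k ∈ Q, ⁅g, h⁆ * k = k * ⁅g, h⁆) ∧
      (∀ g ∈ Q, ∀ h ∈ Q, g ^ q * h = h * g ^ q) := by
  have : Fact p.Prime := ⟨hp⟩
  have : Fact q.Prime := ⟨hq⟩
  obtain ⟨Q, hQ⟩ := exists_minimal_of_wellFoundedLT
    (fun Q : Subgroup Γ => Q ≤ N ∧ (∀ s ∈ S, ∀ g ∈ Q, s * g * s⁻¹ ∈ Q) ∧ ∃ g ∈ Q, d * g ≠ g * d)
    ⟨N, le_refl N, hSN, hd⟩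
  obtain ⟨⟨hQN, hQS, hQd⟩, hmin⟩ := hQ
  -- proper `S`-invariant subgroups are centralised by `d`
  have hprop : ∀ B : Subgroup Γ, B ≤ Q → B ≠ Q → (∀ s ∈ S, ∀ g ∈ B, s * g * s⁻¹ ∈ B) →
      ∀ g ∈ B, d * g = g * d := by
    intro B hB hne hBS g hg
    by_contra hcon
    exact hne (le_antisymm hB (hmin ⟨hB.trans hQN, hBS, g, hg, hcon⟩ hB))
  have hQq : IsPGroup q Q := hN.to_le hQN
  -- the main step
  have h4 : ∀ B : Subgroup Γ, B ≤ Q → B ≠ Q → (∀ s ∈ S, ∀ g ∈ B, s * g * s⁻¹ ∈ B) →
        (∀ s ∈ Q, ∀ g ∈ B, s * g * s⁻¹ ∈ B) → ∀ b ∈ B, ∀ g ∈ Q, b * g = g * b := by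
    intro B hB hne hBS hBQ
    have hBd := hprop B hB hne hBS
    set C : Subgroup Γ := Q ⊓ Subgroup.centralizer (B : Set Γ) with hC
    have hmemC : ∀ x, x ∈ C ↔ x ∈ Q ∧ ∀ b ∈ B, b * x = x * b := by
      intro x
      rw [hC, Subgroup.mem_inf, Subgroup.mem_centralizer_iff]
      rfl
    have hCS : ∀ s ∈ S, ∀ g ∈ C, s * g * s⁻¹ ∈ C := by
      intro s hs g hg
      rw [hmemC] at hg ⊢
      refine ⟨hQS s hs g hg.1, ?_⟩
      intro b hb
      have hb' : s⁻¹ * b * s ∈ B := by
        have := hBS s⁻¹ (S.inv_mem hs) b hb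
        rwa [inv_inv] at this
      have h1 := hg.2 _ hb'
      calc b * (s * g * s⁻¹) = s * (s⁻¹ * b * s * g) * s⁻¹ := by group
        _ = s * (g * (s⁻¹ * b * s)) * s⁻¹ := by rw [h1]
        _ = s * g * s⁻¹ * b := by group
    by_cases hCQ : C = Q
    · intro b hb g hg
      rw [← hCQ, hmemC] at hg
      exact hg.2 b hb
    · exfalso
      have hCd := hprop C inf_le_left hCQ hCS
      obtain ⟨g, hg, hdg⟩ := hQd
      set r := d * g * d⁻¹ * g⁻¹ with hr
      have hrQ : r ∈ Q := Q.mul_mem (hQS d hdS g hg) (Q.inv_mem hg)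
      have hrC : r ∈ C := by
        rw [hmemC]
        refine ⟨hrQ, ?_⟩
        intro b hb
        -- `c = g⁻¹ b g` is in `B`, `d` commutes with `b` and `c`
        have hc : g⁻¹ * b * g ∈ B := by
          have := hBQ g⁻¹ (Q.inv_mem hg) b hb
          rwa [inv_inv] at this
        have hdc := hBd _ hc
        have hdb := hBd _ hb
        have hdc' : d⁻¹ * (g⁻¹ * b * g) = (g⁻¹ * b * g) * d⁻¹ := by
          rw [inv_mul_eq_iff_eq_mul, ← mul_assoc, hdc]
          group
        calc b * r = b * d * g * d⁻¹ * g⁻¹ := by rw [hr]; group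
          _ = d * b * g * d⁻¹ * g⁻¹ := by rw [hdb]
          _ = d * g * ((g⁻¹ * b * g) * d⁻¹) * g⁻¹ := by group
          _ = d * g * (d⁻¹ * (g⁻¹ * b * g)) * g⁻¹ := by rw [hdc']
          _ = r * b := by rw [hr]; group
      have hdr := hCd r hrC
      have hstep : d * g * d⁻¹ = r * g := by rw [hr]; group
      have hpow : ∀ m : ℕ, d ^ m * g * (d ^ m)⁻¹ = r ^ m * g := by
        intro m
        induction m with
        | zero => simp
        | succ m ih =>
          have hdrm : d * r ^ m = r ^ m * d := by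
            have : Commute d r := hdr
            exact (this.pow_right m)
          calc d ^ (m + 1) * g * (d ^ (m + 1))⁻¹ = d * (d ^ m * g * (d ^ m)⁻¹) * d⁻¹ := by
                rw [pow_succ']; group
            _ = d * (r ^ m * g) * d⁻¹ := by rw [ih]
            _ = (d * r ^ m) * g * d⁻¹ := by group
            _ = (r ^ m * d) * g * d⁻¹ := by rw [hdrm]
            _ = r ^ m * (d * g * d⁻¹) := by group
            _ = r ^ (m + 1) * g := by rw [hstep, pow_succ]; group
      obtain ⟨k, hk⟩ := hS ⟨d, hdS⟩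
      have hk' : d ^ p ^ k = 1 := by
        have := congrArg Subtype.val hk
        simpa using this
      have h1 := hpow (p ^ k)
      rw [hk'] at h1
      have hrpk : r ^ p ^ k = 1 := by
        have h2 : g = r ^ p ^ k * g := by simpa using h1
        exact (right_eq_mul.mp h2)
      obtain ⟨l, hl⟩ := hQq ⟨r, hrQ⟩
      have hl' : r ^ q ^ l = 1 := by
        have := congrArg Subtype.val hl
        simpa using this
      have hcop : Nat.Coprime (p ^ k) (q ^ l) :=
        Nat.Coprime.pow k l ((Nat.coprime_primes hp hq).mpr hpq)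
      have hr1 : r = 1 := by
        rw [← orderOf_eq_one_iff]
        exact Nat.eq_one_of_dvd_coprimes hcop (orderOf_dvd_of_pow_eq_one hrpk)
          (orderOf_dvd_of_pow_eq_one hl')
      rw [hr1, one_mul] at hstep
      exact hdg (mul_inv_eq_iff_eq_mul.mp hstep)
  -- the Frattini-type subgroup
  set T : Set Γ := {x | ∃ g ∈ Q, ∃ h ∈ Q, x = ⁅g, h⁆} ∪ {x | ∃ g ∈ Q, x = g ^ q} with hT
  set B : Subgroup Γ := Subgroup.closure T with hBdef
  have hTQ : T ⊆ Q := by
    rintro x (⟨g, hg, h, hh, rfl⟩ | ⟨g, hg, rfl⟩)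
    · rw [commutatorElement_def]
      exact Q.mul_mem (Q.mul_mem (Q.mul_mem hg hh) (Q.inv_mem hg)) (Q.inv_mem hh)
    · exact Q.pow_mem hg q
  have hBQ : B ≤ Q := (Subgroup.closure_le Q).mpr hTQ
  -- conjugation by an element normalising `Q`
  have hconj : ∀ s : Γ, (∀ g ∈ Q, s * g * s⁻¹ ∈ Q) → ∀ g ∈ B, s * g * s⁻¹ ∈ B := by
    intro s hs g hg
    have hmap : B ≤ B.comap (MulAut.conj s).toMonoidHom := by
      rw [hBdef, Subgroup.closure_le]
      rintro x (⟨g, hg, h, hh, rfl⟩ | ⟨g, hg, rfl⟩)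
      · refine Subgroup.subset_closure (Or.inl ⟨s * g * s⁻¹, hs g hg, s * h * s⁻¹, hs h hh, ?_⟩)
        change s * ⁅g, h⁆ * s⁻¹ = _
        simp only [commutatorElement_def]
        group
      · refine Subgroup.subset_closure (Or.inr ⟨s * g * s⁻¹, hs g hg, ?_⟩)
        change s * g ^ q * s⁻¹ = _
        rw [conj_pow]
    exact hmap hg
  have hBne : B ≠ Q := by
    intro he
    have hnt : Nontrivial Q := by
      obtain ⟨g, hg, hdg⟩ := hQd
      rw [Subgroup.nontrivial_iff_exists_ne_one]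
      refine ⟨g, hg, ?_⟩
      rintro rfl
      exact hdg (by simp)
    obtain ⟨M, hM, hM1, hM2⟩ := minq_max (Q := Q) q hq hQq
    refine hM ?_
    have hle : B ≤ M.map Q.subtype := by
      rw [hBdef, Subgroup.closure_le]
      rintro x (⟨g, hg, h, hh, rfl⟩ | ⟨g, hg, rfl⟩)
      · refine ⟨⁅(⟨g, hg⟩ : Q), ⟨h, hh⟩⁆, hM1 _ _, ?_⟩
        rfl
      · refine ⟨(⟨g, hg⟩ : Q) ^ q, hM2 _, ?_⟩
        rfl
    rw [Subgroup.eq_top_iff']
    intro x
    have hx : (x : Γ) ∈ B := by
      rw [he]
      exact x.2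
    obtain ⟨y, hy, hyx⟩ := hle hx
    have : y = x := Subtype.ext hyx
    rwa [← this]
  have hBcen := h4 B hBQ hBne (fun s hs => hconj s (fun g hg => hQS s hs g hg))
    (fun s hs => hconj s (fun g hg => Q.mul_mem (Q.mul_mem hs hg) (Q.inv_mem hs)))
  refine ⟨Q, hQN, hQS, hQd, h4, ?_, ?_⟩
  · intro g hg h hh k hk
    exact hBcen _ (Subgroup.subset_closure (Or.inl ⟨g, hg, h, hh, rfl⟩)) k hk
  · intro g hg h hh
    exact hBcen _ (Subgroup.subset_closure (Or.inr ⟨g, hg, rfl⟩)) h hh

end H60SH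

end S_MINQ

section S_CHAIN

namespace H60SH

open scoped commutatorElement

/-- The preimage of `Ω₁(Z(P/B))`. -/
private def upS {G : Type*} [Group G] (p : ℕ) (P B : Subgroup G) (hB : B.Normal) (hBP : B ≤ P) :
    Subgroup G where
  carrier := {y | y ∈ P ∧ (∀ x ∈ P, ⁅x, y⁆ ∈ B) ∧ y ^ p ∈ B}
  one_mem' := by
    refine ⟨P.one_mem, fun x _ => ?_, ?_⟩
    · rw [commutatorElement_one_right]; exact B.one_mem
    · rw [one_pow]; exact B.one_mem
  mul_mem' := by
    rintro y z ⟨hy, hy1, hy2⟩ ⟨hz, hz1, hz2⟩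
    refine ⟨P.mul_mem hy hz, fun x hx => ?_, ?_⟩
    · have e : ⁅x, y * z⁆ = ⁅x, y⁆ * (y * ⁅x, z⁆ * y⁻¹) := by
        simp only [commutatorElement_def]; group
      rw [e]
      exact B.mul_mem (hy1 x hx) (hB.conj_mem _ (hz1 x hx) y)
    · have hc : Commute (QuotientGroup.mk (s := B) y) (QuotientGroup.mk (s := B) z) := by
        have h1 : ⁅y, z⁆ ∈ B := hz1 y hy
        have h2 : QuotientGroup.mk' B ⁅y, z⁆ = 1 := by
          rw [← MonoidHom.mem_ker, QuotientGroup.ker_mk']; exact h1
        rw [map_commutatorElement, commutatorElement_eq_one_iff_commute] at h2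
        exact h2
      have h3 : QuotientGroup.mk' B ((y * z) ^ p) = 1 := by
        rw [map_pow, map_mul]
        have h4 : (QuotientGroup.mk' B y * QuotientGroup.mk' B z) ^ p
          = QuotientGroup.mk' B y ^ p * QuotientGroup.mk' B z ^ p := hc.mul_pow p
        rw [h4, ← map_pow, ← map_pow]
        have h5 : QuotientGroup.mk' B (y ^ p) = 1 := by
          rw [← MonoidHom.mem_ker, QuotientGroup.ker_mk']; exact hy2
        have h6 : QuotientGroup.mk' B (z ^ p) = 1 := by
          rw [← MonoidHom.mem_ker, QuotientGroup.ker_mk']; exact hz2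
        rw [h5, h6, one_mul]
      rw [← MonoidHom.mem_ker, QuotientGroup.ker_mk'] at h3
      exact h3
  inv_mem' := by
    rintro y ⟨hy, hy1, hy2⟩
    refine ⟨P.inv_mem hy, fun x hx => ?_, ?_⟩
    · have e : ⁅x, y⁻¹⁆ = y⁻¹ * ⁅x, y⁆⁻¹ * (y⁻¹)⁻¹ := by
        simp only [commutatorElement_def]; group
      rw [e]
      exact hB.conj_mem _ (B.inv_mem (hy1 x hx)) y⁻¹
    · rw [inv_pow]; exact B.inv_mem hy2

private theorem mem_upS {G : Type*} [Group G] (p : ℕ) (P B : Subgroup G) (hB : B.Normal)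
    (hBP : B ≤ P) (y : G) :
    y ∈ upS p P B hB hBP ↔ y ∈ P ∧ (∀ x ∈ P, ⁅x, y⁆ ∈ B) ∧ y ^ p ∈ B := Iff.rfl

private theorem upS_normal {G : Type*} [Group G] (p : ℕ) (P B : Subgroup G) (hP : P.Normal)
    (hB : B.Normal) (hBP : B ≤ P) : (upS p P B hB hBP).Normal := by
  constructor
  rintro y ⟨hy, hy1, hy2⟩ g
  refine ⟨hP.conj_mem y hy g, fun x hx => ?_, ?_⟩
  · have e : ⁅x, g * y * g⁻¹⁆ = g * ⁅g⁻¹ * x * (g⁻¹)⁻¹, y⁆ * g⁻¹ := by
      simp only [commutatorElement_def]; group
    rw [e]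
    exact hB.conj_mem _ (hy1 _ (hP.conj_mem x hx g⁻¹)) g
  · rw [conj_pow]
    exact hB.conj_mem _ hy2 g

private theorem le_upS {G : Type*} [Group G] (p : ℕ) (P B : Subgroup G) (hB : B.Normal)
    (hBP : B ≤ P) : B ≤ upS p P B hB hBP := by
  intro y hy
  refine ⟨hBP hy, fun x _ => ?_, B.pow_mem hy p⟩
  rw [commutatorElement_def]
  exact B.mul_mem (hB.conj_mem y hy x) (B.inv_mem hy)

private theorem upS_le {G : Type*} [Group G] (p : ℕ) (P B : Subgroup G) (hB : B.Normal)
    (hBP : B ≤ P) : upS p P B hB hBP ≤ P := fun _ hy => hy.1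

private theorem upS_ne {G : Type*} [Group G] [Finite G] (p : ℕ) [Fact p.Prime] (P B : Subgroup G)
    (hP : IsPGroup p P) (hB : B.Normal) (hBP : B ≤ P) (hne : B ≠ P) :
    B ≠ upS p P B hB hBP := by
  have hN : (B.subgroupOf P).Normal := hB.subgroupOf P
  have hQ : IsPGroup p (P ⧸ B.subgroupOf P) := hP.to_quotient _
  have hnt : Nontrivial (P ⧸ B.subgroupOf P) := by
    rw [← not_subsingleton_iff_nontrivial]
    intro hs
    apply hne
    apply le_antisymm hBP
    rw [QuotientGroup.subsingleton_iff] at hs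
    rw [Subgroup.subgroupOf_eq_top] at hs
    exact hs
  have hc : Nontrivial (Subgroup.center (P ⧸ B.subgroupOf P)) := hQ.center_nontrivial
  have hcp : IsPGroup p (Subgroup.center (P ⧸ B.subgroupOf P)) := hQ.to_subgroup _
  have hdvd : p ∣ Nat.card (Subgroup.center (P ⧸ B.subgroupOf P)) := by
    rcases hcp.card_eq_or_dvd with h | h
    · exfalso
      have := Finite.one_lt_card (α := Subgroup.center (P ⧸ B.subgroupOf P))
      omega
    · exact h
  obtain ⟨z, hz⟩ := exists_prime_orderOf_dvd_card' p hdvd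
  obtain ⟨y, hy⟩ := QuotientGroup.mk_surjective (z : P ⧸ B.subgroupOf P)
  intro heq
  have hyB : (y : G) ∈ upS p P B hB hBP := by
    refine ⟨y.2, fun x hx => ?_, ?_⟩
    · have h1 : ⁅(⟨x, hx⟩ : P), y⁆ ∈ B.subgroupOf P := by
        rw [← QuotientGroup.ker_mk' (B.subgroupOf P), MonoidHom.mem_ker, map_commutatorElement,
          commutatorElement_eq_one_iff_commute]
        have h2 : QuotientGroup.mk' (B.subgroupOf P) y = (z : P ⧸ B.subgroupOf P) := hy
        rw [h2]
        exact ((Subgroup.mem_center_iff.1 z.2) _)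
      exact h1
    · have h1 : y ^ p ∈ B.subgroupOf P := by
        rw [← QuotientGroup.ker_mk' (B.subgroupOf P), MonoidHom.mem_ker, map_pow]
        have h2 : QuotientGroup.mk' (B.subgroupOf P) y = (z : P ⧸ B.subgroupOf P) := hy
        rw [h2, ← hz, ← Subgroup.coe_pow, pow_orderOf_eq_one, Subgroup.coe_one]
      exact h1
  rw [← heq] at hyB
  have hz1 : z = 1 := by
    apply Subtype.ext
    rw [← hy]
    have : y ∈ B.subgroupOf P := hyB
    exact (QuotientGroup.eq_one_iff y).2 this
  rw [hz1, orderOf_one] at hz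
  exact (Fact.out : p.Prime).one_lt.ne hz

/-- The ascending chain. -/
private noncomputable def tS {G : Type*} [Group G] (p : ℕ) (P : Subgroup G) (hPn : P.Normal) :
    ℕ → {B : Subgroup G // B.Normal ∧ B ≤ P}
  | 0 => ⟨⊥, inferInstance, bot_le⟩
  | n + 1 => ⟨upS p P (tS p P hPn n).1 (tS p P hPn n).2.1 (tS p P hPn n).2.2,
      upS_normal p P _ hPn _ _, upS_le p P _ _ _⟩

/-- **CHAIN1**: a central chain with elementary abelian factors inside a normal `p`-subgroup. -/
theorem chain {G : Type*} [Group G] [Finite G] (p : ℕ) [Fact p.Prime] (P : Subgroup G)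
    (hPn : P.Normal) (hP : IsPGroup p P) :
    ∃ (m : ℕ) (s : ℕ → Subgroup G), s 0 = P ∧ s m = ⊥ ∧ (∀ i, (s i).Normal) ∧
      (∀ i, s (i + 1) ≤ s i) ∧ (∀ i, ∀ x ∈ P, ∀ y ∈ s i, ⁅x, y⁆ ∈ s (i + 1)) ∧
      (∀ i, ∀ y ∈ s i, y ^ p ∈ s (i + 1)) := by
  have h0 : (tS p P hPn 0).1 = ⊥ := rfl
  have hstep : ∀ n, (tS p P hPn (n + 1)).1
      = upS p P (tS p P hPn n).1 (tS p P hPn n).2.1 (tS p P hPn n).2.2 := fun n => rfl
  have hle : ∀ n, (tS p P hPn n).1 ≤ (tS p P hPn (n + 1)).1 :=
    fun n => le_upS p P _ (tS p P hPn n).2.1 (tS p P hPn n).2.2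
  have hm : ∃ m, (tS p P hPn m).1 = P := by
    by_contra hcon
    push Not at hcon
    have hsm : StrictMono (fun n => (tS p P hPn n).1) := by
      apply strictMono_nat_of_lt_succ
      intro n
      exact lt_of_le_of_ne (hle n)
        (upS_ne p P (tS p P hPn n).1 hP (tS p P hPn n).2.1 (tS p P hPn n).2.2 (hcon n))
    have : Finite (Subgroup G) := inferInstance
    exact not_injective_infinite_finite _ hsm.injective
  obtain ⟨m, hm⟩ := hm
  refine ⟨m, fun i => (tS p P hPn (m - i)).1, ?_, ?_, fun i => (tS p P hPn (m - i)).2.1, ?_, ?_, ?_⟩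
  · simpa using hm
  · show (tS p P hPn (m - m)).1 = ⊥
    rw [Nat.sub_self]
    exact h0
  · intro i
    show (tS p P hPn (m - (i + 1))).1 ≤ (tS p P hPn (m - i)).1
    by_cases hi : i < m
    · have e : m - i = (m - (i + 1)) + 1 := by omega
      rw [e]
      exact hle _
    · have e : m - i = m - (i + 1) := by omega
      rw [e]
  · intro i x hx y hy
    change y ∈ (tS p P hPn (m - i)).1 at hy
    show ⁅x, y⁆ ∈ (tS p P hPn (m - (i + 1))).1
    by_cases hi : i < m
    · have e : m - i = (m - (i + 1)) + 1 := by omega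
      rw [e] at hy
      exact hy.2.1 x hx
    · have e : m - i = 0 := by omega
      rw [e, h0, Subgroup.mem_bot] at hy
      rw [hy, commutatorElement_one_right]
      exact Subgroup.one_mem _
  · intro i y hy
    change y ∈ (tS p P hPn (m - i)).1 at hy
    show y ^ p ∈ (tS p P hPn (m - (i + 1))).1
    by_cases hi : i < m
    · have e : m - i = (m - (i + 1)) + 1 := by omega
      rw [e] at hy
      exact hy.2.2
    · have e : m - i = 0 := by omega
      rw [e, h0, Subgroup.mem_bot] at hy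
      rw [hy, one_pow]
      exact Subgroup.one_mem _

/-- **CHAIN2**: if `C_G(P) ≤ P` and `P` contains every normal `p`-subgroup, then an element acting
trivially on all factors of such a chain lies in `P`. -/
theorem stab_chain {G : Type*} [Group G] [Finite G] (p : ℕ) [Fact p.Prime] (P : Subgroup G)
    (hPn : P.Normal) (hP : IsPGroup p P)
    (hPmax : ∀ N : Subgroup G, N.Normal → IsPGroup p N → N ≤ P)
    (hcent : ∀ g : G, (∀ x ∈ P, g * x = x * g) → g ∈ P)
    (m : ℕ) (s : ℕ → Subgroup G) (hs0 : s 0 = P) (hsm : s m = ⊥) (hsn : ∀ i, (s i).Normal)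
    (hsd : ∀ i, s (i + 1) ≤ s i) (g : G) (hg : ∀ i, ∀ y ∈ s i, ⁅g, y⁆ ∈ s (i + 1)) :
    g ∈ P := by
  have hsP : ∀ i, s i ≤ P := by
    intro i
    induction i with
    | zero => rw [hs0]
    | succ n ih => exact (hsd n).trans ih
  let C : Subgroup G :=
    { carrier := {g | ∀ i, ∀ y ∈ s i, ⁅g, y⁆ ∈ s (i + 1)}
      one_mem' := by
        intro i y _
        rw [commutatorElement_one_left]
        exact Subgroup.one_mem _
      mul_mem' := by
        intro a b ha hb i y hy
        have e : ⁅a * b, y⁆ = (a * ⁅b, y⁆ * a⁻¹) * ⁅a, y⁆ := by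
          simp only [commutatorElement_def]; group
        rw [e]
        exact Subgroup.mul_mem _ ((hsn (i + 1)).conj_mem _ (hb i y hy) a) (ha i y hy)
      inv_mem' := by
        intro a ha i y hy
        have e : ⁅a⁻¹, y⁆ = a⁻¹ * ⁅a, y⁆⁻¹ * (a⁻¹)⁻¹ := by
          simp only [commutatorElement_def]; group
        rw [e]
        exact (hsn (i + 1)).conj_mem _ (Subgroup.inv_mem _ (ha i y hy)) a⁻¹ }
  have hC : ∀ a, a ∈ C ↔ ∀ i, ∀ y ∈ s i, ⁅a, y⁆ ∈ s (i + 1) := fun a => Iff.rfl
  have hCn : C.Normal := by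
    constructor
    intro a ha b
    rw [hC] at ha ⊢
    intro i y hy
    have e : ⁅b * a * b⁻¹, y⁆ = b * ⁅a, b⁻¹ * y * (b⁻¹)⁻¹⁆ * b⁻¹ := by
      simp only [commutatorElement_def]; group
    rw [e]
    exact (hsn (i + 1)).conj_mem _ (ha i _ ((hsn i).conj_mem y hy b⁻¹)) b
  have key : ∀ a ∈ C, (orderOf a).Coprime p → a = 1 := by
    intro a ha hcop
    have hcomm : ∀ j, ∀ y ∈ s (m - j), a * y = y * a := by
      intro j
      induction j with
      | zero =>
        intro y hy
        rw [Nat.sub_zero, hsm, Subgroup.mem_bot] at hy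
        rw [hy, mul_one, one_mul]
      | succ j ih =>
        intro y hy
        by_cases hj : j < m
        · have e : m - j = (m - (j + 1)) + 1 := by omega
          have hr : ⁅a, y⁆ ∈ s (m - j) := by
            rw [e]; exact ha _ y hy
          have hra := ih _ hr
          have hpow : ∀ n : ℕ, a ^ n * y * (a ^ n)⁻¹ = ⁅a, y⁆ ^ n * y := by
            intro n
            induction n with
            | zero => simp
            | succ n ihn =>
              have h1 : a ^ (n + 1) * y * (a ^ (n + 1))⁻¹ = a * (a ^ n * y * (a ^ n)⁻¹) * a⁻¹ := by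
                rw [pow_succ']; group
              rw [h1, ihn]
              have h2 : a * ⁅a, y⁆ ^ n = ⁅a, y⁆ ^ n * a := (Commute.pow_right (show Commute a ⁅a, y⁆ from hra) n)
              calc a * (⁅a, y⁆ ^ n * y) * a⁻¹ = (a * ⁅a, y⁆ ^ n) * y * a⁻¹ := by group
                _ = (⁅a, y⁆ ^ n * a) * y * a⁻¹ := by rw [h2]
                _ = ⁅a, y⁆ ^ n * (a * y * a⁻¹ * y⁻¹) * y := by group
                _ = ⁅a, y⁆ ^ (n + 1) * y := by
                  rw [pow_succ]
                  rfl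
          have h1 := hpow (orderOf a)
          rw [pow_orderOf_eq_one, one_mul, inv_one, mul_one] at h1
          have h2 : ⁅a, y⁆ ^ (orderOf a) = 1 := by
            have := mul_eq_right.1 h1.symm
            exact this
          have h3 : ∃ k : ℕ, ⁅a, y⁆ ^ (p ^ k) = 1 := by
            obtain ⟨k, hk⟩ := hP ⟨⁅a, y⁆, hsP _ hr⟩
            refine ⟨k, ?_⟩
            have := congrArg Subtype.val hk
            simpa using this
          obtain ⟨k, hk⟩ := h3
          have h4 : orderOf ⁅a, y⁆ ∣ orderOf a := orderOf_dvd_of_pow_eq_one h2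
          have h5 : orderOf ⁅a, y⁆ ∣ p ^ k := orderOf_dvd_of_pow_eq_one hk
          have h6 : orderOf ⁅a, y⁆ = 1 :=
            Nat.eq_one_of_dvd_coprimes (Nat.Coprime.pow_right k hcop) h4 h5
          rw [orderOf_eq_one_iff, commutatorElement_eq_one_iff_mul_comm] at h6
          exact h6
        · have e : m - (j + 1) = m - j := by omega
          rw [e] at hy
          exact ih y hy
    have haP : a ∈ P := by
      apply hcent
      intro x hx
      apply hcomm m x
      rw [Nat.sub_self, hs0]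
      exact hx
    obtain ⟨k, hk⟩ := hP ⟨a, haP⟩
    have hk' : a ^ (p ^ k) = 1 := by
      have := congrArg Subtype.val hk
      simpa using this
    have h5 : orderOf a ∣ p ^ k := orderOf_dvd_of_pow_eq_one hk'
    have h6 : orderOf a = 1 :=
      Nat.eq_one_of_dvd_coprimes (Nat.Coprime.pow_right k hcop) dvd_rfl h5
    exact orderOf_eq_one_iff.1 h6
  have hCp : IsPGroup p C := by
    intro a
    have hpos : 0 < orderOf (a : G) := orderOf_pos _
    refine ⟨(orderOf (a : G)).factorization p, ?_⟩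
    have h1 : (a : G) ^ (p ^ (orderOf (a : G)).factorization p) = 1 := by
      apply key _ (C.pow_mem a.2 _)
      rw [orderOf_pow_of_dvd (pow_ne_zero _ (Fact.out : p.Prime).ne_zero)
        (Nat.ordProj_dvd _ _)]
      exact (Nat.coprime_ordCompl (Fact.out : p.Prime) hpos.ne').symm
    apply Subtype.ext
    simpa using h1
  exact hPmax C hCn hCp (show g ∈ C from hg)

end H60SH

end S_CHAIN

section S_QUOT

namespace H60SH

open scoped commutatorElement

/-- **QUOT1**: `p`-subgroups lift along surjections of finite groups. -/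
theorem lift_pgroup {G G' : Type*} [Group G] [Finite G] [Group G'] (f : G →* G')
    (hf : Function.Surjective f) (p : ℕ) [Fact p.Prime] (H' : Subgroup G') (hH' : IsPGroup p H') :
    ∃ H : Subgroup G, IsPGroup p H ∧ H.map f = H' := by
  have : Finite G' := Finite.of_surjective f hf
  obtain ⟨T, hT⟩ : ∃ T : Subgroup G, T = H'.comap f := ⟨_, rfl⟩
  have hfT : ∀ x : T, f x ∈ H' := by
    rintro ⟨x, hx⟩
    rw [hT] at hx
    exact hx
  let f' : T →* H' := (f.comp T.subtype).codRestrict H' hfT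
  have hf' : Function.Surjective f' := by
    intro y
    obtain ⟨x, hx⟩ := hf y
    refine ⟨⟨x, ?_⟩, ?_⟩
    · rw [hT, Subgroup.mem_comap, hx]; exact y.2
    · apply Subtype.ext; exact hx
  let P : Sylow p T := default
  have h1 : ((P : Subgroup T).map f').index ∣ (P : Subgroup T).index :=
    Subgroup.index_map_dvd _ hf'
  have h2 : ¬ p ∣ (P : Subgroup T).index := P.not_dvd_index
  obtain ⟨n, hn⟩ := hH'.index ((P : Subgroup T).map f')
  have h3 : n = 0 := by
    by_contra hne
    apply h2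
    apply dvd_trans _ h1
    rw [hn]
    exact dvd_pow_self p hne
  rw [h3, pow_zero, Subgroup.index_eq_one] at hn
  refine ⟨(P : Subgroup T).map T.subtype, P.isPGroup'.map _, ?_⟩
  ext y
  constructor
  · rintro ⟨x, ⟨z, hz, rfl⟩, rfl⟩
    exact hfT z
  · intro hy
    have : (⟨y, hy⟩ : H') ∈ (P : Subgroup T).map f' := by rw [hn]; exact Subgroup.mem_top _
    obtain ⟨z, hz, hzy⟩ := this
    refine ⟨z, ⟨z, hz, rfl⟩, ?_⟩
    have := congrArg (fun u : H' => (u : G')) hzy
    exact this

/-- **QUOT2** -/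
theorem Pk.quot {G G' : Type*} [Group G] [Finite G] [Group G'] (f : G →* G')
    (hf : Function.Surjective f) (p : ℕ) [Fact p.Prime] (k : ℕ) (h : Pk p k G) : Pk p k G' := by
  intro H' hH' a ha b hb
  obtain ⟨H, hH, rfl⟩ := lift_pgroup f hf p H' hH'
  obtain ⟨a, ha, rfl⟩ := ha
  obtain ⟨b, hb, rfl⟩ := hb
  rw [← map_commutatorElement, ← map_pow, h H hH a ha b hb, map_one]

/-- **QUOT3** -/
theorem Ck.quot {G G' : Type*} [Group G] [Finite G] [Group G'] (f : G →* G')
    (hf : Function.Surjective f) (p : ℕ) [Fact p.Prime] (k : ℕ) (h : Ck p k G) : Ck p k G' := by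
  intro H' hH' a ha b hb c hc d hd
  obtain ⟨H, hH, rfl⟩ := lift_pgroup f hf p H' hH'
  obtain ⟨a, ha, rfl⟩ := ha
  obtain ⟨b, hb, rfl⟩ := hb
  obtain ⟨c, hc, rfl⟩ := hc
  obtain ⟨d, hd, rfl⟩ := hd
  have := h H hH a ha b hb c hc d hd
  rw [← map_commutatorElement, ← map_commutatorElement, ← map_pow, ← map_pow]
  exact this.map f

/-- **QUOT4**: the law bounds the exponent. -/
theorem Pk.of_law {G : Type*} [Group G] [Finite G] (p : ℕ) [Fact p.Prime] (n : ℕ) (hn : 0 < n)
    (h : ∀ x y : G, ⁅x, y⁆ ^ n = 1) : Pk p (n.factorization p) G := by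
  intro H hH a ha b hb
  have hmem : ⁅a, b⁆ ∈ H := by
    rw [commutatorElement_def]
    exact H.mul_mem (H.mul_mem (H.mul_mem ha hb) (H.inv_mem ha)) (H.inv_mem hb)
  obtain ⟨j, hj⟩ := (IsPGroup.iff_orderOf.mp hH) ⟨⁅a, b⁆, hmem⟩
  rw [Subgroup.orderOf_mk] at hj
  have h1 : orderOf ⁅a, b⁆ ∣ n := orderOf_dvd_of_pow_eq_one (h a b)
  rw [hj] at h1
  have h2 : j ≤ n.factorization p :=
    ((Fact.out : p.Prime).pow_dvd_iff_le_factorization hn.ne').mp h1
  apply orderOf_dvd_iff_pow_eq_one.mp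
  rw [hj]
  exact pow_dvd_pow p h2

end H60SH

end S_QUOT

section S_SEC

namespace H60SH

open scoped commutatorElement
open scoped TensorProduct

universe u

/-- **SEC**, in the case of an abstract module over `ZMod p` on which `G` acts. -/
theorem sec_aux {G : Type u} [Group G] (p : ℕ) [Fact p.Prime] (P : Subgroup G) [P.Normal]
    (K : Type) [Field K] [CharP K p] (M : Type u) [AddCommGroup M] [Finite M]
    (hM : ∀ m : M, p • m = 0) (c : G → M →+ M) (hone : ∀ m, c 1 m = m)
    (hmul : ∀ g h m, c (g * h) m = c g (c h m)) (hP : ∀ x ∈ P, ∀ m, c x m = m) :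
    ∃ (V : Type u) (_ : AddCommGroup V) (_ : Module K V) (_ : FiniteDimensional K V)
      (ρ : Representation K (G ⧸ P) V) (ι : M →+ V),
      Function.Injective ι ∧ (∀ (g : G) (m : M), ι (c g m) = ρ (g : G ⧸ P) (ι m)) ∧
      Submodule.span K (Set.range ι) = ⊤ := by
  classical
  let _ : Module (ZMod p) M := AddCommGroup.zmodModule (n := p) hM
  let _ : Algebra (ZMod p) K := ZMod.algebra K p
  have _ : Module.Finite (ZMod p) M := Module.Finite.of_finite
  let T : G → Module.End K (K ⊗[ZMod p] M) := fun g =>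
    ((c g).toZModLinearMap p).baseChange K
  have hT : ∀ g k m, T g (k ⊗ₜ[ZMod p] m) = k ⊗ₜ[ZMod p] (c g m) := fun g k m => rfl
  have hext : ∀ S S' : Module.End K (K ⊗[ZMod p] M),
      (∀ (k : K) (m : M), S (k ⊗ₜ[ZMod p] m) = S' (k ⊗ₜ[ZMod p] m)) → S = S' := by
    intro S S' h
    apply LinearMap.ext
    intro x
    induction x using TensorProduct.induction_on with
    | zero => rw [map_zero, map_zero]
    | tmul k m => exact h k m
    | add x y hx hy => rw [map_add, map_add, hx, hy]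
  let ρ0 : G →* Module.End K (K ⊗[ZMod p] M) :=
    { toFun := T
      map_one' := by
        apply hext
        intro k m
        rw [hT, hone]
        rfl
      map_mul' := by
        intro g h
        apply hext
        intro k m
        rw [Module.End.mul_apply, hT, hT, hT, hmul] }
  have hker : P ≤ ρ0.ker := by
    intro x hx
    rw [MonoidHom.mem_ker]
    apply hext
    intro k m
    change T x (k ⊗ₜ[ZMod p] m) = k ⊗ₜ[ZMod p] m
    rw [hT, hP x hx]
  let ι : M →+ K ⊗[ZMod p] M := (TensorProduct.mk (ZMod p) K M 1).toAddMonoidHom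
  refine ⟨K ⊗[ZMod p] M, inferInstance, inferInstance, inferInstance,
    QuotientGroup.lift P ρ0 hker, ι, ?_, ?_, ?_⟩
  · exact Module.Flat.tensorProduct_mk_injective (R := ZMod p) (S := K) (M := M)
  · intro g m
    change (1 : K) ⊗ₜ[ZMod p] (c g m) = T g ((1 : K) ⊗ₜ[ZMod p] m)
    rw [hT]
  · rw [eq_top_iff]
    intro x _
    induction x using TensorProduct.induction_on with
    | zero => exact Submodule.zero_mem _
    | tmul k m =>
      have : k ⊗ₜ[ZMod p] m = k • ((1 : K) ⊗ₜ[ZMod p] m) := by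
        rw [TensorProduct.smul_tmul']
        simp
      rw [this]
      exact Submodule.smul_mem _ _ (Submodule.subset_span ⟨m, rfl⟩)
    | add x y hx hy => exact Submodule.add_mem _ (hx trivial) (hy trivial)

/-- **SEC**: the representation of `G ⧸ P` on `K ⊗ (A / B)` for a central elementary abelian
`p`-section `A / B`. -/
theorem section_rep {G : Type u} [Group G] [Finite G] (p : ℕ) [Fact p.Prime]
    (P A B : Subgroup G) [P.Normal] (hA : A.Normal) (hB : B.Normal) (hBA : B ≤ A) (hAP : A ≤ P)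
    (hPA : ∀ x ∈ P, ∀ y ∈ A, ⁅x, y⁆ ∈ B) (hAp : ∀ y ∈ A, y ^ p ∈ B)
    (K : Type) [Field K] [CharP K p] :
    ∃ (V : Type u) (_ : AddCommGroup V) (_ : Module K V) (_ : FiniteDimensional K V)
      (ρ : Representation K (G ⧸ P) V) (φ : G → V),
      (∀ x ∈ A, ∀ y ∈ A, φ (x * y) = φ x + φ y) ∧
      (∀ g : G, ∀ x ∈ A, φ (g * x * g⁻¹) = ρ (g : G ⧸ P) (φ x)) ∧
      (∀ x ∈ A, φ x = 0 ↔ x ∈ B) ∧ Submodule.span K (φ '' (A : Set G)) = ⊤ := by
  classical
  have _ := hA
  have _ := hB
  let π : G →* G ⧸ B := QuotientGroup.mk' B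
  let A' : Subgroup (G ⧸ B) := A.map π
  have hA' : A'.Normal := Subgroup.Normal.map hA _ (QuotientGroup.mk'_surjective B)
  -- elements of `P` act trivially on `A'`
  have hcen : ∀ x ∈ P, ∀ y : A', (π x) * (y : G ⧸ B) * (π x)⁻¹ = y := by
    rintro x hx ⟨_, y, hy, rfl⟩
    rw [← map_inv, ← map_mul, ← map_mul, eq_comm]
    rw [QuotientGroup.mk'_eq_mk']
    have h := hPA x hx y hy
    have h2 : y⁻¹ * ⁅x, y⁆ * y⁻¹⁻¹ ∈ B := hB.conj_mem _ h y⁻¹
    refine ⟨_, h2, ?_⟩
    rw [commutatorElement_def]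
    group
  have hcomm : ∀ a b : A', a * b = b * a := by
    rintro ⟨_, x, hx, rfl⟩ b
    have h := hcen x (hAP hx) b
    apply Subtype.ext
    change (π x) * (b : G ⧸ B) = (b : G ⧸ B) * (π x)
    rw [mul_inv_eq_iff_eq_mul] at h
    exact h
  let _ : CommGroup A' := { (inferInstance : Group A') with mul_comm := hcomm }
  have hM : ∀ m : Additive A', p • m = 0 := by
    intro m
    have : (Additive.toMul m) ^ p = 1 := by
      obtain ⟨_, x, hx, hxe⟩ := Additive.toMul m
      subst hxe
      apply Subtype.ext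
      change (π x) ^ p = 1
      rw [← map_pow]
      exact (QuotientGroup.eq_one_iff _).2 (hAp x hx)
    exact this
  let c : G → Additive A' →+ Additive A' := fun g =>
    AddMonoidHom.mk' (fun m => Additive.ofMul
      (⟨π g * (Additive.toMul m : A') * (π g)⁻¹,
        hA'.conj_mem _ (Additive.toMul m).2 _⟩ : A')) (by
      intro a b
      apply Additive.toMul.injective
      apply Subtype.ext
      change π g * (((Additive.toMul a : A') : G ⧸ B) * ((Additive.toMul b : A') : G ⧸ B)) *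
        (π g)⁻¹ = (π g * (Additive.toMul a : A') * (π g)⁻¹) *
          (π g * (Additive.toMul b : A') * (π g)⁻¹)
      group)
  have hc : ∀ g (m : Additive A'), ((Additive.toMul (c g m) : A') : G ⧸ B) =
      π g * (Additive.toMul m : A') * (π g)⁻¹ := fun g m => rfl
  have hext : ∀ m m' : Additive A', ((Additive.toMul m : A') : G ⧸ B) =
      ((Additive.toMul m' : A') : G ⧸ B) → m = m' := by
    intro m m' h
    apply Additive.toMul.injective
    exact Subtype.ext h
  obtain ⟨V, iV1, iV2, iV3, ρ, ι, h1, h2, h3⟩ := sec_aux p P K (Additive A') hM c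
    (by
      intro m
      apply hext
      rw [hc]
      simp)
    (by
      intro g h m
      apply hext
      rw [hc, hc, hc, map_mul]
      group)
    (by
      intro x hx m
      apply hext
      rw [hc]
      exact hcen x hx _)
  let f : A → Additive A' := fun x => Additive.ofMul ⟨π x, ⟨x, x.2, rfl⟩⟩
  let φ : G → V := fun x => if h : x ∈ A then ι (f ⟨x, h⟩) else 0
  have hφ : ∀ x (h : x ∈ A), φ x = ι (f ⟨x, h⟩) := fun x h => dif_pos h
  refine ⟨V, iV1, iV2, iV3, ρ, φ, ?_, ?_, ?_, ?_⟩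
  · intro x hx y hy
    rw [hφ x hx, hφ y hy, hφ _ (A.mul_mem hx hy), ← map_add]
    exact congrArg ι (hext _ _ rfl)
  · intro g x hx
    rw [hφ x hx, hφ _ (hA.conj_mem x hx g), ← h2]
    exact congrArg ι (hext _ _ rfl)
  · intro x hx
    rw [hφ x hx, ← map_zero ι, h1.eq_iff]
    constructor
    · intro h
      have h' : π x = 1 := congrArg (fun m : Additive A' => ((Additive.toMul m : A') : G ⧸ B)) h
      exact (QuotientGroup.eq_one_iff _).1 h'
    · intro h
      apply hext
      exact (QuotientGroup.eq_one_iff _).2 h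
  · rw [← h3]
    congr 1
    ext v
    constructor
    · rintro ⟨x, hx, rfl⟩
      exact ⟨f ⟨x, hx⟩, (hφ x hx).symm⟩
    · rintro ⟨m, rfl⟩
      obtain ⟨x, hx, hxe⟩ := (Additive.toMul m).2
      refine ⟨x, hx, ?_⟩
      rw [hφ x hx]
      congr 1
      apply hext
      exact hxe

end H60SH

end S_SEC

section S_LIFT

namespace H60SH

open scoped commutatorElement

/-- the geometric sum in characteristic `p` -/
theorem lift_geom {V K : Type*} [Field K] [AddCommGroup V] [Module K V]
    (p k : ℕ) [Fact p.Prime] [CharP K p] (U : Module.End K V) :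
    ∑ i ∈ Finset.range (p ^ k), U ^ i = (U - 1) ^ (p ^ k - 1) := by
  have hp : 0 < p ^ k := pow_pos (Fact.out (p := p.Prime)).pos k
  have key : (∑ i ∈ Finset.range (p ^ k), (Polynomial.X : Polynomial K) ^ i)
      = (Polynomial.X - 1) ^ (p ^ k - 1) := by
    have hne : (Polynomial.X - 1 : Polynomial K) ≠ 0 := by
      have := Polynomial.X_sub_C_ne_zero (1 : K)
      simpa using this
    apply mul_right_cancel₀ hne
    rw [geom_sum_mul, ← pow_succ, Nat.sub_add_cancel hp, sub_pow_char_pow, one_pow]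
  have := congrArg (Polynomial.aeval U) key
  simpa using this

theorem lift_pow_sub {V K : Type*} [Field K] [AddCommGroup V] [Module K V]
    (p k : ℕ) [Fact p.Prime] [CharP K p] (U : Module.End K V) :
    (U - 1) ^ (p ^ k) = U ^ (p ^ k) - 1 := by
  have key : ((Polynomial.X - 1 : Polynomial K)) ^ (p ^ k)
      = Polynomial.X ^ (p ^ k) - 1 := by
    rw [sub_pow_char_pow, one_pow]
  have := congrArg (Polynomial.aeval U) key
  simpa using this

section

variable {G V K : Type*} [Group G] [Field K] [AddCommGroup V] [Module K V]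
  (A : Subgroup G) (R : G →* Module.End K V) (φ : G → V)

theorem lift_one (hφ1 : ∀ x ∈ A, ∀ y ∈ A, φ (x * y) = φ x + φ y) : φ 1 = 0 := by
  have := hφ1 1 A.one_mem 1 A.one_mem
  rw [mul_one] at this
  simpa using this

theorem lift_inv (hφ1 : ∀ x ∈ A, ∀ y ∈ A, φ (x * y) = φ x + φ y) (x : G) (hx : x ∈ A) :
    φ x⁻¹ = - φ x := by
  have := hφ1 x hx x⁻¹ (A.inv_mem hx)
  rw [mul_inv_cancel, lift_one A φ hφ1] at this
  exact (neg_eq_of_add_eq_zero_right this.symm).symm

theorem lift_pow (hA : A.Normal)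
    (hφ1 : ∀ x ∈ A, ∀ y ∈ A, φ (x * y) = φ x + φ y)
    (hφ2 : ∀ g : G, ∀ x ∈ A, φ (g * x * g⁻¹) = R g (φ x)) (t u : G) (ht : t ∈ A) (m : ℕ) :
    ∃ T ∈ A, (t * u) ^ m = T * u ^ m ∧
      φ T = (∑ i ∈ Finset.range m, (R u) ^ i) (φ t) := by
  induction m with
  | zero => exact ⟨1, A.one_mem, by simp, by simp [lift_one A φ hφ1]⟩
  | succ m ih =>
    obtain ⟨T, hT, h1, h2⟩ := ih
    refine ⟨t * (u * T * u⁻¹), A.mul_mem ht (hA.conj_mem T hT u), ?_, ?_⟩
    · rw [pow_succ' (t * u), h1, pow_succ' u]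
      group
    · rw [hφ1 t ht _ (hA.conj_mem T hT u), hφ2 u T hT, h2]
      have e : ∑ i ∈ Finset.range (m + 1), (R u) ^ i
          = 1 + R u * ∑ i ∈ Finset.range m, (R u) ^ i := by
        rw [Finset.sum_range_succ', Finset.mul_sum, add_comm, pow_zero]
        congr 1
        exact Finset.sum_congr rfl fun i _ => pow_succ' _ _
      rw [e]
      rfl

theorem lift_ext (hspan : Submodule.span K (φ '' (A : Set G)) = ⊤) (f g : Module.End K V)
    (h : ∀ x ∈ A, f (φ x) = g (φ x)) : f = g := by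
  apply LinearMap.ext_on hspan
  rintro _ ⟨x, hx, rfl⟩
  exact h x hx

/-- first family of lifts -/
theorem lift_t1 (hA : A.Normal)
    (hφ1 : ∀ x ∈ A, ∀ y ∈ A, φ (x * y) = φ x + φ y)
    (hφ2 : ∀ g : G, ∀ x ∈ A, φ (g * x * g⁻¹) = R g (φ x)) (a b : G) (x : G) (hx : x ∈ A) :
    ∃ t ∈ A, ⁅x * a, b⁆ = t * ⁅a, b⁆ ∧ φ t = φ x - R (⁅a, b⁆ * b) (φ x) := by
  refine ⟨x * ((⁅a, b⁆ * b) * x⁻¹ * (⁅a, b⁆ * b)⁻¹),
    A.mul_mem hx (hA.conj_mem _ (A.inv_mem hx) _), ?_, ?_⟩
  · simp only [commutatorElement_def]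
    group
  · rw [hφ1 x hx _ (hA.conj_mem _ (A.inv_mem hx) _), hφ2 _ _ (A.inv_mem hx),
      lift_inv A φ hφ1 x hx, map_neg, sub_eq_add_neg]

theorem lift_t2 (hA : A.Normal)
    (hφ1 : ∀ x ∈ A, ∀ y ∈ A, φ (x * y) = φ x + φ y)
    (hφ2 : ∀ g : G, ∀ x ∈ A, φ (g * x * g⁻¹) = R g (φ x)) (a b : G) (x : G) (hx : x ∈ A) :
    ∃ t ∈ A, ⁅a, x * b⁆ = t * ⁅a, b⁆ ∧ φ t = R a (φ x) - R ⁅a, b⁆ (φ x) := by
  refine ⟨(a * x * a⁻¹) * (⁅a, b⁆ * x⁻¹ * (⁅a, b⁆)⁻¹),
    A.mul_mem (hA.conj_mem _ hx _) (hA.conj_mem _ (A.inv_mem hx) _), ?_, ?_⟩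
  · simp only [commutatorElement_def]
    group
  · rw [hφ1 _ (hA.conj_mem _ hx _) _ (hA.conj_mem _ (A.inv_mem hx) _), hφ2 _ _ hx,
      hφ2 _ _ (A.inv_mem hx), lift_inv A φ hφ1 x hx, map_neg, sub_eq_add_neg]

/-- purely algebraic end of the argument -/
theorem lift_end (a b : G) (X : Module.End K V) (hXU : Commute X (R ⁅a, b⁆))
    (e1 : X * (R ⁅a, b⁆ * R b) = X) (e2 : X * R a = X * R ⁅a, b⁆) :
    X * R a = X ∧ X * R b = X := by
  have hinv : ∀ g : G, R g * R g⁻¹ = 1 := fun g => by rw [← map_mul, mul_inv_cancel, map_one]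
  have hinv' : ∀ g : G, R g⁻¹ * R g = 1 := fun g => by rw [← map_mul, inv_mul_cancel, map_one]
  have h1 : X * R b = R ⁅a, b⁆⁻¹ * X := by
    calc X * R b = (R ⁅a, b⁆⁻¹ * R ⁅a, b⁆) * (X * R b) := by rw [hinv', one_mul]
      _ = R ⁅a, b⁆⁻¹ * ((R ⁅a, b⁆ * X) * R b) := by simp only [mul_assoc]
      _ = R ⁅a, b⁆⁻¹ * (X * (R ⁅a, b⁆ * R b)) := by rw [← hXU.eq]; simp only [mul_assoc]
      _ = R ⁅a, b⁆⁻¹ * X := by rw [e1]
  have h2 : X * R (a * b) = X := by
    rw [map_mul, ← mul_assoc, e2, mul_assoc, e1]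
  have h3 : X * R (b * a) = X := by
    rw [map_mul, ← mul_assoc, h1, mul_assoc, e2, hXU.eq, ← mul_assoc, hinv', one_mul]
  have h4 : X * R (b * a)⁻¹ = X := by
    calc X * R (b * a)⁻¹ = (X * R (b * a)) * R (b * a)⁻¹ := by rw [h3]
      _ = X * (R (b * a) * R (b * a)⁻¹) := by rw [mul_assoc]
      _ = X := by rw [hinv, mul_one]
  have h5 : X * R ⁅a, b⁆ = X := by
    have : (⁅a, b⁆ : G) = (a * b) * (b * a)⁻¹ := by
      simp only [commutatorElement_def]
      group
    rw [this, map_mul, ← mul_assoc, h2, h4]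
  refine ⟨by rw [e2, h5], ?_⟩
  rw [← mul_assoc, h5] at e1
  exact e1

end

/-- **LIFT1** -/
theorem lift1 {G V K : Type*} [Group G] [Field K] [AddCommGroup V] [Module K V]
    (p k : ℕ) [Fact p.Prime] [CharP K p] (P A : Subgroup G) [P.Normal] (hA : A.Normal)
    (ρ : Representation K (G ⧸ P) V) (φ : G → V)
    (hφ1 : ∀ x ∈ A, ∀ y ∈ A, φ (x * y) = φ x + φ y)
    (hφ2 : ∀ g : G, ∀ x ∈ A, φ (g * x * g⁻¹) = ρ (g : G ⧸ P) (φ x))
    (hspan : Submodule.span K (φ '' (A : Set G)) = ⊤) (a b : G)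
    (h1 : ∀ x ∈ A, ⁅x * a, b⁆ ^ (p ^ k) = 1) (h2 : ∀ x ∈ A, ⁅a, x * b⁆ ^ (p ^ k) = 1) :
    (ρ ((⁅a, b⁆ : G) : G ⧸ P) - 1) ^ (p ^ k - 1) * ρ (a : G ⧸ P) =
        (ρ ((⁅a, b⁆ : G) : G ⧸ P) - 1) ^ (p ^ k - 1) ∧
      (ρ ((⁅a, b⁆ : G) : G ⧸ P) - 1) ^ (p ^ k - 1) * ρ (b : G ⧸ P) =
        (ρ ((⁅a, b⁆ : G) : G ⧸ P) - 1) ^ (p ^ k - 1) := by
  set R : G →* Module.End K V := ρ.comp (QuotientGroup.mk' P) with hR
  have hRa : ∀ g : G, ρ (g : G ⧸ P) = R g := fun g => rfl
  simp only [hRa] at hφ2 ⊢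
  have hpk : 0 < p ^ k := pow_pos (Fact.out (p := p.Prime)).pos k
  set U := R ⁅a, b⁆ with hU
  have hum : (⁅a, b⁆ : G) ^ (p ^ k) = 1 := by simpa using h1 1 A.one_mem
  have main : ∀ t ∈ A, (t * ⁅a, b⁆) ^ (p ^ k) = 1 → ((U - 1) ^ (p ^ k - 1)) (φ t) = 0 := by
    intro t ht h
    obtain ⟨T, hT, e1, e2⟩ := lift_pow A R φ hA hφ1 hφ2 t ⁅a, b⁆ ht (p ^ k)
    rw [h, hum, mul_one] at e1
    rw [← e1, lift_one A φ hφ1, lift_geom] at e2
    exact e2.symm
  have e1 : (U - 1) ^ (p ^ k - 1) * (U * R b) = (U - 1) ^ (p ^ k - 1) := by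
    apply lift_ext A φ hspan
    intro x hx
    obtain ⟨t, ht, e, f⟩ := lift_t1 A R φ hA hφ1 hφ2 a b x hx
    have := main t ht (by rw [← e]; exact h1 x hx)
    rw [f, map_sub, sub_eq_zero, map_mul] at this
    exact this.symm
  have e2 : (U - 1) ^ (p ^ k - 1) * R a = (U - 1) ^ (p ^ k - 1) * U := by
    apply lift_ext A φ hspan
    intro x hx
    obtain ⟨t, ht, e, f⟩ := lift_t2 A R φ hA hφ1 hφ2 a b x hx
    have := main t ht (by rw [← e]; exact h2 x hx)
    rw [f, map_sub, sub_eq_zero] at this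
    exact this
  have hc : Commute ((U - 1) ^ (p ^ k - 1)) U :=
    ((Commute.refl U).sub_left (Commute.one_left U)).pow_left _
  exact lift_end R a b _ hc e1 e2

/-- **LIFT2** -/
theorem lift2 {G V K : Type*} [Group G] [Field K] [AddCommGroup V] [Module K V]
    (p k : ℕ) [Fact p.Prime] [CharP K p] (hk : 1 ≤ k) (P A : Subgroup G) [P.Normal]
    (hA : A.Normal) (ρ : Representation K (G ⧸ P) V) (φ : G → V)
    (hφ1 : ∀ x ∈ A, ∀ y ∈ A, φ (x * y) = φ x + φ y)
    (hφ2 : ∀ g : G, ∀ x ∈ A, φ (g * x * g⁻¹) = ρ (g : G ⧸ P) (φ x))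
    (hspan : Submodule.span K (φ '' (A : Set G)) = ⊤) (a b : G)
    (h1 : ∀ x ∈ A, Commute (⁅x * a, b⁆ ^ (p ^ (k - 1))) (⁅a, b⁆ ^ (p ^ (k - 1))))
    (h2 : ∀ x ∈ A, Commute (⁅a, x * b⁆ ^ (p ^ (k - 1))) (⁅a, b⁆ ^ (p ^ (k - 1)))) :
    (ρ ((⁅a, b⁆ : G) : G ⧸ P) - 1) ^ (2 * p ^ (k - 1) - 1) * ρ (a : G ⧸ P) =
        (ρ ((⁅a, b⁆ : G) : G ⧸ P) - 1) ^ (2 * p ^ (k - 1) - 1) ∧
      (ρ ((⁅a, b⁆ : G) : G ⧸ P) - 1) ^ (2 * p ^ (k - 1) - 1) * ρ (b : G ⧸ P) =
        (ρ ((⁅a, b⁆ : G) : G ⧸ P) - 1) ^ (2 * p ^ (k - 1) - 1) := by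
  set R : G →* Module.End K V := ρ.comp (QuotientGroup.mk' P) with hR
  have hRa : ∀ g : G, ρ (g : G ⧸ P) = R g := fun g => rfl
  simp only [hRa] at hφ2 ⊢
  generalize k - 1 = j at h1 h2 ⊢
  have hpk : 0 < p ^ j := pow_pos (Fact.out (p := p.Prime)).pos j
  set U := R ⁅a, b⁆ with hU
  have main : ∀ t ∈ A, Commute ((t * ⁅a, b⁆) ^ (p ^ j)) (⁅a, b⁆ ^ (p ^ j)) →
      ((U - 1) ^ (2 * p ^ j - 1)) (φ t) = 0 := by
    intro t ht h
    obtain ⟨T, hT, e1, e2⟩ := lift_pow A R φ hA hφ1 hφ2 t ⁅a, b⁆ ht (p ^ j)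
    rw [e1] at h
    have h3 : ⁅a, b⁆ ^ (p ^ j) * T * (⁅a, b⁆ ^ (p ^ j))⁻¹ = T := by
      have h4 := h.eq
      rw [← mul_assoc] at h4
      have h5 := mul_right_cancel h4
      rw [← h5]
      group
    have h6 := hφ2 (⁅a, b⁆ ^ (p ^ j)) T hT
    rw [h3, map_pow, ← hU, e2, lift_geom] at h6
    have h7 : (U ^ (p ^ j) - 1) (((U - 1) ^ (p ^ j - 1)) (φ t)) = 0 := by
      rw [LinearMap.sub_apply, ← h6]
      exact sub_self _
    rw [← lift_pow_sub, ← Module.End.mul_apply, ← pow_add] at h7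
    have : 2 * p ^ j - 1 = p ^ j + (p ^ j - 1) := by omega
    rw [this]
    exact h7
  have e1 : (U - 1) ^ (2 * p ^ j - 1) * (U * R b) = (U - 1) ^ (2 * p ^ j - 1) := by
    apply lift_ext A φ hspan
    intro x hx
    obtain ⟨t, ht, e, f⟩ := lift_t1 A R φ hA hφ1 hφ2 a b x hx
    have := main t ht (by rw [← e]; exact h1 x hx)
    rw [f, map_sub, sub_eq_zero, map_mul] at this
    exact this.symm
  have e2 : (U - 1) ^ (2 * p ^ j - 1) * R a = (U - 1) ^ (2 * p ^ j - 1) * U := by
    apply lift_ext A φ hspan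
    intro x hx
    obtain ⟨t, ht, e, f⟩ := lift_t2 A R φ hA hφ1 hφ2 a b x hx
    have := main t ht (by rw [← e]; exact h2 x hx)
    rw [f, map_sub, sub_eq_zero] at this
    exact this
  have hc : Commute ((U - 1) ^ (2 * p ^ j - 1)) U :=
    ((Commute.refl U).sub_left (Commute.one_left U)).pow_left _
  exact lift_end R a b _ hc e1 e2

end H60SH

end S_LIFT

section S_PIG

namespace H60SH

open scoped commutatorElement

/-- **PIG**: in a finite group with `[x,y]^n = 1` the derived subgroup is a `π(n)`-group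
(Burnside's normal complement theorem). -/
theorem pig' {G : Type*} [Group G] [Finite G] (n : ℕ)
    (h : ∀ x y : G, ⁅x, y⁆ ^ n = 1) (r : ℕ) (hr : r.Prime) (hrn : ¬ r ∣ n) :
    ¬ r ∣ Nat.card (commutator G) := by
  haveI : Fact r.Prime := ⟨hr⟩
  obtain ⟨P⟩ : Nonempty (Sylow r G) := inferInstance
  -- a commutator in `P` is trivial
  have key : ∀ x y : G, ⁅x, y⁆ ∈ (P : Subgroup G) → ⁅x, y⁆ = 1 := by
    intro x y hxy
    obtain ⟨k, hk⟩ := P.isPGroup' ⟨⁅x, y⁆, hxy⟩
    have hk' : ⁅x, y⁆ ^ r ^ k = 1 := by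
      have := congrArg Subtype.val hk
      simpa using this
    have hco : Nat.Coprime (r ^ k) n := Nat.Coprime.pow_left k ((Nat.Prime.coprime_iff_not_dvd hr).2 hrn)
    have h1 : orderOf ⁅x, y⁆ ∣ r ^ k := orderOf_dvd_of_pow_eq_one hk'
    have h2 : orderOf ⁅x, y⁆ ∣ n := orderOf_dvd_of_pow_eq_one (h x y)
    have h3 : orderOf ⁅x, y⁆ = 1 := Nat.eq_one_of_dvd_coprimes hco h1 h2
    exact orderOf_eq_one_iff.1 h3
  have hP : Subgroup.normalizer (P : Set G) ≤ Subgroup.centralizer (P : Set G) := by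
    intro g hg
    rw [Subgroup.mem_centralizer_iff]
    intro x hx
    have hgx : g * x * g⁻¹ ∈ (P : Subgroup G) := (Subgroup.mem_normalizer_iff.1 hg x).1 hx
    have hmem : ⁅g, x⁆ ∈ (P : Subgroup G) := by
      rw [commutatorElement_def]
      exact P.mul_mem hgx (P.inv_mem hx)
    have := key g x hmem
    rw [commutatorElement_eq_one_iff_mul_comm] at this
    exact this.symm
  have hle : commutator G ≤ (MonoidHom.transferSylow P hP).ker := by
    rw [commutator_def, Subgroup.commutator_le]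
    intro x _ y _
    rw [MonoidHom.mem_ker, map_commutatorElement, commutatorElement_eq_one_iff_mul_comm]
    apply Subtype.ext
    exact hP (Subgroup.le_normalizer (SetLike.coe_mem _)) _ (SetLike.coe_mem _)
  intro hd
  exact MonoidHom.not_dvd_card_ker_transferSylow P hP (hd.trans (Subgroup.card_dvd_of_le hle))

/-- **PIG**: in a finite soluble group with `[x,y]^n = 1` the derived subgroup is a
`π(n)`-group. -/
theorem pig {G : Type*} [Group G] [Finite G] [Group.IsSolvable G] (n : ℕ) (hn : 0 < n)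
    (h : ∀ x y : G, ⁅x, y⁆ ^ n = 1) (r : ℕ) (hr : r.Prime) (hrn : ¬ r ∣ n) :
    ¬ r ∣ Nat.card (commutator G) :=
  pig' n h r hr hrn

end H60SH

end S_PIG
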