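import Mathlib
import Pool.Agent.H60.SHM.M1
import Pool.Agent.H60.SHM.M2
import Pool.Agent.H60.SHM.M3

set_option autoImplicit false

/-! Fitting height and commutator laws, part M4: this file joins several modules to save build time. -/

section S_KEYA

namespace H60SH

set_option linter.unusedSectionVars false

open Module

section keyaAux

/-- an element of `p`-power period which is fixed by a short power of `x` is fixed by
`x ^ (p ^ (k-1))` -/
theorem keya_fix {F W : Type*} [Group F] [MulAction F W] {p : ℕ} (hp : p.Prime) {x : F} {w : W}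
    {k : ℕ} (hk : 1 ≤ k) (h1 : (x ^ (p ^ k)) • w = w) {m : ℕ} (hm : 0 < m) (hm2 : m < p ^ k)
    (h2 : (x ^ m) • w = w) : (x ^ (p ^ (k - 1))) • w = w := by
  rw [MulAction.pow_smul_eq_iff_period_dvd] at h1 h2 ⊢
  obtain ⟨a, ha, hpa⟩ := (Nat.dvd_prime_pow hp).1 h1
  rw [hpa] at h2 ⊢
  have h3 : p ^ a < p ^ k := lt_of_le_of_lt (Nat.le_of_dvd hm h2) hm2
  have h4 : a < k := (Nat.pow_lt_pow_iff_right hp.one_lt).1 h3
  exact pow_dvd_pow p (by omega)

theorem keya_fix_one {F W : Type*} [Group F] [MulAction F W] {p : ℕ} (hp : p.Prime) {z : F} {w : W}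
    (h1 : (z ^ p) • w = w) {m : ℕ} (hm : 0 < m) (hm2 : m < p)
    (h2 : (z ^ m) • w = w) : z • w = w := by
  have := keya_fix hp (x := z) (w := w) (k := 1) le_rfl (by simpa using h1) hm
    (by simpa using hm2) h2
  simpa using this

/-- `z ^ i w = z ^ j w` with `i ≠ j` below `p` forces `z w = w` -/
theorem keya_fix_two {F W : Type*} [Group F] [MulAction F W] {p : ℕ} (hp : p.Prime) {z : F} {w : W}
    (h1 : (z ^ p) • w = w) {i j : ℕ} (hi : i < p) (hj : j < p) (hij : i ≠ j)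
    (h2 : (z ^ i) • w = (z ^ j) • w) : z • w = w := by
  rcases lt_or_gt_of_ne hij with h | h
  · refine keya_fix_one hp h1 (m := j - i) (by omega) (by omega) ?_
    have e : z ^ j = z ^ i * z ^ (j - i) := by rw [← pow_add]; congr 1; omega
    rw [e, mul_smul] at h2
    exact (smul_left_cancel _ h2).symm
  · refine keya_fix_one hp h1 (m := i - j) (by omega) (by omega) ?_
    have e : z ^ i = z ^ j * z ^ (i - j) := by rw [← pow_add]; congr 1; omega
    rw [e, mul_smul] at h2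
    exact smul_left_cancel _ h2

/-- `P` distinct nonzero elements in an orbit -/
theorem keya_card {F W : Type*} [Group F] [AddCommGroup W] [Finite W] [DistribMulAction F W]
    (Y : AddSubgroup W) (x : F) (hY : ∀ w ∈ Y, x • w ∈ Y) (P : ℕ)
    (hfree : ∀ w ∈ Y, w ≠ 0 → ∀ m, 0 < m → m < P → (x ^ m) • w ≠ w) (w : W) (hw : w ∈ Y)
    (hw0 : w ≠ 0) : P + 1 ≤ Nat.card Y := by
  have hpow : ∀ m : ℕ, (x ^ m) • w ∈ Y := by
    intro m
    induction m with
    | zero => simpa using hw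
    | succ m ih => rw [pow_succ', mul_smul]; exact hY _ ih
  let f : Option (Fin P) → Y := fun o => o.elim 0 (fun m => ⟨(x ^ (m : ℕ)) • w, hpow m⟩)
  have hf : Function.Injective f := by
    intro a b hab
    have hz : ∀ m : ℕ, (x ^ m) • w ≠ 0 := fun m h => hw0 ((smul_eq_zero_iff_eq _).1 h)
    cases a with
    | none =>
      cases b with
      | none => rfl
      | some b =>
        exfalso
        have := congrArg (fun y : Y => (y : W)) hab
        exact hz b this.symm
    | some a =>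
      cases b with
      | none =>
        exfalso
        have := congrArg (fun y : Y => (y : W)) hab
        exact hz a this
      | some b =>
        have h1 : (x ^ (a : ℕ)) • w = (x ^ (b : ℕ)) • w := congrArg (fun y : Y => (y : W)) hab
        congr 1
        by_contra hne
        have hne' : (a : ℕ) ≠ b := fun h => hne (Fin.ext h)
        rcases lt_or_gt_of_ne hne' with h | h
        · have e : x ^ (b : ℕ) = x ^ (a : ℕ) * x ^ ((b : ℕ) - a) := by
            rw [← pow_add]; congr 1; omega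
          rw [e, mul_smul] at h1
          exact hfree w hw hw0 ((b : ℕ) - a) (by omega) (by omega) (smul_left_cancel _ h1).symm
        · have e : x ^ (a : ℕ) = x ^ (b : ℕ) * x ^ ((a : ℕ) - b) := by
            rw [← pow_add]; congr 1; omega
          rw [e, mul_smul] at h1
          exact hfree w hw hw0 ((a : ℕ) - b) (by omega) (by omega) (smul_left_cancel _ h1)
  have := Nat.card_le_card_of_injective f hf
  rw [Nat.card_eq_fintype_card (α := Option (Fin P)), Fintype.card_option, Fintype.card_fin] at this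
  exact this

/-- `(T - 1) ^ (p ^ n) = T ^ (p ^ n) - 1` in characteristic `p` -/
theorem keya_sub_one_pow {K V : Type*} [Field K] [AddCommGroup V] [Module K V] (p : ℕ)
    [Fact p.Prime] [CharP K p] (T : Module.End K V) (n : ℕ) :
    (T - 1) ^ (p ^ n) = T ^ (p ^ n) - 1 := by
  have h : (Polynomial.X - 1 : Polynomial K) ^ (p ^ n) = Polynomial.X ^ (p ^ n) - 1 := by
    rw [sub_pow_char_pow_of_commute _ _ (Commute.all _ _), one_pow]
  have := congrArg (Polynomial.aeval T) h
  simpa using this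

end keyaAux

section keyaMain

variable {K V F A W : Type*} [Field K] [AddCommGroup V] [Module K V]
  [FiniteDimensional K V] [Nontrivial V] [Group F] [Finite F] [Group A]
  [MulDistribMulAction F A] [AddCommGroup W] [Finite W] [DistribMulAction F W]
  {p q : ℕ} [Fact p.Prime] [CharP K p]
  {π : A → W} {ρA : Representation K A V} {β : W → W → K} {ρF : Representation K F V}

/-- elements of `F` which commute on `X` commute on `U` -/
theorem keya_comm {X : AddSubgroup W} {U : Submodule K V}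
    (hfaith : ∀ f : F, (∀ w ∈ X, f • w = w) → ∀ v ∈ U, ρF f v = v) (f g : F)
    (h : ∀ w ∈ X, f • g • w = g • f • w) (v : V) (hv : v ∈ U) :
    ρF f (ρF g v) = ρF g (ρF f v) := by
  have h1 : ρF ((g * f)⁻¹ * (f * g)) v = v := hfaith _ (by
    intro w hw
    rw [mul_smul, mul_smul f g, h w hw, ← mul_smul g f, inv_smul_smul]) v hv
  have h2 : ρF (g * f) (ρF ((g * f)⁻¹ * (f * g)) v) = ρF (g * f) v := by rw [h1]
  rw [← Module.End.mul_apply, ← map_mul, mul_inv_cancel_left, map_mul, map_mul] at h2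
  exact h2

/-- the operator identity `(z - 1) (z ^ j - z ^ i) = 0` gives `(z - 1) ^ 2 = 0` -/
theorem keya_quad (p : ℕ) (hp : p.Prime) (T : Module.End K V) (S : Submodule K V)
    (hT : ∀ v ∈ S, T v ∈ S) (hTp : ∀ v ∈ S, (T ^ p) v = v) (i j : ℕ) (hi : i < p) (hj : j < p)
    (hij : i < j) (h : ∀ v ∈ S, (T - 1) ((T ^ j) v - (T ^ i) v) = 0) (v : V) (hv : v ∈ S) :
    ((T - 1 : Module.End K V) ^ 2) v = 0 := by
  have hTn : ∀ (n : ℕ) (v : V), v ∈ S → (T ^ n) v ∈ S := by
    intro n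
    induction n with
    | zero => intro v hv; simpa using hv
    | succ n ih => intro v hv; rw [pow_succ, Module.End.mul_apply]; exact ih _ (hT v hv)
  obtain ⟨d, hd⟩ : ∃ d, j = i + d := ⟨j - i, by omega⟩
  have hd0 : 0 < d := by omega
  have hdp : d < p := by omega
  -- `(T - 1) (T ^ d - 1) = 0` on `S`
  have h1 : ∀ v ∈ S, (T - 1) ((T ^ d) v - v) = 0 := by
    intro v hv
    have hu := hTn (p - i) v hv
    have h2 := h _ hu
    have e1 : (T ^ j) ((T ^ (p - i)) v) = (T ^ d) v := by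
      rw [← Module.End.mul_apply, ← pow_add]
      have : j + (p - i) = d + p := by omega
      rw [this, pow_add, Module.End.mul_apply, hTp v hv]
    have e2 : (T ^ i) ((T ^ (p - i)) v) = v := by
      rw [← Module.End.mul_apply, ← pow_add]
      have : i + (p - i) = p := by omega
      rw [this, hTp v hv]
    rw [e1, e2] at h2
    exact h2
  have hpt : ∀ (t : ℕ) (v : V), v ∈ S → (T ^ (p * t)) v = v := by
    intro t
    induction t with
    | zero => intro v _; simp
    | succ t ih =>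
      intro v hv
      rw [Nat.mul_succ, pow_add, Module.End.mul_apply, hTp v hv]
      exact ih v hv
  have h2 : ∀ (m : ℕ) (v : V), v ∈ S → (T - 1) ((T ^ (d * m)) v - v) = 0 := by
    intro m
    induction m with
    | zero => intro v _; simp
    | succ m ih =>
      intro v hv
      have e : (T ^ (d * (m + 1))) v - v =
          ((T ^ d) ((T ^ (d * m)) v) - (T ^ (d * m)) v) + ((T ^ (d * m)) v - v) := by
        rw [← Module.End.mul_apply, ← pow_add, Nat.mul_succ, add_comm (d * m) d]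
        abel
      rw [e, map_add, h1 _ (hTn _ v hv), ih v hv, add_zero]
  obtain ⟨m, _, hm⟩ := Nat.exists_mul_mod_eq_one_of_coprime
    (Nat.coprime_of_lt_prime (by omega) hdp hp).symm hp.one_lt
  have h3 : d * m = 1 + p * (d * m / p) := by
    have := Nat.mod_add_div (d * m) p
    rw [hm] at this
    exact this.symm
  have h4 := h2 m v hv
  rw [h3, pow_add, Module.End.mul_apply, hpt _ v hv, pow_one] at h4
  rw [pow_two, Module.End.mul_apply]
  exact h4

/-- **KEYA**: the case of two different nonzero components forces `|X_i| = (p^k-1)^2`, `p = 3` and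
`|X_j| = 4`. -/
theorem key_two [IsAlgClosed K] (S : Sys p q π ρA β ρF) (hp2 : p ≠ 2) (hq : q.Prime) (hpq : p ≠ q)
    {X : AddSubgroup W} {U : Submodule K V} (hs : SubSys π ρA β X U)
    (hXF : ∀ (f : F), ∀ w ∈ X, f • w ∈ X) (hUF : ∀ (f : F), ∀ v ∈ U, ρF f v ∈ U)
    (hfaith : ∀ f : F, (∀ w ∈ X, f • w = w) → ∀ v ∈ U, ρF f v = v)
    (c : F) (hc : ∀ (f : F), ∀ w ∈ X, c • f • w = f • c • w)
    (hcp : ∀ w ∈ X, (c ^ p) • w = w) (hfix : ∀ w ∈ X, c • w = w → w = 0)
    (x : F) (k : ℕ) (hk : 1 ≤ k) (hx : ∀ w ∈ X, (x ^ (p ^ k)) • w = w)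
    (hN : ∀ v ∈ U, ((ρF x - 1) ^ (p ^ k - 1)) (ρF c v) = ((ρF x - 1) ^ (p ^ k - 1)) v)
    (i j : ℕ) (hi : i < p) (hj : j < p) (hij : i ≠ j)
    (hXi : ∃ w ∈ X, w ≠ 0 ∧ c • w = ((x ^ (p ^ (k - 1))) ^ i) • w)
    (hXj : ∃ w ∈ X, w ≠ 0 ∧ c • w = ((x ^ (p ^ (k - 1))) ^ j) • w)
    (Xi Xj : AddSubgroup W)
    (hXi' : ∀ w, w ∈ Xi ↔ w ∈ X ∧ c • w = ((x ^ (p ^ (k - 1))) ^ i) • w)
    (hXj' : ∀ w, w ∈ Xj ↔ w ∈ X ∧ c • w = ((x ^ (p ^ (k - 1))) ^ j) • w) :
    (∃ v ∈ U, ((ρF x - 1) ^ (p ^ k - 1)) v ≠ 0) ∧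
      Nat.card Xi = (p ^ k - 1) ^ 2 ∧ p = 3 ∧ Nat.card Xj = 4 := by
  have hp : p.Prime := Fact.out
  have hh := S.heis
  have hp3 : 3 ≤ p := by have := hp.two_le; omega
  have hP3 : 3 ≤ p ^ k := le_trans hp3 (Nat.le_self_pow (by omega) p)
  have hP1 : 1 ≤ p ^ k := by omega
  -- basic facts on `z`
  obtain ⟨z, hz⟩ : ∃ z : F, z = x ^ (p ^ (k - 1)) := ⟨_, rfl⟩
  rw [← hz] at hXi hXj
  simp only [← hz] at hXi' hXj'
  have hzpx : z ^ p = x ^ (p ^ k) := by
    rw [hz, ← pow_mul, ← pow_succ]; congr 2; omega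
  have hzp : ∀ w ∈ X, (z ^ p) • w = w := fun w hw => by rw [hzpx]; exact hx w hw
  have hfixz : ∀ w ∈ X, ∀ i : ℕ, c • w = (z ^ i) • w → z • w = w → w = 0 := by
    intro w hw i h1 h2
    refine hfix w hw ?_
    rw [h1]
    rw [← MulAction.mem_stabilizer_iff] at h2 ⊢
    exact Subgroup.pow_mem _ h2 i
  have hdisj : ∀ w, w ∈ Xi → w ∈ Xj → w = 0 := by
    intro w h1 h2
    obtain ⟨h1, h1'⟩ := (hXi' w).1 h1
    obtain ⟨h2, h2'⟩ := (hXj' w).1 h2
    exact hfixz w h1 i h1' (keya_fix_two hp (hzp w h1) hi hj hij (h1'.symm.trans h2'))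
  -- invariance of the components
  have hXif : ∀ f : F, (∀ w ∈ X, f • z • w = z • f • w) → ∀ w ∈ Xi, f • w ∈ Xi := by
    intro f hf w hw
    obtain ⟨h1, h2⟩ := (hXi' w).1 hw
    refine (hXi' _).2 ⟨hXF f w h1, ?_⟩
    have hzi : ∀ n : ℕ, ∀ w ∈ X, f • (z ^ n) • w = (z ^ n) • f • w := by
      intro n
      induction n with
      | zero => intro w _; simp
      | succ n ih =>
        intro w hw
        rw [pow_succ, mul_smul, mul_smul, ih _ (hXF z w hw), hf w hw]
    rw [hc f w h1, h2, hzi i w h1]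
  have hXjf : ∀ f : F, (∀ w ∈ X, f • z • w = z • f • w) → ∀ w ∈ Xj, f • w ∈ Xj := by
    intro f hf w hw
    obtain ⟨h1, h2⟩ := (hXj' w).1 hw
    refine (hXj' _).2 ⟨hXF f w h1, ?_⟩
    have hzi : ∀ n : ℕ, ∀ w ∈ X, f • (z ^ n) • w = (z ^ n) • f • w := by
      intro n
      induction n with
      | zero => intro w _; simp
      | succ n ih =>
        intro w hw
        rw [pow_succ, mul_smul, mul_smul, ih _ (hXF z w hw), hf w hw]
    rw [hc f w h1, h2, hzi j w h1]
  have hxz : ∀ w ∈ X, x • z • w = z • x • w := by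
    intro w _
    rw [← mul_smul, ← mul_smul, hz, ← pow_succ, ← pow_succ']
  have hzz : ∀ w ∈ X, z • z • w = z • z • w := fun _ _ => rfl
  have hcz : ∀ w ∈ X, c • z • w = z • c • w := fun w hw => hc z w hw
  have hXiX : Xi ≤ X := fun w hw => ((hXi' w).1 hw).1
  have hXjX : Xj ≤ X := fun w hw => ((hXj' w).1 hw).1
  have hXixF := hXif x hxz
  have hXjxF := hXjf x hxz
  -- the orbits of `x` are long
  have hfreei : ∀ w ∈ Xi, w ≠ 0 → ∀ m, 0 < m → m < p ^ k → (x ^ m) • w ≠ w := by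
    intro w hw hw0 m hm hm2 h
    obtain ⟨h1, h2⟩ := (hXi' w).1 hw
    have := keya_fix hp hk (hx w h1) hm hm2 h
    rw [← hz] at this
    exact hw0 (hfixz w h1 i h2 this)
  have hfreej : ∀ w ∈ Xj, w ≠ 0 → ∀ m, 0 < m → m < p ^ k → (x ^ m) • w ≠ w := by
    intro w hw hw0 m hm hm2 h
    obtain ⟨h1, h2⟩ := (hXj' w).1 hw
    have := keya_fix hp hk (hx w h1) hm hm2 h
    rw [← hz] at this
    exact hw0 (hfixz w h1 j h2 this)
  -- nondegeneracy and orthogonality
  have hndi : ∀ w ∈ Xi, w ≠ 0 → ∃ w' ∈ Xi, β w w' ≠ 1 := by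
    intro w hw hw0
    obtain ⟨h1, h2⟩ := (hXi' w).1 hw
    obtain ⟨w', hw', h3, h4⟩ := nd_comp S hq hpq X hs.nd c z (hXF c) (hXF z) hcz hcp hzp hfix
      i hi w h1 h2 hw0
    exact ⟨w', (hXi' w').2 ⟨hw', h3⟩, h4⟩
  have hndj : ∀ w ∈ Xj, w ≠ 0 → ∃ w' ∈ Xj, β w w' ≠ 1 := by
    intro w hw hw0
    obtain ⟨h1, h2⟩ := (hXj' w).1 hw
    obtain ⟨w', hw', h3, h4⟩ := nd_comp S hq hpq X hs.nd c z (hXF c) (hXF z) hcz hcp hzp hfix
      j hj w h1 h2 hw0
    exact ⟨w', (hXj' w').2 ⟨hw', h3⟩, h4⟩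
  have horth : ∀ u ∈ Xi, ∀ v ∈ Xj, β u v = 1 := by
    intro u hu v hv
    obtain ⟨h1, h2⟩ := (hXi' u).1 hu
    obtain ⟨h3, h4⟩ := (hXj' v).1 hv
    exact orth S hq hpq X c z (hXF c) (hXF z) hcz hcp hzp hfix i j hi hj hij u v h1 h3 h2 h4
  have horth' : ∀ u ∈ Xj, ∀ v ∈ Xi, β u v = 1 := by
    intro u hu v hv
    obtain ⟨h1, h2⟩ := (hXj' u).1 hu
    obtain ⟨h3, h4⟩ := (hXi' v).1 hv
    exact orth S hq hpq X c z (hXF c) (hXF z) hcz hcp hzp hfix j i hj hi hij.symm u v h1 h3 h2 h4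
  -- elements
  obtain ⟨wi, hwiX, hwi0, hwi⟩ := hXi
  obtain ⟨wj, hwjX, hwj0, hwj⟩ := hXj
  have hwi' : wi ∈ Xi := (hXi' wi).2 ⟨hwiX, hwi⟩
  have hwj' : wj ∈ Xj := (hXj' wj).2 ⟨hwjX, hwj⟩
  have hXine : Xi ≠ ⊥ := fun h => hwi0 (by rw [h] at hwi'; exact (AddSubgroup.mem_bot).1 hwi')
  have hXjne : Xj ≠ ⊥ := fun h => hwj0 (by rw [h] at hwj'; exact (AddSubgroup.mem_bot).1 hwj')
  -- STEP 1: `N ≠ 0` on `U`
  have step1 : ∃ v ∈ U, ((ρF x - 1) ^ (p ^ k - 1)) v ≠ 0 := by
    by_contra hcon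
    push Not at hcon
    have hsum : SubSys π ρA β (Xi ⊔ Xj) U := by
      refine ⟨hs.ne, ?_, fun g hg => hs.act g (sup_le hXiX hXjX hg)⟩
      intro w hw hw0
      obtain ⟨a, ha, b, hb, rfl⟩ := AddSubgroup.mem_sup.1 hw
      by_cases ha0 : a = 0
      · have hb0 : b ≠ 0 := by
          rintro rfl
          exact hw0 (by rw [ha0, add_zero])
        obtain ⟨w', hw', h1⟩ := hndj b hb hb0
        refine ⟨w', AddSubgroup.mem_sup_right hw', ?_⟩
        rw [hh.beta_add_left, horth a ha w' hw', one_mul]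
        exact h1
      · obtain ⟨w', hw', h1⟩ := hndi a ha ha0
        refine ⟨w', AddSubgroup.mem_sup_left hw', ?_⟩
        rw [hh.beta_add_left, horth' b hb w' hw', mul_one]
        exact h1
    have hfreeS : ∀ w ∈ Xi ⊔ Xj, w ≠ 0 → ∀ m, 0 < m → m < p ^ k → (x ^ m) • w ≠ w := by
      intro w hw hw0 m hm hm2 h
      have hwX : w ∈ X := sup_le hXiX hXjX hw
      have hzw := keya_fix hp hk (hx w hwX) hm hm2 h
      rw [← hz] at hzw
      obtain ⟨a, ha, b, hb, rfl⟩ := AddSubgroup.mem_sup.1 hw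
      have e : z • a - a = b - z • b := by
        rw [smul_add] at hzw
        rw [sub_eq_sub_iff_add_eq_add, hzw, add_comm]
      have h1 : z • a - a ∈ Xi := Xi.sub_mem (hXif z hzz a ha) ha
      have h2 : z • a - a ∈ Xj := by
        rw [e]; exact Xj.sub_mem hb (hXjf z hzz b hb)
      have h3 := hdisj _ h1 h2
      have ha' := (hXi' a).1 ha
      have hb' := (hXj' b).1 hb
      have ha0 : a = 0 := hfixz a ha'.1 i ha'.2 (sub_eq_zero.1 h3)
      rw [h3] at e
      have hb0 : b = 0 := hfixz b hb'.1 j hb'.2 (sub_eq_zero.1 e.symm).symm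
      exact hw0 (by rw [ha0, hb0, add_zero])
    have hbound := U1_sub S hq hpq hsum x (by
      intro w hw
      obtain ⟨a, ha, b, hb, rfl⟩ := AddSubgroup.mem_sup.1 hw
      rw [smul_add]
      exact add_mem (AddSubgroup.mem_sup_left (hXixF a ha))
        (AddSubgroup.mem_sup_right (hXjxF b hb))) (hUF x) (p ^ k) hP3 hcon hfreeS
      (fun w hw => hx w (sup_le hXiX hXjX hw))
    have hprod : Nat.card Xi * Nat.card Xj ≤ Nat.card (Xi ⊔ Xj : AddSubgroup W) := by
      rw [← Nat.card_prod]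
      refine Nat.card_le_card_of_injective
        (fun ab : Xi × Xj => (⟨ab.1.1 + ab.2.1, add_mem (AddSubgroup.mem_sup_left ab.1.2)
          (AddSubgroup.mem_sup_right ab.2.2)⟩ : (Xi ⊔ Xj : AddSubgroup W))) ?_
      rintro ⟨a, b⟩ ⟨a', b'⟩ hab
      have h1 : (a : W) + b = a' + b' := congrArg Subtype.val hab
      have h2 : (a : W) - a' = b' - b := by
        rw [sub_eq_sub_iff_add_eq_add, h1, add_comm]
      have h3 : (a : W) - a' = 0 := hdisj _ (Xi.sub_mem a.2 a'.2)
        (by rw [h2]; exact Xj.sub_mem b'.2 b.2)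
      rw [h3] at h2
      refine Prod.ext (Subtype.ext (sub_eq_zero.1 h3)) (Subtype.ext (sub_eq_zero.1 h2.symm).symm)
    have hci := keya_card Xi x hXixF (p ^ k) hfreei wi hwi' hwi0
    have hcj := keya_card Xj x hXjxF (p ^ k) hfreej wj hwj' hwj0
    have : (p ^ k + 1) * (p ^ k + 1) ≤ (p ^ k - 1) ^ 2 :=
      le_trans (Nat.mul_le_mul hci hcj) (hprod.trans hbound)
    have h4 : (p ^ k - 1) ^ 2 ≤ (p ^ k) ^ 2 := Nat.pow_le_pow_left (Nat.sub_le _ _) 2
    nlinarith
  refine ⟨step1, ?_⟩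
  -- STEP 2: the subspace `L`
  obtain ⟨y, hy⟩ : ∃ y : F, y = c * (z ^ i)⁻¹ := ⟨_, rfl⟩
  have hyXi : ∀ w ∈ Xi, y • w = w := by
    intro w hw
    obtain ⟨h1, h2⟩ := (hXi' w).1 hw
    rw [hy, mul_smul, hc _ w h1, h2, inv_smul_smul]
  have hpowz : ∀ n : ℕ, ∀ f : F, (∀ w ∈ X, f • z • w = z • f • w) →
      ∀ w ∈ X, f • (z ^ n) • w = (z ^ n) • f • w := by
    intro n f hf
    induction n with
    | zero => intro w _; simp
    | succ n ih =>
      intro w hw
      rw [pow_succ, mul_smul, mul_smul, ih _ (hXF z w hw), hf w hw]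
  have hycomm : ∀ f : F, (∀ w ∈ X, f • z • w = z • f • w) → ∀ w ∈ X, f • y • w = y • f • w := by
    intro f hf w hw
    have h1 : f • (z ^ i)⁻¹ • w = (z ^ i)⁻¹ • f • w := by
      have := hpowz i f hf ((z ^ i)⁻¹ • w) (hXF _ w hw)
      rw [smul_inv_smul] at this
      rw [this, inv_smul_smul]
    rw [hy, mul_smul, mul_smul, ← h1]
    exact (hc f _ (hXF _ w hw)).symm
  obtain ⟨L, hL⟩ : ∃ L : Submodule K V, L = U.map (ρF y - 1) := ⟨_, rfl⟩
  have hmemL : ∀ v, v ∈ L ↔ ∃ u ∈ U, ρF y u - u = v := by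
    intro v
    rw [hL, Submodule.mem_map]
    rfl
  have hLU : L ≤ U := by
    intro v hv
    obtain ⟨u, hu, rfl⟩ := (hmemL v).1 hv
    exact U.sub_mem (hUF y u hu) hu
  have hLne : L ≠ ⊥ := by
    intro h0
    have h1 : ∀ v ∈ U, ρF y v = v := by
      intro v hv
      have : ρF y v - v ∈ L := (hmemL _).2 ⟨v, hv, rfl⟩
      rw [h0, Submodule.mem_bot] at this
      exact sub_eq_zero.1 this
    have h2 := S.triv_of_triv hs y (hXF y) h1 wj hwjX
    rw [hy, mul_smul, hc _ wj hwjX, inv_smul_eq_iff] at h2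
    exact hwj0 (hdisj wj ((hXi' wj).2 ⟨hwjX, h2⟩) hwj')
  have hLf : ∀ f : F, (∀ w ∈ X, f • z • w = z • f • w) → ∀ v ∈ L, ρF f v ∈ L := by
    intro f hf v hv
    obtain ⟨u, hu, rfl⟩ := (hmemL v).1 hv
    refine (hmemL _).2 ⟨ρF f u, hUF f u hu, ?_⟩
    rw [map_sub, keya_comm hfaith f y (hycomm f hf) u hu]
  have hLA : ∀ g, π g ∈ Xi → ∀ v ∈ L, ρA g v ∈ L := by
    intro g hg v hv
    obtain ⟨u, hu, rfl⟩ := (hmemL v).1 hv
    refine (hmemL _).2 ⟨ρA g u, hs.act g (hXiX hg) u hu, ?_⟩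
    have h1 := S.cop y g (hyXi _ hg)
    have h2 : ρF y (ρA g u) = ρA g (ρF y u) := LinearMap.congr_fun h1 u
    rw [map_sub, h2]
  have hsL : SubSys π ρA β Xi L := ⟨hLne, hndi, hLA⟩
  -- `N` kills `L`
  have hNx : ∀ v ∈ U, ((ρF x - 1) ^ (p ^ k - 1)) (ρF x v) = ((ρF x - 1) ^ (p ^ k - 1)) v := by
    intro v hv
    rw [← sub_eq_zero, ← map_sub]
    have e : ρF x v - v = (ρF x - 1) v := rfl
    rw [e, ← Module.End.mul_apply, ← pow_succ, Nat.sub_add_cancel hP1, keya_sub_one_pow p,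
      ← map_pow, LinearMap.sub_apply, hfaith _ hx v hv]
    simp
  have hNxn : ∀ (n : ℕ), ∀ v ∈ U, ((ρF x - 1) ^ (p ^ k - 1)) (ρF (x ^ n) v) =
      ((ρF x - 1) ^ (p ^ k - 1)) v := by
    intro n
    induction n with
    | zero => intro v _; simp
    | succ n ih =>
      intro v hv
      rw [pow_succ', map_mul, Module.End.mul_apply, hNx _ (hUF _ v hv), ih v hv]
  have hNL : ∀ v ∈ L, ((ρF x - 1) ^ (p ^ k - 1)) v = 0 := by
    intro v hv
    obtain ⟨u, hu, rfl⟩ := (hmemL v).1 hv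
    rw [map_sub, sub_eq_zero, hy, map_mul, Module.End.mul_apply, hN _ (hUF _ u hu)]
    have h1 := hNxn (p ^ (k - 1) * i) (ρF (z ^ i)⁻¹ u) (hUF _ u hu)
    rw [pow_mul, ← hz, ← Module.End.mul_apply (ρF (z ^ i)), ← map_mul, mul_inv_cancel, map_one,
      Module.End.one_apply] at h1
    exact h1.symm
  -- STEP 3: `U2` for `(Xi, L)`
  obtain ⟨hcardi, hE⟩ := U2_sub S hp2 hq hpq hsL hXine x hXixF (hLf x hxz) k hk hNL hfreei
    (fun w hw => hx w (hXiX hw))
  refine ⟨hcardi, ?_⟩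
  have hkey : ∀ g, π g ∈ Xj → ∀ v ∈ L, ρF y (ρA g (ρF x v)) - ρA g (ρF x v) =
      ρF x (ρF y (ρA g v) - ρA g v) := by
    intro g hg v hv
    have h1 := hE ((ρF y - 1) * ρA g) (by
      intro v hv
      exact (hmemL _).2 ⟨ρA g v, hs.act g (hXjX hg) v (hLU hv), rfl⟩) (by
      intro g' hg' v hv
      have h2 : ρA g (ρA g' v) = ρA g' (ρA g v) := by
        rw [hh.comm_apply, horth' _ hg _ hg', one_smul]
      have h3 : ρF y (ρA g' (ρA g v)) = ρA g' (ρF y (ρA g v)) :=
        LinearMap.congr_fun (S.cop y g' (hyXi _ hg')) (ρA g v)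
      change ρF y (ρA g (ρA g' v)) - ρA g (ρA g' v) = ρA g' (ρF y (ρA g v) - ρA g v)
      rw [h2, h3, map_sub]) v hv
    exact h1
  -- STEP 4: a common fixed vector in `L`
  obtain ⟨l, hlL, hl0, hlfix⟩ := pfix p ρF (Subgroup.closure {x, c})
    (S.hF.to_subgroup _) L hLne (by
      intro f hf v hv
      have hgood : ∀ w ∈ X, f • z • w = z • f • w := by
        refine Subgroup.closure_induction (p := fun f _ => ∀ w ∈ X, f • z • w = z • f • w)
          ?_ ?_ ?_ ?_ hf
        · intro f hf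
          rcases hf with rfl | hf
          · exact hxz
          · rw [Set.mem_singleton_iff] at hf
            subst hf
            exact hcz
        · intro w _; simp
        · intro a b _ _ ha hb w hw
          rw [mul_smul, mul_smul, hb w hw, ha _ (hXF b w hw)]
        · intro a _ ha w hw
          have := ha (a⁻¹ • w) (hXF _ w hw)
          rw [smul_inv_smul] at this
          rw [← this, inv_smul_smul]
      exact hLf f hgood v hv)
  have hxl : ρF x l = l := hlfix x (Subgroup.subset_closure (by simp))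
  have hcl : ρF c l = l := hlfix c (Subgroup.subset_closure (by simp))
  have hlU : l ∈ U := hLU hlL
  -- STEP 5: the subspace `Sl`
  obtain ⟨Sl, hSl⟩ : ∃ Sl : Submodule K V, Sl = Submodule.span K
    {v | ∃ g, π g ∈ Xj ∧ ρA g l = v} := ⟨_, rfl⟩
  have hSlmem : ∀ g, π g ∈ Xj → ρA g l ∈ Sl := by
    intro g hg
    rw [hSl]
    exact Submodule.subset_span ⟨g, hg, rfl⟩
  have hSlind : ∀ (T : Submodule K V), (∀ g, π g ∈ Xj → ρA g l ∈ T) → Sl ≤ T := by
    intro T hT
    rw [hSl, Submodule.span_le]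
    rintro v ⟨g, hg, rfl⟩
    exact hT g hg
  have hSlU : Sl ≤ U := hSlind U fun g hg => hs.act g (hXjX hg) l hlU
  have hSlmap : ∀ T : Module.End K V, (∀ g, π g ∈ Xj → T (ρA g l) ∈ Sl) → ∀ v ∈ Sl, T v ∈ Sl := by
    intro T hT v hv
    exact hSlind (Sl.comap T) (fun g hg => hT g hg) hv
  have hSlker : ∀ T : Module.End K V, (∀ g, π g ∈ Xj → T (ρA g l) = 0) → ∀ v ∈ Sl, T v = 0 := by
    intro T hT v hv
    exact hSlind (LinearMap.ker T) (fun g hg => hT g hg) hv
  have hSlne : Sl ≠ ⊥ := by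
    intro h0
    have h1 := hSlmem 1 (by rw [hh.map_one]; exact Xj.zero_mem)
    rw [h0, Submodule.mem_bot, map_one] at h1
    exact hl0 h1
  have hSlF : ∀ f : F, (∀ w ∈ X, f • z • w = z • f • w) → ρF f l = l →
      ∀ v ∈ Sl, ρF f v ∈ Sl := by
    intro f hf hfl
    refine hSlmap (ρF f) ?_
    intro g hg
    have h1 : ρF f (ρA g l) = ρA (f • g) (ρF f l) := LinearMap.congr_fun (S.hρ f g) l
    rw [h1, hfl]
    exact hSlmem _ (by rw [S.hπ]; exact hXjf f hf _ hg)
  have hSlx := hSlF x hxz hxl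
  have hSlz : ∀ v ∈ Sl, ρF z v ∈ Sl := by
    have : ρF z l = l := by
      rw [hz]
      have : ∀ n : ℕ, ρF (x ^ n) l = l := by
        intro n
        induction n with
        | zero => simp
        | succ n ih => rw [pow_succ, map_mul, Module.End.mul_apply, hxl, ih]
      exact this _
    exact hSlF z hzz this
  have hSlA : ∀ g, π g ∈ Xj → ∀ v ∈ Sl, ρA g v ∈ Sl := by
    intro g hg
    refine hSlmap (ρA g) ?_
    intro g' hg'
    rw [← Module.End.mul_apply, ← map_mul]
    exact hSlmem _ (by rw [hh.add]; exact Xj.add_mem hg hg')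
  have hsS : SubSys π ρA β Xj Sl := ⟨hSlne, hndj, hSlA⟩
  -- `c = z ^ j` on `Sl`
  have hzl : ρF z l = l := by
    rw [hz]
    have : ∀ n : ℕ, ρF (x ^ n) l = l := by
      intro n
      induction n with
      | zero => simp
      | succ n ih => rw [pow_succ, map_mul, Module.End.mul_apply, hxl, ih]
    exact this _
  have hznl : ∀ n : ℕ, ρF (z ^ n) l = l := by
    intro n
    induction n with
    | zero => simp
    | succ n ih => rw [pow_succ, map_mul, Module.End.mul_apply, hzl, ih]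
  have hznS : ∀ n : ℕ, ∀ v ∈ Sl, ρF (z ^ n) v ∈ Sl := by
    intro n
    induction n with
    | zero => intro v hv; simpa using hv
    | succ n ih =>
      intro v hv
      rw [pow_succ, map_mul, Module.End.mul_apply]
      exact ih _ (hSlz v hv)
  have hyj : ∀ v ∈ Sl, ρF (c * (z ^ j)⁻¹) v = v := by
    intro v hv
    have h0 := hSlker (ρF (c * (z ^ j)⁻¹) - 1) (by
      intro g hg
      have h1 : (c * (z ^ j)⁻¹) • π g = π g := by
        obtain ⟨h1, h2⟩ := (hXj' _).1 hg
        rw [mul_smul, hc _ _ h1, h2, inv_smul_smul]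
      have h2 : ρF (c * (z ^ j)⁻¹) (ρA g l) = ρA g (ρF (c * (z ^ j)⁻¹) l) :=
        LinearMap.congr_fun (S.cop _ g h1) l
      have h3 : ρF (c * (z ^ j)⁻¹) l = l := by
        have h4 : ρF (z ^ j)⁻¹ l = l := by
          have h5 := congrArg (ρF (z ^ j)⁻¹) (hznl j)
          rw [← Module.End.mul_apply, ← map_mul, inv_mul_cancel, map_one,
            Module.End.one_apply] at h5
          exact h5.symm
        rw [map_mul, Module.End.mul_apply, h4, hcl]
      rw [LinearMap.sub_apply, h2, h3, Module.End.one_apply, sub_self]) v hv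
    rw [LinearMap.sub_apply, Module.End.one_apply] at h0
    exact sub_eq_zero.1 h0
  have hcS : ∀ v ∈ Sl, ρF c v = ρF (z ^ j) v := by
    intro v hv
    have h1 := hyj _ (hznS j v hv)
    rw [← Module.End.mul_apply, ← map_mul, inv_mul_cancel_right] at h1
    exact h1
  -- the quadratic relation on `Sl`
  have hxy : ∀ v ∈ Sl, ρF x (ρF y v - v) - (ρF y v - v) = 0 := by
    intro v hv
    refine hSlker ((ρF x - 1) * (ρF y - 1)) ?_ v hv
    intro g hg
    have h1 := hkey g hg l hlL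
    rw [hxl] at h1
    change ρF x (ρF y (ρA g l) - ρA g l) - (ρF y (ρA g l) - ρA g l) = 0
    rw [← h1, sub_self]
  have hxc : ∀ v ∈ Sl, (ρF x - 1) (ρF (z ^ j) v - ρF (z ^ i) v) = 0 := by
    intro v hv
    have h1 := hxy _ (hznS i v hv)
    have h2 : ρF y (ρF (z ^ i) v) = ρF c v := by
      rw [hy, ← Module.End.mul_apply, ← map_mul, inv_mul_cancel_right]
    rw [h2, hcS v hv] at h1
    exact h1
  have hzc : ∀ v ∈ Sl, (ρF z - 1) (ρF (z ^ j) v - ρF (z ^ i) v) = 0 := by
    intro v hv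
    have e : (ρF z - 1 : Module.End K V) = (ρF x - 1) ^ (p ^ (k - 1) - 1) * (ρF x - 1) := by
      rw [← pow_succ, Nat.sub_add_cancel (Nat.one_le_pow _ _ (by omega)), keya_sub_one_pow p, hz,
        map_pow]
    rw [e, Module.End.mul_apply, hxc v hv, map_zero]
  have hzpS : ∀ v ∈ Sl, ((ρF z) ^ p) v = v := by
    intro v hv
    rw [← map_pow]
    exact hfaith _ hzp v (hSlU hv)
  have hquad : ∀ v ∈ Sl, ((ρF z - 1 : Module.End K V) ^ 2) v = 0 := by
    intro v hv
    rcases lt_or_gt_of_ne hij with h | h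
    · refine keya_quad p hp (ρF z) Sl hSlz hzpS i j hi hj h ?_ v hv
      intro v hv
      rw [← map_pow, ← map_pow]
      exact hzc v hv
    · refine keya_quad p hp (ρF z) Sl hSlz hzpS j i hj hi h ?_ v hv
      intro v hv
      have h1 := hzc v hv
      rw [← map_pow, ← map_pow]
      rw [map_sub, sub_eq_zero] at h1 ⊢
      exact h1.symm
  -- STEP 6: `U3` for `(Xj, Sl)`
  exact U3_sub S hp2 hq hpq hsS hXjne z (hXjf z hzz) hSlz hquad
    (by
      intro w hw hw0 m hm hm2 h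
      obtain ⟨h1, h2⟩ := (hXj' w).1 hw
      exact hw0 (hfixz w h1 j h2 (keya_fix_one hp (hzp w h1) hm hm2 h)))
    (fun w hw => hzp w (hXjX hw))

end keyaMain

end H60SH

end S_KEYA

section S_KEY

namespace H60SH

open Module

/-- The component `X_i`. -/
def keyComp {F W : Type*} [Group F] [AddCommGroup W] [DistribMulAction F W] (X : AddSubgroup W)
    (c y : F) : AddSubgroup W where
  carrier := {w | w ∈ X ∧ c • w = y • w}
  add_mem' := by
    rintro a b ⟨ha, ha'⟩ ⟨hb, hb'⟩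
    exact ⟨X.add_mem ha hb, by rw [smul_add, smul_add, ha', hb']⟩
  zero_mem' := ⟨X.zero_mem, by rw [smul_zero, smul_zero]⟩
  neg_mem' := by
    rintro a ⟨ha, ha'⟩
    exact ⟨X.neg_mem ha, by rw [smul_neg, smul_neg, ha']⟩

theorem mem_keyComp {F W : Type*} [Group F] [AddCommGroup W] [DistribMulAction F W]
    {X : AddSubgroup W} {c y : F} {w : W} : w ∈ keyComp X c y ↔ w ∈ X ∧ c • w = y • w := Iff.rfl

/-- An elementary counting lemma: an internal direct sum of two groups of order `4` has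
order `16`. -/
theorem key_card {W : Type*} [AddCommGroup W] [Finite W] (X Y Z : AddSubgroup W) (hY : Y ≤ X)
    (hZ : Z ≤ X) (hdis : ∀ w, w ∈ Y → w ∈ Z → w = 0)
    (hsum : ∀ w ∈ X, ∃ a ∈ Y, ∃ b ∈ Z, w = a + b) (h1 : Nat.card Y = 4) (h2 : Nat.card Z = 4) :
    Nat.card X = 16 := by
  have e : (Y × Z) ≃ X := by
    refine Equiv.ofBijective (fun p => ⟨(p.1 : W) + (p.2 : W),
      X.add_mem (hY p.1.2) (hZ p.2.2)⟩) ⟨?_, ?_⟩
    · rintro ⟨a, b⟩ ⟨a', b'⟩ h
      have h' : (a : W) + b = a' + b' := congrArg Subtype.val h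
      have h'' : (a : W) - a' = b' - b := by
        rw [sub_eq_sub_iff_add_eq_add, h', add_comm]
      have h3 : (a : W) - a' = 0 := by
        refine hdis _ (Y.sub_mem a.2 a'.2) ?_
        rw [h'']
        exact Z.sub_mem b'.2 b.2
      have h4 : (b' : W) - b = 0 := by rw [← h'']; exact h3
      have h5 : a = a' := Subtype.ext (sub_eq_zero.1 h3)
      have h6 : b = b' := Subtype.ext (sub_eq_zero.1 h4).symm
      rw [h5, h6]
    · rintro ⟨w, hw⟩
      obtain ⟨a, ha, b, hb, rfl⟩ := hsum w hw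
      exact ⟨(⟨a, ha⟩, ⟨b, hb⟩), rfl⟩
  rw [← Nat.card_congr e, Nat.card_prod, h1, h2]

variable {K V F A W : Type*} [Field K] [IsAlgClosed K] [AddCommGroup V] [Module K V]
  [FiniteDimensional K V] [Nontrivial V] [Group F] [Finite F] [Group A]
  [MulDistribMulAction F A] [AddCommGroup W] [Finite W] [DistribMulAction F W]
  {p q : ℕ} [Fact p.Prime] [CharP K p]
  {π : A → W} {ρA : Representation K A V} {β : W → W → K} {ρF : Representation K F V}

omit [IsAlgClosed K] [FiniteDimensional K V] [Nontrivial V] [Finite F] [Finite W] in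
/-- elements which commute on `X` commute on `U` -/
theorem key_comm {X : AddSubgroup W} {U : Submodule K V}
    (hXF : ∀ (f : F), ∀ w ∈ X, f • w ∈ X) (hUF : ∀ (f : F), ∀ v ∈ U, ρF f v ∈ U)
    (hfaith : ∀ f : F, (∀ w ∈ X, f • w = w) → ∀ v ∈ U, ρF f v = v) (c x : F)
    (hc : ∀ w ∈ X, c • x • w = x • c • w) (v : V) (hv : v ∈ U) :
    ρF c (ρF x v) = ρF x (ρF c v) := by
  have h1 : ∀ w ∈ X, ((x * c)⁻¹ * (c * x)) • w = w := by
    intro w hw
    rw [mul_smul, inv_smul_eq_iff, mul_smul, mul_smul]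
    exact hc w hw
  have h2 := hfaith _ h1 v hv
  have h3 : ρF ((x * c) * ((x * c)⁻¹ * (c * x))) v = ρF (x * c) v := by
    rw [map_mul, Module.End.mul_apply, h2]
  rw [mul_inv_cancel_left, map_mul, map_mul] at h3
  exact h3

omit [IsAlgClosed K] [FiniteDimensional K V] [Nontrivial V] in
theorem key_adj (T : Module.End K V) (m : ℕ) :
    (T - 1) ^ m ∈ Algebra.adjoin K ({T} : Set (Module.End K V)) := by
  have h1 : T ∈ Algebra.adjoin K ({T} : Set (Module.End K V)) :=
    Algebra.subset_adjoin (Set.mem_singleton T)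
  have h2 : (1 : Module.End K V) ∈ Algebra.adjoin K ({T} : Set (Module.End K V)) :=
    Subalgebra.one_mem _
  exact pow_mem (sub_mem h1 h2) m

/-- **KEY**: `c` acts on `[X, z]`, `z = x ^ (p ^ (k-1))`, as a power of `z`. -/
theorem key (S : Sys p q π ρA β ρF) (hp2 : p ≠ 2) (hq : q.Prime) (hpq : p ≠ q)
    {X : AddSubgroup W} {U : Submodule K V} (hs : SubSys π ρA β X U)
    (hXF : ∀ (f : F), ∀ w ∈ X, f • w ∈ X) (hUF : ∀ (f : F), ∀ v ∈ U, ρF f v ∈ U)
    (hsimple : ∀ Y : AddSubgroup W, Y ≤ X → (∀ (f : F), ∀ w ∈ Y, f • w ∈ Y) → Y = ⊥ ∨ Y = X)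
    (hfaith : ∀ f : F, (∀ w ∈ X, f • w = w) → ∀ v ∈ U, ρF f v = v)
    (c : F) (hc : ∀ (f : F), ∀ w ∈ X, c • f • w = f • c • w)
    (hcp : ∀ w ∈ X, (c ^ p) • w = w) (hfix : ∀ w ∈ X, c • w = w → w = 0)
    (x : F) (k : ℕ) (hk : 1 ≤ k) (hx : ∀ w ∈ X, (x ^ (p ^ k)) • w = w)
    (hz : ∃ w ∈ X, (x ^ (p ^ (k - 1))) • w ≠ w)
    (hN : ∀ v ∈ U, ((ρF x - 1) ^ (p ^ k - 1)) (ρF c v) = ((ρF x - 1) ^ (p ^ k - 1)) v) :
    ∃ i : ℕ, 0 < i ∧ i < p ∧ ∀ w ∈ X,
      c • (((x ^ (p ^ (k - 1))) ^ i) • w - w) =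
        ((x ^ (p ^ (k - 1))) ^ i) • (((x ^ (p ^ (k - 1))) ^ i) • w - w) := by
  obtain ⟨z, hzdef⟩ : ∃ z, z = x ^ (p ^ (k - 1)) := ⟨_, rfl⟩
  rw [← hzdef] at hz ⊢
  have hpp : p.Prime := Fact.out
  have hzp : ∀ w ∈ X, (z ^ p) • w = w := by
    intro w hw
    have e : z ^ p = x ^ (p ^ k) := by
      rw [hzdef, ← pow_mul, ← pow_succ]
      congr 2
      omega
    rw [e]
    exact hx w hw
  -- at most one nonzero component
  have huniq : ∀ i j : ℕ, 0 < i → i < p → 0 < j → j < p → i ≠ j →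
      (∃ w ∈ X, w ≠ 0 ∧ c • w = (z ^ i) • w) → (∃ w ∈ X, w ≠ 0 ∧ c • w = (z ^ j) • w) →
      False := by
    intro i j hi0 hi hj0 hj hij hXi hXj
    obtain ⟨hNne, hci, hp3, hcj⟩ := key_two S hp2 hq hpq hs hXF hUF hfaith c hc hcp hfix x k hk
      hx hN i j hi hj hij (by rw [← hzdef]; exact hXi) (by rw [← hzdef]; exact hXj)
      (keyComp X c (z ^ i)) (keyComp X c (z ^ j))
      (fun w => by rw [← hzdef]; exact mem_keyComp) (fun w => by rw [← hzdef]; exact mem_keyComp)
    obtain ⟨_, _, _, hci'⟩ := key_two S hp2 hq hpq hs hXF hUF hfaith c hc hcp hfix x k hk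
      hx hN j i hj hi hij.symm (by rw [← hzdef]; exact hXj) (by rw [← hzdef]; exact hXi)
      (keyComp X c (z ^ j)) (keyComp X c (z ^ i))
      (fun w => by rw [← hzdef]; exact mem_keyComp) (fun w => by rw [← hzdef]; exact mem_keyComp)
    subst hp3
    -- `k = 1`
    have hk1 : k = 1 := by
      by_contra hne
      have hk2 : 2 ≤ k := by omega
      have h9 : 9 ≤ 3 ^ k := by
        calc 9 = 3 ^ 2 := by norm_num
          _ ≤ 3 ^ k := Nat.pow_le_pow_right (by norm_num) hk2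
      have h8 : 8 ≤ 3 ^ k - 1 := by omega
      have h64 : 8 ^ 2 ≤ (3 ^ k - 1) ^ 2 := Nat.pow_le_pow_left h8 2
      rw [← hci, hci'] at h64
      omega
    subst hk1
    have hzx : z = x := by
      rw [hzdef]
      simp
    rw [hzx] at hzp hXi hXj hci hcj hci'
    -- `{i, j} = {1, 2}`
    obtain ⟨hNv, hNvU, hNvne⟩ := hNne
    obtain ⟨N, hNdef⟩ : ∃ N, N = (ρF x - 1) ^ (3 ^ 1 - 1) := ⟨_, rfl⟩
    rw [← hNdef] at hN hNvne
    have hcommU : ∀ v ∈ U, ρF c (ρF x v) = ρF x (ρF c v) := fun v hv =>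
      key_comm hXF hUF hfaith c x (hc x) v hv
    have hUx1 : ∀ v ∈ U, (ρF x - 1) v ∈ U := by
      intro v hv
      rw [LinearMap.sub_apply]
      exact U.sub_mem (hUF x v hv) hv
    have hcx1 : ∀ v ∈ U, ρF c ((ρF x - 1) v) = (ρF x - 1) (ρF c v) := by
      intro v hv
      rw [LinearMap.sub_apply, LinearMap.sub_apply, map_sub, hcommU v hv]
      rfl
    have hcpow : ∀ m : ℕ, ∀ v ∈ U, ((ρF x - 1) ^ m) v ∈ U ∧
        ρF c (((ρF x - 1) ^ m) v) = ((ρF x - 1) ^ m) (ρF c v) := by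
      intro m
      induction m with
      | zero =>
        intro v hv
        rw [pow_zero]
        exact ⟨hv, rfl⟩
      | succ m ih =>
        intro v hv
        rw [pow_succ, Module.End.mul_apply, Module.End.mul_apply]
        obtain ⟨h1, h2⟩ := ih _ (hUx1 v hv)
        exact ⟨h1, by rw [h2, hcx1 v hv]⟩
    have hNadj : N ∈ Algebra.adjoin K ({ρF x} : Set (Module.End K V)) := by
      rw [hNdef]
      exact key_adj (ρF x) (3 ^ 1 - 1)
    have hα := alpha S hq hpq hs.nd c x (hXF c) (hXF x) (hc x) (U.map N)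
      (by
        intro hbot
        apply hNvne
        have : N hNv ∈ U.map N := Submodule.mem_map_of_mem hNvU
        rw [hbot] at this
        exact (Submodule.mem_bot K).1 this)
      (fun g hg hxg => image_inv S hs x N hNadj g hg hxg)
      (by
        rintro v ⟨u, hu, rfl⟩
        rw [hNdef, (hcpow _ u hu).2, ← hNdef]
        exact hN u hu)
    have hfx : ∀ w ∈ X, x • w = w → w = 0 := fun w hw hxw => hfix w hw (hα w hw hxw)
    -- the two components
    have h12 : (i = 1 ∧ j = 2) ∨ (i = 2 ∧ j = 1) := by omega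
    have hc1 : Nat.card (keyComp X c (x ^ 1)) = 4 ∧ Nat.card (keyComp X c (x ^ 2)) = 4 := by
      rcases h12 with ⟨rfl, rfl⟩ | ⟨rfl, rfl⟩
      · exact ⟨hci', hcj⟩
      · exact ⟨hcj, hci'⟩
    have h16 : Nat.card X = 16 := by
      refine key_card X (keyComp X c (x ^ 1)) (keyComp X c (x ^ 2)) (fun w hw => hw.1)
        (fun w hw => hw.1) ?_ ?_ hc1.1 hc1.2
      · rintro w ⟨hw, hw1⟩ ⟨_, hw2⟩
        rw [hw1, pow_one, pow_two, mul_smul] at hw2
        have : x • (x • w) = x • w := hw2.symm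
        have h3 := hfx _ (hXF x w hw) this
        exact (smul_eq_zero_iff_eq x).1 h3
      · intro w hw
        obtain ⟨w0, ws, hw0, hzw0, hws, hsum⟩ := wdec 3 q hpp hq hpq S.hW X c x (hXF c) (hXF x)
          (hc x) hcp hzp hfix w hw
        have e0 : w0 = 0 := hfx w0 hw0 hzw0
        refine ⟨ws 1, ⟨(hws 1).1, (hws 1).2⟩, ws 2, ⟨(hws 2).1, (hws 2).2⟩, ?_⟩
        rw [hsum, e0, zero_add, Finset.sum_Ico_succ_top (by norm_num),
          Finset.sum_Ico_succ_top (by norm_num)]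
        simp
    -- `q = 2`
    have hq2 : ∀ w ∈ X, w + w = 0 := by
      intro w hw
      have hq2 : q = 2 := by
        by_contra hne
        have hcop : Nat.Coprime q 16 := by
          have : (16 : ℕ) = 2 ^ 4 := by norm_num
          rw [this]
          exact Nat.Coprime.pow_right 4 ((Nat.coprime_primes hq Nat.prime_two).2 hne)
        have hall : ∀ w ∈ X, w = 0 := by
          intro w hw
          have h1 : q • w = 0 := S.hW w
          have h2 : 16 • w = 0 := by
            have h3 : (Nat.card X) • (⟨w, hw⟩ : X) = 0 := by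
              exact card_nsmul_eq_zero'
            rw [h16] at h3
            exact congrArg Subtype.val h3
          have h3 : addOrderOf w ∣ q := addOrderOf_dvd_of_nsmul_eq_zero h1
          have h4 : addOrderOf w ∣ 16 := addOrderOf_dvd_of_nsmul_eq_zero h2
          have h5 : addOrderOf w ∣ 1 := by
            rw [← hcop]
            exact Nat.dvd_gcd h3 h4
          exact AddMonoid.addOrderOf_eq_one_iff.1 (Nat.dvd_one.1 h5)
        obtain ⟨w', hw', hne', _⟩ := hXi
        exact hne' (hall w' hw')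
      have := S.hW w
      rw [hq2, two_nsmul] at this
      exact this
    obtain ⟨Y, hYX, hYbot, hYne, hYF⟩ := sixteen S.hF X hXF h16 hq2 c hc hfix hcp
    rcases hsimple Y hYX hYF with h | h
    · exact hYbot h
    · exact hYne h
  -- at least one nonzero component
  obtain ⟨w, hw, hzw⟩ := hz
  have hex : ∃ i, 0 < i ∧ i < p ∧ ∃ w ∈ X, w ≠ 0 ∧ c • w = (z ^ i) • w := by
    by_contra hcon
    push Not at hcon
    obtain ⟨w0, ws, hw0, hzw0, hws, hsum⟩ := wdec p q hpp hq hpq S.hW X c z (hXF c) (hXF z)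
      (hc z) hcp hzp hfix w hw
    have hs0 : ∑ i ∈ Finset.Ico 1 p, ws i = 0 := by
      refine Finset.sum_eq_zero fun i hi => ?_
      rw [Finset.mem_Ico] at hi
      by_contra hne
      exact hcon i (by omega) hi.2 (ws i) (hws i).1 hne (hws i).2
    rw [hs0, add_zero] at hsum
    rw [hsum] at hzw
    exact hzw hzw0
  obtain ⟨i, hi0, hip, hXi⟩ := hex
  refine ⟨i, hi0, hip, ?_⟩
  intro w hw
  obtain ⟨w0, ws, hw0, hzw0, hws, hsum⟩ := wdec p q hpp hq hpq S.hW X c z (hXF c) (hXF z)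
    (hc z) hcp hzp hfix w hw
  have hs0 : ∑ j ∈ Finset.Ico 1 p, ws j = ws i := by
    refine Finset.sum_eq_single_of_mem i (Finset.mem_Ico.2 ⟨by omega, hip⟩) ?_
    intro j hj hji
    rw [Finset.mem_Ico] at hj
    by_contra hne
    exact huniq i j hi0 hip (by omega) hj.2 (Ne.symm hji) hXi
      ⟨ws j, (hws j).1, hne, (hws j).2⟩
  rw [hs0] at hsum
  have hzi : ∀ n : ℕ, (z ^ n) • w0 = w0 := by
    intro n
    induction n with
    | zero => rw [pow_zero, one_smul]
    | succ n ih => rw [pow_succ, mul_smul, hzw0, ih]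
  have e1 : (z ^ i) • w - w = (z ^ i) • ws i - ws i := by
    rw [hsum, smul_add, hzi i]
    abel
  rw [e1, smul_sub, smul_sub, hc _ _ (hws i).1, (hws i).2]

end H60SH

end S_KEY

section S_QUADA

namespace H60SH

open Module

variable {K V F A W : Type*} [Field K] [IsAlgClosed K] [AddCommGroup V] [Module K V]
  [FiniteDimensional K V] [Nontrivial V] [Group F] [Finite F] [Group A]
  [MulDistribMulAction F A] [AddCommGroup W] [Finite W] [DistribMulAction F W]
  {p q : ℕ} [Fact p.Prime] [CharP K p]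
  {π : A → W} {ρA : Representation K A V} {β : W → W → K} {ρF : Representation K F V}

/-- A `3`-element acting on a set with four elements has trivial cube. -/
theorem quada_four {F W : Type*} [Group F] [AddCommGroup W] [DistribMulAction F W]
    (X : AddSubgroup W) (hX : Nat.card X = 4) (x : F) (hx : ∀ w ∈ X, x • w ∈ X)
    (hx' : ∀ w ∈ X, x⁻¹ • w ∈ X) (r : ℕ) (hr : x ^ (3 ^ r) = 1) (w : W) (hw : w ∈ X) :
    (x ^ 3) • w = w := by
  classical
  have hfin : Finite X := Nat.finite_of_card_ne_zero (by rw [hX]; norm_num)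
  have : Fintype X := Fintype.ofFinite X
  let σ : Equiv.Perm X :=
    { toFun := fun v => ⟨x • (v : W), hx v v.2⟩
      invFun := fun v => ⟨x⁻¹ • (v : W), hx' v v.2⟩
      left_inv := fun v => by ext; simp
      right_inv := fun v => by ext; simp }
  have hpow : ∀ (n : ℕ) (v : X), (((σ ^ n) v : X) : W) = (x ^ n) • (v : W) := by
    intro n
    induction n with
    | zero => intro v; simp
    | succ n ih =>
      intro v
      rw [pow_succ', Equiv.Perm.mul_apply, pow_succ', mul_smul, ← ih]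
      rfl
  have h1 : orderOf σ ∣ 3 ^ r := by
    apply orderOf_dvd_of_pow_eq_one
    ext v
    rw [hpow, hr, one_smul]; rfl
  have h2 : orderOf σ ∣ 24 := by
    have h3 := orderOf_dvd_card (x := σ)
    rw [Fintype.card_perm, ← Nat.card_eq_fintype_card, hX] at h3
    exact h3
  have h3 : orderOf σ ∣ 3 := by
    have hcop : Nat.Coprime (orderOf σ) 8 := by
      have h4 : Nat.Coprime (3 ^ r) 8 := Nat.Coprime.pow_left r (by norm_num)
      exact Nat.Coprime.coprime_dvd_left h1 h4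
    have h5 : orderOf σ ∣ 8 * 3 := h2
    exact hcop.dvd_of_dvd_mul_left h5
  have h4 : σ ^ 3 = 1 := orderOf_dvd_iff_pow_eq_one.1 h3
  have h5 := hpow 3 ⟨w, hw⟩
  rw [h4] at h5
  exact h5.symm

/-- **QUAD0**: a `p`-th power acting quadratically on `V` acts trivially on `W`. -/
theorem quad0 (S : Sys p q π ρA β ρF) (hp2 : p ≠ 2) (hq : q.Prime) (hpq : p ≠ q)
    (x : F) (m : ℕ) (hm : 1 ≤ m) (hz : (x ^ (p ^ m)) ^ p = 1)
    (hz2 : (ρF (x ^ (p ^ m)) - 1) ^ 2 = 0) (w : W) : (x ^ (p ^ m)) • w = w := by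
  have hp : p.Prime := Fact.out
  set z := x ^ (p ^ m) with hzdef
  by_contra hne
  -- the commutator subgroup
  let X : AddSubgroup W := (DistribSMul.toAddMonoidHom W z - AddMonoidHom.id W).range
  have hX : ∀ v : W, v ∈ X ↔ ∃ u : W, z • u - u = v := fun v => Iff.rfl
  have hcomm : ∀ y : F, y * z = z * y → ∀ v ∈ X, y • v ∈ X := by
    rintro y hy v hv
    obtain ⟨u, rfl⟩ := (hX v).1 hv
    refine (hX _).2 ⟨y • u, ?_⟩
    rw [smul_sub, ← mul_smul, ← mul_smul, hy]
  have hzx : x * z = z * x := by rw [hzdef]; exact (Commute.self_pow x _).eq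
  have hzx' : x⁻¹ * z = z * x⁻¹ := by
    rw [inv_mul_eq_iff_eq_mul, ← mul_assoc, hzx, mul_assoc, mul_inv_cancel, mul_one]
  have hfixX : ∀ v ∈ X, z • v = v → v = 0 := by
    intro v hv h
    obtain ⟨u, rfl⟩ := (hX v).1 hv
    have := stab p q hp hq hpq S.hF S.hW z u h
    rw [this, sub_self]
  have hs : SubSys π ρA β X ⊤ := by
    refine ⟨top_ne_bot, ?_, fun _ _ _ _ => trivial⟩
    intro v hv hv0
    obtain ⟨u, rfl⟩ := (hX v).1 hv
    obtain ⟨w', -, h⟩ := nd_comm S hq hpq ⊤ (fun w _ hw => by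
      obtain ⟨w', h⟩ := S.heis.nd w hw
      exact ⟨w', trivial, h⟩) z (fun _ _ => trivial) u trivial hv0
    exact ⟨_, (hX _).2 ⟨w', rfl⟩, h⟩
  have hXne : X ≠ ⊥ := by
    intro h
    have h1 : z • w - w ∈ X := (hX _).2 ⟨w, rfl⟩
    rw [h, AddSubgroup.mem_bot] at h1
    exact hne (sub_eq_zero.1 h1)
  obtain ⟨h3, h4⟩ := U3_sub S hp2 hq hpq hs hXne z (hcomm z rfl) (fun _ _ => trivial)
    (fun v _ => by rw [hz2]; rfl)
    (fun v hv hv0 n hn0 hnp h => hv0 (hfixX v hv (wdec_zfix z n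
      (Nat.coprime_of_lt_prime (by omega) hnp hp).symm v (by rw [hz, one_smul]) h)))
    (fun v _ => by rw [hz, one_smul])
  obtain ⟨r, hr⟩ := S.hF x
  apply hne
  apply sub_eq_zero.1
  apply hfixX _ ((hX _).2 ⟨w, rfl⟩)
  obtain ⟨m', rfl⟩ : ∃ m', m = m' + 1 := ⟨m - 1, by omega⟩
  have h5 : ∀ n : ℕ, ∀ v ∈ X, ((x ^ 3) ^ n) • v = v := by
    intro n
    induction n with
    | zero => intro v _; simp
    | succ n ih =>
      intro v hv
      rw [pow_succ', mul_smul, ih v hv]
      exact quada_four X h4 x (hcomm x hzx) (hcomm x⁻¹ hzx') r (by rw [← h3]; exact hr) v hv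
  have h6 : z = (x ^ 3) ^ (3 ^ m') := by
    rw [hzdef, ← pow_mul, h3, pow_succ']
  have h7 := h5 (3 ^ m') _ ((hX _).2 ⟨w, rfl⟩)
  rwa [← h6] at h7

end H60SH

end S_QUADA

section S_QUADB

namespace H60SH

open Module

/-- A `3`-group acts on a set with four elements through an abelian group. -/
theorem quadb_four {F W : Type*} [Group F] [Finite F] [Finite W] [MulAction F W]
    (hF : IsPGroup 3 F) (hW : Nat.card W = 4) (u : F) (hu : u ∈ commutator F) (w : W) :
    u • w = w := by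
  have : Fintype W := Fintype.ofFinite W
  classical
  set φ : F →* Equiv.Perm W := MulAction.toPermHom F W with hφ
  have h1 : Nat.card φ.range ∣ 24 := by
    have h2 : Nat.card φ.range ∣ Nat.card (Equiv.Perm W) := Subgroup.card_subgroup_dvd_card _
    have h3 : Nat.card (Equiv.Perm W) = 24 := by
      rw [Nat.card_eq_fintype_card, Fintype.card_perm, ← Nat.card_eq_fintype_card, hW]
      rfl
    rwa [h3] at h2
  have h4 : IsPGroup 3 φ.range := hF.of_surjective φ.rangeRestrict φ.rangeRestrict_surjective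
  have : Fact (Nat.Prime 3) := ⟨Nat.prime_three⟩
  obtain ⟨n, hn⟩ := (IsPGroup.iff_card (p := 3) (G := φ.range)).mp h4
  have h5 : ∀ a b : φ.range, a * b = b * a := by
    have hn1 : n ≤ 1 := by
      by_contra h
      push Not at h
      have h6 : 3 ^ 2 ∣ 24 := (pow_dvd_pow 3 h).trans (hn ▸ h1)
      norm_num at h6
    interval_cases n
    · have : Subsingleton φ.range := (Nat.card_eq_one_iff_unique.mp (by simpa using hn)).1
      intro a b
      exact Subsingleton.elim _ _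
    · have : IsCyclic φ.range := isCyclic_of_prime_card (p := 3) (by simpa using hn)
      intro a b
      exact (IsCyclic.commGroup (α := φ.range)).mul_comm a b
  have h7 : commutator F ≤ φ.ker := by
    rw [commutator_def, Subgroup.commutator_le]
    intro a _ b _
    rw [MonoidHom.mem_ker, commutatorElement_def, map_mul, map_mul, map_mul, map_inv, map_inv]
    have h8 : φ a * φ b = φ b * φ a := by
      have := congrArg Subtype.val (h5 ⟨φ a, a, rfl⟩ ⟨φ b, b, rfl⟩)
      simpa using this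
    rw [h8]
    group
  have h9 := h7 hu
  rw [MonoidHom.mem_ker] at h9
  have := congrArg (fun e : Equiv.Perm W => e w) h9
  simpa [hφ] using this

variable {K V F A W : Type*} [Field K] [IsAlgClosed K] [AddCommGroup V] [Module K V]
  [FiniteDimensional K V] [Nontrivial V] [Group F] [Finite F] [Group A]
  [MulDistribMulAction F A] [AddCommGroup W] [Finite W] [DistribMulAction F W]
  {p q : ℕ} [Fact p.Prime] [CharP K p]
  {π : A → W} {ρA : Representation K A V} {β : W → W → K} {ρF : Representation K F V}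

/-- **QUAD1**: if `F` acts irreducibly on `W` and `(u - 1) * f = u - 1` on `V` for all `f ∈ F`,
where `u` is in the derived subgroup of `F`, then `u` acts trivially on `W`. -/
theorem quad1 (S : Sys p q π ρA β ρF) (hp2 : p ≠ 2) (hq : q.Prime) (hpq : p ≠ q)
    (hsimple : ∀ Y : AddSubgroup W, (∀ (f : F), ∀ w ∈ Y, f • w ∈ Y) → Y = ⊥ ∨ Y = ⊤)
    (u : F) (hu : u ∈ commutator F)
    (hX : ∀ f : F, (ρF u - 1) * ρF f = ρF u - 1) (w : W) : u • w = w := by
  by_contra hw
  have hpp : p.Prime := Fact.out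
  have hnd : ∀ w ∈ (⊤ : AddSubgroup W), w ≠ 0 → ∃ w' ∈ (⊤ : AddSubgroup W), β w w' ≠ 1 := by
    intro w _ hw0
    obtain ⟨w', hw'⟩ := S.heis.nd w hw0
    exact ⟨w', AddSubgroup.mem_top _, hw'⟩
  obtain ⟨U, hs, hUF, hfaith⟩ := fixC S ⊤ (fun _ _ _ => AddSubgroup.mem_top _) hnd
  obtain ⟨c, hc1, hcp, hcfix, -⟩ := exists_central p S.hF (⊤ : AddSubgroup W)
    (fun _ _ _ => AddSubgroup.mem_top _) (fun Y _ hY => hsimple Y hY)
    ⟨u, w, AddSubgroup.mem_top _, hw⟩
  -- the square of `u - 1` is zero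
  have hsq : (ρF u - 1) * (ρF u - 1) = 0 := by
    rw [mul_sub, hX u, mul_one, sub_self]
  -- the image of `u - 1`
  have hI : U.map (ρF u - 1) ≠ ⊥ := by
    intro h0
    apply hw
    apply S.triv_of_triv hs u (fun _ _ => AddSubgroup.mem_top _) _ w (AddSubgroup.mem_top _)
    intro v hv
    have h1 : (ρF u - 1) v ∈ U.map (ρF u - 1) := Submodule.mem_map_of_mem hv
    rw [h0, Submodule.mem_bot, LinearMap.sub_apply, Module.End.one_apply, sub_eq_zero] at h1
    exact h1
  -- `c` and `u` commute on `U`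
  have hcu : ∀ v ∈ U, ρF c (ρF u v) = ρF u (ρF c v) := by
    intro v hv
    have h1 : ∀ v ∈ U, ρF (c * u * c⁻¹ * u⁻¹) v = v := by
      apply hfaith
      intro w' hw'
      rw [mul_smul, mul_smul, mul_smul, hc1 u _ (AddSubgroup.mem_top _), smul_inv_smul,
        smul_inv_smul]
    have h2 : ρF (c * u * c⁻¹ * u⁻¹) (ρF (u * c) v) = ρF (u * c) v := by
      apply h1
      exact hUF _ _ hv
    have h3 : ρF (c * u * c⁻¹ * u⁻¹) (ρF (u * c) v) = ρF (c * u) v := by
      rw [← Module.End.mul_apply, ← map_mul]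
      congr 2
      group
    rw [h3, map_mul, map_mul, Module.End.mul_apply, Module.End.mul_apply] at h2
    exact h2
  have hcI : ∀ v ∈ U.map (ρF u - 1), ρF c v = v := by
    rintro _ ⟨v, hv, rfl⟩
    have h1 := congrArg (fun T : Module.End K V => T v) (hX c)
    simp only [Module.End.mul_apply, LinearMap.sub_apply, Module.End.one_apply] at h1
    rw [LinearMap.sub_apply, Module.End.one_apply, map_sub, hcu v hv]
    exact h1
  have hfixu : ∀ w : W, u • w = w → w = 0 := by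
    intro w' hw'
    apply hcfix w' (AddSubgroup.mem_top _)
    refine alpha S hq hpq hnd c u (fun _ _ => AddSubgroup.mem_top _)
      (fun _ _ => AddSubgroup.mem_top _) (fun w'' _ => hc1 u w'' (AddSubgroup.mem_top _))
      (U.map (ρF u - 1)) hI ?_ hcI w' (AddSubgroup.mem_top _) hw'
    intro g hg hug v hv
    refine image_inv S hs u (ρF u - 1) ?_ g hg hug v hv
    exact Subalgebra.sub_mem _ (Algebra.subset_adjoin rfl) (Subalgebra.one_mem _)
  -- `u ^ p = 1`
  have hup : ∀ w : W, (u ^ p) • w = w := by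
    intro w'
    refine S.triv_of_triv S.heis.top (u ^ p) (fun _ _ => AddSubgroup.mem_top _) ?_ w'
      (AddSubgroup.mem_top _)
    intro v _
    have h1 : (ρF u - 1) ^ p = 0 := by
      have h2 : (ρF u - 1) ^ 2 = 0 := by rw [pow_two]; exact hsq
      exact pow_eq_zero_of_le hpp.two_le h2
    have h3 : CharP (Module.End K V) p := by
      exact charP_of_injective_algebraMap (algebraMap K (Module.End K V)).injective p
    have h4 : (ρF u - 1) ^ p = (ρF u) ^ p - 1 ^ p := by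
      apply sub_pow_char_of_commute
      exact Commute.one_right _
    rw [h1, one_pow] at h4
    have h5 : ρF (u ^ p) = 1 := by
      rw [map_pow]
      exact (sub_eq_zero.mp h4.symm)
    rw [h5]
    rfl
  have htop : (⊤ : AddSubgroup W) ≠ ⊥ := by
    intro h0
    apply hw
    have h1 : ∀ w : W, w = 0 := by
      intro w'
      have : w' ∈ (⊤ : AddSubgroup W) := AddSubgroup.mem_top _
      rw [h0] at this
      exact this
    rw [h1 (u • w), h1 w]
  have hfree : ∀ w ∈ (⊤ : AddSubgroup W), w ≠ 0 → ∀ m, 0 < m → m < p → (u ^ m) • w ≠ w := by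
    intro w' _ hw' m hm0 hmp hfix
    apply hw'
    apply hfixu
    -- the stabiliser contains `u ^ m` and `u ^ p`
    have hco : Nat.Coprime m p := ((Nat.coprime_of_lt_prime hm0.ne' hmp hpp).symm : Nat.Coprime m p)
    have h1 : u ^ m ∈ MulAction.stabilizer F w' := hfix
    have h2 : u ^ p ∈ MulAction.stabilizer F w' := hup w'
    have h3 : u ∈ MulAction.stabilizer F w' := by
      have h4 := Nat.gcd_eq_gcd_ab m p
      rw [hco.gcd_eq_one] at h4
      have h5 : u = (u ^ m) ^ (Nat.gcdA m p) * (u ^ p) ^ (Nat.gcdB m p) := by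
        rw [← zpow_natCast u m, ← zpow_natCast u p, ← zpow_mul, ← zpow_mul, ← zpow_add, ← h4]
        simp
      rw [h5]
      exact mul_mem (zpow_mem h1 _) (zpow_mem h2 _)
    exact h3
  obtain ⟨hp3, hcard⟩ := U3_sub S hp2 hq hpq hs htop u (fun _ _ => AddSubgroup.mem_top _)
    (fun v hv => hUF u v hv) (fun v _ => by rw [pow_two, hsq]; rfl) hfree (fun w' _ => hup w')
  subst hp3
  apply hw
  apply quadb_four S.hF _ u hu w
  rw [← hcard]
  exact (Nat.card_congr (Equiv.Set.univ W)).symm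

end H60SH

end S_QUADB
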