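import Mathlib
import Pool.Agent.H60.SHM.M1
import Pool.Agent.H60.SHM.M3
import Pool.Agent.H60.SHM.M4

set_option autoImplicit false

/-! Fitting height and commutator laws, part M5: this file joins several modules to save build time. -/

section S_ISO

namespace H60SH

open Module
open scoped commutatorElement

section aux

variable {K V F A W : Type*} [Field K] [AddCommGroup V] [Module K V] [Group F] [Group A]
  [AddCommGroup W]
  {π : A → W} {ρA : Representation K A V} {β : W → W → K} {ρF : Representation K F V}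

theorem iso_rep_inv (ρF : Representation K F V) (f : F) (v : V) : ρF f⁻¹ (ρF f v) = v := by
  rw [← Module.End.mul_apply, ← map_mul, inv_mul_cancel, map_one]
  rfl

theorem iso_rep_inv' (ρF : Representation K F V) (f : F) (v : V) : ρF f (ρF f⁻¹ v) = v := by
  rw [← Module.End.mul_apply, ← map_mul, mul_inv_cancel, map_one]
  rfl

theorem iso_inj (ρF : Representation K F V) (f : F) : Function.Injective (ρF f) := by
  intro v w h
  rw [← iso_rep_inv ρF f v, h, iso_rep_inv]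

theorem iso_surj (ρF : Representation K F V) (f : F) : Function.Surjective (ρF f) :=
  fun v => ⟨ρF f⁻¹ v, iso_rep_inv' ρF f v⟩

theorem iso_map_mul (ρF : Representation K F V) (f g : F) (U : Submodule K V) :
    U.map (ρF (f * g)) = (U.map (ρF g)).map (ρF f) := by
  rw [map_mul, ← Submodule.map_comp]
  rfl

theorem iso_map_one (ρF : Representation K F V) (U : Submodule K V) :
    U.map (ρF 1) = U := by
  rw [map_one]
  exact Submodule.map_id U

/-- the stabiliser of a subspace -/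
def isoStab (ρF : Representation K F V) (U : Submodule K V) : Subgroup F where
  carrier := {f | U.map (ρF f) = U}
  mul_mem' := by
    intro f g hf hg
    change U.map (ρF (f * g)) = U
    rw [iso_map_mul, show U.map (ρF g) = U from hg, show U.map (ρF f) = U from hf]
  one_mem' := iso_map_one ρF U
  inv_mem' := by
    intro f hf
    change U.map (ρF f⁻¹) = U
    have h : U.map (ρF f) = U := hf
    have h2 : (U.map (ρF f)).map (ρF f⁻¹) = U := by
      rw [← iso_map_mul, inv_mul_cancel, iso_map_one]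
    rwa [h] at h2

theorem mem_isoStab (ρF : Representation K F V) (U : Submodule K V) (f : F) :
    f ∈ isoStab ρF U ↔ U.map (ρF f) = U := Iff.rfl

/-- the preimage of `X` -/
def isoPre (h : Heis π ρA β) (X : AddSubgroup W) : Subgroup A where
  carrier := {g | π g ∈ X}
  mul_mem' := by
    intro a b ha hb
    change π (a * b) ∈ X
    rw [h.add]
    exact X.add_mem ha hb
  one_mem' := by
    change π 1 ∈ X
    rw [h.map_one]
    exact X.zero_mem
  inv_mem' := by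
    intro a ha
    change π a⁻¹ ∈ X
    rw [h.map_inv]
    exact X.neg_mem ha

theorem mem_isoPre (h : Heis π ρA β) (X : AddSubgroup W) (g : A) :
    g ∈ isoPre h X ↔ π g ∈ X := Iff.rfl

/-- powers below `p ^ k` stabilising `U` force `x ^ (p ^ (k-1))` to stabilise `U` -/
theorem iso_gcd (S : Subgroup F) (x : F) (p k : ℕ) (hp : p.Prime) (hk : 1 ≤ k)
    (hx : x ^ (p ^ k) = 1) (i : ℕ) (hi0 : 0 < i) (hi : i < p ^ k) (h : x ^ i ∈ S) :
    x ^ (p ^ (k - 1)) ∈ S := by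
  have h1 : x ^ (Nat.gcd i (p ^ k)) ∈ S := by
    have e : x ^ ((Nat.gcd i (p ^ k) : ℕ) : ℤ) =
        (x ^ i) ^ (Nat.gcdA i (p ^ k)) * (x ^ (p ^ k)) ^ (Nat.gcdB i (p ^ k)) := by
      rw [Nat.gcd_eq_gcd_ab, zpow_add, zpow_mul, zpow_mul, zpow_natCast, zpow_natCast]
    rw [hx, one_zpow, mul_one, zpow_natCast] at e
    rw [e]
    exact S.zpow_mem h _
  obtain ⟨s, hs, hgs⟩ := (Nat.dvd_prime_pow hp).1 (Nat.gcd_dvd_right i (p ^ k))
  have hle : Nat.gcd i (p ^ k) ≤ i := Nat.gcd_le_left _ hi0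
  have hsk : s < k := by
    by_contra hcon
    have : s = k := by omega
    rw [this] at hgs
    omega
  rw [hgs] at h1
  have e2 : p ^ (k - 1) = p ^ s * p ^ (k - 1 - s) := by
    rw [← pow_add]
    congr 1
    omega
  rw [e2, pow_mul]
  exact S.pow_mem h1 _

end aux

variable {K V F A W : Type*} [Field K] [IsAlgClosed K] [AddCommGroup V] [Module K V]
  [FiniteDimensional K V] [Nontrivial V] [Group F] [Finite F] [Group A] [Finite A]
  [MulDistribMulAction F A] [AddCommGroup W] [Finite W] [DistribMulAction F W]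
  {p q : ℕ} [Fact p.Prime] [CharP K p]
  {π : A → W} {ρA : Representation K A V} {β : W → W → K} {ρF : Representation K F V}

omit [IsAlgClosed K] [FiniteDimensional K V] [Nontrivial V] [Finite F] [Finite A] [Finite W]
  [Fact p.Prime] [CharP K p] in
/-- if `z` stabilises the weight space of a vector `v` then the weight is `z`-invariant -/
theorem iso_weight (S : Sys p q π ρA β ρF) (X : AddSubgroup W)
    (hXF : ∀ (f : F), ∀ w ∈ X, f • w ∈ X) (z : F) (U : Submodule K V)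
    (hU : U ∈ wts ρA (isoPre S.heis X)) (hzU : U.map (ρF z) = U) (v : V) (hv : v ∈ U)
    (hv0 : v ≠ 0) (l : A → K) (hl : ∀ g ∈ isoPre S.heis X, ρA g v = l g • v) (g : A)
    (hg : g ∈ isoPre S.heis X) : l (z • g) = l g := by
  obtain ⟨_, l', rfl⟩ := hU
  have hzg : z • g ∈ isoPre S.heis X := by
    rw [mem_isoPre, S.hπ]
    exact hXF z _ hg
  have hl' : ∀ g ∈ isoPre S.heis X, l' g = l g := by
    intro g hg
    have h1 : ρA g v = l' g • v := hv g hg
    rw [hl g hg] at h1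
    exact (smul_left_injective K hv0 h1).symm
  have hzv : ρF z v ∈ wt ρA (isoPre S.heis X) l' := by
    rw [← hzU]
    exact Submodule.mem_map_of_mem hv
  have h1 : ρA (z • g) (ρF z v) = l' (z • g) • ρF z v := hzv _ hzg
  have h2 : ρA (z • g) (ρF z v) = ρF z (ρA g v) := by
    have := S.hρ z g
    have h3 := congrArg (fun T : Module.End K V => T v) this
    exact h3.symm
  rw [h2, hl g hg, map_smul] at h1
  have hne : ρF z v ≠ 0 := by
    intro h0
    apply hv0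
    apply iso_inj ρF z
    rw [h0, map_zero]
  have h4 := smul_left_injective K hne h1
  rw [← hl' _ hzg]
  exact h4.symm

/-- **ISO**: an element with property `PZ` acts trivially on isotropic invariant subgroups. -/
theorem iso_case (S : Sys p q π ρA β ρF) (hA : (Nat.card A : K) ≠ 0)
    (X : AddSubgroup W) (hXF : ∀ (f : F), ∀ w ∈ X, f • w ∈ X)
    (hiso : ∀ w ∈ X, ∀ w' ∈ X, β w w' = 1) (z : F) (hz : PZ p ρF z) : ∀ w ∈ X, z • w = w := by
  by_contra hcon
  push Not at hcon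
  obtain ⟨w0, hw0, hzw0⟩ := hcon
  obtain ⟨B, hB⟩ : ∃ B, B = isoPre S.heis X := ⟨_, rfl⟩
  have mB : ∀ g, g ∈ B ↔ π g ∈ X := fun g => by rw [hB]; exact mem_isoPre _ _ _
  have hind := wts_indep ρA B
  have hspan := wts_span ρA B (by
    intro g hg h hh
    rw [S.heis.comm g h, hiso _ ((mB g).1 hg) _ ((mB h).1 hh), one_smul]) hA
  have hperm : ∀ f : F, ∀ U ∈ wts ρA B, U.map (ρF f) ∈ wts ρA B := by
    intro f U hU
    refine wts_perm ρA B (ρF f) (iso_inj ρF f) (iso_surj ρF f) (fun g => f • g) ?_ ?_ ?_ U hU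
    · intro g hg
      rw [mB, S.hπ]
      exact hXF f _ ((mB g).1 hg)
    · intro g hg
      refine ⟨f⁻¹ • g, ?_, smul_inv_smul f g⟩
      rw [mB, S.hπ]
      exact hXF _ _ ((mB g).1 hg)
    · intro g _
      exact S.hρ f g
  -- some weight space is moved by `z`
  have hmove : ∃ U ∈ wts ρA B, U.map (ρF z) ≠ U := by
    by_contra hall
    push Not at hall
    have hne : (wts ρA B).Nonempty := by
      by_contra hempty
      rw [Set.not_nonempty_iff_eq_empty] at hempty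
      rw [hempty, sSup_empty] at hspan
      exact bot_ne_top hspan
    obtain ⟨U, hU⟩ := hne
    obtain ⟨hUne, l, hUl⟩ := id hU
    obtain ⟨v, hv, hv0⟩ := (Submodule.ne_bot_iff U).1 hUne
    have hvl : ∀ g ∈ B, ρA g v = l g • v := by
      rw [hUl] at hv
      exact hv
    have hl1 : ∀ g ∈ B, l (z • g) = l g := by
      intro g hg
      subst hB
      exact iso_weight S X hXF z U hU (hall U hU) v hv hv0 l hvl g hg
    have hl0 : ∀ g ∈ B, l g ≠ 0 := by
      intro g hg h0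
      have h1 := hvl g hg
      rw [h0, zero_smul] at h1
      apply hv0
      apply iso_inj ρA g
      rw [h1, map_zero]
    -- all vectors are fixed
    have hfix : ∀ g ∈ B, z • π g = π g := by
      intro g hg
      by_contra hne
      have hd : z • π g - π g ≠ 0 := sub_ne_zero.2 hne
      obtain ⟨w', hw'⟩ := S.heis.nd _ hd
      obtain ⟨a, rfl⟩ := S.heis.surj w'
      apply hw'
      -- the weight space of `ρA a v`
      have hUa : U.map (ρA a) ∈ wts ρA B := by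
        refine wts_perm ρA B (ρA a) (iso_inj ρA a) (iso_surj ρA a) (fun g => a * g * a⁻¹)
          ?_ ?_ ?_ U hU
        · intro g hg
          rw [mB, S.heis.add, S.heis.add, S.heis.map_inv]
          have : π a + π g + -π a = π g := by abel
          rw [this]
          exact (mB g).1 hg
        · intro g hg
          refine ⟨a⁻¹ * g * a, ?_, by group⟩
          rw [mB, S.heis.add, S.heis.add, S.heis.map_inv]
          have : -π a + π g + π a = π g := by abel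
          rw [this]
          exact (mB g).1 hg
        · intro g _
          rw [← map_mul, ← map_mul]
          congr 1
          group
      have hva : ρA a v ∈ U.map (ρA a) := Submodule.mem_map_of_mem hv
      have hva0 : ρA a v ≠ 0 := by
        intro h0
        apply hv0
        apply iso_inj ρA a
        rw [h0, map_zero]
      have hvla : ∀ g ∈ B, ρA g (ρA a v) = (β (π g) (π a) * l g) • ρA a v := by
        intro g hg
        rw [S.heis.comm_apply, hvl g hg, map_smul, smul_smul]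
      have hl2 : β (π (z • g)) (π a) * l (z • g) = β (π g) (π a) * l g := by
        subst hB
        exact iso_weight S X hXF z (U.map (ρA a)) hUa (hall _ hUa) (ρA a v) hva hva0
          (fun g => β (π g) (π a) * l g) hvla g hg
      rw [hl1 g hg, S.hπ] at hl2
      have h3 := mul_right_cancel₀ (hl0 g hg) hl2
      rw [sub_eq_add_neg, S.heis.beta_add_left, S.heis.beta_neg_left, h3]
      exact mul_inv_cancel₀ (S.heis.beta_ne _ _)
    obtain ⟨g0, rfl⟩ := S.heis.surj w0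
    exact hzw0 (hfix g0 ((mB g0).2 hw0))
  obtain ⟨U, hU, hzU⟩ := hmove
  obtain ⟨x, k, hk, rfl, hxk, halt⟩ := hz
  have hpp : p.Prime := Fact.out
  have hpk : 0 < p ^ k := pow_pos hpp.pos k
  obtain ⟨w, hw, hwne⟩ := (Submodule.ne_bot_iff U).1 hU.1
  have hnotin : ∀ c : K, c ≠ 0 → c • w ∉ sSup (wts ρA B \ {U}) := by
    intro c hc hmem
    have h1 : Disjoint U (sSup (wts ρA B \ {U})) := hind hU
    rw [Submodule.disjoint_def] at h1
    have h2 := h1 (c • w) (U.smul_mem c hw) hmem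
    rcases smul_eq_zero.1 h2 with h | h
    · exact hc h
    · exact hwne h
  have hcomp := dich_comp' ρF (wts ρA B) hperm x U hU (p ^ k - 1) (by
    intro i hi0 hi hxi
    apply hzU
    have := iso_gcd (isoStab ρF U) x p k hpp hk hxk i hi0 (by omega)
      ((mem_isoStab _ _ _).2 hxi)
    exact (mem_isoStab _ _ _).1 this) w hw
  have hXw : ((ρF x - 1) ^ (p ^ k - 1)) w ∉ sSup (wts ρA B \ {U}) := by
    intro hmem
    have h1 := Submodule.sub_mem _ hmem hcomp
    rw [sub_sub_cancel] at h1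
    exact hnotin _ (pow_ne_zero _ (neg_ne_zero.2 one_ne_zero)) h1
  rcases halt with h0 | ⟨⟨a, b, hab⟩, hNab⟩
  · apply hXw
    rw [h0, LinearMap.zero_apply]
    exact Submodule.zero_mem _
  · -- second alternative
    obtain ⟨H, hH⟩ : ∃ H : Subgroup F, H = Subgroup.closure {a, b} := ⟨_, rfl⟩
    have haH : a ∈ H := by rw [hH]; exact Subgroup.subset_closure (by simp)
    have hbH : b ∈ H := by rw [hH]; exact Subgroup.subset_closure (by simp)
    have hxH : x ∈ H := by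
      rw [hab, commutatorElement_def]
      exact H.mul_mem (H.mul_mem (H.mul_mem haH hbH) (H.inv_mem haH)) (H.inv_mem hbH)
    let ρH : Representation K H V := ρF.comp H.subtype
    have hρH : ∀ h : H, ρH h = ρF (h : F) := fun h => rfl
    have hu : (⟨x, hxH⟩ : H) ∈ commutator H := by
      have e : (⟨x, hxH⟩ : H) = ⁅(⟨a, haH⟩ : H), (⟨b, hbH⟩ : H)⁆ := by
        apply Subtype.ext
        exact hab
      rw [e, commutator_def]
      exact Subgroup.commutator_mem_commutator (Subgroup.mem_top _) (Subgroup.mem_top _)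
    have hN := hNab a b
    rw [← hab] at hN
    obtain ⟨N, hNdef⟩ : ∃ N, N = (ρF x - 1) ^ (p ^ k - 1) := ⟨_, rfl⟩
    rw [← hNdef] at hN hXw
    have hNH : ∀ h ∈ H, N * ρF h = N := by
      intro h hh
      rw [hH] at hh
      induction hh using Subgroup.closure_induction with
      | mem y hy =>
        rcases hy with rfl | hy
        · exact hN.1
        · rw [Set.mem_singleton_iff] at hy
          rw [hy]; exact hN.2
      | one => rw [map_one, mul_one]
      | mul y y' _ _ hy hy' => rw [map_mul, ← mul_assoc, hy, hy']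
      | inv y _ hy =>
        calc N * ρF y⁻¹ = (N * ρF y) * ρF y⁻¹ := by rw [hy]
          _ = N * (ρF (y * y⁻¹)) := by rw [map_mul, mul_assoc]
          _ = N := by rw [mul_inv_cancel, map_one, mul_one]
    have hadj : N ∈ Algebra.adjoin K ({ρH ⟨x, hxH⟩} : Set (Module.End K V)) := by
      rw [hNdef]
      have h1 : ρF x ∈ Algebra.adjoin K ({ρH ⟨x, hxH⟩} : Set (Module.End K V)) :=
        Algebra.subset_adjoin (Set.mem_singleton _)
      have h2 : (1 : Module.End K V) ∈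
          Algebra.adjoin K ({ρH ⟨x, hxH⟩} : Set (Module.End K V)) := Subalgebra.one_mem _
      exact pow_mem (sub_mem h1 h2) _
    have hfin := dich p (S.hF.to_subgroup H) ρH (wts ρA B) hind (fun h U hU => hperm h U hU)
      ⟨x, hxH⟩ hu N hadj (fun h => hNH h h.2) U hU w hw hXw
    have hz' := hfin ⟨x ^ (p ^ (k - 1)), H.pow_mem hxH _⟩
    exact hzU hz'

end H60SH

end S_ISO

section S_NDC

namespace H60SH

set_option linter.unusedSectionVars false

open Module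
open scoped commutatorElement

section NDCaux

/-- If `t` and `t'` commute on `X`, then so do `t ^ m` and `t'`. -/
theorem ndc_pow_left {W F : Type*} [AddCommGroup W] [Group F] [DistribMulAction F W]
    (X : AddSubgroup W) (hX : ∀ (f : F), ∀ w ∈ X, f • w ∈ X) (t t' : F)
    (h : ∀ w ∈ X, t • t' • w = t' • t • w) (m : ℕ) :
    ∀ w ∈ X, (t ^ m) • t' • w = t' • (t ^ m) • w := by
  induction m with
  | zero => intro w _; simp
  | succ m ih =>
    intro w hw
    rw [pow_succ, mul_smul, mul_smul, h w hw, ih _ (hX t w hw)]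

theorem ndc_pow {W F : Type*} [AddCommGroup W] [Group F] [DistribMulAction F W]
    (X : AddSubgroup W) (hX : ∀ (f : F), ∀ w ∈ X, f • w ∈ X) (t t' : F)
    (h : ∀ w ∈ X, t • t' • w = t' • t • w) (m m' : ℕ) :
    ∀ w ∈ X, (t ^ m) • (t' ^ m') • w = (t' ^ m') • (t ^ m) • w := by
  have h1 := ndc_pow_left X hX t t' h m
  have h2 := ndc_pow_left X hX t' (t ^ m) (fun w hw => (h1 w hw).symm) m'
  intro w hw
  exact (h2 w hw).symm

/-- An element of order dividing `p` is a power of each of its powers with exponent `0 < i < p`. -/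
theorem ndc_root {F : Type*} [Group F] (p : ℕ) (hp : p.Prime) (z : F) (hz : z ^ p = 1) (i : ℕ)
    (hi : 0 < i) (hip : i < p) : ∃ m : ℕ, (z ^ i) ^ m = z := by
  have hc : Nat.Coprime i p := (Nat.coprime_of_lt_prime hi.ne' hip hp).symm
  obtain ⟨m, _, hm⟩ := Nat.exists_mul_mod_eq_one_of_coprime hc hp.one_lt
  refine ⟨m, ?_⟩
  rw [← pow_mul]
  have h1 : z ^ (i * m) = z ^ (i * m % p) := by
    conv_lhs => rw [← Nat.div_add_mod (i * m) p]
    rw [pow_add, pow_mul, hz, one_pow, one_mul]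
  rw [h1, hm, pow_one]

/-- Two endomorphisms agreeing on an invariant subspace have equal powers there. -/
theorem ndc_pow_eq {K V : Type*} [Field K] [AddCommGroup V] [Module K V] (U : Submodule K V)
    (S T : Module.End K V) (hT : ∀ v ∈ U, T v ∈ U) (h : ∀ v ∈ U, S v = T v) (m : ℕ) :
    ∀ v ∈ U, (S ^ m) v = (T ^ m) v := by
  induction m with
  | zero => intro v _; simp
  | succ m ih =>
    intro v hv
    rw [pow_succ, pow_succ]
    change (S ^ m) (S v) = (T ^ m) (T v)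
    rw [h v hv, ih _ (hT v hv)]

end NDCaux

variable {K V F A W : Type*} [Field K] [IsAlgClosed K] [AddCommGroup V] [Module K V]
  [FiniteDimensional K V] [Nontrivial V] [Group F] [Finite F] [Group A] [Finite A]
  [MulDistribMulAction F A] [AddCommGroup W] [Finite W] [DistribMulAction F W]
  {p q : ℕ} [Fact p.Prime] [CharP K p]
  {π : A → W} {ρA : Representation K A V} {β : W → W → K} {ρF : Representation K F V}

omit [IsAlgClosed K] [FiniteDimensional K V] [Nontrivial V] [Finite F] [Finite W]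
  [Fact p.Prime] [CharP K p] in
/-- `N c = N` on `U`. -/
theorem ndc_N (X : AddSubgroup W) (hXF : ∀ (f : F), ∀ w ∈ X, f • w ∈ X) (U : Submodule K V)
    (hUF : ∀ (f : F), ∀ v ∈ U, ρF f v ∈ U)
    (hfaith : ∀ f : F, (∀ w ∈ X, f • w = w) → ∀ v ∈ U, ρF f v = v)
    (c : F) (hc : ∀ (f : F), ∀ w ∈ X, c • f • w = f • c • w) (x : F) (k : ℕ)
    (h : (ρF x - 1) ^ (p ^ k - 1) = 0 ∨
      ((∃ a b : F, x = ⁅a, b⁆) ∧ ∀ a b : F,
        (ρF ⁅a, b⁆ - 1) ^ (p ^ k - 1) * ρF a = (ρF ⁅a, b⁆ - 1) ^ (p ^ k - 1) ∧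
        (ρF ⁅a, b⁆ - 1) ^ (p ^ k - 1) * ρF b = (ρF ⁅a, b⁆ - 1) ^ (p ^ k - 1))) :
    ∀ v ∈ U, ((ρF x - 1) ^ (p ^ k - 1)) (ρF c v) = ((ρF x - 1) ^ (p ^ k - 1)) v := by
  rcases h with h | ⟨⟨a, b, hx⟩, h⟩
  · intro v _
    rw [h]; simp
  · subst hx
    -- the commutators `⁅c a, b⁆` and `⁅a, b⁆` agree on `X`
    have hcomm : ∀ w ∈ X, (⁅c * a, b⁆ : F) • w = (⁅a, b⁆ : F) • w := by
      intro w hw
      have hc' : ∀ (f : F), ∀ w ∈ X, c⁻¹ • f • w = f • c⁻¹ • w := by
        intro f w hw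
        have := hc f (c⁻¹ • w) (hXF _ _ hw)
        rw [inv_smul_eq_iff, this, smul_inv_smul]
      rw [commutatorElement_def, commutatorElement_def, mul_inv_rev]
      simp only [mul_smul]
      have e1 : c⁻¹ • b⁻¹ • w = b⁻¹ • c⁻¹ • w := hc' b⁻¹ w hw
      have m1 : b⁻¹ • w ∈ X := hXF _ _ hw
      have m2 : a⁻¹ • b⁻¹ • w ∈ X := hXF _ _ m1
      have m3 : b • a⁻¹ • b⁻¹ • w ∈ X := hXF _ _ m2
      have m4 : c⁻¹ • b⁻¹ • w ∈ X := hXF _ _ m1
      have m5 : a⁻¹ • c⁻¹ • b⁻¹ • w ∈ X := hXF _ _ m4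
      rw [← hc' a⁻¹ _ m1, ← hc' b _ m2, ← hc' a _ m3, smul_inv_smul]
    have hagree : ∀ v ∈ U, ρF (⁅c * a, b⁆) v = ρF (⁅a, b⁆) v := by
      intro v hv
      have h1 : ∀ w ∈ X, (⁅c * a, b⁆ * (⁅a, b⁆)⁻¹ : F) • w = w := by
        intro w hw
        rw [mul_smul, hcomm _ (hXF _ _ hw), smul_inv_smul]
      have h2 := hfaith _ h1 (ρF (⁅a, b⁆) v) (hUF _ _ hv)
      rw [← Module.End.mul_apply, ← map_mul, inv_mul_cancel_right] at h2
      exact h2
    have hU1 : ∀ v ∈ U, (ρF ⁅a, b⁆ - 1) v ∈ U := fun v hv => U.sub_mem (hUF _ _ hv) hv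
    have hpow : ∀ v ∈ U, ((ρF ⁅c * a, b⁆ - 1) ^ (p ^ k - 1)) v =
        ((ρF ⁅a, b⁆ - 1) ^ (p ^ k - 1)) v :=
      ndc_pow_eq U _ _ hU1 (fun v hv => by
        change ρF ⁅c * a, b⁆ v - v = ρF ⁅a, b⁆ v - v
        rw [hagree v hv]) _
    have key : ∀ v ∈ U, ((ρF ⁅a, b⁆ - 1) ^ (p ^ k - 1)) (ρF c (ρF a v)) =
        ((ρF ⁅a, b⁆ - 1) ^ (p ^ k - 1)) (ρF a v) := by
      intro v hv
      have h1 := congrArg (fun T : Module.End K V => T v) (h (c * a) b).1
      have h2 := congrArg (fun T : Module.End K V => T v) (h a b).1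
      simp only [Module.End.mul_apply] at h1 h2
      rw [h2, ← hpow _ (hUF _ _ (hUF _ _ hv)), ← hpow _ hv, ← h1, map_mul, Module.End.mul_apply]
    intro v hv
    have h1 := key (ρF a⁻¹ v) (hUF _ _ hv)
    have h2 : ρF a (ρF a⁻¹ v) = v := by
      rw [← Module.End.mul_apply, ← map_mul, mul_inv_cancel, map_one, Module.End.one_apply]
    rw [h2] at h1
    exact h1

/-- **NDC**: the nondegenerate case. -/
theorem nd_case (S : Sys p q π ρA β ρF) (hp2 : p ≠ 2) (hq : q.Prime) (hpq : p ≠ q)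
    (X : AddSubgroup W) (hXF : ∀ (f : F), ∀ w ∈ X, f • w ∈ X)
    (hsimple : ∀ Y : AddSubgroup W, Y ≤ X → (∀ (f : F), ∀ w ∈ Y, f • w ∈ Y) → Y = ⊥ ∨ Y = X)
    (hnd : ∀ w ∈ X, w ≠ 0 → ∃ w' ∈ X, β w w' ≠ 1)
    (z1 z2 : F) (h1 : PZ p ρF z1) (h2 : PZ p ρF z2) : ∀ w ∈ X, z1 • z2 • w = z2 • z1 • w := by
  have hp : p.Prime := Fact.out
  obtain ⟨U, hs, hUF, hfaith⟩ := fixC S X hXF hnd
  by_cases htriv : ∀ f : F, ∀ w ∈ X, f • w = w
  · intro w hw
    rw [htriv z2 w hw, htriv z1 w hw, htriv z2 w hw]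
  have hne : ∃ f : F, ∃ w ∈ X, f • w ≠ w := by
    by_contra hcon
    apply htriv
    intro f w hw
    by_contra hfw
    exact hcon ⟨f, w, hw, hfw⟩
  obtain ⟨c, hc, hcp, hfix, _⟩ := exists_central p S.hF X hXF hsimple hne
  by_cases hz1 : ∀ w ∈ X, z1 • w = w
  · intro w hw
    rw [hz1 _ (hXF _ _ hw), hz1 w hw]
  by_cases hz2 : ∀ w ∈ X, z2 • w = w
  · intro w hw
    rw [hz2 w hw, hz2 _ (hXF _ _ hw)]
  obtain ⟨x1, k1, hk1, hzx1, hx1, halt1⟩ := h1
  obtain ⟨x2, k2, hk2, hzx2, hx2, halt2⟩ := h2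
  have aux : ∀ (z x : F) (k : ℕ), 1 ≤ k → z = x ^ (p ^ (k - 1)) → x ^ (p ^ k) = 1 →
      ((ρF x - 1) ^ (p ^ k - 1) = 0 ∨
      ((∃ a b : F, x = ⁅a, b⁆) ∧ ∀ a b : F,
        (ρF ⁅a, b⁆ - 1) ^ (p ^ k - 1) * ρF a = (ρF ⁅a, b⁆ - 1) ^ (p ^ k - 1) ∧
        (ρF ⁅a, b⁆ - 1) ^ (p ^ k - 1) * ρF b = (ρF ⁅a, b⁆ - 1) ^ (p ^ k - 1))) →
      (¬ ∀ w ∈ X, z • w = w) →
      ∃ i m : ℕ, (z ^ i) ^ m = z ∧ ∀ w ∈ X, c • ((z ^ i) • w - w) = (z ^ i) • ((z ^ i) • w - w) := by
    intro z x k hk hzx hx halt hz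
    subst hzx
    have hz' : ∃ w ∈ X, (x ^ (p ^ (k - 1))) • w ≠ w := by
      by_contra hcon
      apply hz
      intro w hw
      by_contra hfw
      exact hcon ⟨w, hw, hfw⟩
    obtain ⟨i, hi, hip, hkey⟩ := key S hp2 hq hpq hs hXF hUF hsimple hfaith c hc hcp hfix x k hk
      (fun w _ => by rw [hx, one_smul]) hz' (ndc_N X hXF U hUF hfaith c hc x k halt)
    have hzp : (x ^ (p ^ (k - 1))) ^ p = 1 := by
      rw [← pow_mul, ← pow_succ, Nat.sub_add_cancel hk, hx]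
    obtain ⟨m, hm⟩ := ndc_root p hp _ hzp i hi hip
    exact ⟨i, m, hm, hkey⟩
  obtain ⟨i1, m1, hm1, hkey1⟩ := aux z1 x1 k1 hk1 hzx1 hx1 halt1 hz1
  obtain ⟨i2, m2, hm2, hkey2⟩ := aux z2 x2 k2 hk2 hzx2 hx2 halt2 hz2
  have hBL := BL p q hp hq hpq hp2 S.hF S.hW X hXF c (z1 ^ i1) (z2 ^ i2) hc hfix hkey1 hkey2
  have := ndc_pow X hXF (z1 ^ i1) (z2 ^ i2) hBL m1 m2
  rw [hm1, hm2] at this
  exact this

end H60SH

end S_NDC

section S_BCOMM

namespace H60SH

open Module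
open scoped commutatorElement

variable {K V F A W : Type*} [Field K] [IsAlgClosed K] [AddCommGroup V] [Module K V]
  [FiniteDimensional K V] [Nontrivial V] [Group F] [Finite F] [Group A] [Finite A]
  [MulDistribMulAction F A] [AddCommGroup W] [Finite W] [DistribMulAction F W]
  {p q : ℕ} [Fact p.Prime] [CharP K p]
  {π : A → W} {ρA : Representation K A V} {β : W → W → K} {ρF : Representation K F V}

/-- **BCOMM**: two elements with property `PZ` commute on `W`. -/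
theorem bcomm (S : Sys p q π ρA β ρF) (hp2 : p ≠ 2) (hq : q.Prime) (hpq : p ≠ q)
    (hA : (Nat.card A : K) ≠ 0)
    (z1 z2 : F) (h1 : PZ p ρF z1) (h2 : PZ p ρF z2) (w : W) :
    z1 • z2 • w = z2 • z1 • w := by
  by_contra hne
  have hd : ∃ w : W, ((z2 * z1)⁻¹ * (z1 * z2)) • w ≠ w := by
    refine ⟨w, fun h => hne ?_⟩
    rw [mul_smul, inv_smul_eq_iff, mul_smul, mul_smul] at h
    exact h
  obtain ⟨X, hXF, ⟨w1, hw1, hdw1⟩, hsimple⟩ := exists_simple p q Fact.out hq hpq S.hF S.hW _ hd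
  apply hdw1
  rw [mul_smul, inv_smul_eq_iff, mul_smul, mul_smul]
  -- the radical
  let Y : AddSubgroup W :=
    { carrier := {w | w ∈ X ∧ ∀ w' ∈ X, β w w' = 1}
      add_mem' := by
        rintro a b ⟨ha, ha'⟩ ⟨hb, hb'⟩
        exact ⟨X.add_mem ha hb, fun w' hw' => by
          rw [S.heis.beta_add_left, ha' w' hw', hb' w' hw', one_mul]⟩
      zero_mem' := ⟨X.zero_mem, fun w' _ => S.heis.beta_zero_left w'⟩
      neg_mem' := by
        rintro a ⟨ha, ha'⟩
        exact ⟨X.neg_mem ha, fun w' hw' => by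
          rw [S.heis.beta_neg_left, ha' w' hw', inv_one]⟩ }
  have mY : ∀ w, w ∈ Y ↔ w ∈ X ∧ ∀ w' ∈ X, β w w' = 1 := fun w => Iff.rfl
  have hYF : ∀ (f : F), ∀ w ∈ Y, f • w ∈ Y := by
    intro f w hw
    rw [mY] at hw ⊢
    refine ⟨hXF f w hw.1, fun w' hw' => ?_⟩
    have h3 := S.beta_inv f w (f⁻¹ • w')
    rw [smul_inv_smul] at h3
    rw [h3]
    exact hw.2 _ (hXF _ _ hw')
  rcases hsimple Y (fun w hw => ((mY w).1 hw).1) hYF with h | h
  · refine nd_case S hp2 hq hpq X hXF hsimple ?_ z1 z2 h1 h2 w1 hw1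
    intro w hw hw0
    by_contra hcon
    push Not at hcon
    have : w ∈ Y := (mY w).2 ⟨hw, hcon⟩
    rw [h] at this
    exact hw0 ((AddSubgroup.mem_bot).1 this)
  · have hiso : ∀ w ∈ X, ∀ w' ∈ X, β w w' = 1 := by
      intro w hw
      rw [← h] at hw
      exact ((mY w).1 hw).2
    rw [iso_case S hA X hXF hiso z2 h2 w1 hw1, iso_case S hA X hXF hiso z1 h1 w1 hw1,
      iso_case S hA X hXF hiso z2 h2 w1 hw1]

end H60SH

end S_BCOMM

section S_R0

namespace H60SH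

open Module
open scoped commutatorElement

/-- The dichotomy, for elements of a `p`-subgroup. -/
theorem r0_dich {K V Γ : Type*} [Field K] [AddCommGroup V] [Module K V]
    [Group Γ] [Finite Γ] (p : ℕ) [Fact p.Prime] [CharP K p]
    (ρ : Representation K Γ V) (S : Subgroup Γ)
    (hS : IsPGroup p S) (𝓤 : Set (Submodule K V)) (hne : ∀ U ∈ 𝓤, U ≠ ⊥)
    (hind : sSupIndep 𝓤) (hperm : ∀ s ∈ S, ∀ U ∈ 𝓤, U.map (ρ s) ∈ 𝓤) (k : ℕ)
    (a b : Γ) (ha : a ∈ S) (hb : b ∈ S)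
    (hPk : ⁅a, b⁆ ^ (p ^ k) = 1)
    (hN : ∀ h ∈ Subgroup.closure {a, b},
      (ρ ⁅a, b⁆ - 1) ^ (p ^ k - 1) * ρ h = (ρ ⁅a, b⁆ - 1) ^ (p ^ k - 1))
    (U : Submodule K V) (hU : U ∈ 𝓤) :
    (a ∈ stF ρ S U ∧ b ∈ stF ρ S U) ∨
      ∃ k' : ℕ, 1 ≤ k' ∧ k' ≤ k ∧ ⁅a, b⁆ ^ (p ^ (k - k')) ∈ stF ρ S U ∧
        ∀ v ∈ U, ((ρ (⁅a, b⁆ ^ (p ^ (k - k'))) - 1) ^ (p ^ k' - 1)) v = 0 := by
  set H := Subgroup.closure {a, b} with hH
  have hHS : H ≤ S := by
    rw [hH, Subgroup.closure_le]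
    rintro x (rfl | rfl)
    · exact ha
    · exact hb
  have haH : a ∈ H := Subgroup.subset_closure (by simp)
  have hbH : b ∈ H := Subgroup.subset_closure (by simp)
  have huH : ⁅a, b⁆ ∈ H := by
    rw [commutatorElement_def]
    exact H.mul_mem (H.mul_mem (H.mul_mem haH hbH) (H.inv_mem haH)) (H.inv_mem hbH)
  have hHp : IsPGroup p H := hS.to_le hHS
  have hu : (⟨⁅a, b⁆, huH⟩ : H) ∈ commutator H := by
    have : (⟨⁅a, b⁆, huH⟩ : H) = ⁅(⟨a, haH⟩ : H), (⟨b, hbH⟩ : H)⁆ := by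
      ext
      rfl
    rw [this]
    exact Subgroup.commutator_mem_commutator (Subgroup.mem_top _) (Subgroup.mem_top _)
  have key := dich_main p hHp (ρ.comp H.subtype) 𝓤 hne hind
    (fun h U hU => hperm h (hHS h.2) U hU) ⟨⁅a, b⁆, huH⟩ hu k
    (by ext; simpa using hPk) (fun h => hN h h.2) U hU
  rcases key with h1 | ⟨k', hk1, hk2, h3, h4⟩
  · left
    exact ⟨⟨ha, h1 ⟨a, haH⟩⟩, ⟨hb, h1 ⟨b, hbH⟩⟩⟩
  · right
    exact ⟨k', hk1, hk2, ⟨S.pow_mem (hHS huH) _, h3⟩, h4⟩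

/-- **R0** -/
theorem R0 {K V Γ : Type*} [Field K] [IsAlgClosed K] [AddCommGroup V] [Module K V]
    [FiniteDimensional K V] [Group Γ] [Finite Γ] (p q : ℕ) [Fact p.Prime] [CharP K p]
    (hp2 : p ≠ 2) (hq : q.Prime) (hpq : p ≠ q) (ρ : Representation K Γ V) (S Q : Subgroup Γ)
    (hS : IsPGroup p S) (hQ : IsPGroup q Q) (hSQ : ∀ s ∈ S, ∀ g ∈ Q, s * g * s⁻¹ ∈ Q)
    (hQ2 : ∀ g ∈ Q, ∀ h ∈ Q, ∀ k ∈ Q, ⁅g, h⁆ * k = k * ⁅g, h⁆)
    (hQq : ∀ g ∈ Q, ∀ h ∈ Q, g ^ q * h = h * g ^ q) (k : ℕ) (hk : 1 ≤ k)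
    (hPk : ∀ a ∈ S, ∀ b ∈ S, ⁅a, b⁆ ^ (p ^ k) = 1)
    (hC0 : ∀ a ∈ S, ∀ b ∈ S,
      (ρ ⁅a, b⁆ - 1) ^ (p ^ k - 1) * ρ a = (ρ ⁅a, b⁆ - 1) ^ (p ^ k - 1) ∧
      (ρ ⁅a, b⁆ - 1) ^ (p ^ k - 1) * ρ b = (ρ ⁅a, b⁆ - 1) ^ (p ^ k - 1))
    (a b a' b' : Γ) (ha : a ∈ S) (hb : b ∈ S) (ha' : a' ∈ S) (hb' : b' ∈ S) (g : Γ)
    (hg : g ∈ Q) :
    ρ ⁅⁅⁅a, b⁆ ^ (p ^ (k - 1)), ⁅a', b'⁆ ^ (p ^ (k - 1))⁆, g⁆ = 1 := by
  have hQ' : (Nat.card Q : K) ≠ 0 := card_ne_of_pgroup p q hq hpq Q hQ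
  obtain ⟨𝓤, hne, hind, htop, hperm, hQU, hsc⟩ := blocks ρ Q hQ'
  refine eq_one_of_blocks 𝓤 htop _ fun U hU => ?_
  have hpermS : ∀ s ∈ S, ∀ U ∈ 𝓤, U.map (ρ s) ∈ 𝓤 := fun s hs U hU => hperm s (hSQ s hs) U hU
  set F := stF ρ S U with hF
  have hFS : F ≤ S := stF_le ρ S U
  have hFU : ∀ f ∈ F, ∀ v ∈ U, ρ f v ∈ U := fun f hf v hv => stF_apply hf v hv
  have hFp : IsPGroup p F := hS.to_le hFS
  have hUne := hne U hU
  obtain ⟨W, _, _, _, _, π, β, ρA, ρF, Sy, hρA, hρF, hsm⟩ := block_sys p q ρ Q F U hUne hFp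
    (hQU U hU) hFU (fun s hs => hSQ s (hFS hs)) hQ2 hQq (hsc U hU)
  have : Nontrivial U := (Submodule.nontrivial_iff_ne_bot).mpr hUne
  -- transfer of powers of `ρ f - 1` to the block
  have hpow : ∀ (f : F) (m : ℕ) (v : U),
      ((((ρF f - 1 : Module.End K U) ^ m) v : U) : V) = ((ρ f - 1) ^ m) v := by
    intro f m
    induction m with
    | zero => intro v; simp
    | succ m ih =>
      intro v
      rw [pow_succ, pow_succ, Module.End.mul_apply, Module.End.mul_apply, ih]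
      congr 1
      rw [LinearMap.sub_apply, LinearMap.sub_apply, Module.End.one_apply, Module.End.one_apply,
        Submodule.coe_sub, hρF]
  have hN1 : ∀ a ∈ S, ∀ b ∈ S, ∀ h ∈ Subgroup.closure {a, b},
      (ρ ⁅a, b⁆ - 1) ^ (p ^ k - 1) * ρ h = (ρ ⁅a, b⁆ - 1) ^ (p ^ k - 1) := by
    intro a ha b hb h hh
    induction hh using Subgroup.closure_induction with
    | mem x hx =>
      rcases hx with rfl | rfl
      · exact (hC0 _ ha _ hb).1
      · exact (hC0 _ ha _ hb).2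
    | one => rw [map_one, mul_one]
    | mul x y _ _ hx hy => rw [map_mul, ← mul_assoc, hx, hy]
    | inv x _ hx =>
      have : ρ x * ρ x⁻¹ = 1 := by rw [← map_mul, mul_inv_cancel, map_one]
      calc (ρ ⁅a, b⁆ - 1) ^ (p ^ k - 1) * ρ x⁻¹
          = ((ρ ⁅a, b⁆ - 1) ^ (p ^ k - 1) * ρ x) * ρ x⁻¹ := by rw [hx]
        _ = (ρ ⁅a, b⁆ - 1) ^ (p ^ k - 1) := by rw [mul_assoc, this, mul_one]
  have hpz : ∀ a ∈ S, ∀ b ∈ S, ∃ f : F, (f : Γ) = ⁅a, b⁆ ^ (p ^ (k - 1)) ∧ PZ p ρF f := by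
    intro a ha b hb
    rcases r0_dich p ρ S hS 𝓤 hne hind hpermS k a b ha hb (hPk a ha b hb) (hN1 a ha b hb) U hU
      with ⟨h1, h2⟩ | ⟨k', hk1, hk2, h3, h4⟩
    · refine ⟨⁅(⟨a, h1⟩ : F), (⟨b, h2⟩ : F)⁆ ^ (p ^ (k - 1)), ?_, ?_⟩
      · rfl
      · refine ⟨⁅(⟨a, h1⟩ : F), (⟨b, h2⟩ : F)⁆, k, hk, rfl, ?_, Or.inr ⟨⟨_, _, rfl⟩, ?_⟩⟩
        · exact Subtype.ext (hPk a ha b hb)
        · intro a1 b1
          have hh := hC0 a1 (hFS a1.2) b1 (hFS b1.2)
          have e : (ρ ((⁅a1, b1⁆ : F) : Γ) - 1) = (ρ ⁅(a1 : Γ), (b1 : Γ)⁆ - 1) := rfl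
          constructor
          · ext v
            have h5 := LinearMap.congr_fun hh.1 (v : V)
            rw [Module.End.mul_apply] at h5
            rw [Module.End.mul_apply, hpow, hpow, hρF, e]
            exact h5
          · ext v
            have h5 := LinearMap.congr_fun hh.2 (v : V)
            rw [Module.End.mul_apply] at h5
            rw [Module.End.mul_apply, hpow, hpow, hρF, e]
            exact h5
    · have e1 : p ^ (k - 1) = p ^ (k - k') * p ^ (k' - 1) := by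
        rw [← pow_add]
        congr 1
        omega
      have e2 : p ^ k = p ^ (k - k') * p ^ k' := by
        rw [← pow_add]
        congr 1
        omega
      refine ⟨(⟨⁅a, b⁆ ^ (p ^ (k - k')), h3⟩ : F) ^ (p ^ (k' - 1)), ?_, ?_⟩
      · rw [e1, pow_mul]
        rfl
      · refine ⟨⟨⁅a, b⁆ ^ (p ^ (k - k')), h3⟩, k', hk1, rfl, ?_, Or.inl ?_⟩
        · ext
          rw [Subgroup.coe_pow, Subgroup.coe_one, ← pow_mul, ← e2]
          exact hPk a ha b hb
        · ext v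
          rw [hpow]
          exact h4 v v.2
  obtain ⟨f1, hf1, hz1⟩ := hpz a ha b hb
  obtain ⟨f2, hf2, hz2⟩ := hpz a' ha' b' hb'
  have hc := bcomm Sy hp2 hq hpq hQ' f1 f2 hz1 hz2
  have hd : ∀ w : W, ⁅f1, f2⁆ • w = w := by
    intro w
    have h6 := hc (f1⁻¹ • f2⁻¹ • w)
    rw [commutatorElement_def, mul_smul, mul_smul, mul_smul, h6, smul_inv_smul, smul_inv_smul]
  intro v hv
  have hdF : ((⁅f1, f2⁆ : F) : Γ) = ⁅⁅a, b⁆ ^ (p ^ (k - 1)), ⁅a', b'⁆ ^ (p ^ (k - 1))⁆ := by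
    rw [← hf1, ← hf2]
    rfl
  rw [← hdF]
  refine comm_triv ρ U _ g ?_ ?_ ?_ v hv
  · intro v hv
    exact hFU _ (F.inv_mem (⁅f1, f2⁆ : F).2) v hv
  · intro v hv
    exact hQU U hU _ (Q.inv_mem hg) v hv
  · intro v hv
    have h7 := Sy.cop ⁅f1, f2⁆ ⟨g, hg⟩ (hd _)
    have h8 := congrArg (fun T : Module.End K U => ((T ⟨v, hv⟩ : U) : V)) h7
    simp only [Module.End.mul_apply, hρA, hρF] at h8
    exact h8

end H60SH

end S_R0

section S_R1

namespace H60SH

open Module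
open scoped commutatorElement

theorem ring_quad {R : Type*} [Ring R] (p : ℕ) [Fact p.Prime] [CharP R p] (T : R) (m : ℕ)
    (h : (T - 1) ^ (2 * p ^ m - 1) * (T - 1) = 0) : (T ^ (p ^ m) - 1) ^ 2 = 0 := by
  have h1 : T ^ (p ^ m) - 1 = (T - 1) ^ (p ^ m) := by
    rw [sub_pow_char_pow_of_commute p m (Commute.one_right T), one_pow]
  have hpm : 0 < p ^ m := pow_pos (Fact.out : p.Prime).pos _
  rw [h1, ← pow_mul]
  have h2 : p ^ m * 2 = (2 * p ^ m - 1) + 1 := by omega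
  rw [h2, pow_succ]
  exact h

theorem charP_end {K V : Type*} [Field K] [AddCommGroup V] [Module K V] (p : ℕ) [CharP K p]
    [Nontrivial V] : CharP (Module.End K V) p :=
  charP_of_injective_algebraMap (algebraMap K (Module.End K V)).injective p

/-- **R1** -/
theorem R1 {K V Γ : Type*} [Field K] [IsAlgClosed K] [AddCommGroup V] [Module K V]
    [FiniteDimensional K V] [Group Γ] [Finite Γ] (p q : ℕ) [Fact p.Prime] [CharP K p]
    (hp2 : p ≠ 2) (hq : q.Prime) (hpq : p ≠ q) (ρ : Representation K Γ V) (a b : Γ)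
    (hS : IsPGroup p (Subgroup.closure {a, b} : Subgroup Γ)) (Q : Subgroup Γ)
    (hQ : IsPGroup q Q) (hSQ : ∀ s ∈ Subgroup.closure {a, b}, ∀ g ∈ Q, s * g * s⁻¹ ∈ Q)
    (hmin : ∀ B : Subgroup Γ, B ≤ Q → B ≠ Q →
      (∀ s ∈ Subgroup.closure {a, b}, ∀ g ∈ B, s * g * s⁻¹ ∈ B) →
        (∀ s ∈ Q, ∀ g ∈ B, s * g * s⁻¹ ∈ B) → ∀ b ∈ B, ∀ g ∈ Q, b * g = g * b)
    (hQ2 : ∀ g ∈ Q, ∀ h ∈ Q, ∀ k ∈ Q, ⁅g, h⁆ * k = k * ⁅g, h⁆)
    (hQq : ∀ g ∈ Q, ∀ h ∈ Q, g ^ q * h = h * g ^ q) (k : ℕ) (hk : 1 ≤ k)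
    (hPk : ⁅a, b⁆ ^ (p ^ k) = 1)
    (hXa : (ρ ⁅a, b⁆ - 1) ^ (2 * p ^ (k - 1) - 1) * ρ a = (ρ ⁅a, b⁆ - 1) ^ (2 * p ^ (k - 1) - 1))
    (hXb : (ρ ⁅a, b⁆ - 1) ^ (2 * p ^ (k - 1) - 1) * ρ b = (ρ ⁅a, b⁆ - 1) ^ (2 * p ^ (k - 1) - 1))
    (g : Γ) (hg : g ∈ Q) :
    ρ ⁅⁅a, b⁆ ^ (p ^ (k - 1)), g⁆ = 1 := by
  have hp : p.Prime := Fact.out
  have hQ' : (Nat.card Q : K) ≠ 0 := card_ne_of_pgroup p q hq hpq Q hQ
  obtain ⟨𝓤, hne, hind, htop, hperm, hQU, hsc⟩ := blocks ρ Q hQ'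
  refine eq_one_of_blocks 𝓤 htop _ fun U hU => ?_
  set S := Subgroup.closure {a, b} with hSdef
  have hpermS : ∀ s ∈ S, ∀ U ∈ 𝓤, U.map (ρ s) ∈ 𝓤 := fun s hs U hU => hperm s (hSQ s hs) U hU
  have haS : a ∈ S := Subgroup.subset_closure (by simp)
  have hbS : b ∈ S := Subgroup.subset_closure (by simp)
  have huS : ⁅a, b⁆ ∈ S := by
    rw [commutatorElement_def]
    exact S.mul_mem (S.mul_mem (S.mul_mem haS hbS) (S.inv_mem haS)) (S.inv_mem hbS)
  set X : Module.End K V := (ρ ⁅a, b⁆ - 1) ^ (2 * p ^ (k - 1) - 1) with hXdef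
  have hXh : ∀ h ∈ S, X * ρ h = X := by
    intro h hh
    induction hh using Subgroup.closure_induction with
    | mem x hx =>
      rcases hx with rfl | rfl
      · exact hXa
      · exact hXb
    | one => rw [map_one, mul_one]
    | mul x y _ _ hx hy => rw [map_mul, ← mul_assoc, hx, hy]
    | inv x _ hx =>
      have : ρ x * ρ x⁻¹ = 1 := by rw [← map_mul, mul_inv_cancel, map_one]
      calc X * ρ x⁻¹ = (X * ρ x) * ρ x⁻¹ := by rw [hx]
        _ = X := by rw [mul_assoc, this, mul_one]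
  -- the representation of `S`
  set ρS : Representation K S V := ρ.comp S.subtype with hρS
  set uS : S := ⟨⁅a, b⁆, huS⟩ with huSdef
  have hu : uS ∈ commutator S := by
    have : uS = ⁅(⟨a, haS⟩ : S), (⟨b, hbS⟩ : S)⁆ := by
      ext
      rfl
    rw [this]
    exact Subgroup.commutator_mem_commutator (Subgroup.mem_top _) (Subgroup.mem_top _)
  have huk : uS ^ (p ^ k) = 1 := Subtype.ext hPk
  have hpermS' : ∀ h : S, ∀ U ∈ 𝓤, U.map (ρS h) ∈ 𝓤 := fun h U hU => hpermS h h.2 U hU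
  have hXh' : ∀ h : S, (ρS uS - 1) ^ (2 * p ^ (k - 1) - 1) * ρS h =
      (ρS uS - 1) ^ (2 * p ^ (k - 1) - 1) := fun h => hXh h h.2
  have hpk1 : 0 < p ^ (k - 1) := pow_pos hp.pos _
  have hppk : p ^ k = p ^ (k - 1) * p := by
    rw [← pow_succ]
    congr 1
    omega
  have hp3 : 3 ≤ p := by
    have := hp.two_le
    omega
  obtain ⟨w0, hw0, hw0'⟩ := (Submodule.ne_bot_iff U).mp (hne U hU)
  have hdisj : ∀ w ∈ U, w ∈ sSup (𝓤 \ {U}) → w = 0 := by
    intro w hw hw'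
    have := (hind hU)
    rw [Submodule.disjoint_def] at this
    exact this w hw hw'
  obtain ⟨j, hj1, hj2, hj3⟩ := orbit_len p ρS uS k huk U
  -- `z` fixes `U`
  have hjk : j ≤ k - 1 := by
    by_contra hcon
    have hjk : j = k := by omega
    subst hjk
    have h1 := dich_comp' ρS 𝓤 hpermS' uS U hU (2 * p ^ (j - 1) - 1)
      (fun i hi1 hi2 => hj3 i hi1 (by
        have : p ^ (j - 1) * 3 ≤ p ^ (j - 1) * p := Nat.mul_le_mul_left _ hp3
        omega)) w0 hw0
    have h2 : ((ρS uS - 1) ^ (2 * p ^ (j - 1) - 1)) w0 ∉ sSup (𝓤 \ {U}) := by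
      intro h3
      have h4 := Submodule.sub_mem _ h3 h1
      rw [sub_sub_cancel] at h4
      have h5 := hdisj _ (U.smul_mem _ hw0) h4
      rcases smul_eq_zero.mp h5 with h6 | h6
      · exact absurd h6 (pow_ne_zero _ (neg_ne_zero.mpr one_ne_zero))
      · exact hw0' h6
    have hadj : (ρS uS - 1) ^ (2 * p ^ (j - 1) - 1) ∈ Algebra.adjoin K {ρS uS} :=
      Subalgebra.pow_mem _ (Subalgebra.sub_mem _ (Algebra.subset_adjoin (Set.mem_singleton _))
        (Subalgebra.one_mem _)) _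
    have h3 := dich p hS ρS 𝓤 hind hpermS' uS hu ((ρS uS - 1) ^ (2 * p ^ (j - 1) - 1)) hadj
      hXh' U hU w0 hw0 h2 uS
    have h4 : 0 < 1 := Nat.one_pos
    refine hj3 1 h4 ?_ ?_
    · calc 1 < p := hp.one_lt
        _ ≤ p ^ j := Nat.le_self_pow (by omega) p
    · rw [pow_one]
      exact h3
  -- quadratic action of `z`
  have hXu : X * (ρ ⁅a, b⁆ - 1) = 0 := by
    rw [mul_sub, mul_one, hXh _ huS, sub_self]
  have hz2 : (ρ (⁅a, b⁆ ^ (p ^ (k - 1))) - 1) ^ 2 = 0 := by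
    have : Nontrivial V := ⟨⟨w0, 0, hw0'⟩⟩
    have : CharP (Module.End K V) p := charP_end (K := K) p
    rw [map_pow]
    exact ring_quad p _ _ hXu
  set F := stF ρ S U with hF
  have hFS : F ≤ S := stF_le ρ S U
  have hFU : ∀ f ∈ F, ∀ v ∈ U, ρ f v ∈ U := fun f hf v hv => stF_apply hf v hv
  have hFp : IsPGroup p F := hS.to_le hFS
  have hUne := hne U hU
  obtain ⟨W, _, _, _, _, π, β, ρA, ρF, Sy, hρA, hρF, hsm⟩ := block_sys p q ρ Q F U hUne hFp
    (hQU U hU) hFU (fun s hs => hSQ s (hFS hs)) hQ2 hQq (hsc U hU)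
  have : Nontrivial U := (Submodule.nontrivial_iff_ne_bot).mpr hUne
  -- the conclusion from trivial action on `W`
  have hfin : ∀ f : F, (f : Γ) = ⁅a, b⁆ ^ (p ^ (k - 1)) → (∀ w : W, f • w = w) →
      ∀ v ∈ U, ρ ⁅⁅a, b⁆ ^ (p ^ (k - 1)), g⁆ v = v := by
    intro f hf hfw v hv
    rw [← hf]
    refine comm_triv ρ U _ g ?_ ?_ ?_ v hv
    · intro v hv
      exact hFU _ (F.inv_mem f.2) v hv
    · intro v hv
      exact hQU U hU _ (Q.inv_mem hg) v hv
    · intro v hv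
      have h7 := Sy.cop f ⟨g, hg⟩ (hfw _)
      have h8 := congrArg (fun T : Module.End K U => ((T ⟨v, hv⟩ : U) : V)) h7
      simp only [Module.End.mul_apply, hρA, hρF] at h8
      exact h8
  have huF : ⁅a, b⁆ ^ (p ^ j) ∈ F := ⟨S.pow_mem huS _, hj2⟩
  rcases Nat.lt_or_ge j (k - 1) with hjlt | hjge
  · -- the case `j < k - 1`
    have e1 : p ^ (k - 1) = p ^ j * p ^ (k - 1 - j) := by
      rw [← pow_add]
      congr 1
      omega
    have e2 : (((⟨⁅a, b⁆ ^ (p ^ j), huF⟩ : F) ^ (p ^ (k - 1 - j)) : F) : Γ) =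
        ⁅a, b⁆ ^ (p ^ (k - 1)) := by
      rw [Subgroup.coe_pow, ← pow_mul, ← e1]
    refine hfin ((⟨⁅a, b⁆ ^ (p ^ j), huF⟩ : F) ^ (p ^ (k - 1 - j))) e2 ?_
    refine quad0 Sy hp2 hq hpq ⟨⁅a, b⁆ ^ (p ^ j), huF⟩ (k - 1 - j) (by omega) ?_ ?_
    · ext
      rw [Subgroup.coe_pow, e2, Subgroup.coe_one, ← pow_mul, ← hppk]
      exact hPk
    · ext v
      have h1 := LinearMap.congr_fun hz2 (v : V)
      rw [pow_two, Module.End.mul_apply] at h1
      rw [pow_two, Module.End.mul_apply]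
      simp only [LinearMap.sub_apply, Module.End.one_apply, Submodule.coe_sub, hρF, e2,
        LinearMap.zero_apply, ZeroMemClass.coe_zero] at h1 ⊢
      exact h1
  · have hjeq : j = k - 1 := le_antisymm hjk hjge
    by_cases hz : ∀ w ∈ U, (ρ (⁅a, b⁆ ^ (p ^ (k - 1))) - 1) w = 0
    · intro v hv
      have hz' : ∀ w ∈ U, ρ (⁅a, b⁆ ^ (p ^ (k - 1))) w = w := by
        intro w hw
        have := hz w hw
        rwa [LinearMap.sub_apply, Module.End.one_apply, sub_eq_zero] at this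
      refine comm_triv ρ U _ g ?_ ?_ ?_ v hv
      · intro v hv
        have h1 := hFU _ (F.inv_mem huF) v hv
        rwa [hjeq] at h1
      · intro v hv
        exact hQU U hU _ (Q.inv_mem hg) v hv
      · intro v hv
        rw [hz' v hv, hz' _ (hQU U hU g hg v hv)]
    · push Not at hz
      obtain ⟨w, hw, hw2⟩ := hz
      have hfix : ∀ h : S, U.map (ρS h) = U := by
        subst hjeq
        exact dich_quad p hS ρS 𝓤 hind hpermS' uS hu k hk hXh' U hU hj2 hj3 w hw hw2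
      have hj0 : j = 0 := by
        by_contra hcon
        refine hj3 1 Nat.one_pos ?_ ?_
        · calc 1 < p := hp.one_lt
            _ ≤ p ^ j := Nat.le_self_pow hcon p
        · rw [pow_one]
          exact hfix uS
      have hk1 : k = 1 := by omega
      subst hk1
      have hSF : ∀ s ∈ S, s ∈ F := fun s hs => ⟨hs, hfix ⟨s, hs⟩⟩
      set uF : F := ⟨⁅a, b⁆, hSF _ huS⟩ with huFdef
      have huF' : uF ∈ commutator F := by
        have : uF = ⁅(⟨a, hSF _ haS⟩ : F), (⟨b, hSF _ hbS⟩ : F)⁆ := by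
          ext
          rfl
        rw [this]
        exact Subgroup.commutator_mem_commutator (Subgroup.mem_top _) (Subgroup.mem_top _)
      refine hfin uF (by simp [huFdef]) ?_
      refine quad1 Sy hp2 hq hpq ?_ uF huF' ?_
      · -- simplicity
        intro Y hY
        let BQ : Subgroup Q :=
          { carrier := {g | π g ∈ Y}
            mul_mem' := by
              intro x y hx hy
              change π (x * y) ∈ Y
              rw [Sy.heis.add]
              exact Y.add_mem hx hy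
            one_mem' := by
              change π 1 ∈ Y
              rw [Sy.heis.map_one]
              exact Y.zero_mem
            inv_mem' := by
              intro x hx
              change π x⁻¹ ∈ Y
              rw [Sy.heis.map_inv]
              exact Y.neg_mem hx }
        have hBQ : ∀ x : Q, x ∈ BQ ↔ π x ∈ Y := fun x => Iff.rfl
        by_cases hB : BQ.map Q.subtype = Q
        · right
          rw [eq_top_iff]
          intro y _
          obtain ⟨x, rfl⟩ := Sy.heis.surj y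
          have hx : (x : Γ) ∈ BQ.map Q.subtype := by rw [hB]; exact x.2
          obtain ⟨x', hx', hx''⟩ := hx
          have : x' = x := Subtype.ext hx''
          rw [← this]
          exact hx'
        · left
          rw [eq_bot_iff]
          intro y hy
          obtain ⟨x, rfl⟩ := Sy.heis.surj y
          have hcen := hmin (BQ.map Q.subtype) (Subgroup.map_subtype_le _) hB ?_ ?_
          · have hxB : (x : Γ) ∈ BQ.map Q.subtype := ⟨x, hy, rfl⟩
            obtain ⟨c, hc⟩ := hsc U hU x x.2 (by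
              intro h hh v hv
              have h1 : ⁅h, (x : Γ)⁆ = 1 := by
                rw [commutatorElement_eq_one_iff_mul_comm]
                exact (hcen x hxB h hh).symm
              rw [h1, map_one]
              rfl)
            have h2 := SubSys.scalar Sy.heis (Sy.heis.top) x (AddSubgroup.mem_top _) c (by
              intro v _
              apply Subtype.ext
              rw [hρA]
              exact hc v v.2)
            rw [h2]
            exact AddSubgroup.zero_mem _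
          · rintro s hs _ ⟨x', hx', rfl⟩
            have h3 := hsm ⟨s, hSF s hs⟩ x'
            refine ⟨(⟨s, hSF s hs⟩ : F) • x', ?_, h3⟩
            change π _ ∈ Y
            rw [Sy.hπ]
            exact hY _ _ hx'
          · rintro s hs _ ⟨x', hx', rfl⟩
            refine ⟨(⟨s, hs⟩ : Q) * x' * (⟨s, hs⟩ : Q)⁻¹, ?_, rfl⟩
            change π _ ∈ Y
            rw [Sy.heis.add, Sy.heis.add, Sy.heis.map_inv, add_neg_eq_iff_eq_add.mpr (add_comm _ _)]
            exact hx'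
      · intro f
        ext v
        have h1 := LinearMap.congr_fun (hXh f (hFS f.2)) (v : V)
        rw [hXdef] at h1
        simp only [Nat.sub_self, pow_zero, mul_one, Nat.add_one_sub_one, pow_one,
          Module.End.mul_apply, LinearMap.sub_apply, Module.End.one_apply] at h1
        simp only [Module.End.mul_apply, LinearMap.sub_apply, Module.End.one_apply,
          Submodule.coe_sub, hρF]
        exact h1

end H60SH

end S_R1

section S_LEV

namespace H60SH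

open Module
open scoped commutatorElement

universe u

theorem comap_pgroup {G : Type u} [Group G] (p : ℕ) (P : Subgroup G) [P.Normal]
    (hP : IsPGroup p P) (H : Subgroup (G ⧸ P)) (hH : IsPGroup p H) :
    IsPGroup p (H.comap (QuotientGroup.mk' P)) := by
  refine hH.comap_of_ker_isPGroup _ ?_
  rw [QuotientGroup.ker_mk']
  exact hP

/-- Common core of `L0` and `L1`. -/
theorem lev_core {G : Type u} [Group G] [Finite G] [Group.IsSolvable G] (p : ℕ) [Fact p.Prime]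
    (hO : ∀ N : Subgroup G, N.Normal → (Nat.card N).Coprime p → N = ⊥)
    (P : Subgroup G) [P.Normal] (hP : IsPGroup p P)
    (hPmax : ∀ N : Subgroup G, N.Normal → IsPGroup p N → N ≤ P)
    (H : Subgroup (G ⧸ P)) (hH : IsPGroup p H) (d : G ⧸ P) (hdH : d ∈ H)
    (main : ∀ q : ℕ, q.Prime → p ≠ q → ∀ Q : Subgroup (G ⧸ P), IsPGroup q Q →
      (∀ s ∈ H, ∀ g ∈ Q, s * g * s⁻¹ ∈ Q) →
      (∀ B : Subgroup (G ⧸ P), B ≤ Q → B ≠ Q → (∀ s ∈ H, ∀ g ∈ B, s * g * s⁻¹ ∈ B) →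
        (∀ s ∈ Q, ∀ g ∈ B, s * g * s⁻¹ ∈ B) → ∀ b ∈ B, ∀ g ∈ Q, b * g = g * b) →
      (∀ g ∈ Q, ∀ h ∈ Q, ∀ k ∈ Q, ⁅g, h⁆ * k = k * ⁅g, h⁆) →
      (∀ g ∈ Q, ∀ h ∈ Q, g ^ q * h = h * g ^ q) →
      ∀ A : Subgroup G, A.Normal → A ≤ P →
      ∀ (V : Type u) [AddCommGroup V] [Module (AlgebraicClosure (ZMod p)) V]
        [FiniteDimensional (AlgebraicClosure (ZMod p)) V]
        (ρ : Representation (AlgebraicClosure (ZMod p)) (G ⧸ P) V) (φ : G → V),
      (∀ x ∈ A, ∀ y ∈ A, φ (x * y) = φ x + φ y) →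
      (∀ g : G, ∀ x ∈ A, φ (g * x * g⁻¹) = ρ (g : G ⧸ P) (φ x)) →
      Submodule.span (AlgebraicClosure (ZMod p)) (φ '' (A : Set G)) = ⊤ →
      ∀ g ∈ Q, ρ ⁅d, g⁆ = 1) : d = 1 := by
  by_contra hd1
  have hp : p.Prime := Fact.out
  have hOΓ : ∀ N : Subgroup (G ⧸ P), N.Normal → IsPGroup p N → N = ⊥ := by
    intro N hN hNp
    have h1 := hPmax (N.comap (QuotientGroup.mk' P)) (hN.comap _) (comap_pgroup p P hP N hNp)
    rw [eq_bot_iff]
    intro x hx
    obtain ⟨g, rfl⟩ := QuotientGroup.mk'_surjective P x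
    have h2 : g ∈ P := h1 hx
    rw [Subgroup.mem_bot]
    exact (QuotientGroup.eq_one_iff g).mpr h2
  obtain ⟨m, hm⟩ := hH ⟨d, hdH⟩
  have hdm : d ^ (p ^ m) = 1 := congrArg Subtype.val hm
  obtain ⟨q, hq, hqp, N, hNn, hNq, hdN⟩ := fit_q p hp hOΓ d ⟨m, hdm⟩ hd1
  obtain ⟨Q, hQN, hSQ, hdQ, hmin, hQ2, hQq⟩ := min_q p q hp hq (Ne.symm hqp) H N hH hNq
    (fun s _ g hg => hNn.conj_mem g hg s) d hdH hdN
  obtain ⟨M, s, hs0, hsM, hsn, hsd, hsP, hsp⟩ := chain p P inferInstance hP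
  have hsle : ∀ i, s i ≤ P := by
    intro i
    induction i with
    | zero => rw [hs0]
    | succ i ih => exact (hsd i).trans ih
  have hcent : ∀ g : G, (∀ x ∈ P, g * x = x * g) → g ∈ P :=
    fun g hg => fit_cent p hp hO P hPmax g hg
  obtain ⟨g, hgQ, hg⟩ := hdQ
  apply hg
  have h1 : ⁅d, g⁆ = 1 := by
    obtain ⟨t, ht⟩ := QuotientGroup.mk'_surjective P ⁅d, g⁆
    have htP : t ∈ P := by
      refine stab_chain p P inferInstance hP hPmax hcent M s hs0 hsM hsn hsd t ?_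
      intro i y hy
      obtain ⟨V, _, _, _, ρ, φ, hφ1, hφ2, hφ3, hφ4⟩ := section_rep p P (s i) (s (i + 1)) (hsn i)
        (hsn (i + 1)) (hsd i) (hsle i) (hsP i) (hsp i) (AlgebraicClosure (ZMod p))
      have h2 := main q hq (Ne.symm hqp) Q (hNq.to_le hQN) hSQ hmin hQ2 hQq (s i) (hsn i) (hsle i)
        V ρ φ hφ1 hφ2 hφ4 g hgQ
      have h3 := hφ2 t y hy
      have h4 : ((t : G) : G ⧸ P) = ⁅d, g⁆ := ht
      rw [h4, h2, Module.End.one_apply] at h3
      have h5 : t * y * t⁻¹ ∈ s i := (hsn i).conj_mem y hy t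
      have h6 : ⁅t, y⁆ ∈ s i := by
        rw [commutatorElement_def]
        exact (s i).mul_mem h5 ((s i).inv_mem hy)
      have h7 := hφ1 ⁅t, y⁆ h6 y hy
      have h8 : ⁅t, y⁆ * y = t * y * t⁻¹ := by
        rw [commutatorElement_def, inv_mul_cancel_right]
      rw [h8, h3] at h7
      have h9 : φ ⁅t, y⁆ = 0 := by
        have := h7
        rw [eq_comm, add_eq_right] at this
        exact this
      exact (hφ3 _ h6).mp h9
    rw [← ht]
    exact (QuotientGroup.eq_one_iff t).mpr htP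
  exact commutatorElement_eq_one_iff_mul_comm.mp h1

/-- **L0** -/
theorem L0 {G : Type u} [Group G] [Finite G] [Group.IsSolvable G] (p : ℕ) [Fact p.Prime]
    (hp2 : p ≠ 2)
    (hO : ∀ N : Subgroup G, N.Normal → (Nat.card N).Coprime p → N = ⊥)
    (P : Subgroup G) [P.Normal] (hP : IsPGroup p P)
    (hPmax : ∀ N : Subgroup G, N.Normal → IsPGroup p N → N ≤ P)
    (k : ℕ) (hk : 1 ≤ k) (h : Pk p k G) : Ck p k (G ⧸ P) := by
  intro H hH a ha b hb c hc d hd
  have hcomm : ∀ a ∈ H, ∀ b ∈ H, ⁅a, b⁆ ∈ H := by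
    intro a ha b hb
    rw [commutatorElement_def]
    exact H.mul_mem (H.mul_mem (H.mul_mem ha hb) (H.inv_mem ha)) (H.inv_mem hb)
  have hPkΓ : Pk p k (G ⧸ P) := Pk.quot (QuotientGroup.mk' P) (QuotientGroup.mk'_surjective P) p k h
  rw [← commutatorElement_eq_one_iff_commute]
  refine lev_core p hO P hP hPmax H hH _ ?_ ?_
  · exact hcomm _ (H.pow_mem (hcomm a ha b hb) _) _ (H.pow_mem (hcomm c hc d hd) _)
  · intro q hq hpq Q hQ hSQ hmin hQ2 hQq A hA hAP V _ _ _ ρ φ hφ1 hφ2 hφ4 g hg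
    refine R0 p q hp2 hq hpq ρ H Q hH hQ hSQ hQ2 hQq k hk (hPkΓ H hH) ?_ a b c d ha hb hc hd g hg
    intro a ha b hb
    obtain ⟨a', rfl⟩ := QuotientGroup.mk'_surjective P a
    obtain ⟨b', rfl⟩ := QuotientGroup.mk'_surjective P b
    have hHp := comap_pgroup p P hP H hH
    have hPH : ∀ x ∈ P, x ∈ H.comap (QuotientGroup.mk' P) := by
      intro x hx
      rw [Subgroup.mem_comap]
      have : QuotientGroup.mk' P x = 1 := (QuotientGroup.eq_one_iff x).mpr hx
      rw [this]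
      exact H.one_mem
    exact lift1 p k P A hA ρ φ hφ1 hφ2 hφ4 a' b'
      (fun x hx => h _ hHp _ (Subgroup.mul_mem _ (hPH x (hAP hx)) ha) _ hb)
      (fun x hx => h _ hHp _ ha _ (Subgroup.mul_mem _ (hPH x (hAP hx)) hb))

/-- **L1** -/
theorem L1 {G : Type u} [Group G] [Finite G] [Group.IsSolvable G] (p : ℕ) [Fact p.Prime]
    (hp2 : p ≠ 2)
    (hO : ∀ N : Subgroup G, N.Normal → (Nat.card N).Coprime p → N = ⊥)
    (P : Subgroup G) [P.Normal] (hP : IsPGroup p P)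
    (hPmax : ∀ N : Subgroup G, N.Normal → IsPGroup p N → N ≤ P)
    (k : ℕ) (hk : 1 ≤ k) (h : Pk p k G) (h' : Ck p k G) : Pk p (k - 1) (G ⧸ P) := by
  intro H hH a ha b hb
  have hPkΓ : Pk p k (G ⧸ P) := Pk.quot (QuotientGroup.mk' P) (QuotientGroup.mk'_surjective P) p k h
  have hle : Subgroup.closure {a, b} ≤ H := by
    rw [Subgroup.closure_le]
    rintro x (rfl | rfl)
    · exact ha
    · exact hb
  have hHc : IsPGroup p (Subgroup.closure {a, b} : Subgroup (G ⧸ P)) := hH.to_le hle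
  have haC : a ∈ Subgroup.closure {a, b} := Subgroup.subset_closure (by simp)
  have hbC : b ∈ Subgroup.closure {a, b} := Subgroup.subset_closure (by simp)
  refine lev_core p hO P hP hPmax (Subgroup.closure {a, b}) hHc _ ?_ ?_
  · refine Subgroup.pow_mem _ ?_ _
    rw [commutatorElement_def]
    exact Subgroup.mul_mem _ (Subgroup.mul_mem _ (Subgroup.mul_mem _ haC hbC)
      (Subgroup.inv_mem _ haC)) (Subgroup.inv_mem _ hbC)
  · intro q hq hpq Q hQ hSQ hmin hQ2 hQq A hA hAP V _ _ _ ρ φ hφ1 hφ2 hφ4 g hg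
    have hXX : (ρ ⁅a, b⁆ - 1) ^ (2 * p ^ (k - 1) - 1) * ρ a = (ρ ⁅a, b⁆ - 1) ^ (2 * p ^ (k - 1) - 1) ∧
        (ρ ⁅a, b⁆ - 1) ^ (2 * p ^ (k - 1) - 1) * ρ b =
          (ρ ⁅a, b⁆ - 1) ^ (2 * p ^ (k - 1) - 1) := by
      clear hle hHc haC hbC hSQ hmin
      obtain ⟨a', rfl⟩ := QuotientGroup.mk'_surjective P a
      obtain ⟨b', rfl⟩ := QuotientGroup.mk'_surjective P b
      have hHp := comap_pgroup p P hP H hH
      have hPH : ∀ x ∈ P, x ∈ H.comap (QuotientGroup.mk' P) := by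
        intro x hx
        rw [Subgroup.mem_comap]
        have : QuotientGroup.mk' P x = 1 := (QuotientGroup.eq_one_iff x).mpr hx
        rw [this]
        exact H.one_mem
      exact lift2 p k hk P A hA ρ φ hφ1 hφ2 hφ4 a' b'
        (fun x hx => h' _ hHp _ (Subgroup.mul_mem _ (hPH x (hAP hx)) ha) _ hb _ ha _ hb)
        (fun x hx => h' _ hHp _ ha _ (Subgroup.mul_mem _ (hPH x (hAP hx)) hb) _ ha _ hb)
    exact R1 p q hp2 hq hpq ρ a b hHc Q hQ hSQ hmin hQ2 hQq k hk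
      (hPkΓ H hH a ha b hb) hXX.1 hXX.2 g hg

end H60SH

end S_LEV
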