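import Mathlib
import Pool.Agent.H60.SHM.M1
import Pool.Agent.H60.SHM.M3
import Pool.Agent.H60.SHM.M5

set_option autoImplicit false

/-! Fitting height and commutator laws, part M6: this file joins several modules to save build time. -/

section S_PLM

namespace H60SH

universe u

open scoped commutatorElement

/-- the maximal normal subgroup of order prime to `p` -/
theorem plm_core' (p : ℕ) (G : Type u) [Group G] [Finite G] :
    ∃ N : Subgroup G, ∃ _ : N.Normal, (Nat.card N).Coprime p ∧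
      ∀ M : Subgroup (G ⧸ N), M.Normal → (Nat.card M).Coprime p → M = ⊥ := by
  classical
  let s : Set (Subgroup G) := {N | N.Normal ∧ (Nat.card N).Coprime p}
  have hs : s.Nonempty := ⟨⊥, by
    refine ⟨inferInstance, ?_⟩
    rw [Subgroup.card_bot]
    exact Nat.coprime_one_left p⟩
  obtain ⟨N, hN, hmax⟩ := Set.exists_max_image s (fun N => Nat.card N) (Set.toFinite s) hs
  refine ⟨N, hN.1, hN.2, ?_⟩
  have hNn := hN.1
  intro M hM hMc
  let f := QuotientGroup.mk' N
  have hf : Function.Surjective f := QuotientGroup.mk'_surjective N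
  have hcard : Nat.card (M.comap f) = Nat.card N * Nat.card M := by
    have h1 := (M.comap f).card_mul_index
    have h2 := N.card_mul_index
    have h3 := M.card_mul_index
    rw [Subgroup.index_comap_of_surjective M hf] at h1
    have h4 : N.index = Nat.card (G ⧸ N) := rfl
    rw [h4, ← h3] at h2
    have h5 : M.index ≠ 0 := Subgroup.FiniteIndex.index_ne_zero
    have h6 : Nat.card (M.comap f) * M.index = (Nat.card N * Nat.card M) * M.index := by
      rw [h1, ← h2, mul_assoc]
    exact Nat.eq_of_mul_eq_mul_right (Nat.pos_of_ne_zero h5) h6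
  have hmem : M.comap f ∈ s := by
    refine ⟨hM.comap f, ?_⟩
    rw [hcard]
    exact Nat.Coprime.mul_left hN.2 hMc
  have h7 := hmax _ hmem
  rw [hcard] at h7
  have h8 : Nat.card M ≤ 1 := by
    by_contra hc
    push Not at hc
    have h9 : 0 < Nat.card N := Nat.card_pos
    have h10 : Nat.card N * 1 < Nat.card N * Nat.card M := Nat.mul_lt_mul_of_pos_left hc h9
    omega
  exact Subgroup.eq_bot_of_card_le M h8

/-- the maximal normal `p`-subgroup -/
theorem plm_core (p : ℕ) [Fact p.Prime] (G : Type u) [Group G] [Finite G] :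
    ∃ P : Subgroup G, ∃ _ : P.Normal, IsPGroup p P ∧
      ∀ N : Subgroup G, N.Normal → IsPGroup p N → N ≤ P := by
  classical
  let s : Set (Subgroup G) := {N | N.Normal ∧ IsPGroup p N}
  have hs : s.Nonempty := ⟨⊥, inferInstance, IsPGroup.of_bot⟩
  obtain ⟨P, hP, hmax⟩ := Set.exists_max_image s (fun N => Nat.card N) (Set.toFinite s) hs
  refine ⟨P, hP.1, hP.2, ?_⟩
  intro N hN hNp
  have hPn := hP.1
  have hmem : (P ⊔ N) ∈ s := ⟨Subgroup.sup_normal P N, hP.2.to_sup_of_normal_right hNp⟩
  have h1 := hmax _ hmem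
  have h2 : P = P ⊔ N := Subgroup.eq_of_le_of_card_ge le_sup_left h1
  rw [h2]
  exact le_sup_right

/-- **PLM**: bounded `p`-length. -/
theorem pl_main (p : ℕ) [Fact p.Prime] (hp2 : p ≠ 2) (k : ℕ) :
    ∀ (G : Type u) [Group G] [Finite G] [Group.IsSolvable G], Pk p k G → PL p (4 * k + 3) G := by
  have hp : p.Prime := Fact.out
  induction k with
  | zero =>
    intro G _ _ _ h
    obtain ⟨N, hN, hNc, hNq⟩ := plm_core' p G
    refine PL.step 2 G N (Or.inr hNc) ?_
    obtain ⟨P, hP, hPp, hPm⟩ := plm_core p (G ⧸ N)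
    refine PL.step 1 (G ⧸ N) P (Or.inl hPp) ?_
    have h1 : Pk p 0 (G ⧸ N) := Pk.quot (QuotientGroup.mk' N) (QuotientGroup.mk'_surjective N) p 0 h
    -- the Sylow subgroups of `G ⧸ N` are contained in `P`
    have h2 : ∀ S : Sylow p (G ⧸ N), (S : Subgroup (G ⧸ N)) ≤ P := by
      intro S g hg
      have hPS : P ≤ S := by
        obtain ⟨S', hS'⟩ := hPp.exists_le_sylow
        obtain ⟨x, hx⟩ := MulAction.exists_smul_eq (G ⧸ N) S' S
        intro y hy
        have h3 : x⁻¹ * y * x ∈ P := by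
          have := hP.conj_mem y hy x⁻¹
          simpa using this
        have h4 : x⁻¹ * y * x ∈ (S' : Subgroup (G ⧸ N)) := hS' h3
        rw [← hx]
        have h5 : y = x * (x⁻¹ * y * x) * x⁻¹ := by group
        rw [h5]
        exact Subgroup.mem_map_of_mem (MulAut.conj x).toMonoidHom h4
      apply fit_cent p hp hNq P hPm g
      intro x hx
      have h6 := h1 S S.isPGroup' g hg x (hPS hx)
      rw [pow_zero, pow_one, commutatorElement_eq_one_iff_mul_comm] at h6
      exact h6
    have h3 : (Nat.card ((G ⧸ N) ⧸ P)).Coprime p := by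
      obtain ⟨S⟩ : Nonempty (Sylow p (G ⧸ N)) := inferInstance
      have h4 := S.not_dvd_index
      have h5 : P.index ∣ (S : Subgroup (G ⧸ N)).index := Subgroup.index_dvd_of_le (h2 S)
      rw [Nat.coprime_comm, Nat.Prime.coprime_iff_not_dvd hp]
      intro h6
      exact h4 (h6.trans h5)
    refine PL.step 0 ((G ⧸ N) ⧸ P) ⊤ (Or.inr ?_) ?_
    · rw [Subgroup.card_top]; exact h3
    · have : Subsingleton (((G ⧸ N) ⧸ P) ⧸ (⊤ : Subgroup ((G ⧸ N) ⧸ P))) :=
        QuotientGroup.subsingleton_quotient_top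
      exact PL.triv _
  | succ k ih =>
    intro G _ _ _ h
    obtain ⟨N, hN, hNc, hNq⟩ := plm_core' p G
    refine PL.step (4 * k + 6) G N (Or.inr hNc) ?_
    obtain ⟨P, hP, hPp, hPm⟩ := plm_core p (G ⧸ N)
    refine PL.step (4 * k + 5) (G ⧸ N) P (Or.inl hPp) ?_
    have h1 : Pk p (k + 1) (G ⧸ N) :=
      Pk.quot (QuotientGroup.mk' N) (QuotientGroup.mk'_surjective N) p (k + 1) h
    have h2 : Ck p (k + 1) ((G ⧸ N) ⧸ P) := L0 p hp2 hNq P hPp hPm (k + 1) (by omega) h1
    have h3 : Pk p (k + 1) ((G ⧸ N) ⧸ P) :=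
      Pk.quot (QuotientGroup.mk' P) (QuotientGroup.mk'_surjective P) p (k + 1) h1
    obtain ⟨N', hN', hNc', hNq'⟩ := plm_core' p ((G ⧸ N) ⧸ P)
    refine PL.step (4 * k + 4) ((G ⧸ N) ⧸ P) N' (Or.inr hNc') ?_
    have h4 : Ck p (k + 1) (((G ⧸ N) ⧸ P) ⧸ N') :=
      Ck.quot (QuotientGroup.mk' N') (QuotientGroup.mk'_surjective N') p (k + 1) h2
    have h5 : Pk p (k + 1) (((G ⧸ N) ⧸ P) ⧸ N') :=
      Pk.quot (QuotientGroup.mk' N') (QuotientGroup.mk'_surjective N') p (k + 1) h3
    obtain ⟨P', hP', hPp', hPm'⟩ := plm_core p (((G ⧸ N) ⧸ P) ⧸ N')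
    refine PL.step (4 * k + 3) (((G ⧸ N) ⧸ P) ⧸ N') P' (Or.inl hPp') ?_
    apply ih
    exact L1 p hp2 hNq' P' hPp' hPm' (k + 1) (by omega) h5 h4

end H60SH

end S_PLM

section S_PLT

/-!
# Typed layers: bounded `p`-length
-/

namespace H60SH

universe u

open scoped commutatorElement

/-- A normal series of length `m` whose factors are alternately of order prime to `p` and of
`p`-power order, beginning with a factor of order prime to `p`. -/
def LS (p m : ℕ) (G : Type u) [Group G] : Prop :=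
  ∃ t : ℕ → Subgroup G, t 0 = ⊥ ∧ t m = ⊤ ∧ (∀ i, (t i).Normal) ∧ (∀ i, t i ≤ t (i + 1)) ∧
    (∀ i, Even i → ((t i).relIndex (t (i + 1))).Coprime p) ∧
    (∀ i, Odd i → ∃ e : ℕ, (t i).relIndex (t (i + 1)) = p ^ e)

theorem LS.one {G : Type u} [Group G] (p : ℕ) (h : (Nat.card G).Coprime p) : LS p 1 G := by
  refine ⟨fun i => if i = 0 then ⊥ else ⊤, by simp, by simp, ?_, ?_, ?_, ?_⟩
  · intro i
    by_cases hi : i = 0
    · simp only [hi, if_true]; infer_instance
    · simp only [hi, if_false]; infer_instance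
  · intro i
    by_cases hi : i = 0 <;> simp [hi]
  · intro i _
    by_cases hi : i = 0
    · subst hi
      simpa using h
    · simp [hi]
  · intro i hi
    have hi0 : i ≠ 0 := by
      rintro rfl
      exact absurd hi (by decide)
    refine ⟨0, ?_⟩
    simp [hi0]

theorem LS.step2 {G : Type u} [Group G] [Finite G] (p m : ℕ) (N : Subgroup G) [N.Normal]
    (hN : (Nat.card N).Coprime p) (P : Subgroup (G ⧸ N)) [P.Normal] (hP : IsPGroup p P)
    [Fact p.Prime] (h : LS p m ((G ⧸ N) ⧸ P)) : LS p (m + 2) G := by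
  obtain ⟨t, h0, hm, hn, hle, he, ho⟩ := h
  let f : G →* (G ⧸ N) ⧸ P := (QuotientGroup.mk' P).comp (QuotientGroup.mk' N)
  have hf : Function.Surjective f :=
    (QuotientGroup.mk'_surjective P).comp (QuotientGroup.mk'_surjective N)
  have hker : f.ker = P.comap (QuotientGroup.mk' N) := by
    change ((QuotientGroup.mk' P).comp (QuotientGroup.mk' N)).ker = _
    rw [← MonoidHom.comap_ker, QuotientGroup.ker_mk']
  have hNf : N ≤ f.ker := by
    rw [hker]
    intro x hx
    rw [Subgroup.mem_comap]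
    have : QuotientGroup.mk' N x = 1 := (QuotientGroup.eq_one_iff x).mpr hx
    rw [this]
    exact P.one_mem
  have hcomap : ∀ i, (((t i).comap f).relIndex ((t (i + 1)).comap f)) =
      (t i).relIndex (t (i + 1)) := by
    intro i
    rw [Subgroup.relIndex_comap, Subgroup.map_comap_eq_self_of_surjective hf]
  have hk : N.relIndex f.ker = Nat.card P := by
    rw [hker]
    have h1 : N = (⊥ : Subgroup (G ⧸ N)).comap (QuotientGroup.mk' N) := by
      rw [MonoidHom.comap_bot, QuotientGroup.ker_mk']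
    have h2 : N.relIndex (P.comap (QuotientGroup.mk' N)) =
        ((⊥ : Subgroup (G ⧸ N)).comap (QuotientGroup.mk' N)).relIndex
          (P.comap (QuotientGroup.mk' N)) := by
      rw [← h1]
    rw [h2, Subgroup.relIndex_comap,
      Subgroup.map_comap_eq_self_of_surjective (QuotientGroup.mk'_surjective N),
      Subgroup.relIndex_bot_left]
  refine ⟨fun i => match i with
    | 0 => ⊥
    | 1 => N
    | (i + 2) => (t i).comap f, rfl, ?_, ?_, ?_, ?_, ?_⟩
  · change (t m).comap f = ⊤
    rw [hm, Subgroup.comap_top]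
  · intro i
    match i with
    | 0 => change (⊥ : Subgroup G).Normal; infer_instance
    | 1 => change N.Normal; infer_instance
    | (i + 2) => exact (hn i).comap f
  · intro i
    match i with
    | 0 => exact bot_le
    | 1 =>
      change N ≤ (t 0).comap f
      rw [h0, MonoidHom.comap_bot]
      exact hNf
    | (i + 2) => exact Subgroup.comap_mono (hle i)
  · intro i hi
    match i with
    | 0 =>
      change ((⊥ : Subgroup G).relIndex N).Coprime p
      rw [Subgroup.relIndex_bot_left]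
      exact hN
    | 1 => exact absurd hi (by decide)
    | (i + 2) =>
      change (((t i).comap f).relIndex ((t (i + 1)).comap f)).Coprime p
      rw [hcomap]
      exact he i (by simpa [Nat.even_add] using hi)
  · intro i hi
    match i with
    | 0 => exact absurd hi (by decide)
    | 1 =>
      change ∃ e : ℕ, N.relIndex ((t 0).comap f) = p ^ e
      rw [h0, MonoidHom.comap_bot, hk]
      exact (IsPGroup.iff_card).mp hP
    | (i + 2) =>
      change ∃ e : ℕ, (((t i).comap f).relIndex ((t (i + 1)).comap f)) = p ^ e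
      rw [hcomap]
      exact ho i (by simpa [Nat.odd_add] using hi)

/-- **PLT**: bounded `p`-length, typed layers. -/
theorem ls_main (p : ℕ) [Fact p.Prime] (hp2 : p ≠ 2) (k : ℕ) :
    ∀ (G : Type u) [Group G] [Finite G] [Group.IsSolvable G], Pk p k G → LS p (4 * k + 3) G := by
  have hp : p.Prime := Fact.out
  induction k with
  | zero =>
    intro G _ _ _ h
    obtain ⟨N, hN, hNc, hNq⟩ := plm_core' p G
    obtain ⟨P, hP, hPp, hPm⟩ := plm_core p (G ⧸ N)
    refine LS.step2 p 1 N hNc P hPp ?_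
    have h1 : Pk p 0 (G ⧸ N) := Pk.quot (QuotientGroup.mk' N) (QuotientGroup.mk'_surjective N) p 0 h
    -- the Sylow subgroups of `G ⧸ N` are contained in `P`
    have h2 : ∀ S : Sylow p (G ⧸ N), (S : Subgroup (G ⧸ N)) ≤ P := by
      intro S g hg
      have hPS : P ≤ S := by
        obtain ⟨S', hS'⟩ := hPp.exists_le_sylow
        obtain ⟨x, hx⟩ := MulAction.exists_smul_eq (G ⧸ N) S' S
        intro y hy
        have h3 : x⁻¹ * y * x ∈ P := by
          have := hP.conj_mem y hy x⁻¹
          simpa using this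
        have h4 : x⁻¹ * y * x ∈ (S' : Subgroup (G ⧸ N)) := hS' h3
        rw [← hx]
        have h5 : y = x * (x⁻¹ * y * x) * x⁻¹ := by group
        rw [h5]
        exact Subgroup.mem_map_of_mem (MulAut.conj x).toMonoidHom h4
      apply fit_cent p hp hNq P hPm g
      intro x hx
      have h6 := h1 S S.isPGroup' g hg x (hPS hx)
      rw [pow_zero, pow_one, commutatorElement_eq_one_iff_mul_comm] at h6
      exact h6
    refine LS.one p ?_
    obtain ⟨S⟩ : Nonempty (Sylow p (G ⧸ N)) := inferInstance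
    have h4 := S.not_dvd_index
    have h5 : P.index ∣ (S : Subgroup (G ⧸ N)).index := Subgroup.index_dvd_of_le (h2 S)
    rw [Nat.coprime_comm, Nat.Prime.coprime_iff_not_dvd hp]
    intro h6
    exact h4 (h6.trans h5)
  | succ k ih =>
    intro G _ _ _ h
    obtain ⟨N, hN, hNc, hNq⟩ := plm_core' p G
    obtain ⟨P, hP, hPp, hPm⟩ := plm_core p (G ⧸ N)
    refine LS.step2 p (4 * k + 5) N hNc P hPp ?_
    have h1 : Pk p (k + 1) (G ⧸ N) :=
      Pk.quot (QuotientGroup.mk' N) (QuotientGroup.mk'_surjective N) p (k + 1) h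
    have h2 : Ck p (k + 1) ((G ⧸ N) ⧸ P) := L0 p hp2 hNq P hPp hPm (k + 1) (by omega) h1
    have h3 : Pk p (k + 1) ((G ⧸ N) ⧸ P) :=
      Pk.quot (QuotientGroup.mk' P) (QuotientGroup.mk'_surjective P) p (k + 1) h1
    obtain ⟨N', hN', hNc', hNq'⟩ := plm_core' p ((G ⧸ N) ⧸ P)
    have h4 : Ck p (k + 1) (((G ⧸ N) ⧸ P) ⧸ N') :=
      Ck.quot (QuotientGroup.mk' N') (QuotientGroup.mk'_surjective N') p (k + 1) h2
    have h5 : Pk p (k + 1) (((G ⧸ N) ⧸ P) ⧸ N') :=
      Pk.quot (QuotientGroup.mk' N') (QuotientGroup.mk'_surjective N') p (k + 1) h3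
    obtain ⟨P', hP', hPp', hPm'⟩ := plm_core p (((G ⧸ N) ⧸ P) ⧸ N')
    refine LS.step2 p (4 * k + 3) N' hNc' P' hPp' ?_
    apply ih
    exact L1 p hp2 hNq' P' hPp' hPm' (k + 1) (by omega) h5 h4

end H60SH

end S_PLT

section S_RESA

namespace H60SH

open scoped commutatorElement

universe u

/-- `FL h G`: the Fitting height of `G` is at most `h`. -/
def FL (h : ℕ) (G : Type u) [Group G] : Prop :=
  ∃ s : ℕ → Subgroup G, s 0 = ⊥ ∧ s h = ⊤ ∧ (∀ i, s i ≤ s (i + 1)) ∧ (∀ i, (s i).Normal) ∧
    ∀ i, ∀ (_ : ((s i).subgroupOf (s (i + 1))).Normal),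
      Group.IsNilpotent (↥(s (i + 1)) ⧸ (s i).subgroupOf (s (i + 1)))

namespace RESA

/-- Relative lower central series. -/
def LL {G : Type*} [Group G] : ℕ → Subgroup G → Subgroup G
  | 0, H => H
  | n + 1, H => ⁅LL n H, H⁆

theorem LL_zero {G : Type*} [Group G] (H : Subgroup G) : LL 0 H = H := rfl

theorem LL_succ {G : Type*} [Group G] (n : ℕ) (H : Subgroup G) : LL (n + 1) H = ⁅LL n H, H⁆ := rfl

theorem LL_mono {G : Type*} [Group G] (n : ℕ) {H K : Subgroup G} (h : H ≤ K) :
    LL n H ≤ LL n K := by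
  induction n with
  | zero => exact h
  | succ n ih => exact Subgroup.commutator_mono ih h

theorem LL_normal {G : Type*} [Group G] (n : ℕ) {H : Subgroup G} (h : H.Normal) :
    (LL n H).Normal := by
  induction n with
  | zero => exact h
  | succ n ih =>
    rw [LL_succ]
    infer_instance

theorem LL_step {G : Type*} [Group G] (n : ℕ) {H : Subgroup G} (h : H.Normal) :
    LL (n + 1) H ≤ LL n H := by
  have := LL_normal n h
  rw [LL_succ]
  exact Subgroup.commutator_le_left _ _

theorem LL_anti {G : Type*} [Group G] {H : Subgroup G} (h : H.Normal) {m n : ℕ} (hmn : m ≤ n) :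
    LL n H ≤ LL m H := by
  induction hmn with
  | refl => exact le_rfl
  | step _ ih => exact (LL_step _ h).trans ih

theorem LL_map {G G' : Type*} [Group G] [Group G'] (f : G →* G') (n : ℕ) (H : Subgroup G) :
    (LL n H).map f = LL n (H.map f) := by
  induction n with
  | zero => rfl
  | succ n ih => rw [LL_succ, LL_succ, Subgroup.map_commutator, ih]

theorem LL_top {G : Type*} [Group G] (n : ℕ) :
    LL n (⊤ : Subgroup G) = Subgroup.lowerCentralSeries (⊤ : Subgroup G) n := by
  induction n with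
  | zero => rfl
  | succ n ih => rw [LL_succ, ih]; rfl

/-- Iterated relative lower central series. -/
def DD {G : Type*} [Group G] (c : ℕ) : ℕ → Subgroup G → Subgroup G
  | 0, H => H
  | n + 1, H => LL c (DD c n H)

theorem DD_zero {G : Type*} [Group G] (c : ℕ) (H : Subgroup G) : DD c 0 H = H := rfl

theorem DD_succ {G : Type*} [Group G] (c n : ℕ) (H : Subgroup G) :
    DD c (n + 1) H = LL c (DD c n H) := rfl

theorem DD_mono {G : Type*} [Group G] (c n : ℕ) {H K : Subgroup G} (h : H ≤ K) :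
    DD c n H ≤ DD c n K := by
  induction n with
  | zero => exact h
  | succ n ih => exact LL_mono c ih

theorem DD_normal {G : Type*} [Group G] (c n : ℕ) {H : Subgroup G} (h : H.Normal) :
    (DD c n H).Normal := by
  induction n with
  | zero => exact h
  | succ n ih => exact LL_normal c ih

theorem DD_anti {G : Type*} [Group G] {H : Subgroup G} (h : H.Normal) {c d : ℕ} (hcd : c ≤ d)
    (n : ℕ) : DD d n H ≤ DD c n H := by
  induction n with
  | zero => exact le_rfl
  | succ n ih =>
    exact (LL_mono d ih).trans (LL_anti (DD_normal c n h) hcd)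

theorem DD_map {G G' : Type*} [Group G] [Group G'] (f : G →* G') (c n : ℕ) (H : Subgroup G) :
    (DD c n H).map f = DD c n (H.map f) := by
  induction n with
  | zero => rfl
  | succ n ih => rw [DD_succ, DD_succ, LL_map, ih]

theorem DD_add {G : Type*} [Group G] (c m n : ℕ) (H : Subgroup G) :
    DD c (n + m) H = DD c n (DD c m H) := by
  induction n with
  | zero => rw [Nat.zero_add]; rfl
  | succ n ih => rw [Nat.succ_add, DD_succ, DD_succ, ih]

theorem DD_step {G : Type*} [Group G] (c n : ℕ) {H : Subgroup G} (h : H.Normal) :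
    DD c (n + 1) H ≤ DD c n H := by
  rw [DD_succ]
  exact (LL_anti (DD_normal c n h) (Nat.zero_le c))

/-- A nilpotent quotient bounds the relative lower central series. -/
theorem exists_le {G : Type*} [Group G] {M H : Subgroup G}
    (hn : (M.subgroupOf H).Normal) (h : Group.IsNilpotent (↥H ⧸ M.subgroupOf H)) :
    ∃ c, LL c H ≤ M := by
  obtain ⟨n, hn'⟩ := Subgroup.nilpotent_iff_lowerCentralSeries.1 h
  refine ⟨n, ?_⟩
  have h1 : (LL n (⊤ : Subgroup H)).map (QuotientGroup.mk' (M.subgroupOf H)) = ⊥ := by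
    rw [LL_map, Subgroup.map_top_of_surjective _ (QuotientGroup.mk'_surjective _), LL_top, hn']
  have h2 : LL n (⊤ : Subgroup H) ≤ M.subgroupOf H := by
    have := (Subgroup.map_eq_bot_iff _).1 h1
    rwa [QuotientGroup.ker_mk'] at this
  have h3 : (LL n (⊤ : Subgroup H)).map H.subtype = LL n H := by
    rw [LL_map, ← MonoidHom.range_eq_map, Subgroup.range_subtype]
  rw [← h3]
  refine (Subgroup.map_mono h2).trans ?_
  rw [Subgroup.subgroupOf_map_subtype]
  exact inf_le_left

/-- The quotient by a term of the relative lower central series is nilpotent. -/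
theorem nilp {G : Type*} [Group G] {H : Subgroup G} (c : ℕ)
    (hn : ((LL c H).subgroupOf H).Normal) :
    Group.IsNilpotent (↥H ⧸ (LL c H).subgroupOf H) := by
  refine Subgroup.nilpotent_iff_lowerCentralSeries.2 ⟨c, ?_⟩
  rw [← LL_top, ← Subgroup.map_top_of_surjective _
    (QuotientGroup.mk'_surjective ((LL c H).subgroupOf H)), ← LL_map, Subgroup.map_eq_bot_iff,
    QuotientGroup.ker_mk']
  have h3 : (LL c (⊤ : Subgroup H)).map H.subtype = LL c H := by
    rw [LL_map, ← MonoidHom.range_eq_map, Subgroup.range_subtype]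
  intro x hx
  rw [Subgroup.mem_subgroupOf, ← h3]
  exact ⟨x, hx, rfl⟩

theorem fl_to {G : Type u} [Group G] {h : ℕ} (hG : FL h G) : ∃ c, DD c h (⊤ : Subgroup G) = ⊥ := by
  obtain ⟨s, h0, hh, hm, hn, hq⟩ := hG
  have hex : ∀ i, ∃ c, LL c (s (i + 1)) ≤ s i := by
    intro i
    have : ((s i).subgroupOf (s (i + 1))).Normal := by
      have := hn i
      infer_instance
    exact exists_le this (hq i this)
  choose c hc using hex
  let C := (Finset.range h).sup c
  have hC : ∀ i < h, LL C (s (i + 1)) ≤ s i := by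
    intro i hi
    refine (LL_anti (hn _) ?_).trans (hc i)
    exact Finset.le_sup (f := c) (Finset.mem_range.2 hi)
  refine ⟨C, ?_⟩
  have key : ∀ j ≤ h, DD C j (⊤ : Subgroup G) ≤ s (h - j) := by
    intro j
    induction j with
    | zero => intro _; rw [DD_zero, Nat.sub_zero, hh]
    | succ j ih =>
      intro hj
      have h1 := ih (Nat.le_of_succ_le hj)
      rw [DD_succ]
      have h2 : h - j = (h - (j + 1)) + 1 := by omega
      rw [h2] at h1
      exact (LL_mono C h1).trans (hC _ (by omega))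
  have := key h le_rfl
  rw [Nat.sub_self, h0] at this
  exact le_bot_iff.1 this

theorem fl_of {G : Type u} [Group G] {h c : ℕ} (hG : DD c h (⊤ : Subgroup G) = ⊥) : FL h G := by
  have htop : (⊤ : Subgroup G).Normal := inferInstance
  refine ⟨fun i => DD c (h - i) ⊤, ?_, ?_, ?_, ?_, ?_⟩
  · change DD c (h - 0) ⊤ = ⊥
    rw [Nat.sub_zero, hG]
  · change DD c (h - h) ⊤ = ⊤
    rw [Nat.sub_self, DD_zero]
  · intro i
    change DD c (h - i) ⊤ ≤ DD c (h - (i + 1)) ⊤
    rcases Nat.lt_or_ge i h with hi | hi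
    · have : h - i = (h - (i + 1)) + 1 := by omega
      rw [this]
      exact DD_step c _ htop
    · have h1 : h - i = 0 := by omega
      have h2 : h - (i + 1) = 0 := by omega
      rw [h1, h2]
  · intro i
    exact DD_normal c _ htop
  · intro i hN
    rcases Nat.lt_or_ge i h with hi | hi
    · have h1 : h - i = (h - (i + 1)) + 1 := by omega
      have h2 : DD c (h - i) (⊤ : Subgroup G) = LL c (DD c (h - (i + 1)) ⊤) := by
        rw [h1, DD_succ]
      revert hN
      change ∀ hN : ((DD c (h - i) (⊤ : Subgroup G)).subgroupOf (DD c (h - (i + 1)) ⊤)).Normal,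
        Group.IsNilpotent (↥(DD c (h - (i + 1)) (⊤ : Subgroup G)) ⧸
          (DD c (h - i) (⊤ : Subgroup G)).subgroupOf (DD c (h - (i + 1)) ⊤))
      rw [h2]
      intro hN
      exact nilp c hN
    · have h1 : h - i = 0 := by omega
      have h2 : h - (i + 1) = 0 := by omega
      revert hN
      change ∀ hN : ((DD c (h - i) (⊤ : Subgroup G)).subgroupOf (DD c (h - (i + 1)) ⊤)).Normal,
        Group.IsNilpotent (↥(DD c (h - (i + 1)) (⊤ : Subgroup G)) ⧸
          (DD c (h - i) (⊤ : Subgroup G)).subgroupOf (DD c (h - (i + 1)) ⊤))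
      rw [h1, h2]
      intro hN
      exact nilp (H := DD c 0 (⊤ : Subgroup G)) 0 hN

end RESA

open RESA in
/-- **RES1** -/
theorem FL.ext {G : Type u} [Group G] [Finite G] (N : Subgroup G) [N.Normal] (a b : ℕ)
    (h1 : FL a N) (h2 : FL b (G ⧸ N)) : FL (a + b) G := by
  obtain ⟨c1, hc1⟩ := fl_to h1
  obtain ⟨c2, hc2⟩ := fl_to h2
  have e1 : DD c1 a N = ⊥ := by
    have h3 : (DD c1 a (⊤ : Subgroup N)).map N.subtype = DD c1 a N := by
      rw [DD_map, ← MonoidHom.range_eq_map, Subgroup.range_subtype]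
    rw [← h3, hc1, Subgroup.map_bot]
  have e2 : DD c2 b (⊤ : Subgroup G) ≤ N := by
    have h3 : (DD c2 b (⊤ : Subgroup G)).map (QuotientGroup.mk' N) = ⊥ := by
      rw [DD_map, Subgroup.map_top_of_surjective _ (QuotientGroup.mk'_surjective _), hc2]
    have := (Subgroup.map_eq_bot_iff _).1 h3
    rwa [QuotientGroup.ker_mk'] at this
  have hN : N.Normal := inferInstance
  have htop : (⊤ : Subgroup G).Normal := inferInstance
  refine fl_of (c := max c1 c2) ?_
  rw [DD_add]
  have e3 : DD (max c1 c2) b (⊤ : Subgroup G) ≤ N := (DD_anti htop (le_max_right _ _) b).trans e2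
  have e4 : DD (max c1 c2) a N = ⊥ := by
    have := DD_anti hN (le_max_left c1 c2) a
    rw [e1] at this
    exact le_bot_iff.1 this
  exact le_bot_iff.1 ((DD_mono _ a e3).trans e4.le)

end H60SH

end S_RESA

section S_RESB

namespace H60SH

open scoped commutatorElement

universe u

namespace RESB

theorem FL_mono {G : Type u} [Group G] {a b : ℕ} (h : FL a G) (hab : a ≤ b) : FL b G := by
  obtain ⟨s, h0, ha, hm, hn, hq⟩ := h
  refine ⟨s, h0, ?_, hm, hn, hq⟩
  have hmono : Monotone s := monotone_nat_of_le_succ hm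
  have := hmono hab
  rw [ha] at this
  exact top_le_iff.1 this

theorem FL_nilp {G : Type u} [Group G] (h : Group.IsNilpotent G) : FL 1 G := by
  obtain ⟨c, hc⟩ := Subgroup.nilpotent_iff_lowerCentralSeries.1 h
  refine RESA.fl_of (c := c) ?_
  rw [RESA.DD_succ, RESA.DD_zero, RESA.LL_top, hc]

theorem FL_triv {G : Type u} [Group G] [Subsingleton G] : FL 0 G := by
  refine RESA.fl_of (c := 0) ?_
  rw [RESA.DD_zero]
  exact Subsingleton.elim _ _

theorem law_sub {G : Type u} [Group G] {n : ℕ} (h : ∀ x y : G, ⁅x, y⁆ ^ n = 1) (N : Subgroup G)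
    (x y : N) : ⁅x, y⁆ ^ n = 1 := by
  have h1 := h (N.subtype x) (N.subtype y)
  rw [← map_commutatorElement, ← map_pow] at h1
  exact (map_eq_one_iff N.subtype N.subtype_injective).1 h1

theorem law_quot {G : Type u} [Group G] {n : ℕ} (h : ∀ x y : G, ⁅x, y⁆ ^ n = 1) (N : Subgroup G)
    [N.Normal] (x y : G ⧸ N) : ⁅x, y⁆ ^ n = 1 := by
  obtain ⟨x, rfl⟩ := QuotientGroup.mk'_surjective N x
  obtain ⟨y, rfl⟩ := QuotientGroup.mk'_surjective N y
  rw [← map_commutatorElement, ← map_pow, h, map_one]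

/-- Step over a `PL` series. -/
theorem over_PL (n p H : ℕ) (hp : p.Prime) (π : Finset ℕ)
    (hH1 : 1 ≤ H)
    (hH : ∀ (G : Type u) [Group G] [Finite G] [Group.IsSolvable G], (∀ x y : G, ⁅x, y⁆ ^ n = 1) →
      (∀ r : ℕ, r.Prime → r ∣ Nat.card G → r ∈ π.erase p) → FL H G)
    (m : ℕ) (G : Type u) (i : Group G) (hPL : @PL p m G i) :
    ∀ (_ : Finite G) (_ : Group.IsSolvable G),
      (∀ x y : G, ⁅x, y⁆ ^ n = 1) → (∀ r : ℕ, r.Prime → r ∣ Nat.card G → r ∈ π) →
      FL (m * H) G := by
  induction hPL with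
  | triv G =>
    intro _ _ _ _
    rw [Nat.zero_mul]
    exact FL_triv
  | step m G N h hq ih =>
    intro hfin hsol hl hr
    have h1 : FL (m * H) (G ⧸ N) := by
      refine ih inferInstance inferInstance (law_quot hl N) ?_
      intro r hrp hrd
      exact hr r hrp (hrd.trans (Subgroup.card_quotient_dvd_card N))
    have h2 : FL H N := by
      rcases h with h | h
      · have : Fact p.Prime := ⟨hp⟩
        exact FL_mono (FL_nilp h.isNilpotent) hH1
      · refine hH N (law_sub hl N) ?_
        intro r hrp hrd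
        refine Finset.mem_erase.2 ⟨?_, hr r hrp (hrd.trans (Subgroup.card_subgroup_dvd_card N))⟩
        rintro rfl
        have := Nat.Coprime.eq_one_of_dvd (Nat.Coprime.symm h) hrd
        exact hrp.one_lt.ne' this
    have := FL.ext N H (m * H) h2 h1
    have e : (m + 1) * H = H + m * H := by ring
    rw [e]
    exact this

theorem by_primes (n : ℕ) (c : ℕ → ℕ)
    (hPL : ∀ p, p.Prime → p ≠ 2 → p ∣ n → ∀ (G : Type u) [Group G] [Finite G] [Group.IsSolvable G],
      (∀ x y : G, ⁅x, y⁆ ^ n = 1) → PL p (c p) G) (k : ℕ) :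
    ∀ π : Finset ℕ, π.card ≤ k → (∀ r ∈ π, r.Prime ∧ r ∣ n) →
    ∃ h : ℕ, ∀ (G : Type u) [Group G] [Finite G] [Group.IsSolvable G], (∀ x y : G, ⁅x, y⁆ ^ n = 1) →
      (∀ r : ℕ, r.Prime → r ∣ Nat.card G → r ∈ π) → FL h G := by
  have base : ∀ π : Finset ℕ, π ⊆ {2} →
      ∃ h : ℕ, ∀ (G : Type u) [Group G] [Finite G] [Group.IsSolvable G],
        (∀ x y : G, ⁅x, y⁆ ^ n = 1) →
        (∀ r : ℕ, r.Prime → r ∣ Nat.card G → r ∈ π) → FL h G := by
    intro π hπ
    refine ⟨1, fun G _ _ _ _ hr => ?_⟩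
    have hc : Nat.card G = 2 ^ (Nat.card G).primeFactorsList.length := by
      refine Nat.eq_prime_pow_of_unique_prime_dvd Nat.card_pos.ne' ?_
      intro d hd hdd
      exact Finset.mem_singleton.1 (hπ (hr d hd hdd))
    have hG : IsPGroup 2 G := IsPGroup.of_card hc
    have : Fact (Nat.Prime 2) := ⟨Nat.prime_two⟩
    exact FL_nilp hG.isNilpotent
  induction k with
  | zero =>
    intro π hk _
    refine base π ?_
    have : π = ∅ := Finset.card_eq_zero.1 (Nat.le_zero.1 hk)
    rw [this]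
    exact Finset.empty_subset _
  | succ k ih =>
    intro π hk hπ
    by_cases h2 : π ⊆ {2}
    · exact base π h2
    · obtain ⟨p, hpπ, hp2⟩ := Finset.not_subset.1 h2
      have hp2' : p ≠ 2 := fun h => hp2 (Finset.mem_singleton.2 h)
      obtain ⟨H, hH⟩ := ih (π.erase p) (by
        have := Finset.card_erase_lt_of_mem hpπ
        omega) (fun r hr => hπ r (Finset.mem_of_mem_erase hr))
      refine ⟨c p * max H 1, fun G _ hfin hsol hl hr => ?_⟩
      refine over_PL n p (max H 1) (hπ p hpπ).1 π (le_max_right _ _) ?_ (c p) G _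
        (hPL p (hπ p hpπ).1 hp2' (hπ p hpπ).2 G hl) hfin hsol hl hr
      intro G' _ _ _ hl' hr'
      exact FL_mono (hH G' hl' hr') (le_max_left _ _)

end RESB

open RESB in
/-- **RES2** -/
theorem res_main (n : ℕ) (hn : 0 < n) (c : ℕ → ℕ)
    (hPL : ∀ p, p.Prime → p ≠ 2 → p ∣ n → ∀ (G : Type u) [Group G] [Finite G] [Group.IsSolvable G],
      (∀ x y : G, ⁅x, y⁆ ^ n = 1) → PL p (c p) G)
    (hpig : ∀ (G : Type u) [Group G] [Finite G] [Group.IsSolvable G], (∀ x y : G, ⁅x, y⁆ ^ n = 1) →
      ∀ r : ℕ, r.Prime → ¬ r ∣ n → ¬ r ∣ Nat.card (commutator G)) :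
    ∃ h : ℕ, ∀ (G : Type u) [Group G] [Finite G] [Group.IsSolvable G], (∀ x y : G, ⁅x, y⁆ ^ n = 1) →
      FL h G := by
  obtain ⟨h, hh⟩ := by_primes n c hPL _ n.primeFactors le_rfl
    (fun r hr => ⟨Nat.prime_of_mem_primeFactors hr, Nat.dvd_of_mem_primeFactors hr⟩)
  refine ⟨h + 1, fun G _ _ _ hl => ?_⟩
  refine FL.ext (commutator G) h 1 ?_ ?_
  · refine hh _ (law_sub hl _) ?_
    intro r hr hrd
    refine Nat.mem_primeFactors.2 ⟨hr, ?_, hn.ne'⟩
    by_contra hrn
    exact hpig G hl r hr hrn hrd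
  · refine FL_nilp ?_
    have hc : ∀ x y : G ⧸ commutator G, x * y = y * x := fun x y => by
      have : ⁅x, y⁆ = 1 := by
        obtain ⟨x, rfl⟩ := QuotientGroup.mk'_surjective _ x
        obtain ⟨y, rfl⟩ := QuotientGroup.mk'_surjective _ y
        rw [← map_commutatorElement]
        exact (QuotientGroup.eq_one_iff _).2
          (Subgroup.commutator_mem_commutator (Subgroup.mem_top _) (Subgroup.mem_top _))
      exact commutatorElement_eq_one_iff_mul_comm.1 this
    refine Subgroup.nilpotent_iff_lowerCentralSeries.2 ⟨1, ?_⟩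
    rw [Subgroup.lowerCentralSeries_succ, Subgroup.lowerCentralSeries_zero, eq_bot_iff,
      Subgroup.commutator_le]
    intro x _ y _
    exact Subgroup.mem_bot.2 (commutatorElement_eq_one_iff_mul_comm.2 (hc x y))

end H60SH

end S_RESB

section S_RESC

/-!
# The explicit bound for the Fitting height
-/

namespace H60SH

open scoped commutatorElement
open RESB

universe u

theorem by_primes_explicit (n : ℕ) (c : ℕ → ℕ) (hc : ∀ p, 1 ≤ c p)
    (hPL : ∀ p, p.Prime → p ≠ 2 → p ∣ n → ∀ (G : Type u) [Group G] [Finite G] [Group.IsSolvable G],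
      (∀ x y : G, ⁅x, y⁆ ^ n = 1) → PL p (c p) G) (k : ℕ) :
    ∀ π : Finset ℕ, π.card ≤ k → (∀ r ∈ π, r.Prime ∧ r ∣ n) →
    ∀ (G : Type u) [Group G] [Finite G] [Group.IsSolvable G], (∀ x y : G, ⁅x, y⁆ ^ n = 1) →
      (∀ r : ℕ, r.Prime → r ∣ Nat.card G → r ∈ π) → FL (∏ p ∈ π.erase 2, c p) G := by
  have base : ∀ π : Finset ℕ, π ⊆ {2} →
      ∀ (G : Type u) [Group G] [Finite G] [Group.IsSolvable G],
        (∀ x y : G, ⁅x, y⁆ ^ n = 1) →
        (∀ r : ℕ, r.Prime → r ∣ Nat.card G → r ∈ π) → FL (∏ p ∈ π.erase 2, c p) G := by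
    intro π hπ G _ _ _ _ hr
    have he : π.erase 2 = ∅ := by
      rw [Finset.eq_empty_iff_forall_notMem]
      intro x hx
      exact (Finset.mem_erase.1 hx).1 (Finset.mem_singleton.1 (hπ (Finset.mem_erase.1 hx).2))
    rw [he, Finset.prod_empty]
    have hc : Nat.card G = 2 ^ (Nat.card G).primeFactorsList.length := by
      refine Nat.eq_prime_pow_of_unique_prime_dvd Nat.card_pos.ne' ?_
      intro d hd hdd
      exact Finset.mem_singleton.1 (hπ (hr d hd hdd))
    have hG : IsPGroup 2 G := IsPGroup.of_card hc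
    have : Fact (Nat.Prime 2) := ⟨Nat.prime_two⟩
    exact FL_nilp hG.isNilpotent
  induction k with
  | zero =>
    intro π hk _
    refine base π ?_
    have : π = ∅ := Finset.card_eq_zero.1 (Nat.le_zero.1 hk)
    rw [this]
    exact Finset.empty_subset _
  | succ k ih =>
    intro π hk hπ
    by_cases h2 : π ⊆ {2}
    · exact base π h2
    · obtain ⟨p, hpπ, hp2⟩ := Finset.not_subset.1 h2
      have hp2' : p ≠ 2 := fun h => hp2 (Finset.mem_singleton.2 h)
      have hH := ih (π.erase p) (by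
        have := Finset.card_erase_lt_of_mem hpπ
        omega) (fun r hr => hπ r (Finset.mem_of_mem_erase hr))
      intro G _ hfin hsol hl hr
      have hpe : p ∈ π.erase 2 := Finset.mem_erase.2 ⟨hp2', hpπ⟩
      rw [← Finset.mul_prod_erase _ _ hpe, Finset.erase_right_comm]
      refine over_PL n p _ (hπ p hpπ).1 π ?_ hH (c p) G _
        (hPL p (hπ p hpπ).1 hp2' (hπ p hpπ).2 G hl) hfin hsol hl hr
      exact Finset.one_le_prod' fun i _ => hc i

/-- The explicit bound. -/
theorem fitting_explicit (n : ℕ) (hn : 0 < n) (G : Type u) [Group G] [Finite G]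
    [Group.IsSolvable G] (hl : ∀ x y : G, ⁅x, y⁆ ^ n = 1) :
    FL (1 + ∏ p ∈ n.primeFactors.erase 2, (4 * n.factorization p + 3)) G := by
  have hh := by_primes_explicit.{u} n (fun p => 4 * n.factorization p + 3) (fun p => by omega)
    (fun p hp hp2 hpn G _ _ _ hl => by
      have : Fact p.Prime := ⟨hp⟩
      exact pl_main p hp2 _ G (Pk.of_law p n hn hl)) _ n.primeFactors le_rfl
    (fun r hr => ⟨Nat.prime_of_mem_primeFactors hr, Nat.dvd_of_mem_primeFactors hr⟩)
  rw [Nat.add_comm]
  refine FL.ext (commutator G) _ 1 ?_ ?_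
  · refine hh _ (law_sub hl _) ?_
    intro r hr hrd
    refine Nat.mem_primeFactors.2 ⟨hr, ?_, hn.ne'⟩
    by_contra hrn
    exact pig n hn hl r hr hrn hrd
  · refine FL_nilp ?_
    have hc : ∀ x y : G ⧸ commutator G, x * y = y * x := fun x y => by
      have : ⁅x, y⁆ = 1 := by
        obtain ⟨x, rfl⟩ := QuotientGroup.mk'_surjective _ x
        obtain ⟨y, rfl⟩ := QuotientGroup.mk'_surjective _ y
        rw [← map_commutatorElement]
        exact (QuotientGroup.eq_one_iff _).2
          (Subgroup.commutator_mem_commutator (Subgroup.mem_top _) (Subgroup.mem_top _))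
      exact commutatorElement_eq_one_iff_mul_comm.1 this
    refine Subgroup.nilpotent_iff_lowerCentralSeries.2 ⟨1, ?_⟩
    rw [Subgroup.lowerCentralSeries_succ, Subgroup.lowerCentralSeries_zero, eq_bot_iff,
      Subgroup.commutator_le]
    intro x _ y _
    exact Subgroup.mem_bot.2 (commutatorElement_eq_one_iff_mul_comm.2 (hc x y))

end H60SH

end S_RESC
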